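import Mathlib

set_option autoImplicit false

/-!
Definitions for the non-uniqueness of weak solutions of the porous medium equation with
nonlocal pressure (MP_948e80_an, S05448), case `N = 2`, `m = 2`, `s = 3/4`.
-/

namespace Pool.Agent.H59.NPM

open MeasureTheory
open scoped ENNReal

/-- The plane. -/
abbrev E := EuclideanSpace ℝ (Fin 2)

/-- Convolution (in space) of a density with a vector kernel. -/
noncomputable def G (k : E → E) (u : E × ℝ → ℝ) (p : E × ℝ) : E :=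
  ∫ y : E, u (y, p.2) • k (p.1 - y)

/-- Convolution of `|u|` with `|k|`. -/
noncomputable def Psi (k : E → E) (u : E × ℝ → ℝ) (p : E × ℝ) : ℝ≥0∞ :=
  ∫⁻ y : E, ‖u (y, p.2)‖ₑ * ‖k (p.1 - y)‖ₑ

/-- The hypotheses on the vector kernel used in the convex integration. -/
structure Ker (k : E → E) : Prop where
  meas : Measurable k
  odd : ∀ x, k (-x) = - k x
  loc : ∀ R : ℝ, ∃ C : ℝ≥0∞, C < ⊤ ∧ ∀ x : E, ∫⁻ y in Metric.closedBall (0 : E) R, ‖k (x - y)‖ₑ ≤ C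
  block : ∀ (a : E) (ρ : ℝ), 0 < ρ → ∃ w : E → ℝ, Measurable w ∧ (∀ x, 0 ≤ w x) ∧ Integrable w ∧
    ∫ x, w x = 1 ∧ (∀ x, ρ ≤ ‖x‖ → w x = 0) ∧
    ∀ x, w x ≠ 0 → Integrable (fun y : E => w y • k (x - y)) ∧ ∫ y : E, w y • k (x - y) = -a

/-- Subsolutions (pairs density / flux) on `E × (0,T)` with initial density `u₀`. -/
structure Sub (T : ℝ) (u₀ : E → ℝ) (u : E × ℝ → ℝ) (F : E × ℝ → E) : Prop where
  measu : Measurable u
  measF : Measurable F
  nonneg : ∀ p, 0 ≤ u p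
  suppu : ∀ p : E × ℝ, p.2 ∉ Set.Ioo 0 T → u p = 0
  suppF : ∀ p : E × ℝ, p.2 ∉ Set.Ioo 0 T → F p = 0
  intu : Integrable u
  intF : Integrable F
  weak : ∀ φ : E × ℝ → ℝ, ContDiff ℝ 1 φ → HasCompactSupport φ →
    tsupport φ ⊆ {p : E × ℝ | p.2 < T} →
    (∫ p, u p * fderiv ℝ φ p ((0 : E), (1 : ℝ))) - (∫ p, fderiv ℝ φ p (F p, (0 : ℝ)))
      + (∫ x : E, u₀ x * φ (x, (0 : ℝ))) = 0

/-- Subsolutions that are locally bounded below and have an integrable product `u • G u`. -/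
structure St (k : E → E) (T : ℝ) (u₀ : E → ℝ) (u : E × ℝ → ℝ) (F : E × ℝ → E) : Prop
    extends Sub T u₀ u F where
  low : ∀ R : ℝ, ∃ c : ℝ, 0 < c ∧ ∀ p : E × ℝ, ‖p.1‖ ≤ R → p.2 ∈ Set.Ioo 0 T → c ≤ u p
  prod : Integrable (fun p => u p • G k u p)

/-- The defect of a subsolution. -/
noncomputable def D (k : E → E) (u : E × ℝ → ℝ) (F : E × ℝ → E) (p : E × ℝ) : E :=
  F p - u p • G k u p

end Pool.Agent.H59.NPM
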