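import Mathlib
import Pool.Agent.H59.NPM.Defs

set_option autoImplicit false

/-! Basic estimates for `G` and `Psi`. -/

namespace Pool.Agent.H59.NPM

open MeasureTheory
open scoped ENNReal

variable {k : E → E}

theorem vol_eq : (volume : Measure (E × ℝ)) = (volume : Measure E).prod (volume : Measure ℝ) := rfl

theorem Ker.enorm_neg (hk : Ker k) (x : E) : ‖k (-x)‖ₑ = ‖k x‖ₑ := by
  rw [hk.odd, _root_.enorm_neg]

theorem Ker.enorm_sub_comm (hk : Ker k) (x y : E) : ‖k (x - y)‖ₑ = ‖k (y - x)‖ₑ := by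
  rw [← neg_sub, hk.enorm_neg]

theorem Psi_measurable_aux (hk : Ker k) {u : E × ℝ → ℝ} (hu : Measurable u) :
    Measurable (fun z : (E × ℝ) × E => ‖u (z.2, z.1.2)‖ₑ * ‖k (z.1.1 - z.2)‖ₑ) := by
  have h1 : Measurable (fun z : (E × ℝ) × E => u (z.2, z.1.2)) := by fun_prop
  have h2 : Measurable (fun z : (E × ℝ) × E => k (z.1.1 - z.2)) := hk.meas.comp (by fun_prop)
  exact h1.enorm.mul h2.enorm

theorem Psi_measurable (hk : Ker k) {u : E × ℝ → ℝ} (hu : Measurable u) :
    Measurable (Psi k u) :=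
  (Psi_measurable_aux hk hu).lintegral_prod_right'

theorem G_stronglyMeasurable (hk : Ker k) {u : E × ℝ → ℝ} (hu : Measurable u) :
    StronglyMeasurable (G k u) := by
  have h1 : Measurable (fun z : (E × ℝ) × E => u (z.2, z.1.2)) := by fun_prop
  have h2 : Measurable (fun z : (E × ℝ) × E => k (z.1.1 - z.2)) := hk.meas.comp (by fun_prop)
  exact (h1.smul h2).stronglyMeasurable.integral_prod_right'

theorem G_measurable (hk : Ker k) {u : E × ℝ → ℝ} (hu : Measurable u) :
    Measurable (G k u) := (G_stronglyMeasurable hk hu).measurable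

theorem enorm_G_le (k : E → E) (u : E × ℝ → ℝ) (p : E × ℝ) : ‖G k u p‖ₑ ≤ Psi k u p := by
  refine (enorm_integral_le_lintegral_enorm _).trans (le_of_eq ?_)
  simp only [enorm_smul, Psi]

theorem integrable_of_Psi (hk : Ker k) {u : E × ℝ → ℝ} (hu : Measurable u) {p : E × ℝ}
    (h : Psi k u p < ⊤) : Integrable (fun y : E => u (y, p.2) • k (p.1 - y)) := by
  refine ⟨?_, ?_⟩
  · have h1 : Measurable (fun y : E => u (y, p.2)) := by fun_prop
    have h2 : Measurable (fun y : E => k (p.1 - y)) := hk.meas.comp (by fun_prop)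
    exact (h1.smul h2).aestronglyMeasurable
  · rw [HasFiniteIntegral]
    simpa only [enorm_smul, Psi] using h

theorem G_add (hk : Ker k) {u v : E × ℝ → ℝ} (hu : Measurable u) (hv : Measurable v) {p : E × ℝ}
    (h1 : Psi k u p < ⊤) (h2 : Psi k v p < ⊤) :
    G k (fun p => u p + v p) p = G k u p + G k v p := by
  simp only [G, add_smul]
  exact integral_add (integrable_of_Psi hk hu h1) (integrable_of_Psi hk hv h2)

/-- symmetry of the interaction -/
theorem lintegral_mul_Psi (hk : Ker k) {f g : E × ℝ → ℝ} (hf : Measurable f) (hg : Measurable g) :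
    ∫⁻ p, ‖f p‖ₑ * Psi k g p = ∫⁻ p, ‖g p‖ₑ * Psi k f p := by
  have key : ∀ {f g : E × ℝ → ℝ}, Measurable f → Measurable g →
      ∫⁻ p, ‖f p‖ₑ * Psi k g p =
        ∫⁻ t : ℝ, ∫⁻ x : E, ∫⁻ y : E, ‖f (x, t)‖ₑ * (‖g (y, t)‖ₑ * ‖k (x - y)‖ₑ) := by
    intro f g hf hg
    have hm : Measurable (fun p => ‖f p‖ₑ * Psi k g p) := hf.enorm.mul (Psi_measurable hk hg)
    rw [vol_eq, lintegral_prod_symm _ hm.aemeasurable]
    refine lintegral_congr fun t => lintegral_congr fun x => ?_
    rw [Psi, lintegral_const_mul]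
    have h1 : Measurable (fun y : E => g (y, t)) := by fun_prop
    have h2 : Measurable (fun y : E => k (x - y)) := hk.meas.comp (by fun_prop)
    exact h1.enorm.mul h2.enorm
  rw [key hf hg, key hg hf]
  refine lintegral_congr fun t => ?_
  have hm : Measurable (fun z : E × E => ‖f (z.1, t)‖ₑ * (‖g (z.2, t)‖ₑ * ‖k (z.1 - z.2)‖ₑ)) := by
    have h0 : Measurable (fun z : E × E => f (z.1, t)) := by fun_prop
    have h1 : Measurable (fun z : E × E => g (z.2, t)) := by fun_prop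
    have h2 : Measurable (fun z : E × E => k (z.1 - z.2)) := hk.meas.comp (by fun_prop)
    exact h0.enorm.mul (h1.enorm.mul h2.enorm)
  rw [lintegral_lintegral_swap hm.aemeasurable]
  refine lintegral_congr fun y => lintegral_congr fun x => ?_
  rw [hk.enorm_sub_comm x y]
  ring

/-- local integrability of `Psi` -/
theorem exists_lintegral_Psi_le (hk : Ker k) (R : ℝ) : ∃ C : ℝ≥0∞, C < ⊤ ∧
    ∀ u : E × ℝ → ℝ, Measurable u → ∀ I : Set ℝ, MeasurableSet I →
      ∫⁻ p in Metric.closedBall (0 : E) R ×ˢ I, Psi k u p ≤ C * ∫⁻ p, ‖u p‖ₑ := by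
  obtain ⟨C, hC, h⟩ := hk.loc R
  refine ⟨C, hC, fun u hu I hI => ?_⟩
  have hK : MeasurableSet (Metric.closedBall (0 : E) R) := Metric.isClosed_closedBall.measurableSet
  rw [vol_eq, ← Measure.prod_restrict, lintegral_prod_symm _ (Psi_measurable hk hu).aemeasurable]
  calc ∫⁻ t in I, ∫⁻ x in Metric.closedBall (0 : E) R, Psi k u (x, t)
      ≤ ∫⁻ t in I, C * ∫⁻ y : E, ‖u (y, t)‖ₑ := by
        refine lintegral_mono fun t => ?_
        simp only [Psi]
        have hm : Measurable (fun z : E × E => ‖u (z.2, t)‖ₑ * ‖k (z.1 - z.2)‖ₑ) := by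
          have h1 : Measurable (fun z : E × E => u (z.2, t)) := by fun_prop
          have h2 : Measurable (fun z : E × E => k (z.1 - z.2)) := hk.meas.comp (by fun_prop)
          exact h1.enorm.mul h2.enorm
        rw [lintegral_lintegral_swap hm.aemeasurable]
        have h3 : Measurable (fun y : E => u (y, t)) := by fun_prop
        rw [← lintegral_const_mul _ h3.enorm]
        refine lintegral_mono fun y => ?_
        rw [lintegral_const_mul]
        · rw [mul_comm]
          gcongr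
          calc ∫⁻ x in Metric.closedBall (0 : E) R, ‖k (x - y)‖ₑ
              = ∫⁻ x in Metric.closedBall (0 : E) R, ‖k (y - x)‖ₑ :=
                lintegral_congr fun x => hk.enorm_sub_comm x y
            _ ≤ C := h y
        · exact (hk.meas.comp (by fun_prop : Measurable fun x : E => x - y)).enorm
    _ ≤ ∫⁻ t, C * ∫⁻ y : E, ‖u (y, t)‖ₑ := setLIntegral_le_lintegral _ _
    _ = C * ∫⁻ t, ∫⁻ y : E, ‖u (y, t)‖ₑ := by
        rw [lintegral_const_mul]
        have : Measurable fun z : ℝ × E => ‖u (z.2, z.1)‖ₑ := by fun_prop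
        exact this.lintegral_prod_right'
    _ = C * ∫⁻ p, ‖u p‖ₑ ∂((volume : Measure E).prod (volume : Measure ℝ)) := by
        rw [lintegral_prod_symm _ hu.enorm.aemeasurable]

/-- `Psi` of a bounded compactly supported density is bounded -/
theorem exists_Psi_le (hk : Ker k) (R : ℝ) : ∃ C : ℝ≥0∞, C < ⊤ ∧
    ∀ (u : E × ℝ → ℝ) (δ : ℝ≥0∞), (∀ p, ‖u p‖ₑ ≤ δ) → (∀ p : E × ℝ, R < ‖p.1‖ → u p = 0) →
      ∀ p, Psi k u p ≤ δ * C := by
  obtain ⟨C, hC, h⟩ := hk.loc R
  refine ⟨C, hC, fun u δ hδ hsupp p => ?_⟩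
  rw [Psi, ← lintegral_add_compl _ (Metric.isClosed_closedBall (x := (0 : E)) (ε := R)).measurableSet]
  have h0 : ∫⁻ y in (Metric.closedBall (0 : E) R)ᶜ, ‖u (y, p.2)‖ₑ * ‖k (p.1 - y)‖ₑ = 0 := by
    rw [setLIntegral_congr_fun (Metric.isClosed_closedBall.measurableSet.compl)
      (g := fun _ => 0)]
    · simp
    · intro y hy
      have : R < ‖y‖ := by simpa using hy
      simp [hsupp (y, p.2) this]
  rw [h0, add_zero]
  calc ∫⁻ y in Metric.closedBall (0 : E) R, ‖u (y, p.2)‖ₑ * ‖k (p.1 - y)‖ₑ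
      ≤ ∫⁻ y in Metric.closedBall (0 : E) R, δ * ‖k (p.1 - y)‖ₑ := by
        refine lintegral_mono fun y => ?_
        gcongr
        exact hδ _
    _ = δ * ∫⁻ y in Metric.closedBall (0 : E) R, ‖k (p.1 - y)‖ₑ := by
        rw [lintegral_const_mul]
        exact (hk.meas.comp (by fun_prop : Measurable fun y : E => p.1 - y)).enorm
    _ ≤ δ * C := by gcongr; exact h _

theorem ae_Psi_lt_top (hk : Ker k) {u : E × ℝ → ℝ} (hu : Measurable u)
    (hint : ∫⁻ p, ‖u p‖ₑ < ⊤) : ∀ᵐ p, Psi k u p < ⊤ := by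
  have h1 : ∀ n : ℕ, ∀ᵐ p ∂(volume.restrict (Metric.closedBall (0 : E) n ×ˢ (Set.univ : Set ℝ))),
      Psi k u p < ⊤ := by
    intro n
    obtain ⟨C, hC, h⟩ := exists_lintegral_Psi_le hk (n : ℝ)
    refine ae_lt_top (Psi_measurable hk hu) ?_
    exact ((h u hu Set.univ MeasurableSet.univ).trans_lt (ENNReal.mul_lt_top hC hint)).ne
  have h2 : (⋃ n : ℕ, Metric.closedBall (0 : E) n ×ˢ (Set.univ : Set ℝ)) = Set.univ := by
    rw [Set.eq_univ_iff_forall]
    intro p
    obtain ⟨n, hn⟩ := exists_nat_ge ‖p.1‖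
    exact Set.mem_iUnion.2 ⟨n, by simpa using hn⟩
  rw [← Measure.restrict_univ (μ := (volume : Measure (E × ℝ))), ← h2, ae_restrict_iUnion_iff]
  exact h1

end Pool.Agent.H59.NPM
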