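import Mathlib
import Pool.Agent.H59.NPM.Defs
set_option autoImplicit false

/-!
Module BLOCK: self-propelled singular bubbles for the kernel `-kappa |x|^(-5/2) x` in the plane
(written by helper84).
-/

namespace Pool.Agent.H59.NPM.Bub

open MeasureTheory Metric Set Pool.Agent.H59.NPM
open scoped ENNReal

noncomputable section

abbrev sg : Measure (sphere (0 : E) 1) := (volume : Measure E).toSphere

lemma finrank_E : Module.finrank ℝ E = 2 := by simp [E]

lemma polar_lintegral (f : E → ℝ≥0∞) (hf : Measurable f) :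
    ∫⁻ x, f x = ∫⁻ θ : sphere (0 : E) 1, (∫⁻ r in Ioi (0 : ℝ), ENNReal.ofReal r * f (r • (θ : E))) ∂sg := by
  have hmp := (volume : Measure E).measurePreserving_homeomorphUnitSphereProd
  have h1 : ∫⁻ x, f x = ∫⁻ x : ({(0 : E)}ᶜ : Set E), f x ∂((volume : Measure E).comap (↑)) := by
    rw [lintegral_subtype_comap (measurableSet_singleton _).compl, restrict_compl_singleton]
  have h2 : ∫⁻ x : ({(0 : E)}ᶜ : Set E), f x ∂((volume : Measure E).comap (↑)) =
      ∫⁻ p, f (p.2.1 • p.1.1) ∂(sg.prod (Measure.volumeIoiPow (Module.finrank ℝ E - 1))) := by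
    rw [← hmp.lintegral_comp_emb (Homeomorph.measurableEmbedding _)]
    refine lintegral_congr (fun x => ?_)
    congr 1
    have hx : ‖(x : E)‖ ≠ 0 := norm_ne_zero_iff.mpr x.2
    simp [smul_smul, mul_inv_cancel₀ hx]
  rw [h1, h2, finrank_E, lintegral_prod]
  · refine lintegral_congr (fun θ => ?_)
    simp only
    rw [Measure.volumeIoiPow, lintegral_withDensity_eq_lintegral_mul]
    · simp only [Pi.mul_apply]
      rw [lintegral_subtype_comap measurableSet_Ioi (fun r : ℝ => ENNReal.ofReal (r ^ (2 - 1)) * f (r • (θ : E)))]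
      simp
    · fun_prop
    · exact hf.comp (by fun_prop)
  · exact (hf.comp (by fun_prop)).aemeasurable

lemma polar_aux {F : Type*} [NormedAddCommGroup F] [NormedSpace ℝ F] (f : E → F) (hf : Integrable f) :
    Integrable (fun p : sphere (0 : E) 1 × Ioi (0 : ℝ) => f (p.2.1 • p.1.1))
      (sg.prod (Measure.volumeIoiPow 1)) ∧
    ∫ x, f x = ∫ p, f (p.2.1 • p.1.1) ∂(sg.prod (Measure.volumeIoiPow 1)) := by
  have hmp := (volume : Measure E).measurePreserving_homeomorphUnitSphereProd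
  have h1 : ∫ x, f x = ∫ x : ({(0 : E)}ᶜ : Set E), f x ∂((volume : Measure E).comap (↑)) := by
    rw [integral_subtype_comap (measurableSet_singleton _).compl, restrict_compl_singleton]
  have hsymm : ∀ x : ({(0 : E)}ᶜ : Set E), f x = (fun p : sphere (0 : E) 1 × Ioi (0 : ℝ) => f (p.2.1 • p.1.1)) (homeomorphUnitSphereProd E x) := by
    intro x
    simp only
    congr 1
    have hx : ‖(x : E)‖ ≠ 0 := norm_ne_zero_iff.mpr x.2
    simp [smul_smul, mul_inv_cancel₀ hx]
  have h2 : ∫ x : ({(0 : E)}ᶜ : Set E), f x ∂((volume : Measure E).comap (↑)) =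
      ∫ p, f (p.2.1 • p.1.1) ∂(sg.prod (Measure.volumeIoiPow (Module.finrank ℝ E - 1))) := by
    rw [← hmp.integral_comp (Homeomorph.measurableEmbedding _)]
    exact integral_congr_ae (Filter.Eventually.of_forall hsymm)
  have h3 : Integrable (fun p : sphere (0 : E) 1 × Ioi (0 : ℝ) => f (p.2.1 • p.1.1))
      (sg.prod (Measure.volumeIoiPow (Module.finrank ℝ E - 1))) := by
    rw [← hmp.integrable_comp_emb (Homeomorph.measurableEmbedding _)]
    have : Integrable (fun x : ({(0 : E)}ᶜ : Set E) => f x) ((volume : Measure E).comap (↑)) := by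
      have h4 : IntegrableOn f ({(0 : E)}ᶜ) := hf.integrableOn
      rwa [integrableOn_iff_comap_subtypeVal (measurableSet_singleton _).compl] at h4
    exact this.congr (Filter.Eventually.of_forall hsymm)
  rw [finrank_E] at h2 h3
  exact ⟨h3, h1.trans h2⟩

lemma polar_ray {F : Type*} [NormedAddCommGroup F] [NormedSpace ℝ F] (f : E → F) (θ : sphere (0 : E) 1) :
    ∫ r : Ioi (0 : ℝ), f (r.1 • (θ : E)) ∂(Measure.volumeIoiPow 1) =
      ∫ r in Ioi (0 : ℝ), r • f (r • (θ : E)) := by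
  simp only [Measure.volumeIoiPow, ENNReal.ofReal]
  rw [integral_withDensity_eq_integral_smul,
    integral_subtype_comap measurableSet_Ioi (fun r : ℝ => Real.toNNReal (r ^ 1) • f (r • (θ : E)))]
  · refine setIntegral_congr_fun measurableSet_Ioi (fun r hr => ?_)
    rw [NNReal.smul_def, Real.coe_toNNReal _ (pow_nonneg (le_of_lt hr) _)]
    simp
  · exact (measurable_subtype_coe.pow_const _).real_toNNReal

lemma polar_integral {F : Type*} [NormedAddCommGroup F] [NormedSpace ℝ F] (f : E → F) (hf : Integrable f) :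
    ∫ x, f x = ∫ θ : sphere (0 : E) 1, (∫ r in Ioi (0 : ℝ), r • f (r • (θ : E))) ∂sg := by
  rw [(polar_aux f hf).2, integral_prod _ (polar_aux f hf).1]
  exact integral_congr_ae (Filter.Eventually.of_forall (fun θ => polar_ray f θ))

lemma polar_integrable {F : Type*} [NormedAddCommGroup F] [NormedSpace ℝ F] (f : E → F) (hf : Integrable f) :
    Integrable (fun θ : sphere (0 : E) 1 => ∫ r in Ioi (0 : ℝ), r • f (r • (θ : E))) sg :=
  (polar_aux f hf).1.integral_prod_left.congr (Filter.Eventually.of_forall (fun θ => polar_ray f θ))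

/-! ### One dimensional substitutions -/

lemma sub_deriv {b : ℝ} (hb : 0 < b) {u : ℝ} (hu : 0 < u) :
    HasDerivAt (fun u : ℝ => b / (1 + b * u)) (-(b / (1 + b * u)) ^ 2) u := by
  have h1 : (1 + b * u) ≠ 0 := by positivity
  have h2 : HasDerivAt (fun u : ℝ => 1 + b * u) b u := by
    simpa using ((hasDerivAt_id u).const_mul b).const_add 1
  have h3 := (hasDerivAt_const u b).div h2 h1
  convert! h3 using 1
  field_simp
  ring

lemma sub_inj {b : ℝ} (hb : 0 < b) : InjOn (fun u : ℝ => b / (1 + b * u)) (Ioi 0) := by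
  intro u hu v hv h
  rw [mem_Ioi] at hu hv
  simp only at h
  have h1 : (1 + b * u) ≠ 0 := by positivity
  have h2 : (1 + b * v) ≠ 0 := by positivity
  rw [div_eq_div_iff h1 h2] at h
  have h3 : b * (b * (u - v)) = 0 := by linarith
  have h4 : u - v = 0 := by
    rcases mul_eq_zero.mp h3 with h | h
    · exact absurd h hb.ne'
    · rcases mul_eq_zero.mp h with h | h
      · exact absurd h hb.ne'
      · exact h
  linarith

lemma sub_image {b : ℝ} (hb : 0 < b) : (fun u : ℝ => b / (1 + b * u)) '' (Ioi 0) = Ioo 0 b := by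
  ext r
  constructor
  · rintro ⟨u, hu, rfl⟩
    rw [mem_Ioi] at hu
    refine ⟨by positivity, ?_⟩
    rw [div_lt_iff₀ (by positivity)]
    have : 0 < b * (b * u) := by positivity
    nlinarith
  · rintro ⟨h0, h1⟩
    refine ⟨1 / r - 1 / b, ?_, ?_⟩
    · rw [mem_Ioi, sub_pos]
      exact one_div_lt_one_div_of_lt h0 h1
    · simp only
      have : 1 + b * (1 / r - 1 / b) = b / r := by
        field_simp
        ring
      rw [this]
      field_simp

lemma sub_integral {F : Type*} [NormedAddCommGroup F] [NormedSpace ℝ F] {b : ℝ} (hb : 0 < b) (g : ℝ → F) :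
    ∫ r in Ioo 0 b, g r = ∫ u in Ioi 0, (b / (1 + b * u)) ^ 2 • g (b / (1 + b * u)) := by
  rw [← sub_image hb, integral_image_eq_integral_abs_deriv_smul measurableSet_Ioi
    (fun u hu => (sub_deriv hb hu).hasDerivWithinAt) (sub_inj hb)]
  refine setIntegral_congr_fun measurableSet_Ioi (fun u hu => ?_)
  rw [abs_neg, abs_of_nonneg (by positivity)]

lemma sub_lintegral {b : ℝ} (hb : 0 < b) (g : ℝ → ℝ≥0∞) :
    ∫⁻ r in Ioo 0 b, g r = ∫⁻ u in Ioi 0, ENNReal.ofReal ((b / (1 + b * u)) ^ 2) * g (b / (1 + b * u)) := by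
  rw [← sub_image hb, lintegral_image_eq_lintegral_abs_deriv_mul measurableSet_Ioi
    (fun u hu => (sub_deriv hb hu).hasDerivWithinAt) (sub_inj hb)]
  refine setLIntegral_congr_fun measurableSet_Ioi (fun u hu => ?_)
  rw [abs_neg, abs_of_nonneg (by positivity)]

/-- the quadratic polynomial -/
def q (a b u : ℝ) : ℝ := u * (a + b + a * b * u)

lemma q_comm (a b u : ℝ) : q a b u = q b a u := by
  unfold q
  ring

lemma q_pos {a b u : ℝ} (ha : 0 < a) (hb : 0 < b) (hu : 0 < u) : 0 < q a b u := by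
  unfold q
  positivity

/-- radial density of order zero -/
def h0 (a b r : ℝ) : ℝ := r ^ (-(1 / 2) : ℝ) * ((b - r) * (r + a)) ^ (-(3 / 4) : ℝ)

/-- radial density of order one -/
def h1 (a b r : ℝ) : ℝ := r ^ (1 / 2 : ℝ) * ((b - r) * (r + a)) ^ (-(3 / 4) : ℝ)

lemma h1_eq {a b r : ℝ} (hr : 0 < r) : h1 a b r = r * h0 a b r := by
  unfold h0 h1
  rw [← mul_assoc]
  congr 1
  nth_rewrite 2 [← Real.rpow_one r]
  rw [← Real.rpow_add hr]
  norm_num

lemma h0_sub {a b u : ℝ} (ha : 0 < a) (hb : 0 < b) (hu : 0 < u) :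
    (b / (1 + b * u)) ^ 2 * h0 a b (b / (1 + b * u)) = q a b u ^ (-(3 / 4) : ℝ) := by
  have hr : 0 < b / (1 + b * u) := by positivity
  have hq := q_pos ha hb hu
  have h1 : (b - b / (1 + b * u)) * (b / (1 + b * u) + a) = (b / (1 + b * u)) ^ 2 * q a b u := by
    unfold q
    field_simp
    ring
  unfold h0
  rw [h1]
  set r := b / (1 + b * u) with hrdef
  rw [Real.mul_rpow (by positivity) hq.le, ← Real.rpow_natCast, ← Real.rpow_mul hr.le]
  have h2 : r ^ ((2 : ℕ) : ℝ) * (r ^ (-(1 / 2) : ℝ) * (r ^ (((2 : ℕ) : ℝ) * (-(3 / 4) : ℝ)) * q a b u ^ (-(3 / 4) : ℝ))) =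
      (r ^ ((2 : ℕ) : ℝ) * r ^ (-(1 / 2) : ℝ) * r ^ (((2 : ℕ) : ℝ) * (-(3 / 4) : ℝ))) * q a b u ^ (-(3 / 4) : ℝ) := by ring
  rw [h2, ← Real.rpow_add hr, ← Real.rpow_add hr]
  norm_num

/-- the bound of the radial integrals -/
lemma q_lower {a b u : ℝ} (ha : 0 < a) (hb : 0 < b) (hab : a * b ≤ 1) (hu : 0 < u) :
    (a * b) * (u * (1 + u)) ≤ q a b u := by
  have h2 : a * b ≤ a + b := by nlinarith [sq_nonneg (a - b), mul_pos ha hb, sq_nonneg (a+b-1)]
  unfold q
  nlinarith [mul_pos ha hb, mul_nonneg (sub_nonneg.mpr h2) hu.le]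

lemma base_lt_top : ∫⁻ u in Ioi (0 : ℝ), ENNReal.ofReal ((u * (1 + u)) ^ (-(3 / 4) : ℝ)) < ⊤ := by
  have hsplit : Ioi (0 : ℝ) = Ioc 0 1 ∪ Ioi 1 := (Ioc_union_Ioi_eq_Ioi zero_le_one).symm
  rw [hsplit, lintegral_union measurableSet_Ioi (by
    rw [Set.disjoint_left]
    intro x hx hx'
    exact absurd hx.2 (not_le.mpr hx'))]
  refine ENNReal.add_lt_top.mpr ⟨?_, ?_⟩
  · have h1 : IntegrableOn (fun u : ℝ => u ^ (-(3 / 4) : ℝ)) (Ioc 0 1) := by
      have := intervalIntegral.intervalIntegrable_rpow' (a := 0) (b := 1) (r := (-(3 / 4) : ℝ)) (by norm_num)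
      rwa [intervalIntegrable_iff_integrableOn_Ioc_of_le zero_le_one] at this
    refine lt_of_le_of_lt ?_ h1.2
    refine setLIntegral_mono' measurableSet_Ioc (fun u hu => ?_)
    rw [← ofReal_norm]
    apply ENNReal.ofReal_le_ofReal
    rw [Real.norm_of_nonneg (by have := hu.1; positivity)]
    refine Real.rpow_le_rpow_of_nonpos hu.1 ?_ (by norm_num)
    nlinarith [hu.1]
  · have h1 : IntegrableOn (fun u : ℝ => u ^ (-(3 / 2) : ℝ)) (Ioi 1) :=
      integrableOn_Ioi_rpow_of_lt (by norm_num) zero_lt_one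
    refine lt_of_le_of_lt ?_ h1.2
    refine setLIntegral_mono' measurableSet_Ioi (fun u hu => ?_)
    rw [mem_Ioi] at hu
    have hu0 : 0 < u := by linarith
    rw [← ofReal_norm]
    apply ENNReal.ofReal_le_ofReal
    rw [Real.norm_of_nonneg (by positivity)]
    have h2 : u ^ (-(3 / 2) : ℝ) = (u ^ 2) ^ (-(3 / 4) : ℝ) := by
      rw [← Real.rpow_natCast, ← Real.rpow_mul hu0.le]
      norm_num
    show (u * (1 + u)) ^ (-(3 / 4) : ℝ) ≤ u ^ (-(3 / 2) : ℝ)
    rw [h2]
    refine Real.rpow_le_rpow_of_nonpos (by positivity) ?_ (by norm_num)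
    nlinarith

/-- the finite constant -/
def MM : ℝ≥0∞ := ∫⁻ u in Ioi (0 : ℝ), ENNReal.ofReal ((u * (1 + u)) ^ (-(3 / 4) : ℝ))

lemma lint_q_le {a b : ℝ} (ha : 0 < a) (hb : 0 < b) (hab : a * b ≤ 1) :
    ∫⁻ u in Ioi (0 : ℝ), ENNReal.ofReal (q a b u ^ (-(3 / 4) : ℝ)) ≤ ENNReal.ofReal ((a * b) ^ (-(3 / 4) : ℝ)) * MM := by
  unfold MM
  rw [← lintegral_const_mul']
  · refine setLIntegral_mono' measurableSet_Ioi (fun u hu => ?_)
    rw [mem_Ioi] at hu
    rw [← ENNReal.ofReal_mul (by positivity)]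
    apply ENNReal.ofReal_le_ofReal
    rw [← Real.mul_rpow (by positivity) (by positivity)]
    exact Real.rpow_le_rpow_of_nonpos (by positivity) (q_lower ha hb hab hu) (by norm_num)
  · exact ENNReal.ofReal_ne_top

lemma lint_h0 {a b : ℝ} (ha : 0 < a) (hb : 0 < b) :
    ∫⁻ r in Ioo 0 b, ENNReal.ofReal (h0 a b r) = ∫⁻ u in Ioi (0 : ℝ), ENNReal.ofReal (q a b u ^ (-(3 / 4) : ℝ)) := by
  rw [sub_lintegral hb]
  refine setLIntegral_congr_fun measurableSet_Ioi (fun u hu => ?_)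
  rw [← ENNReal.ofReal_mul (by positivity), h0_sub ha hb hu]

/-- the radial integral -/
def Q (a b : ℝ) : ℝ := ∫ u in Ioi (0 : ℝ), q a b u ^ (-(3 / 4) : ℝ)

lemma Q_comm (a b : ℝ) : Q a b = Q b a := by
  unfold Q
  simp only [q_comm a b]

lemma int_h0 {a b : ℝ} (ha : 0 < a) (hb : 0 < b) : ∫ r in Ioo 0 b, h0 a b r = Q a b := by
  rw [sub_integral hb]
  unfold Q
  refine setIntegral_congr_fun measurableSet_Ioi (fun u hu => ?_)
  simp only [smul_eq_mul]
  rw [h0_sub ha hb hu]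

lemma continuous_q (a b : ℝ) : Continuous (q a b) := by
  unfold q
  fun_prop

lemma measurable_qr (a b : ℝ) : Measurable (fun u => q a b u ^ (-(3 / 4) : ℝ)) := by
  have := (continuous_q a b).measurable
  fun_prop

lemma integrableOn_q {a b : ℝ} (ha : 0 < a) (hb : 0 < b) (hab : a * b ≤ 1) :
    IntegrableOn (fun u => q a b u ^ (-(3 / 4) : ℝ)) (Ioi 0) := by
  refine ⟨(measurable_qr a b).aestronglyMeasurable, ?_⟩
  rw [hasFiniteIntegral_iff_enorm]
  have h1 : ∫⁻ u in Ioi (0 : ℝ), ‖q a b u ^ (-(3 / 4) : ℝ)‖ₑ = ∫⁻ u in Ioi (0 : ℝ), ENNReal.ofReal (q a b u ^ (-(3 / 4) : ℝ)) := by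
    refine setLIntegral_congr_fun measurableSet_Ioi (fun u hu => ?_)
    have := q_pos ha hb hu
    rw [← ofReal_norm, Real.norm_of_nonneg (by positivity)]
  rw [h1]
  refine lt_of_le_of_lt (lint_q_le ha hb hab) ?_
  exact ENNReal.mul_lt_top ENNReal.ofReal_lt_top base_lt_top

/-- the constant of the first order radial integrals -/
def C0 : ℝ := ∫ y in Ioi (0 : ℝ), y ^ (-(3 / 4) : ℝ) / (1 + y)

lemma int_h1 {a b : ℝ} (ha : 0 < a) (hb : 0 < b) :
    ∫ r in Ioo 0 b, h1 a b r = ∫ u in Ioi (0 : ℝ), b / (1 + b * u) * q a b u ^ (-(3 / 4) : ℝ) := by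
  rw [sub_integral hb]
  refine setIntegral_congr_fun measurableSet_Ioi (fun u hu => ?_)
  rw [mem_Ioi] at hu
  simp only [smul_eq_mul]
  rw [h1_eq (by positivity), ← h0_sub ha hb hu]
  ring

lemma integrableOn_h1_sub {a b c : ℝ} (ha : 0 < a) (hb : 0 < b) (hc : 0 < c) (hab : a * b ≤ 1) :
    IntegrableOn (fun u => c / (1 + c * u) * q a b u ^ (-(3 / 4) : ℝ)) (Ioi 0) := by
  have h1 := (integrableOn_q ha hb hab).const_mul c
  refine h1.mono' ?_ ?_
  · have := measurable_qr a b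
    exact (by fun_prop : Measurable (fun u => c / (1 + c * u) * q a b u ^ (-(3 / 4) : ℝ))).aestronglyMeasurable
  · rw [ae_restrict_iff' measurableSet_Ioi]
    refine Filter.Eventually.of_forall (fun u hu => ?_)
    rw [mem_Ioi] at hu
    have hq := q_pos ha hb hu
    rw [Real.norm_of_nonneg (by positivity)]
    refine mul_le_mul_of_nonneg_right ?_ (by positivity)
    rw [div_le_iff₀ (by positivity)]
    nlinarith [mul_pos hc (mul_pos hc hu)]

lemma q_deriv (a b u : ℝ) : HasDerivAt (q a b) (a + b + 2 * (a * b) * u) u := by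
  unfold q
  have h1 : HasDerivAt (fun u : ℝ => a + b + a * b * u) (a * b) u := by
    simpa using ((hasDerivAt_id u).const_mul (a * b)).const_add (a + b)
  have h2 := (hasDerivAt_id u).mul h1
  convert! h2 using 1
  simp only [id_eq]
  ring

lemma q_inj {a b : ℝ} (ha : 0 < a) (hb : 0 < b) : InjOn (q a b) (Ioi 0) := by
  intro u hu v hv h
  rw [mem_Ioi] at hu hv
  unfold q at h
  have h1 : (u - v) * (a + b + a * b * (u + v)) = 0 := by linarith
  rcases mul_eq_zero.mp h1 with h2 | h2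
  · linarith
  · have : 0 < a + b + a * b * (u + v) := by positivity
    exact absurd h2 this.ne'

lemma q_image {a b : ℝ} (ha : 0 < a) (hb : 0 < b) : q a b '' Ioi 0 = Ioi 0 := by
  ext y
  constructor
  · rintro ⟨u, hu, rfl⟩
    exact q_pos ha hb hu
  · intro hy
    rw [mem_Ioi] at hy
    have h1 : y ∈ Icc (q a b 0) (q a b (y / (a + b))) := by
      constructor
      · unfold q
        simpa using hy.le
      · unfold q
        have : y / (a + b) * (a + b + a * b * (y / (a + b))) = y + a * b * (y / (a + b)) ^ 2 := by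
          field_simp
        rw [this]
        have : 0 ≤ a * b * (y / (a + b)) ^ 2 := by positivity
        linarith
    obtain ⟨u, hu, huy⟩ := intermediate_value_Icc (by positivity) (continuous_q a b).continuousOn h1
    refine ⟨u, ?_, huy⟩
    rcases eq_or_lt_of_le hu.1 with h | h
    · rw [← h] at huy
      unfold q at huy
      simp at huy
      exact absurd huy hy.ne
    · exact h

lemma C0_key {a b u : ℝ} (ha : 0 < a) (hb : 0 < b) (hu : 0 < u) :
    |a + b + 2 * (a * b) * u| • (q a b u ^ (-(3 / 4) : ℝ) / (1 + q a b u)) =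
      b / (1 + b * u) * q a b u ^ (-(3 / 4) : ℝ) + a / (1 + a * u) * q a b u ^ (-(3 / 4) : ℝ) := by
  have hqp := q_pos ha hb hu
  simp only [smul_eq_mul]
  rw [abs_of_pos (by positivity)]
  have h1 : b / (1 + b * u) + a / (1 + a * u) = (a + b + 2 * (a * b) * u) / (1 + q a b u) := by
    have h2 : 1 + q a b u = (1 + b * u) * (1 + a * u) := by
      unfold q
      ring
    rw [h2]
    field_simp
    ring
  rw [← add_mul, h1]
  ring

lemma h1_sum {a b : ℝ} (ha : 0 < a) (hb : 0 < b) (hab : a * b ≤ 1) :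
    (∫ r in Ioo 0 b, h1 a b r) + (∫ r in Ioo 0 a, h1 b a r) = C0 := by
  rw [int_h1 ha hb, int_h1 hb ha]
  have hq : ∀ u, q b a u = q a b u := fun u => q_comm b a u
  simp only [hq]
  rw [← integral_add (integrableOn_h1_sub ha hb hb hab) (integrableOn_h1_sub ha hb ha hab)]
  unfold C0
  conv_rhs => rw [← q_image ha hb, integral_image_eq_integral_abs_deriv_smul measurableSet_Ioi
    (fun u hu => (q_deriv a b u).hasDerivWithinAt) (q_inj ha hb)]
  refine setIntegral_congr_fun measurableSet_Ioi (fun u hu => ?_)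
  exact (C0_key ha hb hu).symm

lemma C0_integrable : IntegrableOn (fun y : ℝ => y ^ (-(3 / 4) : ℝ) / (1 + y)) (Ioi 0) := by
  have h1 : (0 : ℝ) < 1 := zero_lt_one
  rw [← q_image h1 h1, integrableOn_image_iff_integrableOn_abs_deriv_smul measurableSet_Ioi
    (fun u hu => (q_deriv 1 1 u).hasDerivWithinAt) (q_inj h1 h1)]
  refine ((integrableOn_h1_sub h1 h1 h1 (by norm_num)).add
    (integrableOn_h1_sub h1 h1 h1 (by norm_num))).congr_fun ?_ measurableSet_Ioi
  intro u hu
  exact (C0_key h1 h1 hu).symm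

lemma C0_pos : 0 < C0 := by
  unfold C0
  rw [setIntegral_pos_iff_support_of_nonneg_ae _ C0_integrable]
  · have h1 : Ioi (0 : ℝ) ⊆ Function.support (fun y : ℝ => y ^ (-(3 / 4) : ℝ) / (1 + y)) := by
      intro y hy
      rw [mem_Ioi] at hy
      rw [Function.mem_support]
      positivity
    rw [inter_eq_right.mpr h1]
    simp
  · rw [Filter.EventuallyLE, ae_restrict_iff' measurableSet_Ioi]
    refine Filter.Eventually.of_forall (fun y hy => ?_)
    rw [mem_Ioi] at hy
    simp only [Pi.zero_apply]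
    positivity


/-! ### The bubble in the plane -/

/-- equilibrium density of the unit disc -/
def w0 (y : E) : ℝ := if ‖y‖ < 1 then (1 - ‖y‖ ^ 2) ^ (-(3 / 4) : ℝ) else 0

lemma w0_nonneg (y : E) : 0 ≤ w0 y := by
  unfold w0
  split_ifs with h
  · have : 0 ≤ 1 - ‖y‖ ^ 2 := by nlinarith [norm_nonneg y]
    positivity
  · exact le_rfl

lemma w0_ne {y : E} (h : w0 y ≠ 0) : ‖y‖ < 1 := by
  by_contra hc
  exact h (if_neg hc)

lemma measurable_w0 : Measurable w0 := by
  unfold w0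
  refine Measurable.ite (measurableSet_lt (by fun_prop) (by fun_prop)) (by fun_prop) (by fun_prop)

/-- the vector kernel -/
def Kv (z : E) : E := ‖z‖ ^ (-(5 / 2) : ℝ) • z

lemma measurable_Kv : Measurable Kv := by
  unfold Kv
  fun_prop

lemma Kv_neg (z : E) : Kv (-z) = - Kv z := by
  unfold Kv
  rw [norm_neg, smul_neg]

lemma Kv_ray {r : ℝ} (hr : 0 < r) (θ : sphere (0 : E) 1) : Kv (r • (θ : E)) = r ^ (-(3 / 2) : ℝ) • (θ : E) := by
  unfold Kv
  have h1 : ‖(θ : E)‖ = 1 := by simp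
  rw [norm_smul, h1, mul_one, Real.norm_of_nonneg hr.le, smul_smul]
  congr 1
  nth_rewrite 2 [← Real.rpow_one r]
  rw [← Real.rpow_add hr]
  norm_num

/-- the half chord -/
def ss (x θ : E) : ℝ := Real.sqrt (inner ℝ x θ ^ 2 + 1 - ‖x‖ ^ 2)

/-- forward distance to the circle -/
def bb (x θ : E) : ℝ := ss x θ - inner ℝ x θ

/-- backward distance to the circle -/
def aa (x θ : E) : ℝ := ss x θ + inner ℝ x θ

lemma ss_gt {x : E} (hx : ‖x‖ < 1) (θ : E) : |(inner ℝ x θ : ℝ)| < ss x θ := by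
  unfold ss
  apply Real.lt_sqrt_of_sq_lt
  rw [sq_abs]
  nlinarith [norm_nonneg x]

lemma bb_pos {x : E} (hx : ‖x‖ < 1) (θ : E) : 0 < bb x θ := by
  unfold bb
  have := ss_gt hx θ
  rw [abs_lt] at this
  linarith [this.2]

lemma aa_pos {x : E} (hx : ‖x‖ < 1) (θ : E) : 0 < aa x θ := by
  unfold aa
  have := ss_gt hx θ
  rw [abs_lt] at this
  linarith [this.1]

lemma ss_sq {x : E} (hx : ‖x‖ < 1) (θ : E) : ss x θ ^ 2 = inner ℝ x θ ^ 2 + 1 - ‖x‖ ^ 2 := by
  unfold ss
  rw [Real.sq_sqrt]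
  nlinarith [norm_nonneg x, sq_nonneg (inner ℝ x θ : ℝ)]

lemma aa_mul_bb {x : E} (hx : ‖x‖ < 1) (θ : E) : aa x θ * bb x θ = 1 - ‖x‖ ^ 2 := by
  have := ss_sq hx θ
  unfold aa bb
  linear_combination this

lemma aa_neg (x θ : E) : aa x (-θ) = bb x θ := by
  unfold aa bb ss
  rw [inner_neg_right]
  ring_nf

lemma bb_neg (x θ : E) : bb x (-θ) = aa x θ := by
  unfold aa bb ss
  rw [inner_neg_right]
  ring_nf

lemma one_sub_norm_sq {x : E} (hx : ‖x‖ < 1) {θ : E} (hθ : ‖θ‖ = 1) (r : ℝ) :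
    1 - ‖x + r • θ‖ ^ 2 = (bb x θ - r) * (r + aa x θ) := by
  have := ss_sq hx θ
  rw [norm_add_sq_real, inner_smul_right, norm_smul, hθ, mul_one, Real.norm_eq_abs, sq_abs]
  unfold aa bb
  linear_combination -this

lemma w0_ray {x : E} (hx : ‖x‖ < 1) {θ : E} (hθ : ‖θ‖ = 1) {r : ℝ} (hr : 0 < r) :
    w0 (x + r • θ) = if r < bb x θ then ((bb x θ - r) * (r + aa x θ)) ^ (-(3 / 4) : ℝ) else 0 := by
  unfold w0
  have h1 := one_sub_norm_sq hx hθ r
  have ha := aa_pos hx θ
  have hiff : ‖x + r • θ‖ < 1 ↔ r < bb x θ := by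
    constructor
    · intro h
      have h2 : 0 < (bb x θ - r) * (r + aa x θ) := by
        rw [← h1]
        nlinarith [norm_nonneg (x + r • θ)]
      have h3 : 0 < bb x θ - r := (pos_iff_pos_of_mul_pos h2).mpr (by linarith)
      linarith
    · intro h
      have h2 : 0 < (bb x θ - r) * (r + aa x θ) := mul_pos (by linarith) (by linarith)
      rw [← h1] at h2
      nlinarith [norm_nonneg (x + r • θ)]
  simp only [hiff, h1]

/-- the zeroth order integrand centred at `x` -/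
def f0 (x z : E) : E := w0 (x + z) • Kv z

/-- the first order integrand centred at `x` -/
def f1 (x v z : E) : E := (inner ℝ v z * w0 (x + z)) • Kv z

lemma measurable_f0 (x : E) : Measurable (f0 x) := by
  unfold f0
  have h1 := measurable_w0
  have h2 := measurable_Kv
  fun_prop

lemma measurable_f1 (x v : E) : Measurable (f1 x v) := by
  unfold f1
  have h1 := measurable_w0
  have h2 := measurable_Kv
  fun_prop

lemma norm_sphere (θ : sphere (0 : E) 1) : ‖(θ : E)‖ = 1 := by simp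

lemma f0_ray {x : E} (hx : ‖x‖ < 1) (θ : sphere (0 : E) 1) {r : ℝ} (hr : 0 < r) :
    r • f0 x (r • (θ : E)) = if r < bb x θ then h0 (aa x θ) (bb x θ) r • (θ : E) else 0 := by
  unfold f0
  rw [Kv_ray hr, w0_ray hx (norm_sphere θ) hr]
  split_ifs with h
  · rw [smul_smul, smul_smul]
    congr 1
    unfold h0
    have : r ^ (-(1 / 2) : ℝ) = r * r ^ (-(3 / 2) : ℝ) := by
      nth_rewrite 2 [← Real.rpow_one r]
      rw [← Real.rpow_add hr]
      norm_num
    rw [this]
    ring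
  · simp

lemma f1_ray {x : E} (hx : ‖x‖ < 1) (v : E) (θ : sphere (0 : E) 1) {r : ℝ} (hr : 0 < r) :
    r • f1 x v (r • (θ : E)) = if r < bb x θ then h1 (aa x θ) (bb x θ) r • ((inner ℝ v (θ : E) : ℝ) • (θ : E)) else 0 := by
  have e1 : f1 x v (r • (θ : E)) = (r * inner ℝ v (θ : E)) • f0 x (r • (θ : E)) := by
    unfold f1 f0
    rw [inner_smul_right, smul_smul]
  rw [e1, smul_comm, f0_ray hx θ hr]
  split_ifs with h
  · rw [h1_eq hr, smul_smul, smul_smul]
    congr 1
    ring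
  · simp

lemma int_f0_ray {x : E} (hx : ‖x‖ < 1) (θ : sphere (0 : E) 1) :
    ∫ r in Ioi (0 : ℝ), r • f0 x (r • (θ : E)) = Q (aa x θ) (bb x θ) • (θ : E) := by
  have h1 : ∫ r in Ioi (0 : ℝ), r • f0 x (r • (θ : E)) =
      ∫ r in Ioi (0 : ℝ), (Ioo 0 (bb x θ)).indicator (fun r => h0 (aa x θ) (bb x θ) r • (θ : E)) r := by
    refine setIntegral_congr_fun measurableSet_Ioi (fun r hr => ?_)
    rw [mem_Ioi] at hr
    rw [f0_ray hx θ hr]
    by_cases h : r < bb x θ
    · rw [if_pos h, indicator_of_mem (show r ∈ Ioo 0 (bb x θ) from ⟨hr, h⟩)]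
    · rw [if_neg h, indicator_of_notMem (fun h' => h h'.2)]
  rw [h1, setIntegral_indicator measurableSet_Ioo, inter_eq_right.mpr Ioo_subset_Ioi_self,
    integral_smul_const, int_h0 (aa_pos hx _) (bb_pos hx _)]

lemma int_f1_ray {x : E} (hx : ‖x‖ < 1) (v : E) (θ : sphere (0 : E) 1) :
    ∫ r in Ioi (0 : ℝ), r • f1 x v (r • (θ : E)) =
      (∫ r in Ioo 0 (bb x θ), h1 (aa x θ) (bb x θ) r) • ((inner ℝ v (θ : E) : ℝ) • (θ : E)) := by
  have e1 : ∫ r in Ioi (0 : ℝ), r • f1 x v (r • (θ : E)) =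
      ∫ r in Ioi (0 : ℝ), (Ioo 0 (bb x θ)).indicator (fun r => h1 (aa x θ) (bb x θ) r • ((inner ℝ v (θ : E) : ℝ) • (θ : E))) r := by
    refine setIntegral_congr_fun measurableSet_Ioi (fun r hr => ?_)
    rw [mem_Ioi] at hr
    rw [f1_ray hx v θ hr]
    by_cases h : r < bb x θ
    · rw [if_pos h, indicator_of_mem (show r ∈ Ioo 0 (bb x θ) from ⟨hr, h⟩)]
    · rw [if_neg h, indicator_of_notMem (fun h' => h h'.2)]
  rw [e1, setIntegral_indicator measurableSet_Ioo, inter_eq_right.mpr Ioo_subset_Ioi_self,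
    integral_smul_const]

lemma lint_f0_ray {x : E} (hx : ‖x‖ < 1) (θ : sphere (0 : E) 1) :
    ∫⁻ r in Ioi (0 : ℝ), ENNReal.ofReal r * ‖f0 x (r • (θ : E))‖ₑ ≤
      ENNReal.ofReal ((1 - ‖x‖ ^ 2) ^ (-(3 / 4) : ℝ)) * MM := by
  have ha := aa_pos hx θ
  have hb := bb_pos hx θ
  have e1 : ∫⁻ r in Ioi (0 : ℝ), ENNReal.ofReal r * ‖f0 x (r • (θ : E))‖ₑ =
      ∫⁻ r in Ioi (0 : ℝ), (Ioo 0 (bb x θ)).indicator (fun r => ENNReal.ofReal (h0 (aa x θ) (bb x θ) r)) r := by
    refine setLIntegral_congr_fun measurableSet_Ioi (fun r hr => ?_)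
    rw [mem_Ioi] at hr
    have e2 : ENNReal.ofReal r * ‖f0 x (r • (θ : E))‖ₑ = ‖r • f0 x (r • (θ : E))‖ₑ := by
      rw [enorm_smul]
      congr 1
      rw [← ofReal_norm, Real.norm_of_nonneg hr.le]
    rw [e2, f0_ray hx θ hr]
    by_cases h : r < bb x θ
    · rw [if_pos h, indicator_of_mem (show r ∈ Ioo 0 (bb x θ) from ⟨hr, h⟩), ← ofReal_norm, norm_smul,
        norm_sphere, mul_one, Real.norm_of_nonneg]
      unfold h0
      have : 0 ≤ (bb x θ - r) * (r + aa x θ) := mul_nonneg (by linarith) (by linarith)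
      positivity
    · rw [if_neg h, indicator_of_notMem (fun h' => h h'.2)]
      simp
  rw [e1, setLIntegral_indicator measurableSet_Ioo, inter_eq_left.mpr Ioo_subset_Ioi_self,
    lint_h0 ha hb]
  have hab : aa x θ * bb x θ ≤ 1 := by
    rw [aa_mul_bb hx]
    nlinarith [norm_nonneg x]
  have := lint_q_le ha hb hab
  rwa [aa_mul_bb hx] at this

lemma integrable_f0 {x : E} (hx : ‖x‖ < 1) : Integrable (f0 x) := by
  refine ⟨(measurable_f0 x).aestronglyMeasurable, ?_⟩
  rw [hasFiniteIntegral_iff_enorm, polar_lintegral _ (measurable_f0 x).enorm]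
  refine lt_of_le_of_lt (lintegral_mono (fun θ => lint_f0_ray hx θ)) ?_
  rw [lintegral_const]
  exact ENNReal.mul_lt_top (ENNReal.mul_lt_top ENNReal.ofReal_lt_top base_lt_top) (measure_lt_top _ _)

lemma norm_f1_le {x : E} (hx : ‖x‖ < 1) (v z : E) : ‖f1 x v z‖ ≤ 2 * ‖v‖ * ‖f0 x z‖ := by
  have e1 : f1 x v z = (inner ℝ v z : ℝ) • f0 x z := by
    unfold f1 f0
    rw [smul_smul]
  by_cases h : w0 (x + z) = 0
  · unfold f1 f0
    rw [h]
    simp
  · have h2 := w0_ne h
    have h3 : ‖z‖ ≤ 2 := by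
      have : z = (x + z) - x := by abel
      rw [this]
      exact (norm_sub_le _ _).trans (by linarith)
    rw [e1, norm_smul]
    refine mul_le_mul_of_nonneg_right ?_ (norm_nonneg _)
    refine (norm_inner_le_norm v z).trans ?_
    nlinarith [norm_nonneg v]

lemma integrable_f1 {x : E} (hx : ‖x‖ < 1) (v : E) : Integrable (f1 x v) :=
  ((integrable_f0 hx).norm.const_mul (2 * ‖v‖)).mono' (measurable_f1 x v).aestronglyMeasurable
    (Filter.Eventually.of_forall (fun z => norm_f1_le hx v z))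

/-- symmetrised polar coordinates -/
lemma sym_polar {f : E → E} (hf : Integrable f) :
    ∫ z, f z = (1 / 2 : ℝ) • ∫ θ : sphere (0 : E) 1, ((∫ r in Ioi (0 : ℝ), r • f (r • (θ : E))) +
      ∫ r in Ioi (0 : ℝ), r • f (r • ((-θ : sphere (0 : E) 1) : E))) ∂sg := by
  have hf' : Integrable (fun z => f (-z)) := hf.comp_neg
  have h1 := polar_integral f hf
  have h2 := polar_integral (fun z => f (-z)) hf'
  rw [integral_neg_eq_self] at h2
  have h3 := polar_integrable f hf
  have h4 := polar_integrable (fun z => f (-z)) hf'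
  have e : ∀ θ : sphere (0 : E) 1, (∫ r in Ioi (0 : ℝ), r • f (r • ((-θ : sphere (0 : E) 1) : E))) =
      ∫ r in Ioi (0 : ℝ), r • f (-(r • (θ : E))) := by
    intro θ
    simp only [coe_neg_sphere, smul_neg]
  simp only [e]
  rw [integral_add h3 h4, ← h1, ← h2, ← two_smul ℝ, smul_smul]
  norm_num

lemma int_f0 {x : E} (hx : ‖x‖ < 1) : ∫ z, f0 x z = 0 := by
  rw [sym_polar (integrable_f0 hx)]
  have : ∀ θ : sphere (0 : E) 1, ((∫ r in Ioi (0 : ℝ), r • f0 x (r • (θ : E))) +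
      ∫ r in Ioi (0 : ℝ), r • f0 x (r • ((-θ : sphere (0 : E) 1) : E))) = 0 := by
    intro θ
    rw [int_f0_ray hx, int_f0_ray hx, coe_neg_sphere, aa_neg, bb_neg, Q_comm, smul_neg, add_neg_cancel]
  simp only [this]
  simp

/-- the linear response of the dipole -/
def AA (v : E) : E := (C0 / 2) • ∫ θ : sphere (0 : E) 1, (inner ℝ v (θ : E) : ℝ) • (θ : E) ∂sg

lemma int_f1 {x : E} (hx : ‖x‖ < 1) (v : E) : ∫ z, f1 x v z = AA v := by
  rw [sym_polar (integrable_f1 hx v)]
  have : ∀ θ : sphere (0 : E) 1, ((∫ r in Ioi (0 : ℝ), r • f1 x v (r • (θ : E))) +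
      ∫ r in Ioi (0 : ℝ), r • f1 x v (r • ((-θ : sphere (0 : E) 1) : E))) =
        C0 • ((inner ℝ v (θ : E) : ℝ) • (θ : E)) := by
    intro θ
    have hab : aa x θ * bb x θ ≤ 1 := by
      rw [aa_mul_bb hx]
      nlinarith [norm_nonneg x]
    rw [int_f1_ray hx, int_f1_ray hx, coe_neg_sphere, aa_neg, bb_neg, inner_neg_right, smul_neg, neg_smul, neg_neg,
      ← add_smul, h1_sum (aa_pos hx _) (bb_pos hx _) hab]
  simp only [this]
  rw [integral_smul, smul_smul]
  unfold AA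
  congr 1
  ring

lemma AA_integrable (v : E) : Integrable (fun θ : sphere (0 : E) 1 => (inner ℝ v (θ : E) : ℝ) • (θ : E)) sg := by
  have hc : Continuous (fun θ : sphere (0 : E) 1 => (inner ℝ v (θ : E) : ℝ) • (θ : E)) := by fun_prop
  exact hc.integrable_of_hasCompactSupport (HasCompactSupport.of_compactSpace _)

lemma AA_add (v w : E) : AA (v + w) = AA v + AA w := by
  unfold AA
  rw [← smul_add, ← integral_add (AA_integrable v) (AA_integrable w)]
  simp only [inner_add_left, add_smul]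

lemma AA_smul (c : ℝ) (v : E) : AA (c • v) = c • AA v := by
  unfold AA
  have e : ∀ θ : sphere (0 : E) 1, (inner ℝ (c • v) (θ : E) : ℝ) • (θ : E) = c • ((inner ℝ v (θ : E) : ℝ) • (θ : E)) := by
    intro θ
    rw [real_inner_smul_left, smul_smul]
  simp only [e]
  rw [integral_smul, smul_comm]

lemma AA_inner_pos {v : E} (hv : v ≠ 0) : 0 < (inner ℝ v (AA v) : ℝ) := by
  unfold AA
  rw [inner_smul_right, ← integral_inner (AA_integrable v) v]
  simp only [inner_smul_right]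
  have hC := C0_pos
  refine mul_pos (by positivity) ?_
  have hc : Continuous (fun θ : sphere (0 : E) 1 => (inner ℝ v (θ : E) : ℝ) * (inner ℝ v (θ : E) : ℝ)) := by fun_prop
  have hn : ‖v‖ ≠ 0 := norm_ne_zero_iff.mpr hv
  refine hc.integral_pos_of_hasCompactSupport_nonneg_nonzero (HasCompactSupport.of_compactSpace _)
    (fun θ => mul_self_nonneg _) (x := ⟨‖v‖⁻¹ • v, by simp [norm_smul, hn]⟩) ?_
  simp only [inner_smul_right, real_inner_self_eq_norm_sq]
  positivity

/-- the response as a linear map -/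
def AAl : E →ₗ[ℝ] E where
  toFun := AA
  map_add' := AA_add
  map_smul' := AA_smul

lemma AA_surj (a : E) : ∃ v, AA v = a := by
  have hinj : Function.Injective AAl := by
    rw [← LinearMap.ker_eq_bot, LinearMap.ker_eq_bot']
    intro v hv
    by_contra hne
    have h1 := AA_inner_pos hne
    have h2 : AA v = 0 := hv
    rw [h2, inner_zero_right] at h1
    exact lt_irrefl _ h1
  exact LinearMap.injective_iff_surjective.mp hinj a


/-! ### The normalised bubble -/

lemma integrable_w0 : Integrable w0 := by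
  have h := integrable_f0 (x := 0) (by simp)
  refine h.mono measurable_w0.aestronglyMeasurable ?_
  have h0 : ∀ᵐ z : E, z ≠ 0 := by
    rw [ae_iff]
    simp
  filter_upwards [h0] with z hz
  unfold f0 Kv
  rw [zero_add, norm_smul, norm_smul]
  by_cases hw : w0 z = 0
  · rw [hw]
    simp
  · have h1 := w0_ne hw
    have h2 : 0 < ‖z‖ := norm_pos_iff.mpr hz
    rw [Real.norm_of_nonneg (by positivity : 0 ≤ ‖z‖ ^ (-(5 / 2) : ℝ))]
    have h3 : ‖z‖ ^ (-(5 / 2) : ℝ) * ‖z‖ = ‖z‖ ^ (-(3 / 2) : ℝ) := by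
      nth_rewrite 2 [← Real.rpow_one ‖z‖]
      rw [← Real.rpow_add h2]
      norm_num
    rw [h3]
    have h4 : 1 ≤ ‖z‖ ^ (-(3 / 2) : ℝ) := Real.one_le_rpow_of_pos_of_le_one_of_nonpos h2 h1.le (by norm_num)
    nlinarith [norm_nonneg (w0 z)]

lemma int_w0_pos : 0 < ∫ y, w0 y := by
  rw [integral_pos_iff_support_of_nonneg w0_nonneg integrable_w0]
  have h1 : ball (0 : E) 1 ⊆ Function.support w0 := by
    intro y hy
    rw [mem_ball_zero_iff] at hy
    rw [Function.mem_support]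
    unfold w0
    rw [if_pos hy]
    have : 0 < 1 - ‖y‖ ^ 2 := by nlinarith [norm_nonneg y]
    positivity
  exact lt_of_lt_of_le (measure_ball_pos _ _ one_pos) (measure_mono h1)

lemma integrable_inner_w0 (v : E) : Integrable (fun y => (inner ℝ v y : ℝ) * w0 y) := by
  refine (integrable_w0.norm.const_mul ‖v‖).mono' ?_ ?_
  · have := measurable_w0
    exact (by fun_prop : Measurable (fun y => (inner ℝ v y : ℝ) * w0 y)).aestronglyMeasurable
  · refine Filter.Eventually.of_forall (fun y => ?_)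
    by_cases hw : w0 y = 0
    · simp [hw]
    · have h1 := w0_ne hw
      rw [norm_mul]
      refine mul_le_mul_of_nonneg_right ?_ (norm_nonneg _)
      refine (norm_inner_le_norm v y).trans ?_
      nlinarith [norm_nonneg v]

lemma w0_neg (y : E) : w0 (-y) = w0 y := by
  unfold w0
  rw [norm_neg]

lemma int_inner_w0 (v : E) : ∫ y, (inner ℝ v y : ℝ) * w0 y = 0 := by
  have h := integral_neg_eq_self (fun y : E => (inner ℝ v y : ℝ) * w0 y) volume
  simp only [inner_neg_right, w0_neg, neg_mul] at h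
  rw [integral_neg] at h
  linarith

/-- the bubble with dipole `v` -/
def wv (v y : E) : ℝ := (1 + inner ℝ v y) * w0 y

lemma measurable_wv (v : E) : Measurable (wv v) := by
  unfold wv
  have := measurable_w0
  fun_prop

lemma wv_nonneg {v : E} (hv : ‖v‖ ≤ 1) (y : E) : 0 ≤ wv v y := by
  unfold wv
  by_cases hw : w0 y = 0
  · simp [hw]
  · have h1 := w0_ne hw
    refine mul_nonneg ?_ (w0_nonneg y)
    have h2 := norm_inner_le_norm (𝕜 := ℝ) v y
    rw [Real.norm_eq_abs] at h2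
    have h3 := neg_abs_le (inner ℝ v y : ℝ)
    nlinarith [norm_nonneg v, norm_nonneg y]

lemma wv_ne {v y : E} (h : wv v y ≠ 0) : ‖y‖ < 1 := w0_ne (right_ne_zero_of_mul h)

lemma wv_eq (v y : E) : wv v y = w0 y + inner ℝ v y * w0 y := by
  unfold wv
  ring

lemma integrable_wv (v : E) : Integrable (wv v) := by
  have : wv v = fun y => w0 y + inner ℝ v y * w0 y := funext (wv_eq v)
  rw [this]
  exact integrable_w0.add (integrable_inner_w0 v)

lemma int_wv (v : E) : ∫ y, wv v y = ∫ y, w0 y := by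
  have : wv v = fun y => w0 y + inner ℝ v y * w0 y := funext (wv_eq v)
  rw [this, integral_add integrable_w0 (integrable_inner_w0 v), int_inner_w0, add_zero]

lemma conv_eq (v x z : E) : wv v (x + z) • Kv (-z) = (-(1 + inner ℝ v x) : ℝ) • f0 x z - f1 x v z := by
  unfold wv f0 f1
  rw [Kv_neg, inner_add_right, smul_neg, smul_smul, ← neg_smul, ← sub_smul]
  congr 1
  ring

lemma conv_integrable {x : E} (hx : ‖x‖ < 1) (v : E) : Integrable (fun y => wv v y • Kv (x - y)) := by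
  have h1 : Integrable (fun z => wv v (x + z) • Kv (-z)) := by
    simp only [conv_eq]
    exact ((integrable_f0 hx).smul (-(1 + inner ℝ v x) : ℝ)).sub (integrable_f1 hx v)
  have h3 := h1.comp_add_left (-x)
  refine h3.congr (Filter.Eventually.of_forall (fun y => ?_))
  simp only
  rw [show x + (-x + y) = y by abel, show -(-x + y) = x - y by abel]

lemma conv_integral {x : E} (hx : ‖x‖ < 1) (v : E) : ∫ y, wv v y • Kv (x - y) = - AA v := by
  have h1 := integral_add_left_eq_self (μ := (volume : Measure E)) (fun y => wv v y • Kv (x - y)) x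
  rw [← h1]
  have h2 : ∀ z : E, wv v (x + z) • Kv (x - (x + z)) = (-(1 + inner ℝ v x) : ℝ) • f0 x z - f1 x v z := by
    intro z
    rw [show x - (x + z) = -z by abel, conv_eq]
  simp only [h2]
  have h3 := integral_sub (f := fun z => (-(1 + inner ℝ v x) : ℝ) • f0 x z) (g := f1 x v)
    ((integrable_f0 hx).smul (-(1 + inner ℝ v x) : ℝ)) (integrable_f1 hx v)
  rw [h3, integral_smul, int_f0 hx, int_f1 hx, smul_zero, zero_sub]

/-- Self-propelled singular bubbles for the kernel `-κ |x|^{-5/2} x`. -/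
theorem block (κ : ℝ) (hκ : 0 < κ) (a : E) (ρ : ℝ) (hρ : 0 < ρ) :
    ∃ w : E → ℝ, Measurable w ∧ (∀ x, 0 ≤ w x) ∧ Integrable w ∧
    ∫ x, w x = 1 ∧ (∀ x, ρ ≤ ‖x‖ → w x = 0) ∧
    ∀ x, w x ≠ 0 → Integrable (fun y : E => w y • ((-κ * ‖x - y‖ ^ (-(5 / 2) : ℝ)) • (x - y))) ∧
      ∫ y : E, w y • ((-κ * ‖x - y‖ ^ (-(5 / 2) : ℝ)) • (x - y)) = -a := by
  obtain ⟨v, hv⟩ := AA_surj a
  set I := ∫ y, w0 y with hI
  have hIpos : 0 < I := int_w0_pos
  -- the radius
  obtain ⟨s, hs0, hsρ, hsv⟩ : ∃ s : ℝ, 0 < s ∧ s ≤ ρ ∧ s ^ (3 / 2 : ℝ) * (I / κ * ‖v‖) ≤ 1 := by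
    set c := I / κ * ‖v‖ with hc
    have hc0 : 0 ≤ c := by positivity
    refine ⟨min ρ (1 / (c + 1)), lt_min hρ (by positivity), min_le_left _ _, ?_⟩
    set s := min ρ (1 / (c + 1)) with hs
    have hs0 : 0 < s := lt_min hρ (by positivity)
    have h1 : s ≤ 1 / (c + 1) := min_le_right _ _
    have h2 : s ≤ 1 := h1.trans (by rw [div_le_one (by positivity)]; linarith)
    have h3 : s ^ (3 / 2 : ℝ) ≤ s := by
      calc s ^ (3 / 2 : ℝ) ≤ s ^ (1 : ℝ) := Real.rpow_le_rpow_of_exponent_ge hs0 h2 (by norm_num)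
        _ = s := Real.rpow_one s
    calc s ^ (3 / 2 : ℝ) * c ≤ 1 / (c + 1) * c := mul_le_mul_of_nonneg_right (h3.trans h1) hc0
      _ ≤ 1 := by
        rw [one_div, inv_mul_le_iff₀ (by positivity)]
        linarith
  -- the dipole
  set v' : E := (-(s ^ (3 / 2 : ℝ) * (I / κ))) • v with hv'
  have hv'norm : ‖v'‖ ≤ 1 := by
    rw [hv', norm_smul, norm_neg, Real.norm_of_nonneg (by positivity), mul_assoc]
    exact hsv
  have hAv' : AA v' = (-(s ^ (3 / 2 : ℝ) * (I / κ))) • a := by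
    rw [hv', AA_smul, hv]
  have hsi : s⁻¹ ≠ 0 := inv_ne_zero hs0.ne'
  have hfac : |((s⁻¹) ^ 2)⁻¹| = s ^ 2 := by
    rw [inv_pow, inv_inv, abs_of_pos (by positivity)]
  refine ⟨fun y => (I⁻¹ * (s⁻¹) ^ 2) * wv v' (s⁻¹ • y), ?_, ?_, ?_, ?_, ?_, ?_⟩
  · have := measurable_wv v'
    fun_prop
  · intro x
    have := wv_nonneg hv'norm (s⁻¹ • x)
    positivity
  · exact ((integrable_wv v').comp_smul hsi).const_mul _
  · rw [integral_const_mul, Measure.integral_comp_smul, finrank_E, hfac, int_wv, smul_eq_mul, ← hI]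
    field_simp
  · intro x hx
    by_contra hne
    have h1 := wv_ne (right_ne_zero_of_mul hne)
    rw [norm_smul, norm_inv, Real.norm_of_nonneg hs0.le, inv_mul_lt_iff₀ hs0] at h1
    linarith
  · intro x hx
    have h1 := wv_ne (right_ne_zero_of_mul hx)
    have hker : ∀ y : E, ((-κ * ‖x - y‖ ^ (-(5 / 2) : ℝ)) • (x - y)) = (-κ * s ^ (-(3 / 2) : ℝ)) • Kv (s⁻¹ • x - s⁻¹ • y) := by
      intro y
      unfold Kv
      rw [← smul_sub, norm_smul, norm_inv, Real.norm_of_nonneg hs0.le, smul_smul, smul_smul]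
      congr 1
      rw [Real.mul_rpow (by positivity) (by positivity), Real.inv_rpow hs0.le, ← Real.rpow_neg hs0.le]
      have h3 : s ^ (-(3 / 2) : ℝ) * s ^ (-(-(5 / 2)) : ℝ) * s⁻¹ = 1 := by
        rw [← Real.rpow_neg_one s, ← Real.rpow_add hs0, ← Real.rpow_add hs0]
        norm_num
      calc -κ * ‖x - y‖ ^ (-(5 / 2) : ℝ) = -κ * ‖x - y‖ ^ (-(5 / 2) : ℝ) * (s ^ (-(3 / 2) : ℝ) * s ^ (-(-(5 / 2)) : ℝ) * s⁻¹) := by
            rw [h3, mul_one]
        _ = _ := by ring
    have hint : (fun y : E => (I⁻¹ * (s⁻¹) ^ 2 * wv v' (s⁻¹ • y)) • ((-κ * ‖x - y‖ ^ (-(5 / 2) : ℝ)) • (x - y))) =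
        fun y : E => (I⁻¹ * (s⁻¹) ^ 2 * (-κ * s ^ (-(3 / 2) : ℝ))) • (fun y' : E => wv v' y' • Kv (s⁻¹ • x - y')) (s⁻¹ • y) := by
      funext y
      rw [hker y]
      simp only [smul_smul]
      congr 1
      ring
    rw [hint]
    refine ⟨((conv_integrable h1 v').comp_smul hsi).smul (I⁻¹ * (s⁻¹) ^ 2 * (-κ * s ^ (-(3 / 2) : ℝ))), ?_⟩
    have hcs := Measure.integral_comp_smul (volume : Measure E) (fun y' => wv v' y' • Kv (s⁻¹ • x - y')) s⁻¹
    rw [integral_smul, hcs, finrank_E, hfac, conv_integral h1, hAv', smul_neg, smul_neg,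
      smul_smul, smul_smul, ← neg_smul]
    have h4 : -(I⁻¹ * (s⁻¹) ^ 2 * (-κ * s ^ (-(3 / 2) : ℝ)) * s ^ 2 * -(s ^ (3 / 2 : ℝ) * (I / κ))) = -1 := by
      have h5 : s ^ (-(3 / 2) : ℝ) * s ^ (3 / 2 : ℝ) = 1 := by
        rw [← Real.rpow_add hs0]
        norm_num
      have h6 : (s⁻¹) ^ 2 * s ^ 2 = 1 := by
        field_simp
      have h7 : I⁻¹ * κ * (I / κ) = 1 := by
        field_simp
      calc -(I⁻¹ * (s⁻¹) ^ 2 * (-κ * s ^ (-(3 / 2) : ℝ)) * s ^ 2 * -(s ^ (3 / 2 : ℝ) * (I / κ)))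
          = -((I⁻¹ * κ * (I / κ)) * ((s⁻¹) ^ 2 * s ^ 2) * (s ^ (-(3 / 2) : ℝ) * s ^ (3 / 2 : ℝ))) := by ring
        _ = -1 := by rw [h5, h6, h7]; norm_num
    rw [h4, neg_smul, one_smul]

end

end Pool.Agent.H59.NPM.Bub
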