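import Mathlib
import Pool.Agent.H59.NPM.Defs

set_option autoImplicit false

/-! Square cells and the flux of a translated cell. -/

namespace Pool.Agent.H59.NPM

open MeasureTheory Set
open scoped ENNReal

/-- The square `[0,q)²`. -/
def sq (q : ℝ) : Set E := {y | ∀ j, 0 ≤ y j ∧ y j < q}

/-- The normalised indicator function of the square `[0,q)²`. -/
noncomputable def chi (q : ℝ) (x : E) : ℝ := (sq q).indicator (fun _ => (q ^ 2)⁻¹) x

/-- Density of the flux which moves the cell `z + [0,q)²` to the cell `z + h + [0,q)²`. -/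
noncomputable def seg (q : ℝ) (z h : E) (x : E) : ℝ := ∫ r in Ioo (0:ℝ) 1, chi q (x - z - r • h)

/-- Lower left corner of a cell of the grid `q ℤ²`. -/
noncomputable def pt (q : ℝ) (c : ℤ × ℤ) : E := !₂[q * (c.1 : ℝ), q * (c.2 : ℝ)]

/-- A square box of cells. -/
noncomputable def box (N : ℕ) : Finset (ℤ × ℤ) := Finset.Icc (-(N:ℤ)) N ×ˢ Finset.Icc (-(N:ℤ)) N

end Pool.Agent.H59.NPM
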