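import Mathlib
import Pool.Agent.H59.NPM.Basic

set_option autoImplicit false

/-! Adding a perturbation to a state. -/

namespace Pool.Agent.H59.NPM

open MeasureTheory Set
open scoped ENNReal

/-- A perturbation. -/
structure Pert (k : E → E) (T R δ : ℝ) (e b : E × ℝ → ℝ) (C K : E × ℝ → E) : Prop where
  me : Measurable e
  mb : Measurable b
  mC : Measurable C
  mK : Measurable K
  supp : ∀ p : E × ℝ, p.2 ∉ Ioo 0 T → e p = 0 ∧ b p = 0 ∧ C p = 0 ∧ K p = 0
  suppe : ∀ p : E × ℝ, R < ‖p.1‖ → e p = 0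
  he : ∀ p, |e p| ≤ δ
  b0 : ∀ p, 0 ≤ b p
  ib : ∫⁻ p, ‖b p‖ₑ < ⊤
  ibb : ∫⁻ p, ‖b p • G k b p‖ₑ < ⊤
  iC : ∫⁻ p, ‖C p‖ₑ < ⊤
  iK : ∫⁻ p, ‖K p‖ₑ < ⊤
  weak : ∀ φ : E × ℝ → ℝ, ContDiff ℝ 1 φ → HasCompactSupport φ →
    ∫ p, (e p + b p) * fderiv ℝ φ p ((0 : E), (1 : ℝ)) =
      ∫ p, fderiv ℝ φ p (b p • G k b p - C p + K p, (0 : ℝ))

namespace Comb

theorem integrable_of_lint {X : Type*} [NormedAddCommGroup X] [MeasurableSpace X] [BorelSpace X]
    [SecondCountableTopology X] {f : E × ℝ → X} (hf : Measurable f) (h : ∫⁻ p, ‖f p‖ₑ < ⊤) :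
    Integrable f := ⟨hf.aestronglyMeasurable, h⟩

theorem fderiv_bdd {φ : E × ℝ → ℝ} (hφ : ContDiff ℝ 1 φ) (hc : HasCompactSupport φ) :
    ∃ M : ℝ, ∀ p, ‖fderiv ℝ φ p‖ ≤ M := by
  have h1 : Continuous (fderiv ℝ φ) := hφ.continuous_fderiv one_ne_zero
  exact h1.bounded_above_of_compact_support (hc.fderiv (𝕜 := ℝ))

theorem integrable_time {φ : E × ℝ → ℝ} (hφ : ContDiff ℝ 1 φ) (hc : HasCompactSupport φ)
    {f : E × ℝ → ℝ} (hf : Integrable f) :
    Integrable (fun p => f p * fderiv ℝ φ p ((0 : E), (1 : ℝ))) := by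
  obtain ⟨M, hM⟩ := fderiv_bdd hφ hc
  have h1 : Continuous (fun p => fderiv ℝ φ p ((0 : E), (1 : ℝ))) :=
    (hφ.continuous_fderiv one_ne_zero).clm_apply continuous_const
  refine hf.mul_bdd (c := M * ‖((0 : E), (1 : ℝ))‖) h1.aestronglyMeasurable
    (Filter.Eventually.of_forall fun p => ?_)
  exact (ContinuousLinearMap.le_opNorm _ _).trans
    (mul_le_mul_of_nonneg_right (hM p) (norm_nonneg _))

theorem integrable_space {φ : E × ℝ → ℝ} (hφ : ContDiff ℝ 1 φ) (hc : HasCompactSupport φ)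
    {f : E × ℝ → E} (hf : Integrable f) :
    Integrable (fun p => fderiv ℝ φ p (f p, (0 : ℝ))) := by
  obtain ⟨M, hM⟩ := fderiv_bdd hφ hc
  have h1 : Continuous (fderiv ℝ φ) := hφ.continuous_fderiv one_ne_zero
  have h2 : AEStronglyMeasurable (fun p => fderiv ℝ φ p (f p, (0 : ℝ))) volume := by
    have h3 : AEStronglyMeasurable (fun p => (f p, (0 : ℝ))) volume :=
      hf.aestronglyMeasurable.prodMk aestronglyMeasurable_const
    exact (ContinuousLinearMap.apply ℝ ℝ).flip.aestronglyMeasurable_comp₂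
      h1.aestronglyMeasurable h3
  refine Integrable.mono' (hf.norm.const_mul M) h2 (Filter.Eventually.of_forall fun p => ?_)
  refine (ContinuousLinearMap.le_opNorm _ _).trans ?_
  have : ‖(f p, (0 : ℝ))‖ = ‖f p‖ := by simp [Prod.norm_def]
  rw [this]
  exact mul_le_mul_of_nonneg_right (hM p) (norm_nonneg _)

end Comb

open Comb in
theorem combine {k : E → E} (hk : Ker k) {T : ℝ} (hT : 0 < T) {u₀ : E → ℝ} {u : E × ℝ → ℝ}
    {F : E × ℝ → E} (h : St k T u₀ u F) {R δ ε : ℝ} (hδ : 0 ≤ δ) (hε : 0 < ε) (hε1 : ε < 1)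
    {e b : E × ℝ → ℝ} {C K : E × ℝ → E} (hp : Pert k T R δ e b C K)
    (hlow : ∀ p : E × ℝ, ‖p.1‖ ≤ R → p.2 ∈ Ioo 0 T → δ ≤ ε * u p)
    (hbu : ∫⁻ p, ‖b p‖ₑ * Psi k u p < ⊤) {B : ℝ≥0∞} (hB : B < ⊤) (hPe : ∀ p, Psi k e p ≤ B) :
    St k T u₀ (fun p => u p + e p + b p) (fun p => F p + (b p • G k b p - C p + K p)) ∧
    (∀ p, (1 - ε) * u p ≤ u p + e p + b p) ∧
    ∫⁻ p, ‖D k (fun p => u p + e p + b p) (fun p => F p + (b p • G k b p - C p + K p)) p‖ₑ ≤
      (∫⁻ p, ‖D k u F p + K p‖ₑ) + (∫⁻ p, ‖C p‖ₑ) + 2 * (∫⁻ p, ‖b p‖ₑ * Psi k u p) +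
        B * (2 * (∫⁻ p, ‖u p‖ₑ) + 2 * (∫⁻ p, ‖b p‖ₑ) + ∫⁻ p, ‖e p‖ₑ) := by
  have hmu := h.measu
  have hmF := h.measF
  have hme := hp.me
  have hmb := hp.mb
  have hmC := hp.mC
  have hmK := hp.mK
  have hmGu := G_measurable hk hmu
  have hmGb := G_measurable hk hmb
  have hmGe := G_measurable hk hme
  -- integrability
  have hiu : ∫⁻ p, ‖u p‖ₑ < ⊤ := h.intu.2
  have hib := hp.ib
  have hie' : Integrable e := by
    have h1 : Integrable (fun p => (Metric.closedBall (0 : E) R ×ˢ Ioo 0 T).indicator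
        (fun _ : E × ℝ => δ) p) := by
      refine (integrable_indicator_iff ?_).2 ?_
      · exact Metric.isClosed_closedBall.measurableSet.prod measurableSet_Ioo
      · refine integrableOn_const ?_
        rw [vol_eq, Measure.prod_prod]
        exact (ENNReal.mul_lt_top (ProperSpace.isCompact_closedBall _ _ |>.measure_lt_top)
          (by rw [Real.volume_Ioo]; exact ENNReal.ofReal_lt_top)).ne
    refine Integrable.mono' h1 hme.aestronglyMeasurable (Filter.Eventually.of_forall fun p => ?_)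
    by_cases hmem : p ∈ Metric.closedBall (0 : E) R ×ˢ Ioo 0 T
    · rw [indicator_of_mem hmem]
      exact hp.he p
    · rw [indicator_of_notMem hmem]
      have : e p = 0 := by
        by_cases h2 : p.2 ∈ Ioo 0 T
        · apply hp.suppe
          by_contra h3
          apply hmem
          refine ⟨?_, h2⟩
          rw [mem_closedBall_zero_iff]
          exact not_lt.1 h3
        · exact (hp.supp p h2).1
      simp [this]
  have hie : ∫⁻ p, ‖e p‖ₑ < ⊤ := hie'.2
  have hu' : Integrable u := h.intu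
  have hb' : Integrable b := integrable_of_lint hmb hib
  have hbb' : Integrable (fun p => b p • G k b p) := integrable_of_lint (hmb.smul hmGb) hp.ibb
  have hC' : Integrable C := integrable_of_lint hmC hp.iC
  have hK' : Integrable K := integrable_of_lint hmK hp.iK
  have hflux : Integrable (fun p => b p • G k b p - C p + K p) := (hbb'.sub hC').add hK'
  have hD : Integrable (D k u F) := h.intF.sub h.prod
  have hlow' : ∀ p, (1 - ε) * u p ≤ u p + e p + b p := by
    intro p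
    have hb0 := hp.b0 p
    have hu0 := h.nonneg p
    by_cases h2 : p.2 ∈ Ioo 0 T
    · by_cases h3 : ‖p.1‖ ≤ R
      · have h4 := hlow p h3 h2
        have h5 := abs_le.1 (hp.he p)
        nlinarith [h5.1]
      · rw [hp.suppe p (not_le.1 h3)]
        nlinarith
    · rw [(hp.supp p h2).1]
      nlinarith
  -- the estimate of the defect
  have hae : ∀ᵐ p : E × ℝ, Psi k u p < ⊤ ∧ Psi k b p < ⊤ := by
    filter_upwards [ae_Psi_lt_top hk hmu hiu, ae_Psi_lt_top hk hmb hib] with p h1 h2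
    exact ⟨h1, h2⟩
  have hpt : ∀ᵐ p : E × ℝ,
      ‖D k (fun p => u p + e p + b p) (fun p => F p + (b p • G k b p - C p + K p)) p‖ₑ ≤
        ‖D k u F p + K p‖ₑ + ‖C p‖ₑ + (‖u p‖ₑ * Psi k e p + ‖e p‖ₑ * Psi k u p) +
        (‖u p‖ₑ * Psi k b p + ‖b p‖ₑ * Psi k u p) +
        (‖b p‖ₑ * Psi k e p + ‖e p‖ₑ * Psi k b p) + ‖e p‖ₑ * Psi k e p := by
    filter_upwards [hae] with p hpp
    obtain ⟨h1, h2⟩ := hpp
    have h3 : Psi k e p < ⊤ := (hPe p).trans_lt hB
    have hG1 : G k (fun p => u p + e p) p = G k u p + G k e p := G_add hk hmu hme h1 h3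
    have h4 : Psi k (fun p => u p + e p) p < ⊤ := by
      have : Psi k (fun p => u p + e p) p ≤ Psi k u p + Psi k e p := by
        simp only [Psi]
        rw [← lintegral_add_left]
        · refine lintegral_mono fun y => ?_
          rw [← add_mul]
          gcongr
          exact enorm_add_le _ _
        · have hh1 : Measurable (fun y : E => u (y, p.2)) := by fun_prop
          have hh2 : Measurable (fun y : E => k (p.1 - y)) := hk.meas.comp (by fun_prop)
          exact hh1.enorm.mul hh2.enorm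
      exact this.trans_lt (ENNReal.add_lt_top.2 ⟨h1, h3⟩)
    have hG2 : G k (fun p => u p + e p + b p) p = G k u p + G k e p + G k b p := by
      have hmue : Measurable (fun p => u p + e p) := hmu.add hme
      rw [G_add hk hmue hmb h4 h2, hG1]
    have hexp : D k (fun p => u p + e p + b p) (fun p => F p + (b p • G k b p - C p + K p)) p =
        (D k u F p + K p) - C p - (u p • G k e p + e p • G k u p) -
        (u p • G k b p + b p • G k u p) - (b p • G k e p + e p • G k b p) - e p • G k e p := by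
      simp only [D, hG2, add_smul, smul_add]
      abel
    rw [hexp]
    have hsm : ∀ (c : ℝ) (v : E × ℝ → ℝ), ‖c • G k v p‖ₑ ≤ ‖c‖ₑ * Psi k v p := by
      intro c v
      rw [enorm_smul]
      gcongr
      exact enorm_G_le k v p
    have hadd : ∀ (c d : ℝ) (v w : E × ℝ → ℝ), ‖c • G k v p + d • G k w p‖ₑ ≤
        ‖c‖ₑ * Psi k v p + ‖d‖ₑ * Psi k w p := fun c d v w =>
      (enorm_add_le _ _).trans (add_le_add (hsm _ _) (hsm _ _))
    refine (enorm_sub_le).trans (add_le_add ?_ (hsm _ _))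
    refine (enorm_sub_le).trans (add_le_add ?_ (hadd _ _ _ _))
    refine (enorm_sub_le).trans (add_le_add ?_ (hadd _ _ _ _))
    refine (enorm_sub_le).trans (add_le_add ?_ (hadd _ _ _ _))
    exact enorm_sub_le
  have hmPu := Psi_measurable hk hmu
  have hmPb := Psi_measurable hk hmb
  have hmPe := Psi_measurable hk hme
  have hB1 : ∀ f : E × ℝ → ℝ, Measurable f → ∫⁻ p, ‖f p‖ₑ * Psi k e p ≤ B * ∫⁻ p, ‖f p‖ₑ := by
    intro f hf
    rw [← lintegral_const_mul _ hf.enorm]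
    refine lintegral_mono fun p => ?_
    rw [mul_comm]
    gcongr
    exact hPe p
  have hDest : ∫⁻ p, ‖D k (fun p => u p + e p + b p)
        (fun p => F p + (b p • G k b p - C p + K p)) p‖ₑ ≤
      (∫⁻ p, ‖D k u F p + K p‖ₑ) + (∫⁻ p, ‖C p‖ₑ) + 2 * (∫⁻ p, ‖b p‖ₑ * Psi k u p) +
        B * (2 * (∫⁻ p, ‖u p‖ₑ) + 2 * (∫⁻ p, ‖b p‖ₑ) + ∫⁻ p, ‖e p‖ₑ) := by
    refine (lintegral_mono_ae hpt).trans ?_
    have m1 : Measurable fun p => ‖u p‖ₑ * Psi k e p := hmu.enorm.mul hmPe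
    have m2 : Measurable fun p => ‖e p‖ₑ * Psi k u p := hme.enorm.mul hmPu
    have m3 : Measurable fun p => ‖u p‖ₑ * Psi k b p := hmu.enorm.mul hmPb
    have m4 : Measurable fun p => ‖b p‖ₑ * Psi k u p := hmb.enorm.mul hmPu
    have m5 : Measurable fun p => ‖b p‖ₑ * Psi k e p := hmb.enorm.mul hmPe
    have m6 : Measurable fun p => ‖e p‖ₑ * Psi k b p := hme.enorm.mul hmPb
    have m7 : Measurable fun p => ‖e p‖ₑ * Psi k e p := hme.enorm.mul hmPe
    have m56 : Measurable fun p => ‖b p‖ₑ * Psi k e p + ‖e p‖ₑ * Psi k b p := m5.add m6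
    have m34 : Measurable fun p => ‖u p‖ₑ * Psi k b p + ‖b p‖ₑ * Psi k u p := m3.add m4
    have m12 : Measurable fun p => ‖u p‖ₑ * Psi k e p + ‖e p‖ₑ * Psi k u p := m1.add m2
    rw [lintegral_add_right _ m7, lintegral_add_right _ m56,
      lintegral_add_right _ m34, lintegral_add_right _ m12,
      lintegral_add_right _ hmC.enorm, lintegral_add_right _ m2, lintegral_add_right _ m4,
      lintegral_add_right _ m6]
    rw [lintegral_mul_Psi hk hme hmu, lintegral_mul_Psi hk hmu hmb, lintegral_mul_Psi hk hme hmb]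
    calc (∫⁻ p, ‖D k u F p + K p‖ₑ) + (∫⁻ p, ‖C p‖ₑ) +
          ((∫⁻ p, ‖u p‖ₑ * Psi k e p) + ∫⁻ p, ‖u p‖ₑ * Psi k e p) +
          ((∫⁻ p, ‖b p‖ₑ * Psi k u p) + ∫⁻ p, ‖b p‖ₑ * Psi k u p) +
          ((∫⁻ p, ‖b p‖ₑ * Psi k e p) + ∫⁻ p, ‖b p‖ₑ * Psi k e p) + ∫⁻ p, ‖e p‖ₑ * Psi k e p
        ≤ (∫⁻ p, ‖D k u F p + K p‖ₑ) + (∫⁻ p, ‖C p‖ₑ) +
          (B * (∫⁻ p, ‖u p‖ₑ) + B * ∫⁻ p, ‖u p‖ₑ) +
          ((∫⁻ p, ‖b p‖ₑ * Psi k u p) + ∫⁻ p, ‖b p‖ₑ * Psi k u p) +
          (B * (∫⁻ p, ‖b p‖ₑ) + B * ∫⁻ p, ‖b p‖ₑ) + B * ∫⁻ p, ‖e p‖ₑ := by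
            gcongr
            · exact hB1 u hmu
            · exact hB1 u hmu
            · exact hB1 b hmb
            · exact hB1 b hmb
            · exact hB1 e hme
      _ = _ := by ring
  have hDfin : ∫⁻ p, ‖D k (fun p => u p + e p + b p)
        (fun p => F p + (b p • G k b p - C p + K p)) p‖ₑ < ⊤ := by
    refine hDest.trans_lt ?_
    have hDK : ∫⁻ p, ‖D k u F p + K p‖ₑ < ⊤ := (hD.add hK').2
    refine ENNReal.add_lt_top.2 ⟨ENNReal.add_lt_top.2 ⟨ENNReal.add_lt_top.2 ⟨hDK, hp.iC⟩, ?_⟩, ?_⟩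
    · exact ENNReal.mul_lt_top (by simp) hbu
    · refine ENNReal.mul_lt_top hB (ENNReal.add_lt_top.2 ⟨ENNReal.add_lt_top.2 ⟨?_, ?_⟩, hie⟩)
      · exact ENNReal.mul_lt_top (by simp) hiu
      · exact ENNReal.mul_lt_top (by simp) hib
  have hmu' : Measurable (fun p => u p + e p + b p) := (hmu.add hme).add hmb
  have hmF' : Measurable (fun p => F p + (b p • G k b p - C p + K p)) :=
    hmF.add (((hmb.smul hmGb).sub hmC).add hmK)
  have hintF' : Integrable (fun p => F p + (b p • G k b p - C p + K p)) := h.intF.add hflux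
  have hmD' : Measurable (D k (fun p => u p + e p + b p)
      (fun p => F p + (b p • G k b p - C p + K p))) := by
    have := G_measurable hk hmu'
    exact hmF'.sub (hmu'.smul this)
  refine ⟨⟨⟨hmu', hmF', ?_, ?_, ?_, ?_, hintF', ?_⟩, ?_, ?_⟩, hlow', hDest⟩
  · intro p
    refine le_trans ?_ (hlow' p)
    exact mul_nonneg (by linarith) (h.nonneg p)
  · intro p hp2
    obtain ⟨h1, h2, h3, h4⟩ := hp.supp p hp2
    simp [h1, h2, h.suppu p hp2]
  · intro p hp2
    obtain ⟨h1, h2, h3, h4⟩ := hp.supp p hp2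
    simp [h2, h3, h4, h.suppF p hp2]
  · exact (hu'.add hie').add hb'
  · intro φ hφ hc hts
    have hw := h.weak φ hφ hc hts
    have hw2 := hp.weak φ hφ hc
    have e1 : ∫ p, (u p + e p + b p) * fderiv ℝ φ p ((0 : E), (1 : ℝ)) =
        (∫ p, u p * fderiv ℝ φ p ((0 : E), (1 : ℝ))) +
        ∫ p, (e p + b p) * fderiv ℝ φ p ((0 : E), (1 : ℝ)) := by
      have hieb : Integrable (fun p => e p + b p) := hie'.add hb'
      rw [← integral_add (integrable_time hφ hc hu') (integrable_time hφ hc hieb)]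
      congr 1
      ext p
      ring
    have e2 : ∫ p, fderiv ℝ φ p (F p + (b p • G k b p - C p + K p), (0 : ℝ)) =
        (∫ p, fderiv ℝ φ p (F p, (0 : ℝ))) +
        ∫ p, fderiv ℝ φ p (b p • G k b p - C p + K p, (0 : ℝ)) := by
      rw [← integral_add (integrable_space hφ hc h.intF) (integrable_space hφ hc hflux)]
      congr 1
      ext p
      rw [← map_add]
      simp
    rw [e1, e2, hw2]
    linarith
  · intro R'
    obtain ⟨c, hc, hcc⟩ := h.low R'
    refine ⟨(1 - ε) * c, mul_pos (by linarith) hc, fun p h1 h2 => ?_⟩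
    refine le_trans ?_ (hlow' p)
    exact mul_le_mul_of_nonneg_left (hcc p h1 h2) (by linarith)
  · have h1 : Integrable (D k (fun p => u p + e p + b p)
        (fun p => F p + (b p • G k b p - C p + K p))) := integrable_of_lint hmD' hDfin
    have h2 := hintF'.sub h1
    refine h2.congr (Filter.Eventually.of_forall fun p => ?_)
    simp only [D, Pi.sub_apply]
    abel

end Pool.Agent.H59.NPM
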