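import Mathlib
import Pool.Agent.H59.NPM.Cell

set_option autoImplicit false

/-! MODULE GRID (helper49): approximation of a continuous function by a combination of cells. -/

namespace Pool.Agent.H59.NPM

open MeasureTheory Set
open scoped ENNReal

namespace Grid

/-- the cell of the grid which contains a point -/
noncomputable def cell (q : ℝ) (x : E) : ℤ × ℤ := (⌊x 0 / q⌋, ⌊x 1 / q⌋)

theorem measurable_coord (j : Fin 2) : Measurable (fun x : E => x j) :=
  (EuclideanSpace.proj (𝕜 := ℝ) j).continuous.measurable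

theorem measurableSet_sq (q : ℝ) : MeasurableSet (sq q) := by
  have : sq q = ⋂ j : Fin 2, {y : E | 0 ≤ y j ∧ y j < q} := by
    ext y; simp [sq]
  rw [this]
  refine MeasurableSet.iInter fun j => ?_
  exact (measurableSet_le measurable_const (measurable_coord j)).inter
    (measurableSet_lt (measurable_coord j) measurable_const)

theorem measurable_chi' (q : ℝ) : Measurable (chi q) := by
  unfold chi
  exact measurable_const.indicator (measurableSet_sq q)

theorem norm_le_of_mem_sq {q : ℝ} {y : E} (hy : y ∈ sq q) : ‖y‖ ≤ 2 * q := by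
  have h0 := hy 0
  have h1 := hy 1
  have hq : 0 < q := lt_of_le_of_lt h0.1 h0.2
  have : ‖y‖ ^ 2 = y 0 ^ 2 + y 1 ^ 2 := by
    rw [EuclideanSpace.norm_sq_eq]
    simp [Fin.sum_univ_two]
  have h2 : ‖y‖ ^ 2 ≤ (2 * q) ^ 2 := by
    rw [this]
    nlinarith [h0.1, h0.2, h1.1, h1.2]
  exact abs_le_of_sq_le_sq' h2 (by positivity) |>.2

theorem mem_sq_iff {q : ℝ} (hq : 0 < q) (x : E) (c : ℤ × ℤ) :
    x - pt q c ∈ sq q ↔ c = cell q x := by
  have key : ∀ (a : ℝ) (n : ℤ), (0 ≤ a - q * n ∧ a - q * n < q) ↔ n = ⌊a / q⌋ := by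
    intro a n
    rw [eq_comm, Int.floor_eq_iff, le_div_iff₀ hq, div_lt_iff₀ hq]
    constructor
    · rintro ⟨h1, h2⟩
      constructor <;> nlinarith
    · rintro ⟨h1, h2⟩
      constructor <;> nlinarith
  have h0 : (x - pt q c) 0 = x 0 - q * c.1 := by simp [pt]
  have h1 : (x - pt q c) 1 = x 1 - q * c.2 := by simp [pt]
  constructor
  · intro h
    have h0' := h 0
    have h1' := h 1
    rw [h0] at h0'
    rw [h1] at h1'
    exact Prod.ext ((key _ _).1 h0') ((key _ _).1 h1')
  · intro h j
    have e0 : c.1 = ⌊x 0 / q⌋ := by rw [h]; rfl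
    have e1 : c.2 = ⌊x 1 / q⌋ := by rw [h]; rfl
    fin_cases j
    · show 0 ≤ (x - pt q c) 0 ∧ (x - pt q c) 0 < q
      rw [h0]; exact (key _ _).2 e0
    · show 0 ≤ (x - pt q c) 1 ∧ (x - pt q c) 1 < q
      rw [h1]; exact (key _ _).2 e1

theorem chi_eq {q : ℝ} (hq : 0 < q) (x : E) (c : ℤ × ℤ) :
    q ^ 2 * chi q (x - pt q c) = if c = cell q x then 1 else 0 := by
  unfold chi
  by_cases h : c = cell q x
  · rw [if_pos h, indicator_of_mem ((mem_sq_iff hq x c).2 h)]
    exact mul_inv_cancel₀ (by positivity)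
  · rw [if_neg h, indicator_of_notMem (fun h' => h ((mem_sq_iff hq x c).1 h')), mul_zero]

theorem pt_cell_dist {q : ℝ} (hq : 0 < q) (x : E) : ‖x - pt q (cell q x)‖ ≤ 2 * q :=
  norm_le_of_mem_sq ((mem_sq_iff hq x _).2 rfl)

theorem seg_eq (q : ℝ) (z h x : E) : seg q z h x = ∫ r in Ioo (0:ℝ) 1, chi q (x - z - r • h) := rfl

theorem integrable_chi_line (q : ℝ) (z h x : E) :
    IntegrableOn (fun r : ℝ => chi q (x - z - r • h)) (Ioo (0:ℝ) 1) := by
  have hm : Measurable (fun r : ℝ => chi q (x - z - r • h)) :=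
    (measurable_chi' q).comp (by fun_prop)
  refine Measure.integrableOn_of_bounded (M := |(q ^ 2)⁻¹|) (by simp) hm.aestronglyMeasurable ?_
  refine Filter.Eventually.of_forall fun r => ?_
  unfold chi
  by_cases hmem : x - z - r • h ∈ sq q
  · rw [indicator_of_mem hmem, Real.norm_eq_abs]
  · rw [indicator_of_notMem hmem, norm_zero]
    positivity

end Grid

open Grid

/-- the cells are disjoint -/
theorem sum_chi_le {q : ℝ} (hq : 0 < q) (s : Finset (ℤ × ℤ)) (x : E) :
    ∑ c ∈ s, q ^ 2 * chi q (x - pt q c) ≤ 1 := by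
  simp_rw [chi_eq hq x]
  rw [Finset.sum_ite_eq' s (cell q x) (fun _ => (1:ℝ))]
  split_ifs <;> norm_num

/-- Approximation of a continuous function by a combination of the `seg`'s. -/
theorem grid {g : E × ℝ → ℝ} (hg : Continuous g) (hc : HasCompactSupport g) {η : ℝ} (hη : 0 < η) :
    ∃ δ : ℝ, 0 < δ ∧ ∀ q : ℝ, 0 < q → q ≤ δ → ∃ N : ℕ, ∀ h : E, ‖h‖ ≤ δ → ∀ (x : E) (s t : ℝ),
      |s - t| ≤ δ →
      |(∑ c ∈ box N, g (pt q c, s) * (q ^ 2 * seg q (pt q c) h x)) - g (x, t)| ≤ η := by
  have huc : UniformContinuous g := hc.uniformContinuous_of_continuous hg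
  obtain ⟨δ', hδ', hδ⟩ := Metric.uniformContinuous_iff.1 huc η hη
  -- the support is bounded
  obtain ⟨R, hR⟩ := (Metric.isBounded_iff_subset_closedBall (0 : E × ℝ)).1 hc.isCompact.isBounded
  have hsupp : ∀ p : E × ℝ, R < ‖p.1‖ → g p = 0 := by
    intro p hp
    by_contra hne
    have : p ∈ Metric.closedBall (0 : E × ℝ) R := hR (subset_tsupport g hne)
    rw [mem_closedBall_zero_iff] at this
    exact absurd (le_trans (norm_fst_le p) this) (not_le.2 hp)
  refine ⟨δ' / 4, by positivity, fun q hq hqδ => ?_⟩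
  obtain ⟨N, hN⟩ := exists_nat_gt (R / q)
  have hout : ∀ c : ℤ × ℤ, c ∉ box N → ∀ s : ℝ, g (pt q c, s) = 0 := by
    intro c hcN s
    apply hsupp
    show R < ‖pt q c‖
    have hc' : (N : ℝ) < |(c.1 : ℝ)| ∨ (N : ℝ) < |(c.2 : ℝ)| := by
      by_contra hcon
      push Not at hcon
      apply hcN
      obtain ⟨h1, h2⟩ := hcon
      rw [abs_le] at h1 h2
      simp only [box, Finset.mem_product, Finset.mem_Icc]
      exact ⟨⟨by exact_mod_cast h1.1, by exact_mod_cast h1.2⟩,
        ⟨by exact_mod_cast h2.1, by exact_mod_cast h2.2⟩⟩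
    have hRN : R < q * N := by
      rw [div_lt_iff₀ hq] at hN
      linarith
    rcases hc' with h1 | h1
    · have : |(pt q c) 0| ≤ ‖pt q c‖ := by
        simpa using PiLp.norm_apply_le (pt q c) (0 : Fin 2)
      have e : (pt q c) 0 = q * c.1 := by simp [pt]
      rw [e, abs_mul, abs_of_pos hq] at this
      nlinarith
    · have : |(pt q c) 1| ≤ ‖pt q c‖ := by
        simpa using PiLp.norm_apply_le (pt q c) (1 : Fin 2)
      have e : (pt q c) 1 = q * c.2 := by simp [pt]
      rw [e, abs_mul, abs_of_pos hq] at this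
      nlinarith
  refine ⟨N, fun h hh x s t hst => ?_⟩
  -- rewrite the sum as an integral
  have hsum : (∑ c ∈ box N, g (pt q c, s) * (q ^ 2 * seg q (pt q c) h x)) =
      ∫ r in Ioo (0:ℝ) 1, g (pt q (cell q (x - r • h)), s) := by
    have e1 : ∀ c ∈ box N, g (pt q c, s) * (q ^ 2 * seg q (pt q c) h x) =
        ∫ r in Ioo (0:ℝ) 1, g (pt q c, s) * (q ^ 2 * chi q (x - pt q c - r • h)) := by
      intro c _
      rw [integral_const_mul, integral_const_mul, seg_eq]
    rw [Finset.sum_congr rfl e1, ← integral_finsetSum]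
    · refine integral_congr_ae (Filter.Eventually.of_forall fun r => ?_)
      show (∑ c ∈ box N, g (pt q c, s) * (q ^ 2 * chi q (x - pt q c - r • h))) = _
      have e2 : ∀ c ∈ box N, g (pt q c, s) * (q ^ 2 * chi q (x - pt q c - r • h)) =
          if c = cell q (x - r • h) then g (pt q c, s) else 0 := by
        intro c _
        have : x - pt q c - r • h = (x - r • h) - pt q c := by abel
        rw [this, chi_eq hq]
        split_ifs <;> simp
      rw [Finset.sum_congr rfl e2, Finset.sum_ite_eq' (box N) (cell q (x - r • h))]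
      split_ifs with hmem
      · rfl
      · exact (hout _ hmem s).symm
    · intro c _
      exact ((integrable_chi_line q (pt q c) h x).const_mul (q ^ 2)).const_mul _
  rw [hsum]
  -- integrability
  have hconst : g (x, t) = ∫ _ in Ioo (0:ℝ) 1, g (x, t) := by
    simp
  have hbound : ∀ r ∈ Ioo (0:ℝ) 1, |g (pt q (cell q (x - r • h)), s) - g (x, t)| ≤ η := by
    intro r hr
    have hd : dist ((pt q (cell q (x - r • h)), s) : E × ℝ) (x, t) < δ' := by
      rw [Prod.dist_eq]
      apply max_lt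
      · show dist (pt q (cell q (x - r • h))) x < δ'
        rw [dist_eq_norm]
        have h1 := pt_cell_dist hq (x - r • h)
        have h2 : pt q (cell q (x - r • h)) - x = - ((x - r • h) - pt q (cell q (x - r • h))) - r • h := by
          abel
        rw [h2]
        have h3 : ‖r • h‖ ≤ ‖h‖ := by
          rw [norm_smul, Real.norm_eq_abs, abs_of_pos hr.1]
          nlinarith [norm_nonneg h, hr.2]
        calc ‖- ((x - r • h) - pt q (cell q (x - r • h))) - r • h‖
            ≤ ‖- ((x - r • h) - pt q (cell q (x - r • h)))‖ + ‖r • h‖ := norm_sub_le _ _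
          _ ≤ 2 * q + δ' / 4 := by
              rw [norm_neg]
              linarith
          _ < δ' := by linarith
      · show dist s t < δ'
        rw [Real.dist_eq]
        linarith
    have := hδ hd
    rw [Real.dist_eq] at this
    exact this.le
  by_cases hint : IntegrableOn (fun r : ℝ => g (pt q (cell q (x - r • h)), s)) (Ioo (0:ℝ) 1)
  · have e : (∫ r in Ioo (0:ℝ) 1, g (pt q (cell q (x - r • h)), s)) - g (x, t) =
        ∫ r in Ioo (0:ℝ) 1, (g (pt q (cell q (x - r • h)), s) - g (x, t)) := by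
      rw [integral_sub hint (by simp), ← hconst]
    rw [e, ← Real.norm_eq_abs]
    have := norm_setIntegral_le_of_norm_le_const (μ := volume) (s := Ioo (0:ℝ) 1) (C := η)
      (f := fun r : ℝ => g (pt q (cell q (x - r • h)), s) - g (x, t)) (by simp)
      (fun r hr => hbound r hr)
    simpa using this
  · exfalso
    apply hint
    -- measurability through the finite sum representation
    have heq : (fun r : ℝ => g (pt q (cell q (x - r • h)), s)) =
        fun r : ℝ => ∑ c ∈ box N, g (pt q c, s) * (q ^ 2 * chi q (x - pt q c - r • h)) := by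
      funext r
      have e2 : ∀ c ∈ box N, g (pt q c, s) * (q ^ 2 * chi q (x - pt q c - r • h)) =
          if c = cell q (x - r • h) then g (pt q c, s) else 0 := by
        intro c _
        have : x - pt q c - r • h = (x - r • h) - pt q c := by abel
        rw [this, chi_eq hq]
        split_ifs <;> simp
      rw [Finset.sum_congr rfl e2, Finset.sum_ite_eq' (box N) (cell q (x - r • h))]
      split_ifs with hmem
      · rfl
      · exact hout _ hmem s
    rw [heq]
    exact integrable_finsetSum _ fun c _ =>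
      ((integrable_chi_line q (pt q c) h x).const_mul (q ^ 2)).const_mul _

/-- supports -/
theorem grid_support {g : E × ℝ → ℝ} (hc : HasCompactSupport g) :
    ∃ R : ℝ, 0 < R ∧ (∀ p : E × ℝ, R ≤ ‖p.1‖ → g p = 0) ∧
      ∀ q : ℝ, 0 < q → q ≤ 1 → ∀ h : E, ‖h‖ ≤ 1 → ∀ (c : ℤ × ℤ) (x : E) (s : ℝ), R + 3 ≤ ‖x‖ →
        g (pt q c, s) ≠ 0 → chi q (x - pt q c) = 0 ∧ chi q (x - pt q c - h) = 0 ∧
          seg q (pt q c) h x = 0 := by
  obtain ⟨R₀, hR₀⟩ := (Metric.isBounded_iff_subset_closedBall (0 : E × ℝ)).1 hc.isCompact.isBounded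
  have hsupp : ∀ p : E × ℝ, R₀ < ‖p.1‖ → g p = 0 := by
    intro p hp
    by_contra hne
    have : p ∈ Metric.closedBall (0 : E × ℝ) R₀ := hR₀ (subset_tsupport g hne)
    rw [mem_closedBall_zero_iff] at this
    exact absurd (le_trans (norm_fst_le p) this) (not_le.2 hp)
  refine ⟨max R₀ 0 + 1, by positivity, fun p hp => hsupp p ?_, ?_⟩
  · have := le_max_left R₀ 0
    linarith
  intro q hq hq1 h hh c x s hx hne
  have hpt : ‖pt q c‖ < max R₀ 0 + 1 := by
    by_contra hcon
    push Not at hcon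
    apply hne
    apply hsupp
    have := le_max_left R₀ 0
    show R₀ < ‖pt q c‖
    linarith
  have hfar : ∀ r : ℝ, 0 ≤ r → r ≤ 1 → chi q (x - pt q c - r • h) = 0 := by
    intro r hr0 hr1
    unfold chi
    apply indicator_of_notMem
    intro hmem
    have h1 := norm_le_of_mem_sq hmem
    have h2 : ‖r • h‖ ≤ 1 := by
      rw [norm_smul, Real.norm_eq_abs, abs_of_nonneg hr0]
      nlinarith [norm_nonneg h]
    have h3 : ‖x‖ ≤ ‖x - pt q c - r • h‖ + ‖pt q c‖ + ‖r • h‖ := by
      calc ‖x‖ = ‖(x - pt q c - r • h) + pt q c + r • h‖ := by congr 1; abel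
        _ ≤ ‖(x - pt q c - r • h) + pt q c‖ + ‖r • h‖ := norm_add_le _ _
        _ ≤ _ := by
          have := norm_add_le (x - pt q c - r • h) (pt q c)
          linarith
    linarith
  refine ⟨?_, ?_, ?_⟩
  · have := hfar 0 le_rfl zero_le_one
    simpa using this
  · have := hfar 1 zero_le_one le_rfl
    simpa using this
  · rw [seg_eq]
    rw [setIntegral_congr_fun (g := fun _ => (0:ℝ)) measurableSet_Ioo
      (fun r hr => hfar r hr.1.le hr.2.le)]
    simp

end Pool.Agent.H59.NPM
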