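import Mathlib
import Pool.Agent.H59.NPM.Basic

set_option autoImplicit false

/-! Integration by parts in time and the drift identity. -/

namespace Pool.Agent.H59.NPM

open MeasureTheory Set
open scoped ENNReal

/-- primitive of an integrable function -/
noncomputable def prim (ν : ℝ → ℝ) (t : ℝ) : ℝ := ∫ r in Iio t, ν r

theorem abs_prim_le {ν : ℝ → ℝ} (hν : Integrable ν) (t : ℝ) : |prim ν t| ≤ ∫ r, |ν r| := by
  calc |prim ν t| ≤ ∫ r in Iio t, |ν r| := by
        have := norm_integral_le_integral_norm (μ := volume.restrict (Iio t)) ν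
        simpa only [Real.norm_eq_abs, prim] using this
    _ ≤ ∫ r, |ν r| := setIntegral_le_integral hν.abs (Filter.Eventually.of_forall fun _ => abs_nonneg _)

theorem measurable_prim {ν : ℝ → ℝ} (hν : Measurable ν) : Measurable (prim ν) := by
  have h1 : prim ν = fun t => ∫ r, (if r < t then ν r else 0) := by
    funext t
    rw [prim, ← integral_indicator measurableSet_Iio]
    rfl
  rw [h1]
  have h2 : Measurable (fun z : ℝ × ℝ => if z.2 < z.1 then ν z.2 else 0) := by
    refine Measurable.ite (measurableSet_lt measurable_snd measurable_fst) ?_ measurable_const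
    exact hν.comp measurable_snd
  exact (h2.stronglyMeasurable.integral_prod_right').measurable

theorem time_ibp {ν : ℝ → ℝ} (hν : Integrable ν) {Φ : ℝ → ℝ} (hΦ : ContDiff ℝ 1 Φ)
    (hc : HasCompactSupport Φ) : ∫ t, prim ν t * deriv Φ t = - ∫ t, ν t * Φ t := by
  have hd : Integrable (deriv Φ) := (hΦ.continuous_deriv le_rfl).integrable_of_hasCompactSupport hc.deriv
  have hH : Integrable (fun z : ℝ × ℝ => {z : ℝ × ℝ | z.2 < z.1}.indicator
      (fun z => deriv Φ z.1 * ν z.2) z) :=
    (hd.mul_prod hν).indicator (measurableSet_lt measurable_snd measurable_fst)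
  calc ∫ t, prim ν t * deriv Φ t
      = ∫ t, ∫ r, {z : ℝ × ℝ | z.2 < z.1}.indicator (fun z => deriv Φ z.1 * ν z.2) (t, r) := by
        refine integral_congr_ae (Filter.Eventually.of_forall fun t => ?_)
        simp only [prim]
        rw [← integral_indicator measurableSet_Iio, ← integral_mul_const]
        refine integral_congr_ae (Filter.Eventually.of_forall fun r => ?_)
        by_cases h : r < t
        · simp [indicator, h, mul_comm]
        · simp [indicator, h]
    _ = ∫ r, ∫ t, {z : ℝ × ℝ | z.2 < z.1}.indicator (fun z => deriv Φ z.1 * ν z.2) (t, r) :=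
        integral_integral_swap hH
    _ = ∫ r, - (ν r * Φ r) := by
        refine integral_congr_ae (Filter.Eventually.of_forall fun r => ?_)
        have h1 : ∀ t, {z : ℝ × ℝ | z.2 < z.1}.indicator (fun z => deriv Φ z.1 * ν z.2) (t, r) =
            (Ioi r).indicator (fun t => deriv Φ t * ν r) t := by
          intro t
          by_cases h : r < t <;> simp [indicator, h]
        simp only [h1]
        rw [integral_indicator measurableSet_Ioi, integral_mul_const, hc.integral_Ioi_deriv_eq hΦ]
        ring
    _ = - ∫ t, ν t * Φ t := integral_neg _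

/-- the shear homeomorphism -/
def shear (X : ℝ → E) (hX : Continuous X) : E × ℝ ≃ₜ E × ℝ where
  toFun z := (z.1 + X z.2, z.2)
  invFun z := (z.1 - X z.2, z.2)
  left_inv z := by simp
  right_inv z := by simp
  continuous_toFun := by fun_prop
  continuous_invFun := by fun_prop

theorem shear_mp (X : ℝ → E) (hX : Continuous X) :
    MeasurePreserving (shear X hX) (volume : Measure (E × ℝ)) volume := by
  have h1 : MeasurePreserving (fun p : ℝ × E => (p.1, p.2 + X p.1))
      ((volume : Measure ℝ).prod (volume : Measure E)) ((volume : Measure ℝ).prod (volume : Measure E)) := by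
    refine MeasurePreserving.skew_product (MeasurePreserving.id _) (g := fun t y => y + X t) ?_ ?_
    · have : Continuous (Function.uncurry fun (t : ℝ) (y : E) => y + X t) := by
        simp only [Function.uncurry_def]; fun_prop
      exact this.measurable
    · refine Filter.Eventually.of_forall fun t => ?_
      exact map_add_right_eq_self _ _
  have h2 : MeasurePreserving (Prod.swap : E × ℝ → ℝ × E)
      ((volume : Measure E).prod (volume : Measure ℝ)) ((volume : Measure ℝ).prod (volume : Measure E)) :=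
    Measure.measurePreserving_swap
  have h3 : MeasurePreserving (Prod.swap : ℝ × E → E × ℝ)
      ((volume : Measure ℝ).prod (volume : Measure E)) ((volume : Measure E).prod (volume : Measure ℝ)) :=
    Measure.measurePreserving_swap
  exact h3.comp (h1.comp h2)

/-- The drift identity. -/
theorem drift {w : E → ℝ} (hw : Measurable w) (hwi : Integrable w) {X X' : ℝ → E}
    (hX : ∀ t, HasDerivAt X (X' t) t) (hX' : Continuous X') {ν : ℝ → ℝ} (hνm : Measurable ν)
    (hν : Integrable ν) {φ : E × ℝ → ℝ} (hφ : ContDiff ℝ 1 φ) (hc : HasCompactSupport φ) :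
    Integrable (fun p : E × ℝ => prim ν p.2 * w (p.1 - X p.2) * fderiv ℝ φ p (X' p.2, (1:ℝ))) ∧
      Integrable (fun p : E × ℝ => ν p.2 * w (p.1 - X p.2) * φ p) ∧
      ∫ p : E × ℝ, prim ν p.2 * w (p.1 - X p.2) * fderiv ℝ φ p (X' p.2, (1:ℝ)) =
        - ∫ p : E × ℝ, ν p.2 * w (p.1 - X p.2) * φ p := by
  have hXc : Continuous X := continuous_iff_continuousAt.2 fun t => (hX t).continuousAt
  -- test function along a trajectory
  have hΦ : ∀ y : E, ContDiff ℝ 1 (fun t : ℝ => φ (y + X t, t)) := by
    intro y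
    have hX1 : ContDiff ℝ 1 X := by
      rw [contDiff_one_iff_deriv]
      refine ⟨fun t => (hX t).differentiableAt, ?_⟩
      have : deriv X = X' := funext fun t => (hX t).deriv
      rw [this]; exact hX'
    exact hφ.comp ((contDiff_const.add hX1).prodMk contDiff_id)
  have hΦd : ∀ (y : E) (t : ℝ), deriv (fun t : ℝ => φ (y + X t, t)) t =
      fderiv ℝ φ (y + X t, t) (X' t, (1:ℝ)) := by
    intro y t
    have h1 : HasFDerivAt φ (fderiv ℝ φ (y + X t, t)) (y + X t, t) :=
      (hφ.differentiable one_ne_zero _).hasFDerivAt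
    have h2 : HasDerivAt (fun t : ℝ => (y + X t, t)) (X' t, (1:ℝ)) t :=
      ((hX t).const_add y).prodMk (hasDerivAt_id t)
    exact (HasFDerivAt.comp_hasDerivAt (f := fun t : ℝ => (y + X t, t)) t h1 h2).deriv
  -- bounds
  obtain ⟨R, hR⟩ : ∃ R : ℝ, ∀ p : E × ℝ, R < |p.2| → p ∉ tsupport φ := by
    obtain ⟨R, hR⟩ := hc.isBounded.subset_closedBall (0 : E × ℝ)
    refine ⟨R, fun p hp hmem => ?_⟩
    have := hR hmem
    rw [mem_closedBall_zero_iff] at this
    have h2 : |p.2| ≤ ‖p‖ := by rw [← Real.norm_eq_abs]; exact norm_snd_le p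
    linarith
  have hΦc : ∀ y : E, HasCompactSupport (fun t : ℝ => φ (y + X t, t)) := by
    intro y
    refine HasCompactSupport.intro (isCompact_Icc (a := -R) (b := R)) fun t ht => ?_
    have : R < |t| := by
      by_contra h
      push Not at h
      exact ht (abs_le.1 h)
    exact image_eq_zero_of_notMem_tsupport (hR (y + X t, t) this)
  obtain ⟨C, hC⟩ : ∃ C, ∀ p, ‖φ p‖ ≤ C := hc.exists_bound_of_continuous hφ.continuous
  obtain ⟨C₁, hC₁⟩ : ∃ C, ∀ p, ‖fderiv ℝ φ p‖ ≤ C :=
    (hc.fderiv (𝕜 := ℝ)).exists_bound_of_continuous (hφ.continuous_fderiv one_ne_zero)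
  have hC₁0 : 0 ≤ C₁ := (norm_nonneg _).trans (hC₁ 0)
  obtain ⟨C₂, hC₂⟩ : ∃ C, ∀ t ∈ Icc (-R) R, ‖((X' t, (1:ℝ)) : E × ℝ)‖ ≤ C :=
    isCompact_Icc.exists_bound_of_continuousOn (by fun_prop)
  set C₃ := ∫ r, |ν r| with hC₃
  have hC₃0 : 0 ≤ C₃ := integral_nonneg fun _ => abs_nonneg _
  -- integrability in sheared variables
  have hA : Integrable (fun z : E × ℝ => w z.1 * (ν z.2 * φ (z.1 + X z.2, z.2))) := by
    have h0 : Integrable (fun z : E × ℝ => w z.1 * ν z.2) := hwi.mul_prod hν
    have h1 : Continuous (fun z : E × ℝ => φ (z.1 + X z.2, z.2)) :=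
      hφ.continuous.comp (by fun_prop)
    have h2 := h0.mul_bdd (c := C) h1.aestronglyMeasurable (Filter.Eventually.of_forall fun z => hC _)
    refine h2.congr (Filter.Eventually.of_forall fun z => ?_)
    simp only [mul_assoc]
  have hB : Integrable (fun z : E × ℝ => w z.1 *
      (prim ν z.2 * fderiv ℝ φ (z.1 + X z.2, z.2) (X' z.2, (1:ℝ)))) := by
    have hind : Integrable (fun t : ℝ => (Icc (-R) R).indicator (fun _ => C₃ * (C₁ * C₂)) t) := by
      rw [integrable_indicator_iff measurableSet_Icc]
      exact integrableOn_const (by simp)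
    have h0 := hwi.norm.mul_prod hind
    refine Integrable.mono' h0 ?_ (Filter.Eventually.of_forall fun z => ?_)
    · have h1 : Measurable (fun z : E × ℝ => w z.1) := hw.comp measurable_fst
      have h2 : Measurable (fun z : E × ℝ => prim ν z.2) := (measurable_prim hνm).comp measurable_snd
      have h3 : Continuous (fun z : E × ℝ => fderiv ℝ φ (z.1 + X z.2, z.2) (X' z.2, (1:ℝ))) := by
        have h4 : Continuous (fun z : E × ℝ => fderiv ℝ φ (z.1 + X z.2, z.2)) :=
          (hφ.continuous_fderiv one_ne_zero).comp (by fun_prop)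
        exact h4.clm_apply (by fun_prop)
      exact (h1.mul (h2.mul h3.measurable)).aestronglyMeasurable
    · rw [norm_mul]
      gcongr
      by_cases hz : z.2 ∈ Icc (-R) R
      · rw [indicator_of_mem hz, norm_mul]
        gcongr
        · rw [Real.norm_eq_abs]; exact abs_prim_le hν _
        · calc ‖fderiv ℝ φ (z.1 + X z.2, z.2) (X' z.2, (1:ℝ))‖
              ≤ ‖fderiv ℝ φ (z.1 + X z.2, z.2)‖ * ‖((X' z.2, (1:ℝ)) : E × ℝ)‖ :=
                ContinuousLinearMap.le_opNorm _ _
            _ ≤ C₁ * C₂ := by gcongr; exacts [hC₁ _, hC₂ _ hz]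
      · rw [indicator_of_notMem hz]
        have h5 : R < |z.2| := by
          by_contra h
          push Not at h
          exact hz (abs_le.1 h)
        have h6 : fderiv ℝ φ (z.1 + X z.2, z.2) = 0 := by
          have := hR (z.1 + X z.2, z.2) h5
          exact fderiv_of_notMem_tsupport ℝ this
        simp [h6]
  have hmp := shear_mp X hXc
  have hemb : MeasurableEmbedding (shear X hXc) := (shear X hXc).measurableEmbedding
  have hA' : Integrable (fun p : E × ℝ => ν p.2 * w (p.1 - X p.2) * φ p) := by
    rw [← hmp.integrable_comp_emb hemb]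
    refine hA.congr (Filter.Eventually.of_forall fun z => ?_)
    simp only [Function.comp, shear, Homeomorph.homeomorph_mk_coe, Equiv.coe_fn_mk,
      add_sub_cancel_right]
    ring
  have hB' : Integrable (fun p : E × ℝ => prim ν p.2 * w (p.1 - X p.2) *
      fderiv ℝ φ p (X' p.2, (1:ℝ))) := by
    rw [← hmp.integrable_comp_emb hemb]
    refine hB.congr (Filter.Eventually.of_forall fun z => ?_)
    simp only [Function.comp, shear, Homeomorph.homeomorph_mk_coe, Equiv.coe_fn_mk,
      add_sub_cancel_right]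
    ring
  refine ⟨hB', hA', ?_⟩
  have r1 := hmp.integral_comp hemb (fun p : E × ℝ => prim ν p.2 * w (p.1 - X p.2) *
    fderiv ℝ φ p (X' p.2, (1:ℝ)))
  have r2 := hmp.integral_comp hemb (fun p : E × ℝ => ν p.2 * w (p.1 - X p.2) * φ p)
  rw [← r1, ← r2]
  have e1 : (∫ z : E × ℝ, prim ν (shear X hXc z).2 * w ((shear X hXc z).1 - X (shear X hXc z).2) *
      fderiv ℝ φ (shear X hXc z) (X' (shear X hXc z).2, (1:ℝ))) =
      ∫ z : E × ℝ, w z.1 * (prim ν z.2 * fderiv ℝ φ (z.1 + X z.2, z.2) (X' z.2, (1:ℝ))) := by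
    refine integral_congr_ae (Filter.Eventually.of_forall fun z => ?_)
    simp only [shear, Homeomorph.homeomorph_mk_coe, Equiv.coe_fn_mk, add_sub_cancel_right]
    ring
  have e2 : (∫ z : E × ℝ, ν (shear X hXc z).2 * w ((shear X hXc z).1 - X (shear X hXc z).2) *
      φ (shear X hXc z)) =
      ∫ z : E × ℝ, w z.1 * (ν z.2 * φ (z.1 + X z.2, z.2)) := by
    refine integral_congr_ae (Filter.Eventually.of_forall fun z => ?_)
    simp only [shear, Homeomorph.homeomorph_mk_coe, Equiv.coe_fn_mk, add_sub_cancel_right]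
    ring
  rw [e1, e2, vol_eq, integral_prod _ hB, integral_prod _ hA, ← integral_neg]
  refine integral_congr_ae (Filter.Eventually.of_forall fun y => ?_)
  simp only
  rw [integral_const_mul, integral_const_mul, ← mul_neg]
  congr 1
  rw [← time_ibp hν (hΦ y) (hΦc y)]
  simp only [hΦd]

end Pool.Agent.H59.NPM
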