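import Mathlib
import Pool.Agent.H59.NPM.Time

set_option autoImplicit false

/-! Time profiles of a flight. -/

namespace Pool.Agent.H59.NPM

open MeasureTheory Set
open scoped ENNReal

/-- primitive of an indicator function -/
theorem prim_Ioo (a b c t : ℝ) (hab : a ≤ b) :
    prim ((Ioo a b).indicator fun _ => c) t = c * max 0 (min t b - a) := by
  have h1 : prim ((Ioo a b).indicator fun _ => c) t = ∫ r in Ioo a (min t b), c := by
    rw [prim, setIntegral_indicator measurableSet_Ioo]
    congr 2
    ext r
    simp only [mem_inter_iff, mem_Iio, mem_Ioo, lt_min_iff]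
    tauto
  rw [h1, setIntegral_const, smul_eq_mul, mul_comm]
  congr 1
  rw [Measure.real, Real.volume_Ioo, ENNReal.toReal_ofReal']
  exact max_comm _ _

theorem integrable_ind (a b c : ℝ) : Integrable ((Ioo a b).indicator fun _ => c) := by
  rw [integrable_indicator_iff measurableSet_Ioo]
  exact integrableOn_const (by simp)

theorem integral_ind (a b c : ℝ) (hab : a ≤ b) : ∫ t, (Ioo a b).indicator (fun _ => c) t = c * (b - a) := by
  rw [integral_indicator measurableSet_Ioo, setIntegral_const, smul_eq_mul, mul_comm, Measure.real,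
    Real.volume_Ioo, ENNReal.toReal_ofReal (by linarith)]

/-- Time profiles of a flight in the interval `(τ, τ+θ)`, with mass `m`, ramps of relative
length `ς`. -/
structure Prof (m τ θ ς : ℝ) (νg νd M S : ℝ → ℝ) (A : ℝ) : Prop where
  mg : Measurable νg
  md : Measurable νd
  ig : Integrable νg
  id : Integrable νd
  ng : ∀ t, 0 ≤ νg t
  nd : ∀ t, 0 ≤ νd t
  intg : ∫ t, νg t = m
  intd : ∫ t, νd t = m
  sg : ∀ t, t ∉ Ioo τ (τ + θ) → νg t = 0
  sd : ∀ t, t ∉ Ioo τ (τ + θ) → νd t = 0
  hM : ∀ t, M t = prim (fun r => νg r - νd r) t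
  cM : Continuous M
  M0 : ∀ t, 0 ≤ M t
  Mm : ∀ t, M t ≤ m
  sM : ∀ t, t ∉ Ioo τ (τ + θ) → M t = 0
  hS : ∀ t, HasDerivAt S (M t) t
  A0 : 0 < A
  hA : ∫ t, M t = A
  hS0 : ∀ t, 0 ≤ S t
  hSA : ∀ t, S t ≤ A
  Sg : ∀ t, νg t ≠ 0 → S t ≤ 2 * ς * A
  Sd : ∀ t, νd t ≠ 0 → A - S t ≤ 2 * ς * A

theorem exists_prof {m τ θ ς : ℝ} (hm : 0 < m) (hθ : 0 < θ) (hς : 0 < ς) (hς' : ς ≤ 1 / 4) :
    ∃ (νg νd M S : ℝ → ℝ) (A : ℝ), Prof m τ θ ς νg νd M S A := by
  set κ := ς * θ with hκ
  have hκ0 : 0 < κ := by positivity
  have hκ1 : κ ≤ θ / 4 := by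
    rw [hκ]; nlinarith
  set νg : ℝ → ℝ := (Ioo τ (τ + κ)).indicator fun _ => m / κ with hνg
  set νd : ℝ → ℝ := (Ioo (τ + θ - κ) (τ + θ)).indicator fun _ => m / κ with hνd
  set M : ℝ → ℝ := fun t => prim νg t - prim νd t with hMdef
  have hg : ∀ t, prim νg t = m / κ * max 0 (min t (τ + κ) - τ) := fun t =>
    prim_Ioo _ _ _ _ (by linarith)
  have hd : ∀ t, prim νd t = m / κ * max 0 (min t (τ + θ) - (τ + θ - κ)) := fun t =>
    prim_Ioo _ _ _ _ (by linarith)
  have hM1 : ∀ t, M t = m / κ * (max 0 (min t (τ + κ) - τ) - max 0 (min t (τ + θ) - (τ + θ - κ))) := by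
    intro t
    rw [hMdef]
    simp only [hg, hd]
    ring
  have hmκ : 0 < m / κ := by positivity
  have cM : Continuous M := by
    have : M = fun t => m / κ * (max 0 (min t (τ + κ) - τ) - max 0 (min t (τ + θ) - (τ + θ - κ))) :=
      funext hM1
    rw [this]
    fun_prop
  have M0 : ∀ t, 0 ≤ M t := by
    intro t
    rw [hM1]
    refine mul_nonneg hmκ.le ?_
    have : max 0 (min t (τ + θ) - (τ + θ - κ)) ≤ max 0 (min t (τ + κ) - τ) := by
      rcases le_total t (τ + θ) with h1 | h1 <;> rcases le_total t (τ + κ) with h2 | h2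
      · rw [min_eq_left h1, min_eq_left h2]
        exact max_le_max le_rfl (by linarith)
      · rw [min_eq_left h1, min_eq_right h2]
        exact max_le_max le_rfl (by linarith)
      · rw [min_eq_right h1, min_eq_left h2]
        exact max_le_max le_rfl (by linarith)
      · rw [min_eq_right h1, min_eq_right h2]
        exact max_le_max le_rfl (by linarith)
    linarith
  have Mm : ∀ t, M t ≤ m := by
    intro t
    rw [hM1]
    have h1 : max 0 (min t (τ + κ) - τ) ≤ κ := by
      refine max_le hκ0.le ?_
      have := min_le_right t (τ + κ)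
      linarith
    have h2 : 0 ≤ max 0 (min t (τ + θ) - (τ + θ - κ)) := le_max_left _ _
    calc m / κ * (max 0 (min t (τ + κ) - τ) - max 0 (min t (τ + θ) - (τ + θ - κ)))
        ≤ m / κ * κ := by gcongr; linarith
      _ = m := by field_simp
  have sM : ∀ t, t ∉ Ioo τ (τ + θ) → M t = 0 := by
    intro t ht
    rw [hM1]
    by_cases h : t ≤ τ
    · rw [min_eq_left (by linarith : t ≤ τ + κ), min_eq_left (by linarith : t ≤ τ + θ),
        max_eq_left (by linarith), max_eq_left (by linarith)]
      ring
    · push Not at h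
      have h2 : τ + θ ≤ t := by
        by_contra h3
        push Not at h3
        exact ht ⟨h, h3⟩
      rw [min_eq_right (by linarith : τ + κ ≤ t), min_eq_right h2,
        max_eq_right (by linarith), max_eq_right (by linarith)]
      ring
  have Mmid : ∀ t ∈ Icc (τ + κ) (τ + θ - κ), M t = m := by
    intro t ht
    rw [hM1, min_eq_right ht.1, min_eq_left (by linarith [ht.2] : t ≤ τ + θ),
        max_eq_right (by linarith), max_eq_left (by linarith [ht.2])]
    field_simp
    ring
  set S : ℝ → ℝ := fun t => ∫ r in τ..t, M r with hSdef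
  have hS : ∀ t, HasDerivAt S (M t) t := fun t => cM.integral_hasStrictDerivAt τ t |>.hasDerivAt
  have hii : ∀ a b, IntervalIntegrable M volume a b := fun a b => cM.intervalIntegrable a b
  set A := S (τ + θ) with hAdef
  have hmono : Monotone S := by
    refine monotone_of_hasDerivAt_nonneg hS (fun t => M0 t)
  have hSτ : S τ = 0 := by simp [hSdef]
  have hA' : m * θ / 2 ≤ A := by
    have h1 : S (τ + θ - κ) - S (τ + κ) = m * (θ - 2 * κ) := by
      rw [hSdef]
      simp only
      rw [intervalIntegral.integral_interval_sub_left (hii _ _) (hii _ _)]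
      rw [intervalIntegral.integral_congr (g := fun _ => m)]
      · rw [intervalIntegral.integral_const, smul_eq_mul]; ring
      · intro t ht
        rw [uIcc_of_le (by linarith)] at ht
        exact Mmid t ht
    have h2 : 0 ≤ S (τ + κ) := by rw [← hSτ]; exact hmono (by linarith)
    have h3 : S (τ + θ - κ) ≤ A := hmono (by linarith)
    nlinarith
  have hA0 : 0 < A := lt_of_lt_of_le (by positivity) hA'
  have hSc1 : ∀ t, t ≤ τ → S t = 0 := by
    intro t ht
    rw [hSdef]
    simp only
    rw [intervalIntegral.integral_congr (g := fun _ => 0)]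
    · simp
    · intro r hr
      rw [uIcc_of_ge ht] at hr
      exact sM r (fun h => absurd h.1 (not_lt.2 hr.2))
  have hSc2 : ∀ t, τ + θ ≤ t → S t = A := by
    intro t ht
    have h1 : S t - A = 0 := by
      rw [hAdef, hSdef]
      simp only
      rw [intervalIntegral.integral_interval_sub_left (hii _ _) (hii _ _)]
      rw [intervalIntegral.integral_congr (g := fun _ => 0)]
      · simp
      · intro r hr
        rw [uIcc_of_le ht] at hr
        exact sM r (fun h => absurd h.2 (not_lt.2 hr.1))
    linarith
  have hS0 : ∀ t, 0 ≤ S t := by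
    intro t
    rcases le_total t τ with h | h
    · rw [hSc1 t h]
    · rw [← hSτ]; exact hmono h
  have hSA : ∀ t, S t ≤ A := by
    intro t
    rcases le_total t (τ + θ) with h | h
    · exact hmono h
    · rw [hSc2 t h]
  have hSlip : ∀ a b, a ≤ b → S b - S a ≤ m * (b - a) := by
    intro a b hab
    rw [hSdef]
    simp only
    rw [intervalIntegral.integral_interval_sub_left (hii _ _) (hii _ _)]
    calc ∫ r in a..b, M r ≤ ∫ r in a..b, m :=
          intervalIntegral.integral_mono_on hab (hii _ _) (by simp) (fun r _ => Mm r)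
      _ = m * (b - a) := by rw [intervalIntegral.integral_const, smul_eq_mul]; ring
  have hκA : m * κ ≤ 2 * ς * A := by
    rw [hκ]
    have : 2 * ς * (m * θ / 2) ≤ 2 * ς * A := by gcongr
    linarith
  refine ⟨νg, νd, M, S, A, ?_⟩
  refine
    { mg := measurable_const.indicator measurableSet_Ioo
      md := measurable_const.indicator measurableSet_Ioo
      ig := integrable_ind _ _ _
      id := integrable_ind _ _ _
      ng := fun t => indicator_nonneg (fun _ _ => hmκ.le) t
      nd := fun t => indicator_nonneg (fun _ _ => hmκ.le) t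
      intg := by rw [hνg, integral_ind _ _ _ (by linarith)]; field_simp; ring
      intd := by rw [hνd, integral_ind _ _ _ (by linarith)]; field_simp; ring
      sg := fun t ht => indicator_of_notMem (fun h => ht ⟨h.1, by linarith [h.2]⟩) _
      sd := fun t ht => indicator_of_notMem (fun h => ht ⟨by linarith [h.1], h.2⟩) _
      hM := fun t => ?_
      cM := cM
      M0 := M0
      Mm := Mm
      sM := sM
      hS := hS
      A0 := hA0
      hA := ?_
      hS0 := hS0
      hSA := hSA
      Sg := fun t ht => ?_
      Sd := fun t ht => ?_ }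
  · rw [hMdef]
    simp only [prim]
    rw [integral_sub (integrable_ind _ _ _).integrableOn (integrable_ind _ _ _).integrableOn]
  · rw [hAdef, hSdef]
    simp only
    rw [intervalIntegral.integral_of_le (by linarith), integral_Ioc_eq_integral_Ioo]
    refine (setIntegral_eq_integral_of_forall_compl_eq_zero fun t ht => sM t ht).symm
  · have h1 : t ∈ Ioo τ (τ + κ) := by
      by_contra h
      exact ht (indicator_of_notMem h _)
    have h2 := hSlip τ t h1.1.le
    rw [hSτ] at h2
    nlinarith [h1.2]
  · have h1 : t ∈ Ioo (τ + θ - κ) (τ + θ) := by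
      by_contra h
      exact ht (indicator_of_notMem h _)
    have h2 := hSlip t (τ + θ) h1.2.le
    nlinarith [h1.1]

end Pool.Agent.H59.NPM
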