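import Mathlib
import Pool.Agent.H59.NPM.Basic
import Pool.Agent.H59.NPM.Cell

set_option autoImplicit false

/-! Transport of mass along straight lines. -/

namespace Pool.Agent.H59.NPM

open MeasureTheory Set
open scoped ENNReal

section Cells

theorem measurableSet_sq (q : ℝ) : MeasurableSet (sq q) := by
  have : sq q = ⋂ j, {y : E | 0 ≤ y j ∧ y j < q} := by
    ext y; simp [sq]
  rw [this]
  refine MeasurableSet.iInter fun j => ?_
  have hj : Measurable (fun y : E => y j) := by fun_prop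
  exact (measurableSet_le measurable_const hj).inter (measurableSet_lt hj measurable_const)

theorem measurable_chi (q : ℝ) : Measurable (chi q) :=
  measurable_const.indicator (measurableSet_sq q)

theorem volume_sq {q : ℝ} (hq : 0 < q) : volume (sq q) = ENNReal.ofReal (q ^ 2) := by
  have h := (EuclideanSpace.volume_preserving_symm_measurableEquiv_toLp (Fin 2)).symm
  have hs : sq q = (MeasurableEquiv.toLp 2 (Fin 2 → ℝ)).symm ⁻¹' (Set.pi univ fun _ => Ico 0 q) := by
    ext y
    simp [sq]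
  have h2 := (EuclideanSpace.volume_preserving_symm_measurableEquiv_toLp (Fin 2)).measure_preimage
    (s := Set.pi univ fun _ => Ico 0 q) (MeasurableSet.univ_pi fun _ => measurableSet_Ico).nullMeasurableSet
  rw [hs]
  refine h2.trans ?_
  rw [volume_pi_pi]
  simp
  rw [← ENNReal.ofReal_pow hq.le]

theorem integral_chi {q : ℝ} (hq : 0 < q) : Integrable (chi q) ∧ ∫ x, chi q x = 1 := by
  have hv := volume_sq hq
  constructor
  · unfold chi
    rw [integrable_indicator_iff (measurableSet_sq q)]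
    exact integrableOn_const (by rw [hv]; exact ENNReal.ofReal_ne_top)
  · unfold chi
    rw [integral_indicator (measurableSet_sq q), setIntegral_const, measureReal_def, hv,
      ENNReal.toReal_ofReal (by positivity), smul_eq_mul]
    field_simp

theorem chi_nonneg {q : ℝ} (hq : 0 < q) (x : E) : 0 ≤ chi q x := by
  unfold chi
  exact Set.indicator_nonneg (fun _ _ => by positivity) x

/-- The measure for the parameter of the segments. -/
noncomputable abbrev mu1 : Measure ℝ := volume.restrict (Ioo (0:ℝ) 1)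

theorem measurable_chi_pair (q : ℝ) (z h : E) :
    Measurable (fun w : E × ℝ => chi q (w.1 - z - w.2 • h)) :=
  (measurable_chi q).comp (by fun_prop)

theorem measurable_seg (q : ℝ) (z h : E) : Measurable (seg q z h) := by
  have : StronglyMeasurable (fun x : E => ∫ r, chi q (x - z - r • h) ∂mu1) :=
    (measurable_chi_pair q z h).stronglyMeasurable.integral_prod_right
  exact this.measurable

theorem seg_nonneg {q : ℝ} (hq : 0 < q) (z h x : E) : 0 ≤ seg q z h x :=
  integral_nonneg fun _ => chi_nonneg hq _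

instance : IsProbabilityMeasure mu1 := ⟨by simp [mu1]⟩

theorem integrable_chi_pair {q : ℝ} (hq : 0 < q) (z h : E) :
    Integrable (fun w : ℝ × E => chi q (w.2 - z - w.1 • h)) (mu1.prod volume) := by
  have hm : Measurable (fun w : ℝ × E => chi q (w.2 - z - w.1 • h)) :=
    (measurable_chi q).comp (by fun_prop)
  rw [integrable_prod_iff hm.aestronglyMeasurable]
  have h1 : ∀ r : ℝ, ∀ f : E → ℝ, (fun x : E => f (x - z - r • h)) = fun x => f (x - (z + r • h)) := by
    intro r f; ext x; rw [sub_sub]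
  constructor
  · refine Filter.Eventually.of_forall fun r => ?_
    have := (integral_chi hq).1.comp_sub_right (z + r • h)
    simpa [sub_sub] using this
  · have h2 : (fun r : ℝ => ∫ x : E, ‖chi q (x - z - r • h)‖) = fun _ => 1 := by
      ext r
      have h3 : ∀ x : E, ‖chi q (x - z - r • h)‖ = chi q (x - (z + r • h)) := by
        intro x
        rw [Real.norm_of_nonneg (chi_nonneg hq _), sub_sub]
      simp_rw [h3]
      rw [integral_sub_right_eq_self (fun x => chi q x) (z + r • h), (integral_chi hq).2]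
    simp only [h2]
    exact integrable_const _

theorem integral_seg {q : ℝ} (hq : 0 < q) (z h : E) :
    Integrable (seg q z h) ∧ ∫ x, seg q z h x = 1 := by
  have h1 := integrable_chi_pair hq z h
  constructor
  · exact h1.integral_prod_right
  · have h2 : ∫ x : E, (∫ r : ℝ, chi q (x - z - r • h) ∂mu1) =
        ∫ r : ℝ, (∫ x : E, chi q (x - z - r • h)) ∂mu1 := by
      exact (integral_integral_swap (f := fun (r : ℝ) (x : E) => chi q (x - z - r • h)) h1).symm
    have h3 : ∀ r : ℝ, ∫ x : E, chi q (x - z - r • h) = 1 := by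
      intro r
      simp_rw [sub_sub]
      rw [integral_sub_right_eq_self (fun x => chi q x) (z + r • h), (integral_chi hq).2]
    show ∫ x : E, (∫ r : ℝ, chi q (x - z - r • h) ∂mu1) = 1
    rw [h2]
    simp_rw [h3]
    simp

theorem hasDerivAt_line {ψ : E → ℝ} (hψ : ContDiff ℝ 1 ψ) (a v : E) (r : ℝ) :
    HasDerivAt (fun r : ℝ => ψ (a + r • v)) (fderiv ℝ ψ (a + r • v) v) r := by
  have h1 : HasFDerivAt ψ (fderiv ℝ ψ (a + r • v)) (a + r • v) :=
    (hψ.differentiable one_ne_zero _).hasFDerivAt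
  have h2 : HasDerivAt (fun r : ℝ => a + r • v) v r := by
    simpa using ((hasDerivAt_id r).smul_const v).const_add a
  exact h1.comp_hasDerivAt r h2

theorem continuous_fderiv_apply {ψ : E → ℝ} (hψ : ContDiff ℝ 1 ψ) :
    Continuous (fun w : E × E => fderiv ℝ ψ w.1 w.2) :=
  (hψ.continuous_fderiv one_ne_zero).comp continuous_fst |>.clm_apply continuous_snd

theorem integral_line {ψ : E → ℝ} (hψ : ContDiff ℝ 1 ψ) (a v : E) :
    ∫ r : ℝ, fderiv ℝ ψ (a + r • v) v ∂mu1 = ψ (a + v) - ψ a := by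
  have h1 : ∫ r in (0:ℝ)..1, fderiv ℝ ψ (a + r • v) v = ψ (a + (1:ℝ) • v) - ψ (a + (0:ℝ) • v) := by
    apply intervalIntegral.integral_eq_sub_of_hasDerivAt (f := fun r : ℝ => ψ (a + r • v))
    · intro r _; exact hasDerivAt_line hψ a v r
    · apply Continuous.intervalIntegrable
      exact (continuous_fderiv_apply hψ).comp (by fun_prop : Continuous fun r : ℝ => (a + r • v, v))
  rw [intervalIntegral.integral_of_le zero_le_one, integral_Ioc_eq_integral_Ioo] at h1
  rw [h1]; simp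

theorem bound_fderiv {ψ : E → ℝ} (hψ : ContDiff ℝ 1 ψ) (hc : HasCompactSupport ψ) :
    ∃ M : ℝ, 0 ≤ M ∧ ∀ x v : E, ‖fderiv ℝ ψ x v‖ ≤ M * ‖v‖ := by
  obtain ⟨M, hM⟩ := (hc.fderiv ℝ).exists_bound_of_continuous (hψ.continuous_fderiv one_ne_zero)
  refine ⟨M, (norm_nonneg _).trans (hM 0), fun x v => ?_⟩
  exact ((fderiv ℝ ψ x).le_opNorm v).trans (mul_le_mul_of_nonneg_right (hM x) (norm_nonneg v))

theorem seg_identity {q : ℝ} (hq : 0 < q) (z h : E) {ψ : E → ℝ} (hψ : ContDiff ℝ 1 ψ)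
    (hc : HasCompactSupport ψ) :
    (∫ x, chi q (x - z - h) * ψ x) - (∫ x, chi q (x - z) * ψ x) =
      ∫ x, seg q z h x * fderiv ℝ ψ x h := by
  obtain ⟨M, hM0, hM⟩ := bound_fderiv hψ hc
  obtain ⟨M', hM'⟩ := hc.exists_bound_of_continuous hψ.continuous
  have hchi := (integral_chi hq).1
  have hint : ∀ a : E, Integrable (fun x => chi q x * ψ (x + a)) := by
    intro a
    refine hchi.mul_bdd (c := M') ?_ ?_
    · exact (hψ.continuous.comp (by fun_prop)).aestronglyMeasurable
    · exact Filter.Eventually.of_forall fun x => hM' _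
  have h1 : ∀ a : E, ∫ x, chi q (x - a) * ψ x = ∫ x, chi q x * ψ (x + a) := by
    intro a
    rw [← integral_sub_right_eq_self (fun x => chi q x * ψ (x + a)) a]
    simp
  have h2 : ∫ x, chi q (x - z - h) * ψ x = ∫ x, chi q x * ψ (x + (z + h)) := by
    rw [← h1 (z + h)]; simp_rw [sub_sub]
  rw [h2, h1 z, ← integral_sub (hint _) (hint _)]
  have h3 : ∀ x : E, chi q x * ψ (x + (z + h)) - chi q x * ψ (x + z) =
      ∫ r : ℝ, chi q x * fderiv ℝ ψ (x + z + r • h) h ∂mu1 := by
    intro x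
    rw [integral_const_mul, integral_line hψ, add_assoc]
    ring
  simp_rw [h3]
  -- Fubini
  have hI : Integrable (fun w : E × ℝ => chi q w.1 * fderiv ℝ ψ (w.1 + z + w.2 • h) h)
      (volume.prod mu1) := by
    have hb : Integrable (fun w : E × ℝ => chi q w.1 * (1 : ℝ)) (volume.prod mu1) :=
      hchi.mul_prod (integrable_const (1:ℝ))
    have hb2 : Integrable (fun w : E × ℝ => chi q w.1) (volume.prod mu1) := by simpa using hb
    refine hb2.mul_bdd (c := M * ‖h‖) ?_ ?_
    · exact ((continuous_fderiv_apply hψ).comp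
        (by fun_prop : Continuous fun w : E × ℝ => (w.1 + z + w.2 • h, h))).aestronglyMeasurable
    · exact Filter.Eventually.of_forall fun x => hM _ _
  rw [integral_integral_swap (f := fun (x : E) (r : ℝ) => chi q x * fderiv ℝ ψ (x + z + r • h) h) hI]
  have h4 : ∀ r : ℝ, ∫ x : E, chi q x * fderiv ℝ ψ (x + z + r • h) h =
      ∫ x : E, chi q (x - z - r • h) * fderiv ℝ ψ x h := by
    intro r
    rw [← integral_sub_right_eq_self (fun x => chi q x * fderiv ℝ ψ (x + z + r • h) h) (z + r • h)]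
    refine integral_congr_ae (Filter.Eventually.of_forall fun x => ?_)
    simp only
    rw [sub_sub]
    congr 3
    abel
  simp_rw [h4]
  have hI2 : Integrable (fun w : ℝ × E => chi q (w.2 - z - w.1 • h) * fderiv ℝ ψ w.2 h)
      (mu1.prod volume) := by
    refine (integrable_chi_pair hq z h).mul_bdd (c := M * ‖h‖) ?_ ?_
    · exact ((continuous_fderiv_apply hψ).comp
        (by fun_prop : Continuous fun w : ℝ × E => (w.2, h))).aestronglyMeasurable
    · exact Filter.Eventually.of_forall fun x => hM _ _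
  rw [integral_integral_swap
    (f := fun (r : ℝ) (x : E) => chi q (x - z - r • h) * fderiv ℝ ψ x h) hI2]
  refine integral_congr_ae (Filter.Eventually.of_forall fun x => ?_)
  simp only
  rw [integral_mul_const]
  rfl

end Cells

section Transport

/-- The measure on the parameters `(r, y)`. -/
noncomputable abbrev nu : Measure (ℝ × E) := mu1.prod volume

/-- The integrand of the transport field. -/
noncomputable def trW (p q : E → ℝ) (x : E) (w : ℝ × E) : E :=
  (((1 - w.1) ^ 3)⁻¹ * p ((1 - w.1)⁻¹ • (x - w.1 • w.2)) * q w.2) • (w.2 - x)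

theorem lintegral_scale {r : ℝ} (hr : r < 1) (y : E) {g : E → ℝ≥0∞} (hg : Measurable g) :
    ∫⁻ x, g ((1 - r)⁻¹ • (x - r • y)) = ENNReal.ofReal ((1 - r) ^ 2) * ∫⁻ x, g x := by
  have h1 : (1 - r)⁻¹ ≠ 0 := inv_ne_zero (by linarith : (1 - r) ≠ 0)
  have h2 : ∫⁻ x : E, g ((1 - r)⁻¹ • (x - r • y)) = ∫⁻ x : E, g ((1 - r)⁻¹ • x) :=
    lintegral_sub_right_eq_self (fun x => g ((1 - r)⁻¹ • x)) (r • y)
  rw [h2, ← lintegral_map hg (measurable_const_smul _), Measure.map_addHaar_smul _ h1,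
    lintegral_smul_measure, smul_eq_mul]
  congr 2
  rw [finrank_euclideanSpace_fin, inv_pow, inv_inv, abs_of_nonneg (by positivity)]

theorem integral_scale {r : ℝ} (hr : r < 1) (y : E) (f : E → ℝ) :
    ∫ x, f ((1 - r)⁻¹ • (x - r • y)) = (1 - r) ^ 2 * ∫ x, f x := by
  have h2 : ∫ x : E, f ((1 - r)⁻¹ • (x - r • y)) = ∫ x : E, f ((1 - r)⁻¹ • x) :=
    integral_sub_right_eq_self (fun x => f ((1 - r)⁻¹ • x)) (r • y)
  rw [h2, Measure.integral_comp_smul, finrank_euclideanSpace_fin, inv_pow, inv_inv,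
    abs_of_nonneg (by positivity), smul_eq_mul]

theorem trW_eq {p q : E → ℝ} {r : ℝ} (hr : r < 1) (x y : E) :
    trW p q x (r, y) = (((1 - r) ^ 2)⁻¹ * (p ((1 - r)⁻¹ • (x - r • y)) * q y)) •
      (y - (1 - r)⁻¹ • (x - r • y)) := by
  have h1 : (1 - r) ≠ 0 := by linarith
  have h2 : y - x = (1 - r) • (y - (1 - r)⁻¹ • (x - r • y)) := by
    rw [smul_sub, smul_smul, mul_inv_cancel₀ h1, one_smul, sub_smul, one_smul]
    abel
  unfold trW
  simp only
  rw [h2, smul_smul]
  congr 1
  field_simp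

theorem ae_nu_mem : ∀ᵐ w ∂nu, w.1 ∈ Ioo (0:ℝ) 1 :=
  Measure.quasiMeasurePreserving_fst.ae (ae_restrict_mem measurableSet_Ioo)

theorem measurable_trW {p q : E → ℝ} (hp : Measurable p) (hq : Measurable q) :
    Measurable (fun z : E × (ℝ × E) => trW p q z.1 z.2) := by
  unfold trW
  have h1 : Measurable (fun z : E × (ℝ × E) => (1 - z.2.1)⁻¹ • (z.1 - z.2.1 • z.2.2)) := by
    fun_prop
  have h2 : Measurable (fun z : E × (ℝ × E) => ((1 - z.2.1) ^ 3)⁻¹) := by fun_prop
  have h3 : Measurable (fun z : E × (ℝ × E) => z.2.2 - z.1) := by fun_prop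
  have h4 : Measurable (fun z : E × (ℝ × E) => z.2.2) := by fun_prop
  exact ((h2.mul (hp.comp h1)).mul (hq.comp h4)).smul h3

theorem measurable_trW_joint {P Q : E × ℝ → ℝ} (hP : Measurable P) (hQ : Measurable Q) :
    Measurable (fun z : (E × ℝ) × (ℝ × E) =>
      trW (fun x => P (x, z.1.2)) (fun y => Q (y, z.1.2)) z.1.1 z.2) := by
  unfold trW
  have h1 : Measurable (fun z : (E × ℝ) × (ℝ × E) =>
      ((1 - z.2.1)⁻¹ • (z.1.1 - z.2.1 • z.2.2), z.1.2)) := by fun_prop
  have h2 : Measurable (fun z : (E × ℝ) × (ℝ × E) => ((1 - z.2.1) ^ 3)⁻¹) := by fun_prop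
  have h3 : Measurable (fun z : (E × ℝ) × (ℝ × E) => z.2.2 - z.1.1) := by fun_prop
  have h4 : Measurable (fun z : (E × ℝ) × (ℝ × E) => (z.2.2, z.1.2)) := by fun_prop
  exact ((h2.mul (hP.comp h1)).mul (hQ.comp h4)).smul h3

/-- the cost -/
noncomputable def cost (p q : E → ℝ) (x y : E) : ℝ≥0∞ := ‖p x‖ₑ * ‖q y‖ₑ * ‖y - x‖ₑ

theorem measurable_cost {p q : E → ℝ} (hp : Measurable p) (hq : Measurable q) :
    Measurable (fun z : E × E => cost p q z.1 z.2) := by
  unfold cost
  fun_prop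

theorem lintegral_trW_fixed {p q : E → ℝ} (hp : Measurable p) {r : ℝ}
    (hr : r < 1) (y : E) : ∫⁻ x, ‖trW p q x (r, y)‖ₑ = ∫⁻ x, cost p q x y := by
  have h1 : ∀ x : E, ‖trW p q x (r, y)‖ₑ = (fun x' : E => ENNReal.ofReal (((1 - r) ^ 2)⁻¹) *
      cost p q x' y) ((1 - r)⁻¹ • (x - r • y)) := by
    intro x
    rw [trW_eq hr, enorm_smul, enorm_mul, enorm_mul]
    unfold cost
    rw [Real.enorm_of_nonneg (by positivity : (0:ℝ) ≤ ((1 - r) ^ 2)⁻¹)]
    ring
  simp_rw [h1]
  have hm : Measurable (fun x' : E => cost p q x' y) := by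
    unfold cost; fun_prop
  rw [lintegral_scale hr y (hm.const_mul _), lintegral_const_mul _ hm, ← mul_assoc,
    ← ENNReal.ofReal_mul (by positivity), mul_inv_cancel₀ (by
      have : (1 - r) ≠ 0 := by linarith
      positivity), ENNReal.ofReal_one, one_mul]

theorem lintegral_nu_snd {f : E → ℝ≥0∞} (hf : Measurable f) :
    ∫⁻ w, f w.2 ∂nu = ∫⁻ y, f y := by
  have h := lintegral_prod (μ := mu1) (ν := (volume : Measure E)) (fun w : ℝ × E => f w.2)
    (hf.comp measurable_snd).aemeasurable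
  rw [h]
  simp

theorem lintegral_trW {p q : E → ℝ} (hp : Measurable p) (hq : Measurable q) :
    ∫⁻ x, ∫⁻ w, ‖trW p q x w‖ₑ ∂nu = ∫⁻ x, ∫⁻ y, cost p q x y := by
  rw [lintegral_lintegral_swap (measurable_trW hp hq).enorm.aemeasurable]
  have h1 : ∫⁻ w, (∫⁻ x, ‖trW p q x w‖ₑ) ∂nu = ∫⁻ w, (∫⁻ x, cost p q x w.2) ∂nu := by
    refine lintegral_congr_ae ?_
    filter_upwards [ae_nu_mem] with w hw
    exact lintegral_trW_fixed hp hw.2 w.2
  rw [h1]
  have hm : Measurable (fun y : E => ∫⁻ x, cost p q x y) :=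
    (measurable_cost hp hq).lintegral_prod_left
  rw [lintegral_nu_snd hm]
  exact (lintegral_lintegral_swap (measurable_cost hp hq).aemeasurable).symm

theorem transport_fixed {p q : E → ℝ} (hp : Measurable p) (hq : Measurable q)
    (hfin : ∫⁻ x, ∫⁻ y, cost p q x y < ⊤) {ψ : E → ℝ} (hψ : ContDiff ℝ 1 ψ)
    (hc : HasCompactSupport ψ) :
    ∫ x, fderiv ℝ ψ x (∫ w, trW p q x w ∂nu) = ∫ x, ∫ y, p x * q y * (ψ y - ψ x) := by
  obtain ⟨M, hM0, hM⟩ := bound_fderiv hψ hc
  have hmW := measurable_trW hp hq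
  have hI : Integrable (fun z : E × (ℝ × E) => trW p q z.1 z.2) (volume.prod nu) := by
    refine ⟨hmW.aestronglyMeasurable, ?_⟩
    rw [hasFiniteIntegral_iff_enorm, lintegral_prod _ hmW.enorm.aemeasurable]
    simp only
    rw [lintegral_trW hp hq]; exact hfin
  have hfd := continuous_fderiv_apply hψ
  -- step 1
  have h1 : ∫ x, fderiv ℝ ψ x (∫ w, trW p q x w ∂nu) =
      ∫ x, (∫ w, fderiv ℝ ψ x (trW p q x w) ∂nu) := by
    refine integral_congr_ae ?_
    filter_upwards [hI.prod_right_ae] with x hx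
    exact (ContinuousLinearMap.integral_comp_comm (fderiv ℝ ψ x) hx).symm
  have hI2 : Integrable (fun z : E × (ℝ × E) => fderiv ℝ ψ z.1 (trW p q z.1 z.2))
      (volume.prod nu) := by
    refine (hI.norm.const_mul M).mono' ?_ ?_
    · exact (hfd.measurable.comp (measurable_fst.prodMk hmW)).aestronglyMeasurable
    · exact Filter.Eventually.of_forall fun z => hM _ _
  rw [h1, integral_integral_swap (f := fun (x : E) (w : ℝ × E) => fderiv ℝ ψ x (trW p q x w)) hI2]
  -- step 3
  have h3 : ∫ w, (∫ x, fderiv ℝ ψ x (trW p q x w)) ∂nu =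
      ∫ w, (∫ x, p x * q w.2 * fderiv ℝ ψ (x + w.1 • (w.2 - x)) (w.2 - x)) ∂nu := by
    refine integral_congr_ae ?_
    filter_upwards [ae_nu_mem] with w hw
    obtain ⟨r, y⟩ := w
    have hr : r < 1 := hw.2
    have hr' : (1 - r) ≠ 0 := by linarith
    have h4 : ∀ x : E, fderiv ℝ ψ x (trW p q x (r, y)) = (fun x' : E =>
        ((1 - r) ^ 2)⁻¹ * (p x' * q y * fderiv ℝ ψ (x' + r • (y - x')) (y - x')))
          ((1 - r)⁻¹ • (x - r • y)) := by
      intro x
      simp only
      have h5 : (1 - r)⁻¹ • (x - r • y) + r • (y - (1 - r)⁻¹ • (x - r • y)) = x := by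
        have : (1 - r)⁻¹ • (x - r • y) + r • (y - (1 - r)⁻¹ • (x - r • y)) =
            ((1 - r) * (1 - r)⁻¹) • (x - r • y) + r • y := by
          module
        rw [this, mul_inv_cancel₀ hr', one_smul]
        abel
      rw [h5, trW_eq hr, map_smul, smul_eq_mul]
      ring
    simp only
    rw [integral_congr_ae (Filter.Eventually.of_forall h4)]
    refine (integral_scale hr y (fun x' : E =>
        ((1 - r) ^ 2)⁻¹ * (p x' * q y * fderiv ℝ ψ (x' + r • (y - x')) (y - x')))).trans ?_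
    rw [integral_const_mul, ← mul_assoc, mul_inv_cancel₀ (by positivity), one_mul]
  rw [h3]
  -- step 4
  have hmZ : Measurable (fun z : E × (ℝ × E) =>
      p z.1 * q z.2.2 * fderiv ℝ ψ (z.1 + z.2.1 • (z.2.2 - z.1)) (z.2.2 - z.1)) := by
    have h5 : Measurable (fun z : E × (ℝ × E) =>
        fderiv ℝ ψ (z.1 + z.2.1 • (z.2.2 - z.1)) (z.2.2 - z.1)) :=
      (hfd.comp (by fun_prop : Continuous fun z : E × (ℝ × E) =>
        (z.1 + z.2.1 • (z.2.2 - z.1), z.2.2 - z.1))).measurable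
    exact ((hp.comp measurable_fst).mul (hq.comp (measurable_snd.comp measurable_snd))).mul h5
  have hIZ : Integrable (fun z : E × (ℝ × E) =>
      p z.1 * q z.2.2 * fderiv ℝ ψ (z.1 + z.2.1 • (z.2.2 - z.1)) (z.2.2 - z.1))
      (volume.prod nu) := by
    refine ⟨hmZ.aestronglyMeasurable, ?_⟩
    rw [hasFiniteIntegral_iff_enorm, lintegral_prod _ hmZ.enorm.aemeasurable]
    have hmc : Measurable (fun z : E × (ℝ × E) => cost p q z.1 z.2.2) :=
      (measurable_cost hp hq).comp
        (measurable_fst.prodMk (measurable_snd.comp measurable_snd))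
    calc ∫⁻ x, (∫⁻ w, ‖p x * q w.2 * fderiv ℝ ψ (x + w.1 • (w.2 - x)) (w.2 - x)‖ₑ ∂nu)
        ≤ ∫⁻ x, (∫⁻ w, ENNReal.ofReal M * cost p q x w.2 ∂nu) := by
          refine lintegral_mono fun x => lintegral_mono fun w => ?_
          simp only
          unfold cost
          rw [enorm_mul, enorm_mul]
          have h6 : ‖fderiv ℝ ψ (x + w.1 • (w.2 - x)) (w.2 - x)‖ₑ ≤
              ENNReal.ofReal M * ‖w.2 - x‖ₑ := by
            rw [← ofReal_norm, ← ofReal_norm, ← ENNReal.ofReal_mul hM0]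
            exact ENNReal.ofReal_le_ofReal (hM _ _)
          calc ‖p x‖ₑ * ‖q w.2‖ₑ * ‖fderiv ℝ ψ (x + w.1 • (w.2 - x)) (w.2 - x)‖ₑ
              ≤ ‖p x‖ₑ * ‖q w.2‖ₑ * (ENNReal.ofReal M * ‖w.2 - x‖ₑ) := by gcongr
            _ = ENNReal.ofReal M * (‖p x‖ₑ * ‖q w.2‖ₑ * ‖w.2 - x‖ₑ) := by ring
      _ = ENNReal.ofReal M * ∫⁻ x, ∫⁻ y, cost p q x y := by
          have h7 : ∀ x : E, ∫⁻ w, ENNReal.ofReal M * cost p q x w.2 ∂nu =
              ENNReal.ofReal M * ∫⁻ y, cost p q x y := by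
            intro x
            have hmx : Measurable (fun y : E => cost p q x y) :=
              (measurable_cost hp hq).comp (by fun_prop : Measurable fun y : E => (x, y))
            rw [lintegral_nu_snd (f := fun y => ENNReal.ofReal M * cost p q x y)
              (hmx.const_mul _), lintegral_const_mul _ hmx]
          simp_rw [h7]
          rw [lintegral_const_mul]
          exact (measurable_cost hp hq).lintegral_prod_right
      _ < ⊤ := ENNReal.mul_lt_top ENNReal.ofReal_lt_top hfin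
  rw [← integral_integral_swap (f := fun (x : E) (w : ℝ × E) =>
    p x * q w.2 * fderiv ℝ ψ (x + w.1 • (w.2 - x)) (w.2 - x)) hIZ]
  refine integral_congr_ae ?_
  filter_upwards [hIZ.prod_right_ae] with x hx
  rw [integral_prod_symm _ hx]
  refine integral_congr_ae (Filter.Eventually.of_forall fun y => ?_)
  simp only
  rw [integral_const_mul, integral_line hψ]
  congr 2
  abel_nf

/-- Transport along straight lines. -/
theorem exists_transport {P Q : E × ℝ → ℝ} (hP : Measurable P) (hQ : Measurable Q)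
    (h : ∫⁻ t : ℝ, ∫⁻ x : E, ∫⁻ y : E, ‖P (x, t)‖ₑ * ‖Q (y, t)‖ₑ * ‖y - x‖ₑ < ⊤) :
    ∃ C : E × ℝ → E, Measurable C ∧
      ∫⁻ p, ‖C p‖ₑ ≤ ∫⁻ t : ℝ, ∫⁻ x : E, ∫⁻ y : E, ‖P (x, t)‖ₑ * ‖Q (y, t)‖ₑ * ‖y - x‖ₑ ∧
      (∀ p : E × ℝ, (∀ x, P (x, p.2) = 0) → C p = 0) ∧
      ∀ φ : E × ℝ → ℝ, ContDiff ℝ 1 φ → HasCompactSupport φ →
        ∫ p, fderiv ℝ φ p (C p, (0 : ℝ)) =
          ∫ t : ℝ, ∫ x : E, ∫ y : E, P (x, t) * Q (y, t) * (φ (y, t) - φ (x, t)) := by
  have hPt : ∀ t : ℝ, Measurable (fun x : E => P (x, t)) := fun t => hP.comp (by fun_prop)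
  have hQt : ∀ t : ℝ, Measurable (fun x : E => Q (x, t)) := fun t => hQ.comp (by fun_prop)
  set C : E × ℝ → E := fun z => ∫ w, trW (fun x => P (x, z.2)) (fun y => Q (y, z.2)) z.1 w ∂nu
    with hC
  have hCm : Measurable C :=
    ((measurable_trW_joint hP hQ).stronglyMeasurable.integral_prod_right').measurable
  have hcost : ∀ t : ℝ, ∫⁻ x : E, ∫⁻ y : E, ‖P (x, t)‖ₑ * ‖Q (y, t)‖ₑ * ‖y - x‖ₑ =
      ∫⁻ x : E, ∫⁻ y : E, cost (fun x => P (x, t)) (fun y => Q (y, t)) x y := fun t => rfl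
  have hbound : ∫⁻ p, ‖C p‖ₑ ≤
      ∫⁻ t : ℝ, ∫⁻ x : E, ∫⁻ y : E, ‖P (x, t)‖ₑ * ‖Q (y, t)‖ₑ * ‖y - x‖ₑ := by
    have h1 : ∫⁻ p : E × ℝ, ‖C p‖ₑ = ∫⁻ t : ℝ, ∫⁻ x : E, ‖C (x, t)‖ₑ :=
      lintegral_prod_symm _ hCm.enorm.aemeasurable
    rw [h1]
    refine lintegral_mono fun t => ?_
    simp only
    rw [hcost t, ← lintegral_trW (hPt t) (hQt t)]
    refine lintegral_mono fun x => ?_
    exact enorm_integral_le_lintegral_enorm _
  refine ⟨C, hCm, hbound, ?_, ?_⟩
  · intro p hp
    rw [hC]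
    simp only
    have : ∀ w, trW (fun x => P (x, p.2)) (fun y => Q (y, p.2)) p.1 w = 0 := by
      intro w
      unfold trW
      simp only
      rw [hp]
      simp
    simp_rw [this]
    simp
  · intro φ hφ hc
    obtain ⟨M, hM⟩ := (hc.fderiv ℝ).exists_bound_of_continuous (hφ.continuous_fderiv one_ne_zero)
    have hM0 : 0 ≤ M := (norm_nonneg _).trans (hM 0)
    have hCint : Integrable C := ⟨hCm.aestronglyMeasurable, by
      rw [hasFiniteIntegral_iff_enorm]; exact hbound.trans_lt h⟩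
    have hgm : Measurable (fun z : E × ℝ => fderiv ℝ φ z (C z, (0 : ℝ))) := by
      have hcont : Continuous (fun w : (E × ℝ) × (E × ℝ) => fderiv ℝ φ w.1 w.2) :=
        ((hφ.continuous_fderiv one_ne_zero).comp continuous_fst).clm_apply continuous_snd
      exact hcont.measurable.comp (measurable_id.prodMk (hCm.prodMk measurable_const))
    have hgi : Integrable (fun z : E × ℝ => fderiv ℝ φ z (C z, (0 : ℝ))) := by
      refine (hCint.norm.const_mul M).mono' hgm.aestronglyMeasurable ?_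
      refine Filter.Eventually.of_forall fun z => ?_
      refine ((fderiv ℝ φ z).le_opNorm _).trans ?_
      have : ‖(C z, (0 : ℝ))‖ = ‖C z‖ := by simp [Prod.norm_def]
      rw [this]
      exact mul_le_mul_of_nonneg_right (hM z) (norm_nonneg _)
    have h1 : ∫ p : E × ℝ, fderiv ℝ φ p (C p, (0 : ℝ)) =
        ∫ t : ℝ, ∫ x : E, fderiv ℝ φ (x, t) (C (x, t), (0 : ℝ)) :=
      integral_prod_symm _ hgi
    rw [h1]
    have hmt : Measurable (fun t : ℝ => ∫⁻ x : E, ∫⁻ y : E,
        ‖P (x, t)‖ₑ * ‖Q (y, t)‖ₑ * ‖y - x‖ₑ) := by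
      have h2 : Measurable (fun z : (ℝ × E) × E =>
          ‖P (z.1.2, z.1.1)‖ₑ * ‖Q (z.2, z.1.1)‖ₑ * ‖z.2 - z.1.2‖ₑ) := by
        fun_prop
      exact (h2.lintegral_prod_right').lintegral_prod_right'
    have hae : ∀ᵐ t : ℝ, ∫⁻ x : E, ∫⁻ y : E, ‖P (x, t)‖ₑ * ‖Q (y, t)‖ₑ * ‖y - x‖ₑ < ⊤ :=
      ae_lt_top hmt h.ne
    refine integral_congr_ae ?_
    filter_upwards [hae] with t ht
    set ψ : E → ℝ := fun x => φ (x, t) with hψdef
    have hψ : ContDiff ℝ 1 ψ := hφ.comp (by fun_prop)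
    have hψc : HasCompactSupport ψ := by
      have hcl : Topology.IsClosedEmbedding (fun x : E => (x, t)) := by
        exact Topology.IsClosedEmbedding.of_continuous_injective_isClosedMap (by fun_prop)
          (fun a b hab => (Prod.mk.inj hab).1) (fun s hs => by
            have : (fun x : E => (x, t)) '' s = s ×ˢ {t} := by
              ext ⟨a, b⟩
              simp only [mem_image, Prod.mk.injEq, mem_prod, mem_singleton_iff]
              constructor
              · rintro ⟨x, hx, rfl, rfl⟩; exact ⟨hx, rfl⟩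
              · rintro ⟨hx, rfl⟩; exact ⟨a, hx, rfl, rfl⟩
            rw [this]
            exact hs.prod isClosed_singleton)
      exact hc.comp_isClosedEmbedding hcl
    have hfd : ∀ x v : E, fderiv ℝ ψ x v = fderiv ℝ φ (x, t) (v, (0 : ℝ)) := by
      intro x v
      have h2 : HasFDerivAt φ (fderiv ℝ φ (x, t)) (x, t) :=
        (hφ.differentiable one_ne_zero _).hasFDerivAt
      have h3 : HasFDerivAt (fun x : E => (x, t)) ((ContinuousLinearMap.id ℝ E).prod 0) x :=
        (hasFDerivAt_id x).prodMk (hasFDerivAt_const t x)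
      have h4 : HasFDerivAt ψ ((fderiv ℝ φ (x, t)).comp ((ContinuousLinearMap.id ℝ E).prod 0)) x :=
        h2.comp x h3
      rw [h4.fderiv]
      simp
    have h5 := transport_fixed (hPt t) (hQt t) ht hψ hψc
    simp only [hfd] at h5
    exact h5

end Transport

end Pool.Agent.H59.NPM
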