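import Mathlib
import Pool.Agent.H59.NPM.Prof
import Pool.Agent.H59.NPM.Transport
import Pool.Agent.H59.NPM.Grid

set_option autoImplicit false

/-! Flux between a cell and a moving bubble. -/

namespace Pool.Agent.H59.NPM

open MeasureTheory Set
open scoped ENNReal

theorem exists_bd {φ : E × ℝ → ℝ} (hφ : ContDiff ℝ 1 φ) (hc : HasCompactSupport φ) :
    ∃ C : ℝ, 0 ≤ C ∧ ∀ p, ‖fderiv ℝ φ p‖ ≤ C := by
  obtain ⟨C, hC⟩ := (hc.fderiv (𝕜 := ℝ)).exists_bound_of_continuous
    (hφ.continuous_fderiv one_ne_zero)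
  exact ⟨C, (norm_nonneg _).trans (hC 0), hC⟩

theorem continuous_app {φ : E × ℝ → ℝ} (hφ : ContDiff ℝ 1 φ) :
    Continuous (fun z : (E × ℝ) × (E × ℝ) => fderiv ℝ φ z.1 z.2) :=
  ((hφ.continuous_fderiv one_ne_zero).comp continuous_fst).clm_apply continuous_snd

theorem integrable_app {φ : E × ℝ → ℝ} (hφ : ContDiff ℝ 1 φ) (hc : HasCompactSupport φ)
    {V : E × ℝ → E} (hV : Integrable V) : Integrable (fun p => fderiv ℝ φ p (V p, (0:ℝ))) := by
  obtain ⟨C, hC0, hC⟩ := exists_bd hφ hc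
  refine Integrable.mono' (hV.norm.const_mul C) ?_ (Filter.Eventually.of_forall fun p => ?_)
  · have h1 : AEStronglyMeasurable (fun p : E × ℝ => (p, ((V p, (0:ℝ)) : E × ℝ))) :=
      aestronglyMeasurable_id.prodMk (hV.1.prodMk aestronglyMeasurable_const)
    exact (continuous_app hφ).comp_aestronglyMeasurable h1
  · calc ‖fderiv ℝ φ p (V p, (0:ℝ))‖ ≤ ‖fderiv ℝ φ p‖ * ‖((V p, (0:ℝ)) : E × ℝ)‖ :=
          ContinuousLinearMap.le_opNorm _ _
      _ ≤ C * ‖V p‖ := by
          gcongr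
          · exact hC p
          · simp [Prod.norm_def]

theorem integrable_app_t {φ : E × ℝ → ℝ} (hφ : ContDiff ℝ 1 φ) (hc : HasCompactSupport φ)
    {v : E × ℝ → ℝ} (hv : Integrable v) :
    Integrable (fun p => v p * fderiv ℝ φ p ((0:E), (1:ℝ))) := by
  obtain ⟨C, hC0, hC⟩ := exists_bd hφ hc
  have h1 : Continuous (fun p : E × ℝ => fderiv ℝ φ p ((0:E), (1:ℝ))) :=
    (hφ.continuous_fderiv one_ne_zero).clm_apply continuous_const
  refine hv.mul_bdd (c := C) h1.aestronglyMeasurable (Filter.Eventually.of_forall fun p => ?_)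
  calc ‖fderiv ℝ φ p ((0:E), (1:ℝ))‖ ≤ ‖fderiv ℝ φ p‖ * ‖(((0:E), (1:ℝ)) : E × ℝ)‖ :=
        ContinuousLinearMap.le_opNorm _ _
    _ ≤ C := by
        have : ‖(((0:E), (1:ℝ)) : E × ℝ)‖ = 1 := by simp [Prod.norm_def]
        rw [this, mul_one]; exact hC p

theorem lint_one {f : E → ℝ} (h0 : ∀ x, 0 ≤ f x) (hi : Integrable f) {m : ℝ} (h1 : ∫ x, f x = m) :
    ∫⁻ x, ‖f x‖ₑ = ENNReal.ofReal m := by
  rw [← h1, ofReal_integral_eq_lintegral_ofReal hi (Filter.Eventually.of_forall h0)]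
  refine lintegral_congr fun x => ?_
  rw [Real.enorm_eq_ofReal (h0 x)]

theorem lint_one_t {f : ℝ → ℝ} (h0 : ∀ x, 0 ≤ f x) (hi : Integrable f) {m : ℝ}
    (h1 : ∫ x, f x = m) : ∫⁻ x, ‖f x‖ₑ = ENNReal.ofReal m := by
  rw [← h1, ofReal_integral_eq_lintegral_ofReal hi (Filter.Eventually.of_forall h0)]
  refine lintegral_congr fun x => ?_
  rw [Real.enorm_eq_ofReal (h0 x)]

theorem flow {q : ℝ} (hq : 0 < q) (z' : E) {w : E → ℝ} (hw : Measurable w) (hw0 : ∀ x, 0 ≤ w x)
    (hwi : Integrable w) (hw1 : ∫ x, w x = 1) {X X' : ℝ → E} (hX : ∀ t, HasDerivAt X (X' t) t)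
    (hX' : Continuous X') {ν : ℝ → ℝ} (hνm : Measurable ν) (hν : Integrable ν)
    (hν0 : ∀ t, 0 ≤ ν t) {m : ℝ} (hm : ∫ t, ν t = m) {L : ℝ} (hL0 : 0 ≤ L)
    (hL : ∀ t, ν t ≠ 0 → ∀ x y, chi q (x - z') ≠ 0 → w (y - X t) ≠ 0 → ‖y - x‖ ≤ L) :
    ∃ C : E × ℝ → E, Measurable C ∧ ∫⁻ p, ‖C p‖ₑ ≤ ENNReal.ofReal (m * L) ∧
      (∀ p : E × ℝ, ν p.2 = 0 → C p = 0) ∧
      ∀ φ : E × ℝ → ℝ, ContDiff ℝ 1 φ → HasCompactSupport φ →
        ∫ p, fderiv ℝ φ p (C p, (0:ℝ)) =
          (∫ p : E × ℝ, ν p.2 * w (p.1 - X p.2) * φ p) -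
            ∫ p : E × ℝ, ν p.2 * chi q (p.1 - z') * φ p := by
  have hXc : Continuous X := continuous_iff_continuousAt.2 fun t => (hX t).continuousAt
  have hm0 : 0 ≤ m := by rw [← hm]; exact integral_nonneg hν0
  obtain ⟨hχi, hχ1⟩ := integral_chi hq
  have hχm := measurable_chi q
  have hP : Measurable (fun p : E × ℝ => ν p.2 * chi q (p.1 - z')) := by fun_prop
  have hQ : Measurable (fun p : E × ℝ => w (p.1 - X p.2)) := by fun_prop
  have hcost : ∫⁻ t : ℝ, ∫⁻ x : E, ∫⁻ y : E, ‖ν t * chi q (x - z')‖ₑ * ‖w (y - X t)‖ₑ * ‖y - x‖ₑ ≤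
      ENNReal.ofReal (m * L) := by
    calc ∫⁻ t : ℝ, ∫⁻ x : E, ∫⁻ y : E, ‖ν t * chi q (x - z')‖ₑ * ‖w (y - X t)‖ₑ * ‖y - x‖ₑ
        ≤ ∫⁻ t : ℝ, ∫⁻ x : E, ∫⁻ y : E, ‖ν t‖ₑ * ‖chi q (x - z')‖ₑ * ENNReal.ofReal L *
            ‖w (y - X t)‖ₑ := by
          refine lintegral_mono fun t => lintegral_mono fun x => lintegral_mono fun y => ?_
          simp only [enorm_mul]
          by_cases h1 : ν t = 0
          · simp [h1]
          by_cases h2 : chi q (x - z') = 0
          · simp [h2]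
          by_cases h3 : w (y - X t) = 0
          · simp [h3]
          have h4 : ‖y - x‖ₑ ≤ ENNReal.ofReal L := by
            rw [← ofReal_norm]
            exact ENNReal.ofReal_le_ofReal (hL t h1 x y h2 h3)
          calc ‖ν t‖ₑ * ‖chi q (x - z')‖ₑ * ‖w (y - X t)‖ₑ * ‖y - x‖ₑ
              ≤ ‖ν t‖ₑ * ‖chi q (x - z')‖ₑ * ‖w (y - X t)‖ₑ * ENNReal.ofReal L := by gcongr
            _ = _ := by ring
      _ = ∫⁻ t : ℝ, ∫⁻ x : E, ‖ν t‖ₑ * ENNReal.ofReal L * ‖chi q (x - z')‖ₑ := by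
          refine lintegral_congr fun t => lintegral_congr fun x => ?_
          rw [lintegral_const_mul _ (by fun_prop : Measurable fun y : E => ‖w (y - X t)‖ₑ),
            lintegral_sub_right_eq_self (fun y => ‖w y‖ₑ) (X t), lint_one hw0 hwi hw1]
          simp only [ENNReal.ofReal_one, mul_one]
          ring
      _ = ∫⁻ t : ℝ, ENNReal.ofReal L * ‖ν t‖ₑ := by
          refine lintegral_congr fun t => ?_
          rw [lintegral_const_mul _ (by fun_prop : Measurable fun x : E => ‖chi q (x - z')‖ₑ),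
            lintegral_sub_right_eq_self (fun y => ‖chi q y‖ₑ) z',
            lint_one (chi_nonneg hq) hχi hχ1]
          simp only [ENNReal.ofReal_one, mul_one]
          ring
      _ = ENNReal.ofReal (m * L) := by
          rw [lintegral_const_mul _ hνm.enorm, lint_one_t hν0 hν hm, ← ENNReal.ofReal_mul hL0,
            mul_comm]
  obtain ⟨C, hCm, hC1, hC0, hCφ⟩ := exists_transport (P := fun p => ν p.2 * chi q (p.1 - z'))
    (Q := fun p => w (p.1 - X p.2)) hP hQ (hcost.trans_lt ENNReal.ofReal_lt_top)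
  refine ⟨C, hCm, hC1.trans hcost, fun p hp => hC0 p fun x => by simp [hp], fun φ hφ hc => ?_⟩
  rw [hCφ φ hφ hc]
  obtain ⟨-, hI1, -⟩ := drift hw hwi hX hX' hνm hν hφ hc
  obtain ⟨-, hI2, -⟩ := drift (X := fun _ => z') (X' := fun _ => 0) hχm hχi
    (fun t => hasDerivAt_const t z') continuous_const hνm hν hφ hc
  rw [vol_eq, integral_prod_symm _ hI1, integral_prod_symm _ hI2]
  have hI1' := (Integrable.integral_prod_right (f := fun p : E × ℝ => ν p.2 * w (p.1 - X p.2) * φ p)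
    (μ := (volume : Measure E)) (ν := (volume : Measure ℝ)) hI1)
  have hI2' := (Integrable.integral_prod_right (f := fun p : E × ℝ => ν p.2 * chi q (p.1 - z') * φ p)
    (μ := (volume : Measure E)) (ν := (volume : Measure ℝ)) hI2)
  simp only at hI1' hI2'
  rw [← integral_sub hI1' hI2']
  refine integral_congr_ae (Filter.Eventually.of_forall fun t => ?_)
  simp only
  obtain ⟨B, hB⟩ : ∃ B, ∀ p, ‖φ p‖ ≤ B := hc.exists_bound_of_continuous hφ.continuous
  have hwX : Integrable (fun y : E => w (y - X t)) := hwi.comp_sub_right (X t)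
  have hχz : Integrable (fun x : E => chi q (x - z')) := hχi.comp_sub_right z'
  have hφt : Continuous (fun x : E => φ (x, t)) := hφ.continuous.comp (by fun_prop)
  have hwφ : Integrable (fun y : E => w (y - X t) * φ (y, t)) :=
    hwX.mul_bdd (c := B) hφt.aestronglyMeasurable (Filter.Eventually.of_forall fun y => hB _)
  have hχφ : Integrable (fun x : E => chi q (x - z') * φ (x, t)) :=
    hχz.mul_bdd (c := B) hφt.aestronglyMeasurable (Filter.Eventually.of_forall fun y => hB _)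
  have hw1' : ∫ y : E, w (y - X t) = 1 := by rw [integral_sub_right_eq_self]; exact hw1
  have hχ1' : ∫ x : E, chi q (x - z') = 1 := by rw [integral_sub_right_eq_self]; exact hχ1
  have h5 : ∀ x : E, ∫ y : E, ν t * chi q (x - z') * w (y - X t) * (φ (y, t) - φ (x, t)) =
      ν t * (chi q (x - z') * (∫ y : E, w (y - X t) * φ (y, t)) - chi q (x - z') * φ (x, t)) := by
    intro x
    have : ∀ y : E, ν t * chi q (x - z') * w (y - X t) * (φ (y, t) - φ (x, t)) =
        ν t * chi q (x - z') * (w (y - X t) * φ (y, t) - φ (x, t) * w (y - X t)) := by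
      intro y; ring
    simp only [this]
    rw [integral_const_mul, integral_sub hwφ (hwX.const_mul _), integral_const_mul, hw1']
    ring
  simp only [h5]
  rw [integral_const_mul, integral_sub (hχz.mul_const _) hχφ, integral_mul_const, hχ1', one_mul,
    mul_sub]
  congr 1
  · rw [← integral_const_mul]
    refine integral_congr_ae (Filter.Eventually.of_forall fun x => ?_)
    simp only
    ring
  · rw [← integral_const_mul]
    refine integral_congr_ae (Filter.Eventually.of_forall fun x => ?_)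
    simp only
    ring

end Pool.Agent.H59.NPM
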