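import Mathlib
import Pool.Agent.H59.NPM.Flow

set_option autoImplicit false

/-! One event of the convex integration. -/

namespace Pool.Agent.H59.NPM

open MeasureTheory Set
open scoped ENNReal

theorem prim_props {ν : ℝ → ℝ} (hν : Integrable ν) (h0 : ∀ t, 0 ≤ ν t) {m : ℝ}
    (hm : ∫ t, ν t = m) {a b : ℝ} (hs : ∀ t, t ∉ Ioo a b → ν t = 0) (t : ℝ) :
    0 ≤ prim ν t ∧ prim ν t ≤ m ∧ (t ≤ a → prim ν t = 0) ∧ (b ≤ t → prim ν t = m) := by
  refine ⟨?_, ?_, ?_, ?_⟩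
  · exact setIntegral_nonneg measurableSet_Iio fun _ _ => h0 _
  · rw [← hm]
    exact setIntegral_le_integral hν (Filter.Eventually.of_forall h0)
  · intro h
    rw [prim]
    rw [setIntegral_congr_fun (g := fun _ => 0) measurableSet_Iio]
    · simp
    · intro r hr
      exact hs r fun h2 => absurd h2.1 (not_lt.2 ((le_of_lt hr).trans h))
  · intro h
    rw [prim, ← hm]
    exact setIntegral_eq_integral_of_forall_compl_eq_zero fun r hr =>
      hs r fun h2 => hr (h2.2.trans_le h)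

theorem prim_sub {ν ν' : ℝ → ℝ} (hν : Integrable ν) (hν' : Integrable ν') (t : ℝ) :
    prim (fun r => ν r - ν' r) t = prim ν t - prim ν' t := by
  simp only [prim]
  rw [integral_sub hν.integrableOn hν'.integrableOn]

/-- the bubble -/
theorem bubble {k : E → E} {w : E → ℝ} {a : E}
    (hblock : ∀ x, w x ≠ 0 → ∫ y : E, w y • k (x - y) = -a)
    (M : ℝ → ℝ) (X : ℝ → E) (p : E × ℝ) :
    (M p.2 * w (p.1 - X p.2)) • G k (fun p => M p.2 * w (p.1 - X p.2)) p =
      (M p.2 * w (p.1 - X p.2)) • (-(M p.2 • a)) := by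
  by_cases h : w (p.1 - X p.2) = 0
  · simp [h]
  · congr 1
    simp only [G, mul_smul]
    rw [integral_smul, ← smul_neg]
    congr 1
    rw [← hblock _ h]
    have h1 := integral_add_right_eq_self (μ := (volume : Measure E))
      (fun y => w (y - X p.2) • k (p.1 - y)) (X p.2)
    rw [← h1]
    refine integral_congr_ae (Filter.Eventually.of_forall fun y => ?_)
    simp only [add_sub_cancel_right]
    congr 2
    abel

/-- flux of the exchange of the cells -/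
theorem seg_flux {q : ℝ} (hq : 0 < q) (z h : E) {σ m t₀ : ℝ} {φ : E × ℝ → ℝ}
    (hφ : ContDiff ℝ 1 φ) (hc : HasCompactSupport φ) :
    Integrable (fun p : E × ℝ => (Ioo t₀ (t₀ + σ)).indicator (fun _ => m / σ * seg q z h p.1) p.2 • h) ∧
    ∫ p, fderiv ℝ φ p ((Ioo t₀ (t₀ + σ)).indicator (fun _ => m / σ * seg q z h p.1) p.2 • h, (0 : ℝ)) =
      (∫ p : E × ℝ, (Ioo t₀ (t₀ + σ)).indicator (fun _ => m / σ) p.2 *
          chi q (p.1 - (z + h)) * φ p) -
        ∫ p : E × ℝ, (Ioo t₀ (t₀ + σ)).indicator (fun _ => m / σ) p.2 * chi q (p.1 - z) * φ p := by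
  obtain ⟨hsi, hs1⟩ := integral_seg hq z h
  obtain ⟨hχi, hχ1⟩ := integral_chi hq
  have hχm := measurable_chi q
  have hind : Integrable ((Ioo t₀ (t₀ + σ)).indicator (fun _ => m / σ)) := integrable_ind _ _ _
  have hindm : Measurable ((Ioo t₀ (t₀ + σ)).indicator (fun _ => m / σ)) :=
    measurable_const.indicator measurableSet_Ioo
  have e0 : (fun p : E × ℝ => (Ioo t₀ (t₀ + σ)).indicator (fun _ => m / σ * seg q z h p.1) p.2 • h) =
      fun p : E × ℝ => (seg q z h p.1 * (Ioo t₀ (t₀ + σ)).indicator (fun _ => m / σ) p.2) • h := by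
    funext p
    congr 1
    by_cases hp : p.2 ∈ Ioo t₀ (t₀ + σ)
    · rw [indicator_of_mem hp, indicator_of_mem hp]; ring
    · rw [indicator_of_notMem hp, indicator_of_notMem hp]; ring
  have hI : Integrable (fun p : E × ℝ =>
      (Ioo t₀ (t₀ + σ)).indicator (fun _ => m / σ * seg q z h p.1) p.2 • h) := by
    rw [e0]
    exact (hsi.mul_prod hind).smul_const h
  refine ⟨hI, ?_⟩
  have hIφ := integrable_app hφ hc hI
  obtain ⟨-, hI1, -⟩ := drift (X := fun _ => z + h) (X' := fun _ => 0) hχm hχi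
    (fun t => hasDerivAt_const t (z + h)) continuous_const hindm hind hφ hc
  obtain ⟨-, hI2, -⟩ := drift (X := fun _ => z) (X' := fun _ => 0) hχm hχi
    (fun t => hasDerivAt_const t z) continuous_const hindm hind hφ hc
  rw [vol_eq, integral_prod_symm _ hI1, integral_prod_symm _ hI2, integral_prod_symm _ hIφ]
  have hI1' := (Integrable.integral_prod_right (f := fun p : E × ℝ =>
    (Ioo t₀ (t₀ + σ)).indicator (fun _ => m / σ) p.2 * chi q (p.1 - (z + h)) * φ p)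
    (μ := (volume : Measure E)) (ν := (volume : Measure ℝ)) hI1)
  have hI2' := (Integrable.integral_prod_right (f := fun p : E × ℝ =>
    (Ioo t₀ (t₀ + σ)).indicator (fun _ => m / σ) p.2 * chi q (p.1 - z) * φ p)
    (μ := (volume : Measure E)) (ν := (volume : Measure ℝ)) hI2)
  rw [← integral_sub hI1' hI2']
  refine integral_congr_ae (Filter.Eventually.of_forall fun t => ?_)
  simp only
  set c := (Ioo t₀ (t₀ + σ)).indicator (fun _ => m / σ) t with hcdef
  have hψ : ContDiff ℝ 1 (fun x : E => φ (x, t)) := hφ.comp (by fun_prop)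
  have hψc : HasCompactSupport (fun x : E => φ (x, t)) := by
    have hK : IsCompact (Prod.fst '' tsupport φ) := hc.image continuous_fst
    refine HasCompactSupport.intro hK fun x hx => ?_
    by_contra h
    exact hx ⟨(x, t), subset_tsupport _ h, rfl⟩
  have hd : ∀ x : E, fderiv ℝ (fun x : E => φ (x, t)) x h = fderiv ℝ φ (x, t) (h, (0:ℝ)) := by
    intro x
    have h1 : HasFDerivAt φ (fderiv ℝ φ (x, t)) (x, t) :=
      (hφ.differentiable one_ne_zero _).hasFDerivAt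
    have h2 : HasFDerivAt (fun x : E => (x, t)) (ContinuousLinearMap.inl ℝ E ℝ) x :=
      hasFDerivAt_prodMk_left x t
    have h3 : HasFDerivAt (fun x : E => φ (x, t))
        ((fderiv ℝ φ (x, t)).comp (ContinuousLinearMap.inl ℝ E ℝ)) x :=
      HasFDerivAt.comp (f := fun x : E => (x, t)) x h1 h2
    rw [h3.fderiv]
    simp
  have hseg := seg_identity hq z h hψ hψc
  have e1 : ∀ x : E, fderiv ℝ φ (x, t)
      ((Ioo t₀ (t₀ + σ)).indicator (fun _ => m / σ * seg q z h x) t • h, (0:ℝ)) =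
      c * (seg q z h x * fderiv ℝ (fun x : E => φ (x, t)) x h) := by
    intro x
    rw [hd]
    have h3 : (((Ioo t₀ (t₀ + σ)).indicator (fun _ => m / σ * seg q z h x) t • h, (0:ℝ)) : E × ℝ) =
        (c * seg q z h x) • (h, (0:ℝ)) := by
      rw [Prod.smul_mk, smul_zero, hcdef]
      congr 2
      by_cases hp : t ∈ Ioo t₀ (t₀ + σ)
      · rw [indicator_of_mem hp, indicator_of_mem hp]
      · rw [indicator_of_notMem hp, indicator_of_notMem hp]; ring
    rw [h3, map_smul, smul_eq_mul]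
    ring
  simp only [e1]
  rw [integral_const_mul, ← hseg, mul_sub, ← integral_const_mul, ← integral_const_mul]
  congr 1
  · refine integral_congr_ae (Filter.Eventually.of_forall fun x => ?_)
    simp only [sub_sub]
    ring
  · refine integral_congr_ae (Filter.Eventually.of_forall fun x => ?_)
    simp only
    ring

/-- choice of the starting point of a flight -/
theorem exists_shift {q : ℝ} (hq : 0 < q) (z : E) {w : E → ℝ} (hw : Measurable w)
    (hw0 : ∀ x, 0 ≤ w x) (hwi : Integrable w) (hw1 : ∫ x, w x = 1) (hws : ∀ x, q ≤ ‖x‖ → w x = 0)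
    {M : ℝ → ℝ} (hM : Measurable M) (hM0 : ∀ t, 0 ≤ M t) {m τ θ H : ℝ} (hMm : ∀ t, M t ≤ m)
    (hMs : ∀ t, t ∉ Ioo τ (τ + θ) → M t = 0) {Y : ℝ → E} (hY : Measurable Y)
    (hYH : ∀ t, ‖Y t‖ ≤ H) {Ψ : E × ℝ → ℝ≥0∞} (hΨ : Measurable Ψ) :
    ∃ y₀ ∈ sq q, ∫⁻ p : E × ℝ, ‖M p.2 * w (p.1 - (z + y₀ + Y p.2))‖ₑ * Ψ p ≤
      ENNReal.ofReal (m / q ^ 2) * ∫⁻ p in Metric.closedBall z (H + 4 * q) ×ˢ Ioo τ (τ + θ), Ψ p := by
  have hvol := volume_sq hq
  have hm0 : 0 ≤ m := (hM0 0).trans (hMm 0)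
  have hmeas : Measurable (fun z' : E × (E × ℝ) =>
      ‖M z'.2.2 * w (z'.2.1 - (z + z'.1 + Y z'.2.2))‖ₑ * Ψ z'.2) := by
    fun_prop
  have hf : Measurable (fun y₀ : E => ∫⁻ p : E × ℝ, ‖M p.2 * w (p.1 - (z + y₀ + Y p.2))‖ₑ * Ψ p) :=
    hmeas.lintegral_prod_right'
  obtain ⟨y₀, hy₀, hle⟩ := exists_le_setLAverage (μ := (volume : Measure E)) (s := sq q)
    (f := fun y₀ : E => ∫⁻ p : E × ℝ, ‖M p.2 * w (p.1 - (z + y₀ + Y p.2))‖ₑ * Ψ p)
    (by rw [hvol]; simp; positivity) (by rw [hvol]; exact ENNReal.ofReal_ne_top) hf.aemeasurable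
  refine ⟨y₀, hy₀, hle.trans ?_⟩
  rw [setLAverage_eq, hvol]
  have hmain : ∫⁻ y₀ in sq q, ∫⁻ p : E × ℝ, ‖M p.2 * w (p.1 - (z + y₀ + Y p.2))‖ₑ * Ψ p ≤
      ENNReal.ofReal m * ∫⁻ p in Metric.closedBall z (H + 4 * q) ×ˢ Ioo τ (τ + θ), Ψ p := by
    rw [lintegral_lintegral_swap hmeas.aemeasurable]
    have hS : MeasurableSet (Metric.closedBall z (H + 4 * q) ×ˢ Ioo τ (τ + θ)) :=
      Metric.isClosed_closedBall.measurableSet.prod measurableSet_Ioo
    rw [← lintegral_const_mul _ hΨ, ← lintegral_indicator hS]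
    refine lintegral_mono fun p => ?_
    by_cases hp : p ∈ Metric.closedBall z (H + 4 * q) ×ˢ Ioo τ (τ + θ)
    · rw [indicator_of_mem hp]
      calc ∫⁻ y₀ in sq q, ‖M p.2 * w (p.1 - (z + y₀ + Y p.2))‖ₑ * Ψ p
          ≤ ∫⁻ y₀ : E, ‖M p.2 * w (p.1 - (z + y₀ + Y p.2))‖ₑ * Ψ p :=
            setLIntegral_le_lintegral _ _
        _ = ∫⁻ y₀ : E, (‖M p.2‖ₑ * Ψ p) * ‖w (p.1 - z - Y p.2 - y₀)‖ₑ := by
            refine lintegral_congr fun y => ?_
            rw [enorm_mul]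
            have : p.1 - (z + y + Y p.2) = p.1 - z - Y p.2 - y := by abel
            rw [this]
            ring
        _ = ‖M p.2‖ₑ * Ψ p := by
            rw [lintegral_const_mul _ (by fun_prop), lintegral_sub_left_eq_self (fun y => ‖w y‖ₑ),
              lint_one hw0 hwi hw1, ENNReal.ofReal_one, mul_one]
        _ ≤ ENNReal.ofReal m * Ψ p := by
            gcongr
            rw [Real.enorm_eq_ofReal (hM0 _)]
            exact ENNReal.ofReal_le_ofReal (hMm _)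
    · rw [indicator_of_notMem hp]
      refine le_of_eq ?_
      rw [setLIntegral_congr_fun (g := fun _ => 0) (measurableSet_sq q)]
      · simp
      · intro y hy
        by_cases ht : p.2 ∈ Ioo τ (τ + θ)
        · have h1 : w (p.1 - (z + y + Y p.2)) = 0 := by
            refine hws _ ?_
            by_contra hlt
            push Not at hlt
            refine hp ⟨?_, ht⟩
            rw [mem_closedBall_iff_norm]
            have h2 := Grid.norm_le_of_mem_sq hy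
            have h3 := hYH p.2
            calc ‖p.1 - z‖ = ‖(p.1 - (z + y + Y p.2)) + y + Y p.2‖ := by congr 1; abel
              _ ≤ ‖p.1 - (z + y + Y p.2)‖ + ‖y‖ + ‖Y p.2‖ := norm_add₃_le
              _ ≤ H + 4 * q := by linarith
          simp [h1]
        · simp [hMs _ ht]
  calc (∫⁻ y₀ in sq q, ∫⁻ p : E × ℝ, ‖M p.2 * w (p.1 - (z + y₀ + Y p.2))‖ₑ * Ψ p) /
        ENNReal.ofReal (q ^ 2)
      ≤ (ENNReal.ofReal m * ∫⁻ p in Metric.closedBall z (H + 4 * q) ×ˢ Ioo τ (τ + θ), Ψ p) /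
        ENNReal.ofReal (q ^ 2) := by gcongr
    _ = ENNReal.ofReal (m / q ^ 2) *
          ∫⁻ p in Metric.closedBall z (H + 4 * q) ×ˢ Ioo τ (τ + θ), Ψ p := by
        rw [ENNReal.ofReal_div_of_pos (by positivity), ENNReal.mul_div_right_comm]

theorem lint_bubble {w : E → ℝ} (hw : Measurable w)
    (hw0 : ∀ x, 0 ≤ w x) (hwi : Integrable w) (hw1 : ∫ x, w x = 1) {X : ℝ → E} (hX : Continuous X)
    {f : ℝ → ℝ≥0∞} (hf : Measurable f) :
    ∫⁻ p : E × ℝ, f p.2 * ‖w (p.1 - X p.2)‖ₑ = ∫⁻ t, f t := by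
  have hm : Measurable (fun p : E × ℝ => f p.2 * ‖w (p.1 - X p.2)‖ₑ) := by fun_prop
  rw [vol_eq, lintegral_prod_symm _ hm.aemeasurable]
  refine lintegral_congr fun t => ?_
  simp only
  rw [lintegral_const_mul _ (by fun_prop), lintegral_sub_right_eq_self (fun y => ‖w y‖ₑ),
    lint_one hw0 hwi hw1, ENNReal.ofReal_one, mul_one]

theorem integral4 {f₁ f₂ f₃ f₄ : E × ℝ → ℝ} (h₁ : Integrable f₁) (h₂ : Integrable f₂)
    (h₃ : Integrable f₃) (h₄ : Integrable f₄) :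
    (∫ p, f₁ p) + (∫ p, f₂ p) + ((∫ p, f₃ p) + ∫ p, f₄ p) =
      ∫ p, (f₁ p + f₂ p + (f₃ p + f₄ p)) := by
  have e := integral_add (h₁.add h₂) (h₃.add h₄)
  simp only [Pi.add_apply] at e
  rw [e, integral_add h₁ h₂, integral_add h₃ h₄]

theorem integral4' {f₁ f₂ f₃ f₄ : E × ℝ → ℝ} (h₁ : Integrable f₁) (h₂ : Integrable f₂)
    (h₃ : Integrable f₃) (h₄ : Integrable f₄) :
    (∫ p, f₁ p) - ((∫ p, f₂ p) - ∫ p, f₃ p) + (∫ p, f₄ p) =
      ∫ p, (f₁ p - (f₂ p - f₃ p) + f₄ p) := by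
  have e := integral_add (h₁.sub (h₂.sub h₃)) h₄
  have e' := integral_sub h₁ (h₂.sub h₃)
  simp only [Pi.sub_apply] at e e'
  rw [e, e', integral_sub h₂ h₃]

/-- One event: a mass `m` is moved from the cell `z` to the cell `z+h`, by one flight of a bubble. -/
theorem event {k : E → E} (hk : Ker k) {z h : E} {m q ς σ t₀ τ θ : ℝ} (hm : 0 ≤ m) (hq : 0 < q)
    (hς : 0 < ς) (hς' : ς ≤ 1 / 4) (hθ : 0 < θ) (hτ : t₀ ≤ τ)
    (hτθ : τ + θ ≤ t₀ + σ) {Ψ : E × ℝ → ℝ≥0∞} (hΨ : Measurable Ψ) :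
    ∃ (e b : E × ℝ → ℝ) (C : E × ℝ → E), Measurable e ∧ Measurable b ∧ Measurable C ∧
      (∀ p, |e p| ≤ m * (chi q (p.1 - z) + chi q (p.1 - z - h))) ∧
      (∀ p : E × ℝ, p.2 ∉ Ioo t₀ (t₀ + σ) → e p = 0) ∧
      (∀ p, 0 ≤ b p) ∧ (∀ p : E × ℝ, p.2 ∉ Ioo τ (τ + θ) → b p = 0) ∧
      (∀ p : E × ℝ, p.2 ∉ Ioo τ (τ + θ) → C p = 0) ∧
      ∫⁻ p, ‖b p‖ₑ ≤ ENNReal.ofReal (m * θ) ∧
      ∫⁻ p, ‖b p • G k b p‖ₑ ≤ ENNReal.ofReal (m * ‖h‖) ∧
      ∫⁻ p, ‖C p‖ₑ ≤ ENNReal.ofReal (2 * m * (5 * q + 2 * ς * ‖h‖)) ∧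
      ∫⁻ p, ‖b p‖ₑ * Ψ p ≤ ENNReal.ofReal (m / q ^ 2) *
        ∫⁻ p in Metric.closedBall z (‖h‖ + 4 * q) ×ˢ Ioo τ (τ + θ), Ψ p ∧
      ∀ φ : E × ℝ → ℝ, ContDiff ℝ 1 φ → HasCompactSupport φ →
        ∫ p, (e p + b p) * fderiv ℝ φ p ((0 : E), (1 : ℝ)) =
          ∫ p, fderiv ℝ φ p (b p • G k b p - C p +
            (Ioo t₀ (t₀ + σ)).indicator (fun _ => m / σ * seg q z h p.1) p.2 • h, (0 : ℝ)) := by
  have hσ : 0 < σ := by linarith
  rcases hm.eq_or_lt with hm0 | hm0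
  · subst hm0
    refine ⟨fun _ => 0, fun _ => 0, fun _ => 0, measurable_const, measurable_const,
      measurable_const, ?_, ?_, ?_, ?_, ?_, ?_, ?_, ?_, ?_, ?_⟩ <;> simp
    intro φ _ _
    have : ∀ p : E × ℝ, fderiv ℝ φ p ((0:E), (0:ℝ)) = 0 := fun p => map_zero _
    simp [this]
  obtain ⟨νg, νd, M, S, A, P⟩ := exists_prof (τ := τ) hm0 hθ hς hς'
  have hA0 := P.A0
  set a : E := A⁻¹ • h with ha
  have hna : ‖a‖ = A⁻¹ * ‖h‖ := by
    rw [ha, norm_smul, Real.norm_eq_abs, abs_of_pos (inv_pos.2 hA0)]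
  obtain ⟨w, hw, hw0, hwi, hw1, hws, hwb⟩ := hk.block a q hq
  have hSc : Continuous S := continuous_iff_continuousAt.2 fun t => (P.hS t).continuousAt
  have hY : ∀ t, ‖S t • a‖ ≤ ‖h‖ := by
    intro t
    rw [norm_smul, Real.norm_eq_abs, abs_of_nonneg (P.hS0 t), hna]
    calc S t * (A⁻¹ * ‖h‖) ≤ A * (A⁻¹ * ‖h‖) := by gcongr; exact P.hSA t
      _ = ‖h‖ := by field_simp
  obtain ⟨y₀, hy₀, hshift⟩ := exists_shift hq z hw hw0 hwi hw1 hws P.cM.measurable P.M0
    (m := m) (τ := τ) (θ := θ) (H := ‖h‖) P.Mm P.sM (Y := fun t => S t • a)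
    (hSc.smul continuous_const).measurable hY hΨ
  have hy₀n := Grid.norm_le_of_mem_sq hy₀
  set X : ℝ → E := fun t => z + y₀ + S t • a with hXdef
  set X' : ℝ → E := fun t => M t • a with hX'def
  have hX : ∀ t, HasDerivAt X (X' t) t := fun t => ((P.hS t).smul_const a).const_add (z + y₀)
  have hX'c : Continuous X' := P.cM.smul continuous_const
  have hXc : Continuous X := continuous_iff_continuousAt.2 fun t => (hX t).continuousAt
  have hchis : ∀ x, chi q x ≠ 0 → ‖x‖ ≤ 2 * q := by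
    intro x hx
    refine Grid.norm_le_of_mem_sq ?_
    by_contra h
    exact hx (indicator_of_notMem h _)
  have hwss : ∀ x, w x ≠ 0 → ‖x‖ ≤ q := by
    intro x hx
    by_contra h
    push Not at h
    exact hx (hws x h.le)
  obtain ⟨C₁, mC₁, lC₁, sC₁, iC₁⟩ := flow hq z hw hw0 hwi hw1 hX hX'c P.mg P.ig P.ng P.intg
    (L := 5 * q + 2 * ς * ‖h‖) (by positivity) (by
      intro t ht x y hx hy
      have h1 := hchis _ hx
      have h2 := hwss _ hy
      have h3 : ‖S t • a‖ ≤ 2 * ς * ‖h‖ := by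
        rw [norm_smul, Real.norm_eq_abs, abs_of_nonneg (P.hS0 t), hna]
        calc S t * (A⁻¹ * ‖h‖) ≤ (2 * ς * A) * (A⁻¹ * ‖h‖) := by gcongr; exact P.Sg t ht
          _ = 2 * ς * ‖h‖ := by field_simp
      have h4 : y - x = (y - X t) + (y₀ + S t • a - (x - z)) := by
        rw [hXdef]; simp only; abel
      rw [h4]
      calc ‖(y - X t) + (y₀ + S t • a - (x - z))‖
          ≤ ‖y - X t‖ + ‖y₀ + S t • a - (x - z)‖ := norm_add_le _ _
        _ ≤ ‖y - X t‖ + ((‖y₀‖ + ‖S t • a‖) + ‖x - z‖) := by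
            gcongr
            exact (norm_sub_le _ _).trans (by gcongr; exact norm_add_le _ _)
        _ ≤ 5 * q + 2 * ς * ‖h‖ := by linarith)
  obtain ⟨C₂, mC₂, lC₂, sC₂, iC₂⟩ := flow hq (z + h) hw hw0 hwi hw1 hX hX'c P.md P.id P.nd P.intd
    (L := 5 * q + 2 * ς * ‖h‖) (by positivity) (by
      intro t ht x y hx hy
      have h1 := hchis _ hx
      have h2 := hwss _ hy
      have h3 : ‖h - S t • a‖ ≤ 2 * ς * ‖h‖ := by
        have h5 : h = A • a := by rw [ha, smul_smul, mul_inv_cancel₀ hA0.ne', one_smul]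
        have h6 : h - S t • a = (A - S t) • a := by
          rw [sub_smul, ← h5]
        rw [h6, norm_smul, Real.norm_eq_abs, abs_of_nonneg (by linarith [P.hSA t]), hna]
        calc (A - S t) * (A⁻¹ * ‖h‖) ≤ (2 * ς * A) * (A⁻¹ * ‖h‖) := by
              gcongr; exact P.Sd t ht
          _ = 2 * ς * ‖h‖ := by field_simp
      have h4 : y - x = (y - X t) + (y₀ - (h - S t • a) - (x - (z + h))) := by
        rw [hXdef]; simp only; abel
      rw [h4]
      calc ‖(y - X t) + (y₀ - (h - S t • a) - (x - (z + h)))‖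
          ≤ ‖y - X t‖ + ‖y₀ - (h - S t • a) - (x - (z + h))‖ := norm_add_le _ _
        _ ≤ ‖y - X t‖ + ((‖y₀‖ + ‖h - S t • a‖) + ‖x - (z + h)‖) := by
            gcongr
            exact (norm_sub_le _ _).trans (by gcongr; exact norm_sub_le _ _)
        _ ≤ 5 * q + 2 * ς * ‖h‖ := by linarith)
  set ind : ℝ → ℝ := (Ioo t₀ (t₀ + σ)).indicator (fun _ => m / σ) with hind
  have mind : Measurable ind := measurable_const.indicator measurableSet_Ioo
  have iind : Integrable ind := integrable_ind _ _ _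
  have nind : ∀ t, 0 ≤ ind t := fun t => indicator_nonneg (fun _ _ => by positivity) t
  have intind : ∫ t, ind t = m := by
    rw [hind, integral_ind _ _ _ (by linarith)]; field_simp; ring
  have sind : ∀ t, t ∉ Ioo t₀ (t₀ + σ) → ind t = 0 := fun t ht => indicator_of_notMem ht _
  have hsub : ∀ t, t ∉ Ioo t₀ (t₀ + σ) → t ∉ Ioo τ (τ + θ) := fun t ht h2 =>
    ht ⟨lt_of_le_of_lt hτ h2.1, lt_of_lt_of_le h2.2 hτθ⟩
  have pi := fun t => prim_props iind nind intind sind t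
  have pg := fun t => prim_props P.ig P.ng P.intg (fun t ht => P.sg t (hsub t ht)) t
  have pd := fun t => prim_props P.id P.nd P.intd (fun t ht => P.sd t (hsub t ht)) t
  set ν₁ : ℝ → ℝ := fun t => ind t - νg t with hν₁
  set ν₂ : ℝ → ℝ := fun t => νd t - ind t with hν₂
  have mν₁ : Measurable ν₁ := mind.sub P.mg
  have mν₂ : Measurable ν₂ := P.md.sub mind
  have iν₁ : Integrable ν₁ := iind.sub P.ig
  have iν₂ : Integrable ν₂ := P.id.sub iind
  have p₁ : ∀ t, prim ν₁ t = prim ind t - prim νg t := fun t => prim_sub iind P.ig t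
  have p₂ : ∀ t, prim ν₂ t = prim νd t - prim ind t := fun t => prim_sub P.id iind t
  have b₁ : ∀ t, |prim ν₁ t| ≤ m := by
    intro t
    rw [p₁, abs_le]
    have h1 := pi t
    have h2 := pg t
    constructor <;> linarith [h1.1, h1.2.1, h2.1, h2.2.1]
  have b₂ : ∀ t, |prim ν₂ t| ≤ m := by
    intro t
    rw [p₂, abs_le]
    have h1 := pi t
    have h2 := pd t
    constructor <;> linarith [h1.1, h1.2.1, h2.1, h2.2.1]
  have z₁ : ∀ t, t ∉ Ioo t₀ (t₀ + σ) → prim ν₁ t = 0 ∧ prim ν₂ t = 0 := by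
    intro t ht
    rw [p₁, p₂]
    by_cases h : t ≤ t₀
    · rw [(pi t).2.2.1 h, (pg t).2.2.1 h, (pd t).2.2.1 h]; simp
    · push Not at h
      have h2 : t₀ + σ ≤ t := by
        by_contra h3
        push Not at h3
        exact ht ⟨h, h3⟩
      rw [(pi t).2.2.2 h2, (pg t).2.2.2 h2, (pd t).2.2.2 h2]; simp
  obtain ⟨hχi, hχ1⟩ := integral_chi hq
  have hχm := measurable_chi q
  have hMi : Integrable M := by
    by_contra hcon
    have := P.hA
    rw [integral_undef hcon] at this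
    linarith
  have hAm : A ≤ m * θ := by
    have h1 : ∫ t, M t ≤ ∫ t, (Ioo τ (τ + θ)).indicator (fun _ => m) t := by
      refine integral_mono hMi (integrable_ind _ _ _) fun t => ?_
      by_cases ht : t ∈ Ioo τ (τ + θ)
      · rw [indicator_of_mem ht]; exact P.Mm t
      · rw [indicator_of_notMem ht, P.sM t ht]
    rw [P.hA, integral_ind _ _ _ (by linarith)] at h1
    linarith
  set b : E × ℝ → ℝ := fun p => M p.2 * w (p.1 - X p.2) with hb
  have mb : Measurable b := by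
    have := P.cM.measurable
    fun_prop
  have b0 : ∀ p, 0 ≤ b p := fun p => mul_nonneg (P.M0 _) (hw0 _)
  have lb : ∫⁻ p, ‖b p‖ₑ = ENNReal.ofReal A := by
    have h1 := lint_bubble hw hw0 hwi hw1 hXc (f := fun t => ‖M t‖ₑ) P.cM.measurable.enorm
    rw [lint_one_t P.M0 hMi P.hA] at h1
    rw [← h1]
    refine lintegral_congr fun p => ?_
    rw [hb]
    simp only [enorm_mul]
  have hbG : ∀ p, b p • G k b p = b p • (-(X' p.2)) := fun p =>
    bubble (fun x hx => (hwb x hx).2) M X p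
  have lbG : ∫⁻ p, ‖b p • G k b p‖ₑ ≤ ENNReal.ofReal (m * ‖h‖) := by
    calc ∫⁻ p, ‖b p • G k b p‖ₑ
        ≤ ∫⁻ p : E × ℝ, (ENNReal.ofReal (m * ‖a‖) * ‖M p.2‖ₑ) * ‖w (p.1 - X p.2)‖ₑ := by
          refine lintegral_mono fun p => ?_
          rw [hbG, enorm_smul, hb, hX'def, enorm_neg]
          simp only [enorm_mul, enorm_smul]
          have h1 : ‖M p.2‖ₑ * ‖a‖ₑ ≤ ENNReal.ofReal (m * ‖a‖) := by
            rw [ENNReal.ofReal_mul hm0.le, ofReal_norm]
            gcongr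
            rw [Real.enorm_eq_ofReal (P.M0 _)]
            exact ENNReal.ofReal_le_ofReal (P.Mm _)
          calc ‖M p.2‖ₑ * ‖w (p.1 - X p.2)‖ₑ * (‖M p.2‖ₑ * ‖a‖ₑ)
              ≤ ‖M p.2‖ₑ * ‖w (p.1 - X p.2)‖ₑ * ENNReal.ofReal (m * ‖a‖) := by gcongr
            _ = _ := by ring
      _ = ∫⁻ t : ℝ, ENNReal.ofReal (m * ‖a‖) * ‖M t‖ₑ :=
          lint_bubble hw hw0 hwi hw1 hXc (f := fun t => ENNReal.ofReal (m * ‖a‖) * ‖M t‖ₑ)
            (measurable_const.mul P.cM.measurable.enorm)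
      _ = ENNReal.ofReal (m * ‖h‖) := by
          rw [lintegral_const_mul _ P.cM.measurable.enorm, lint_one_t P.M0 hMi P.hA,
            ← ENNReal.ofReal_mul (by positivity), hna]
          congr 1
          field_simp
  have mG : Measurable (G k b) := G_measurable hk mb
  have ibG : Integrable (fun p => b p • G k b p) :=
    ⟨(mb.smul mG).aestronglyMeasurable, lbG.trans_lt ENNReal.ofReal_lt_top⟩
  have iC₁' : Integrable C₁ := ⟨mC₁.aestronglyMeasurable, lC₁.trans_lt ENNReal.ofReal_lt_top⟩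
  have iC₂' : Integrable C₂ := ⟨mC₂.aestronglyMeasurable, lC₂.trans_lt ENNReal.ofReal_lt_top⟩
  refine ⟨fun p => prim ν₁ p.2 * chi q (p.1 - z) + prim ν₂ p.2 * chi q (p.1 - (z + h)), b,
    fun p => C₁ p - C₂ p, ?_, mb, mC₁.sub mC₂, ?_, ?_, b0, ?_, ?_, ?_, lbG, ?_, hshift, ?_⟩
  · have h1 := measurable_prim mν₁
    have h2 := measurable_prim mν₂
    fun_prop
  · intro p
    simp only
    rw [← sub_sub]
    have c1 := chi_nonneg hq (p.1 - z)
    have c2 := chi_nonneg hq (p.1 - z - h)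
    calc |prim ν₁ p.2 * chi q (p.1 - z) + prim ν₂ p.2 * chi q (p.1 - z - h)|
        ≤ |prim ν₁ p.2 * chi q (p.1 - z)| + |prim ν₂ p.2 * chi q (p.1 - z - h)| := abs_add_le _ _
      _ = |prim ν₁ p.2| * chi q (p.1 - z) + |prim ν₂ p.2| * chi q (p.1 - z - h) := by
          rw [abs_mul, abs_mul, abs_of_nonneg c1, abs_of_nonneg c2]
      _ ≤ m * chi q (p.1 - z) + m * chi q (p.1 - z - h) := by
          gcongr
          · exact b₁ _
          · exact b₂ _
      _ = _ := by ring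
  · intro p hp
    simp [(z₁ _ hp).1, (z₁ _ hp).2]
  · intro p hp
    rw [hb]
    simp [P.sM _ hp]
  · intro p hp
    simp [sC₁ p (P.sg _ hp), sC₂ p (P.sd _ hp)]
  · rw [lb]
    exact ENNReal.ofReal_le_ofReal hAm
  · calc ∫⁻ p, ‖C₁ p - C₂ p‖ₑ ≤ ∫⁻ p, (‖C₁ p‖ₑ + ‖C₂ p‖ₑ) :=
          lintegral_mono fun p => enorm_sub_le
      _ = (∫⁻ p, ‖C₁ p‖ₑ) + ∫⁻ p, ‖C₂ p‖ₑ := lintegral_add_left mC₁.enorm _
      _ ≤ ENNReal.ofReal (m * (5 * q + 2 * ς * ‖h‖)) + ENNReal.ofReal (m * (5 * q + 2 * ς * ‖h‖)) :=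
          add_le_add lC₁ lC₂
      _ = ENNReal.ofReal (2 * m * (5 * q + 2 * ς * ‖h‖)) := by
          rw [← ENNReal.ofReal_add (by positivity) (by positivity)]
          congr 1
          ring
  · intro φ hφ hc
    have iM : Integrable (fun r => νg r - νd r) := P.ig.sub P.id
    obtain ⟨I1, J1, E1⟩ := drift hw hwi hX hX'c (ν := fun r => νg r - νd r) (P.mg.sub P.md) iM hφ hc
    obtain ⟨I2, J2, E2⟩ := drift (X := fun _ => z) (X' := fun _ => 0) hχm hχi
      (fun t => hasDerivAt_const t z) continuous_const mν₁ iν₁ hφ hc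
    obtain ⟨I3, J3, E3⟩ := drift (X := fun _ => z + h) (X' := fun _ => 0) hχm hχi
      (fun t => hasDerivAt_const t (z + h)) continuous_const mν₂ iν₂ hφ hc
    obtain ⟨-, Jgw, -⟩ := drift hw hwi hX hX'c P.mg P.ig hφ hc
    obtain ⟨-, Jdw, -⟩ := drift hw hwi hX hX'c P.md P.id hφ hc
    obtain ⟨-, Jgz, -⟩ := drift (X := fun _ => z) (X' := fun _ => 0) hχm hχi
      (fun t => hasDerivAt_const t z) continuous_const P.mg P.ig hφ hc
    obtain ⟨-, Jiz, -⟩ := drift (X := fun _ => z) (X' := fun _ => 0) hχm hχi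
      (fun t => hasDerivAt_const t z) continuous_const mind iind hφ hc
    obtain ⟨-, Jdh, -⟩ := drift (X := fun _ => z + h) (X' := fun _ => 0) hχm hχi
      (fun t => hasDerivAt_const t (z + h)) continuous_const P.md P.id hφ hc
    obtain ⟨-, Jih, -⟩ := drift (X := fun _ => z + h) (X' := fun _ => 0) hχm hχi
      (fun t => hasDerivAt_const t (z + h)) continuous_const mind iind hφ hc
    obtain ⟨iK, EK⟩ := seg_flux hq z h (σ := σ) (m := m) (t₀ := t₀) hφ hc
    have EC₁ := iC₁ φ hφ hc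
    have EC₂ := iC₂ φ hφ hc
    have s1 : ∫ p : E × ℝ, (νg p.2 - νd p.2) * w (p.1 - X p.2) * φ p =
        (∫ p : E × ℝ, νg p.2 * w (p.1 - X p.2) * φ p) - ∫ p : E × ℝ, νd p.2 * w (p.1 - X p.2) * φ p := by
      rw [← integral_sub Jgw Jdw]
      exact integral_congr_ae (Filter.Eventually.of_forall fun p => by simp only; ring)
    have s2 : ∫ p : E × ℝ, ν₁ p.2 * chi q (p.1 - z) * φ p =
        (∫ p : E × ℝ, ind p.2 * chi q (p.1 - z) * φ p) - ∫ p : E × ℝ, νg p.2 * chi q (p.1 - z) * φ p := by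
      rw [← integral_sub Jiz Jgz]
      exact integral_congr_ae (Filter.Eventually.of_forall fun p => by simp only [hν₁]; ring)
    have s3 : ∫ p : E × ℝ, ν₂ p.2 * chi q (p.1 - (z + h)) * φ p =
        (∫ p : E × ℝ, νd p.2 * chi q (p.1 - (z + h)) * φ p) -
          ∫ p : E × ℝ, ind p.2 * chi q (p.1 - (z + h)) * φ p := by
      rw [← integral_sub Jdh Jih]
      exact integral_congr_ae (Filter.Eventually.of_forall fun p => by simp only [hν₂]; ring)
    have ibG' := integrable_app hφ hc ibG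
    have iC1' := integrable_app hφ hc iC₁'
    have iC2' := integrable_app hφ hc iC₂'
    have iK' := integrable_app hφ hc iK
    have hL : ∫ p : E × ℝ, (prim ν₁ p.2 * chi q (p.1 - z) + prim ν₂ p.2 * chi q (p.1 - (z + h)) + b p) *
        fderiv ℝ φ p ((0 : E), (1 : ℝ)) =
        ((∫ p : E × ℝ, prim ν₁ p.2 * chi q (p.1 - z) * fderiv ℝ φ p ((0:E), (1:ℝ))) +
          (∫ p : E × ℝ, prim ν₂ p.2 * chi q (p.1 - (z + h)) * fderiv ℝ φ p ((0:E), (1:ℝ)))) +
          ((∫ p : E × ℝ, prim (fun r => νg r - νd r) p.2 * w (p.1 - X p.2) *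
            fderiv ℝ φ p (X' p.2, (1:ℝ))) + ∫ p, fderiv ℝ φ p (b p • G k b p, (0:ℝ))) := by
      rw [integral4 I2 I3 I1 ibG']
      refine integral_congr_ae (Filter.Eventually.of_forall fun p => ?_)
      simp only
      have h1 : fderiv ℝ φ p (X' p.2, (1:ℝ)) =
          fderiv ℝ φ p (X' p.2, (0:ℝ)) + fderiv ℝ φ p ((0:E), (1:ℝ)) := by
        rw [← map_add]; simp
      have h2 : fderiv ℝ φ p (b p • G k b p, (0:ℝ)) = -(b p * fderiv ℝ φ p (X' p.2, (0:ℝ))) := by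
        rw [hbG]
        have : ((b p • (-(X' p.2)), (0:ℝ)) : E × ℝ) = (-(b p)) • ((X' p.2, (0:ℝ)) : E × ℝ) := by
          simp [Prod.smul_mk]
        rw [this, map_smul, smul_eq_mul]; ring
      rw [h1, h2, ← P.hM, hb]
      simp only
      ring
    have hR : ∫ p : E × ℝ, fderiv ℝ φ p (b p • G k b p - (C₁ p - C₂ p) +
            (Ioo t₀ (t₀ + σ)).indicator (fun _ => m / σ * seg q z h p.1) p.2 • h, (0 : ℝ)) =
        ((∫ p, fderiv ℝ φ p (b p • G k b p, (0:ℝ))) -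
          ((∫ p, fderiv ℝ φ p (C₁ p, (0:ℝ))) - ∫ p, fderiv ℝ φ p (C₂ p, (0:ℝ)))) +
        ∫ p, fderiv ℝ φ p
          ((Ioo t₀ (t₀ + σ)).indicator (fun _ => m / σ * seg q z h p.1) p.2 • h, (0:ℝ)) := by
      rw [integral4' ibG' iC1' iC2' iK']
      refine integral_congr_ae (Filter.Eventually.of_forall fun p => ?_)
      simp only
      rw [← map_sub, ← map_sub, ← map_add]
      simp
    simp only at hL hR ⊢
    rw [hL, hR, E1, E2, E3, EK, EC₁, EC₂, s1, s2, s3]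
    ring

end Pool.Agent.H59.NPM
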