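import Mathlib
import Pool.Agent.H59.NPM.Defs

set_option autoImplicit false

/-! Module FINAL, part A: the kernels `‖x‖ ^ (-α)` in the plane. -/

namespace Pool.Agent.H59.NPM

open MeasureTheory
open scoped ENNReal

namespace Fin

/-- The vector kernel. -/
noncomputable def kk (κ : ℝ) (x : E) : E := (-κ * ‖x‖ ^ (-(5 / 2) : ℝ)) • x

/-- The scalar kernel. -/
noncomputable def pw (α : ℝ) (x : E) : ℝ≥0∞ := ENNReal.ofReal (‖x‖ ^ (-α : ℝ))

theorem measurable_pw (α : ℝ) : Measurable (pw α) := by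
  unfold pw
  fun_prop

theorem measurable_kk (κ : ℝ) : Measurable (kk κ) := by
  unfold kk
  fun_prop

theorem kk_neg (κ : ℝ) (x : E) : kk κ (-x) = - kk κ x := by
  unfold kk
  rw [norm_neg, smul_neg]

theorem norm_kk (κ : ℝ) (hκ : 0 ≤ κ) (x : E) : ‖kk κ x‖ = κ * ‖x‖ ^ (-(3 / 2) : ℝ) := by
  unfold kk
  rw [norm_smul, norm_mul, norm_neg, Real.norm_of_nonneg hκ,
    Real.norm_of_nonneg (Real.rpow_nonneg (norm_nonneg _) _), mul_assoc]
  congr 1
  rcases eq_or_ne x 0 with h | h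
  · rw [h, norm_zero, mul_zero, Real.zero_rpow (by norm_num)]
  · have hx : 0 < ‖x‖ := norm_pos_iff.mpr h
    rw [← Real.rpow_add_one hx.ne']
    norm_num

theorem enorm_kk (κ : ℝ) (hκ : 0 ≤ κ) (x : E) : ‖kk κ x‖ₑ = ENNReal.ofReal κ * pw (3 / 2) x := by
  rw [← ofReal_norm, norm_kk κ hκ, ENNReal.ofReal_mul hκ, pw]

theorem integrableOn_pw (α : ℝ) (h2 : α < 2) :
    IntegrableOn (fun x : E => ‖x‖ ^ (-α : ℝ)) (Metric.ball (0 : E) 1) := by
  have h := (integrableOn_fun_norm_addHaar (E := E) (volume : Measure E)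
    (f := fun y : ℝ => y ^ (-α : ℝ)) (r := 1)).mpr
  apply h
  have hd : Module.finrank ℝ E - 1 = 1 := by simp
  rw [hd]
  have h1 : IntegrableOn (fun y : ℝ => y ^ (1 - α : ℝ)) (Set.Ioo (0 : ℝ) 1) := by
    have h3 := intervalIntegral.intervalIntegrable_rpow' (a := 0) (b := 1) (r := 1 - α)
      (by linarith)
    rw [intervalIntegrable_iff_integrableOn_Ioc_of_le zero_le_one] at h3
    exact h3.mono_set Set.Ioo_subset_Ioc_self
  refine h1.congr_fun ?_ measurableSet_Ioo
  intro y hy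
  simp only [pow_one, smul_eq_mul]
  rw [sub_eq_add_neg, Real.rpow_add hy.1, Real.rpow_one]

theorem lintegral_ball_pw_lt (α : ℝ) (h2 : α < 2) :
    ∫⁻ x in Metric.ball (0 : E) 1, pw α x < ⊤ := by
  have h := (integrableOn_pw α h2).2
  rw [hasFiniteIntegral_iff_ofReal] at h
  · exact h
  · exact Filter.Eventually.of_forall (fun x => Real.rpow_nonneg (norm_nonneg _) _)

theorem pw_le (α : ℝ) (h0 : 0 ≤ α) (x : E) :
    pw α x ≤ (Metric.ball (0 : E) 1).indicator (pw α) x + 1 := by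
  by_cases hx : x ∈ Metric.ball (0 : E) 1
  · rw [Set.indicator_of_mem hx]
    exact le_self_add
  · rw [Set.indicator_of_notMem hx, zero_add, pw]
    rw [Metric.mem_ball, dist_zero_right, not_lt] at hx
    rw [ENNReal.ofReal_le_one]
    exact Real.rpow_le_one_of_one_le_of_nonpos hx (by linarith)

/-- Uniform local integrability of the scalar kernels. -/
theorem loc_pw (α : ℝ) (h0 : 0 ≤ α) (h2 : α < 2) (R : ℝ) :
    ∃ C : ℝ≥0∞, C < ⊤ ∧ (∀ x : E, ∫⁻ y in Metric.closedBall (0 : E) R, pw α (x - y) ≤ C) ∧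
      (∀ y : E, ∫⁻ x in Metric.closedBall (0 : E) R, pw α (x - y) ≤ C) := by
  have key : ∀ (f : E → E), Measurable f →
      (∀ g : E → ℝ≥0∞, Measurable g → ∫⁻ y, g (f y) = ∫⁻ y, g y) →
      ∫⁻ y in Metric.closedBall (0 : E) R, pw α (f y) ≤
        (∫⁻ x in Metric.ball (0 : E) 1, pw α x) + volume (Metric.closedBall (0 : E) R) := by
    intro f hf hinv
    calc ∫⁻ y in Metric.closedBall (0 : E) R, pw α (f y)
        ≤ ∫⁻ y in Metric.closedBall (0 : E) R,
            ((Metric.ball (0 : E) 1).indicator (pw α) (f y) + 1) :=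
          lintegral_mono fun y => pw_le α h0 (f y)
      _ = (∫⁻ y in Metric.closedBall (0 : E) R, (Metric.ball (0 : E) 1).indicator (pw α) (f y))
            + ∫⁻ y in Metric.closedBall (0 : E) R, 1 := by
          rw [lintegral_add_right _ measurable_const]
      _ ≤ (∫⁻ y, (Metric.ball (0 : E) 1).indicator (pw α) (f y))
            + volume (Metric.closedBall (0 : E) R) := by
          refine add_le_add (setLIntegral_le_lintegral _ _) ?_
          rw [setLIntegral_one]
      _ = (∫⁻ x in Metric.ball (0 : E) 1, pw α x) + volume (Metric.closedBall (0 : E) R) := by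
          rw [hinv _ ((measurable_pw α).indicator measurableSet_ball),
            lintegral_indicator measurableSet_ball]
  refine ⟨(∫⁻ x in Metric.ball (0 : E) 1, pw α x) + volume (Metric.closedBall (0 : E) R), ?_,
    fun x => ?_, fun y => ?_⟩
  · exact ENNReal.add_lt_top.mpr ⟨lintegral_ball_pw_lt α h2, measure_closedBall_lt_top⟩
  · exact key (fun y => x - y) (by fun_prop) (fun g hg => lintegral_sub_left_eq_self g x)
  · exact key (fun x => x - y) (by fun_prop) (fun g hg => lintegral_sub_right_eq_self g y)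

/-- The kernel satisfies the hypotheses, given the bubbles. -/
theorem ker_kk (κ : ℝ) (hκ : 0 < κ)
    (hb : ∀ (a : E) (ρ : ℝ), 0 < ρ → ∃ w : E → ℝ, Measurable w ∧ (∀ x, 0 ≤ w x) ∧ Integrable w ∧
      ∫ x, w x = 1 ∧ (∀ x, ρ ≤ ‖x‖ → w x = 0) ∧
      ∀ x, w x ≠ 0 → Integrable (fun y : E => w y • ((-κ * ‖x - y‖ ^ (-(5 / 2) : ℝ)) • (x - y))) ∧
        ∫ y : E, w y • ((-κ * ‖x - y‖ ^ (-(5 / 2) : ℝ)) • (x - y)) = -a) : Ker (kk κ) where
  meas := measurable_kk κ
  odd := kk_neg κ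
  loc := by
    intro R
    obtain ⟨C, hC, h1, -⟩ := loc_pw (3 / 2) (by norm_num) (by norm_num) R
    refine ⟨ENNReal.ofReal κ * C, ENNReal.mul_lt_top ENNReal.ofReal_lt_top hC, fun x => ?_⟩
    simp_rw [enorm_kk κ hκ.le]
    have hm : Measurable (fun y : E => pw (3 / 2) (x - y)) :=
      (measurable_pw _).comp (by fun_prop)
    rw [lintegral_const_mul _ hm]
    exact mul_le_mul_right (h1 x) _
  block := hb

end Fin

end Pool.Agent.H59.NPM
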