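import Mathlib
import Pool.Agent.H59.NPM.FinalA

set_option autoImplicit false

/-! Module FINAL, part B: convolutions of an integrable density with a locally integrable
kernel. -/

namespace Pool.Agent.H59.NPM

open MeasureTheory
open scoped ENNReal

namespace Fin

theorem meas_mul {X : Type} [MeasurableSpace X] (α : ℝ) {v : E × ℝ → ℝ} (hv : Measurable v)
    (f : X → E × ℝ) (g : X → E) (hf : Measurable f) (hg : Measurable g) :
    Measurable (fun q => ‖v (f q)‖ₑ * pw α (g q)) := by
  have h1 : Measurable (fun q => ‖v (f q)‖ₑ) := (hv.comp hf).enorm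
  have h2 : Measurable (fun q => pw α (g q)) := (measurable_pw α).comp hg
  exact h1.mul h2

theorem lint_bound (α : ℝ) (h0 : 0 ≤ α) (h2 : α < 2) {v : E × ℝ → ℝ} (hv : Measurable v)
    (hvi : Integrable v) (R : ℝ) :
    ∫⁻ p in Metric.closedBall (0 : E) R ×ˢ (Set.univ : Set ℝ),
      ∫⁻ y, ‖v (y, p.2)‖ₑ * pw α (p.1 - y) < ⊤ := by
  obtain ⟨C, hC, -, hC2⟩ := loc_pw α h0 h2 R
  have hm : Measurable (fun q : (E × ℝ) × E => ‖v (q.2, q.1.2)‖ₑ * pw α (q.1.1 - q.2)) :=
    meas_mul α hv (fun q : (E × ℝ) × E => (q.2, q.1.2)) (fun q : (E × ℝ) × E => q.1.1 - q.2) (by fun_prop) (by fun_prop)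
  have hm2 : Measurable (fun p : E × ℝ => ∫⁻ y, ‖v (y, p.2)‖ₑ * pw α (p.1 - y)) :=
    hm.lintegral_prod_right'
  have h1 : ∫⁻ p in Metric.closedBall (0 : E) R ×ˢ (Set.univ : Set ℝ),
      ∫⁻ y, ‖v (y, p.2)‖ₑ * pw α (p.1 - y)
      = ∫⁻ t : ℝ, ∫⁻ x in Metric.closedBall (0 : E) R, ∫⁻ y, ‖v (y, t)‖ₑ * pw α (x - y) := by
    rw [Measure.volume_eq_prod, ← Measure.prod_restrict, lintegral_prod_symm _ hm2.aemeasurable,
      Measure.restrict_univ]
  rw [h1]
  have h3 : ∀ t : ℝ, ∫⁻ x in Metric.closedBall (0 : E) R, ∫⁻ y, ‖v (y, t)‖ₑ * pw α (x - y)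
      ≤ C * ∫⁻ y, ‖v (y, t)‖ₑ := by
    intro t
    have hm3 : Measurable (fun q : E × E => ‖v (q.2, t)‖ₑ * pw α (q.1 - q.2)) :=
      meas_mul α hv (fun q : E × E => (q.2, t)) (fun q : E × E => q.1 - q.2) (by fun_prop) (by fun_prop)
    have h4 : ∫⁻ x in Metric.closedBall (0 : E) R, ∫⁻ y, ‖v (y, t)‖ₑ * pw α (x - y)
        = ∫⁻ y, ∫⁻ x in Metric.closedBall (0 : E) R, ‖v (y, t)‖ₑ * pw α (x - y) :=
      lintegral_lintegral_swap hm3.aemeasurable
    rw [h4]
    have hvt : Measurable (fun y : E => ‖v (y, t)‖ₑ) := (hv.comp (by fun_prop)).enorm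
    rw [← lintegral_const_mul _ hvt]
    refine lintegral_mono fun y => ?_
    have hm4 : Measurable (fun x : E => pw α (x - y)) := (measurable_pw α).comp (by fun_prop)
    rw [lintegral_const_mul _ hm4, mul_comm]
    exact mul_le_mul_left (hC2 y) _
  calc ∫⁻ t : ℝ, ∫⁻ x in Metric.closedBall (0 : E) R, ∫⁻ y, ‖v (y, t)‖ₑ * pw α (x - y)
      ≤ ∫⁻ t : ℝ, C * ∫⁻ y, ‖v (y, t)‖ₑ := lintegral_mono h3
    _ = C * ∫⁻ t : ℝ, ∫⁻ y, ‖v (y, t)‖ₑ := by
        have : Measurable (fun t : ℝ => ∫⁻ y, ‖v (y, t)‖ₑ) :=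
          Measurable.lintegral_prod_left' (f := fun q : E × ℝ => ‖v q‖ₑ) hv.enorm
        rw [lintegral_const_mul _ this]
    _ = C * ∫⁻ p, ‖v p‖ₑ := by
        rw [Measure.volume_eq_prod, lintegral_prod_symm _ hv.enorm.aemeasurable]
    _ < ⊤ := ENNReal.mul_lt_top hC hvi.2

variable {F : Type} [NormedAddCommGroup F] [NormedSpace ℝ F]

/-- Integrability of the triple function. -/
theorem integrable_triple (α : ℝ) (h0 : 0 ≤ α) (h2 : α < 2) {v : E × ℝ → ℝ} (hv : Measurable v)
    (hvi : Integrable v) (A : E → F) (hA : StronglyMeasurable A) (c : ℝ)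
    (hc : ∀ x, ‖A x‖ₑ ≤ ENNReal.ofReal c * pw α x) (B : E × ℝ → ℝ) (hB : Measurable B) (M R : ℝ)
    (hBM : ∀ p, |B p| ≤ M) (hBR : ∀ p : E × ℝ, R < ‖p.1‖ → B p = 0) :
    Integrable (fun q : (E × ℝ) × E => B q.1 • (v (q.2, q.1.2) • A (q.1.1 - q.2)))
      ((volume : Measure (E × ℝ)).prod (volume : Measure E)) := by
  have hsm : StronglyMeasurable
      (fun q : (E × ℝ) × E => B q.1 • (v (q.2, q.1.2) • A (q.1.1 - q.2))) := by
    refine StronglyMeasurable.smul ?_ (StronglyMeasurable.smul ?_ ?_)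
    · exact (hB.comp measurable_fst).stronglyMeasurable
    · exact (hv.comp (by fun_prop)).stronglyMeasurable
    · exact hA.comp_measurable (by fun_prop)
  refine ⟨hsm.aestronglyMeasurable, ?_⟩
  unfold HasFiniteIntegral
  rw [lintegral_prod _ hsm.enorm.aemeasurable]
  have hb := lint_bound α h0 h2 hv hvi R
  have h1 : ∀ p : E × ℝ, ∫⁻ y : E, ‖B p • (v (y, p.2) • A (p.1 - y))‖ₑ ≤
      (Metric.closedBall (0 : E) R ×ˢ (Set.univ : Set ℝ)).indicator
        (fun p => ENNReal.ofReal M * (ENNReal.ofReal c *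
          ∫⁻ y, ‖v (y, p.2)‖ₑ * pw α (p.1 - y))) p := by
    intro p
    by_cases hp : p ∈ Metric.closedBall (0 : E) R ×ˢ (Set.univ : Set ℝ)
    · rw [Set.indicator_of_mem hp]
      have hm : Measurable (fun y : E => ‖v (y, p.2)‖ₑ * pw α (p.1 - y)) :=
        meas_mul α hv (fun y => (y, p.2)) (fun y => p.1 - y) (by fun_prop) (by fun_prop)
      rw [← lintegral_const_mul _ hm, ← lintegral_const_mul _ (hm.const_mul _)]
      refine lintegral_mono fun y => ?_
      rw [enorm_smul, enorm_smul]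
      have hB1 : ‖B p‖ₑ ≤ ENNReal.ofReal M := by
        rw [← ofReal_norm]
        exact ENNReal.ofReal_le_ofReal (hBM p)
      calc ‖B p‖ₑ * (‖v (y, p.2)‖ₑ * ‖A (p.1 - y)‖ₑ)
          ≤ ENNReal.ofReal M * (‖v (y, p.2)‖ₑ * (ENNReal.ofReal c * pw α (p.1 - y))) :=
            mul_le_mul' hB1 (mul_le_mul' le_rfl (hc _))
        _ = _ := by ring
    · rw [Set.indicator_of_notMem hp]
      have : B p = 0 := by
        apply hBR
        rw [Set.mem_prod] at hp
        simp only [Metric.mem_closedBall, dist_zero_right, Set.mem_univ, and_true, not_le] at hp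
        exact hp
      simp [this]
  refine (lintegral_mono h1).trans_lt ?_
  rw [lintegral_indicator (measurableSet_closedBall.prod MeasurableSet.univ)]
  have hm2 : Measurable (fun p : E × ℝ => ∫⁻ y, ‖v (y, p.2)‖ₑ * pw α (p.1 - y)) := by
    have hm : Measurable (fun q : (E × ℝ) × E => ‖v (q.2, q.1.2)‖ₑ * pw α (q.1.1 - q.2)) :=
      meas_mul α hv (fun q : (E × ℝ) × E => (q.2, q.1.2)) (fun q : (E × ℝ) × E => q.1.1 - q.2) (by fun_prop) (by fun_prop)
    exact hm.lintegral_prod_right'
  rw [lintegral_const_mul _ (hm2.const_mul _), lintegral_const_mul _ hm2]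
  exact ENNReal.mul_lt_top ENNReal.ofReal_lt_top (ENNReal.mul_lt_top ENNReal.ofReal_lt_top hb)

/-- Swapping the two space variables. -/
theorem integral_swap (h : (E × ℝ) × E → F)
    (hi : Integrable h ((volume : Measure (E × ℝ)).prod (volume : Measure E))) :
    ∫ p : E × ℝ, ∫ y : E, h (p, y) = ∫ p : E × ℝ, ∫ x : E, h ((x, p.2), p.1) := by
  set σ : (E × ℝ) × E → (E × ℝ) × E := fun q => ((q.2, q.1.2), q.1.1) with hσ
  have hmp : MeasurePreserving σ ((volume : Measure (E × ℝ)).prod (volume : Measure E))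
      ((volume : Measure (E × ℝ)).prod (volume : Measure E)) := by
    have h1 : MeasurePreserving (MeasurableEquiv.prodAssoc : (E × ℝ) × E ≃ᵐ E × (ℝ × E))
        ((volume : Measure (E × ℝ)).prod (volume : Measure E))
        ((volume : Measure E).prod ((volume : Measure ℝ).prod (volume : Measure E))) := by
      rw [Measure.volume_eq_prod]
      exact measurePreserving_prodAssoc _ _ _
    have h2 : MeasurePreserving (Prod.swap : E × (ℝ × E) → (ℝ × E) × E)
        ((volume : Measure E).prod ((volume : Measure ℝ).prod (volume : Measure E)))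
        (((volume : Measure ℝ).prod (volume : Measure E)).prod (volume : Measure E)) :=
      Measure.measurePreserving_swap
    have h3 : MeasurePreserving (Prod.map (Prod.swap : ℝ × E → E × ℝ) (id : E → E))
        (((volume : Measure ℝ).prod (volume : Measure E)).prod (volume : Measure E))
        ((volume : Measure (E × ℝ)).prod (volume : Measure E)) := by
      rw [Measure.volume_eq_prod]
      exact Measure.measurePreserving_swap.prod (MeasurePreserving.id _)
    exact h3.comp (h2.comp h1)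
  have hemb : MeasurableEmbedding σ := by
    have hinv : ∀ q, σ (σ q) = q := fun q => rfl
    let e : ((E × ℝ) × E) ≃ᵐ ((E × ℝ) × E) :=
      { toFun := σ
        invFun := σ
        left_inv := hinv
        right_inv := hinv
        measurable_toFun := hmp.measurable
        measurable_invFun := hmp.measurable }
    exact e.measurableEmbedding
  rw [← integral_prod (fun q => h q) hi]
  have hi2 : Integrable (h ∘ σ) ((volume : Measure (E × ℝ)).prod (volume : Measure E)) :=
    (hmp.integrable_comp_emb hemb).mpr hi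
  rw [← hmp.integral_comp hemb h]
  exact integral_prod (h ∘ σ) hi2

/-- Almost everywhere existence and local integrability of the convolution. -/
theorem conv_facts (α : ℝ) (h0 : 0 ≤ α) (h2 : α < 2) {v : E × ℝ → ℝ} (hv : Measurable v)
    (hvi : Integrable v) (A : E → F) (hA : StronglyMeasurable A) (c : ℝ)
    (hc : ∀ x, ‖A x‖ₑ ≤ ENNReal.ofReal c * pw α x) :
    (∀ᵐ p : E × ℝ, Integrable (fun y : E => v (y, p.2) • A (p.1 - y))) ∧
      LocallyIntegrable (fun p : E × ℝ => ∫ y : E, v (y, p.2) • A (p.1 - y)) := by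
  have key : ∀ R : ℝ, Integrable (fun q : (E × ℝ) × E =>
      ((Metric.closedBall (0 : E) R ×ˢ (Set.univ : Set ℝ)).indicator (fun _ => (1 : ℝ)) q.1) •
        (v (q.2, q.1.2) • A (q.1.1 - q.2)))
      ((volume : Measure (E × ℝ)).prod (volume : Measure E)) := by
    intro R
    apply integrable_triple α h0 h2 hv hvi A hA c hc
      ((Metric.closedBall (0 : E) R ×ˢ (Set.univ : Set ℝ)).indicator (fun _ => (1 : ℝ))) ?_ 1 R
    · intro p
      by_cases hp : p ∈ Metric.closedBall (0 : E) R ×ˢ (Set.univ : Set ℝ)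
      · rw [Set.indicator_of_mem hp]; simp
      · rw [Set.indicator_of_notMem hp]; simp
    · intro p hp
      apply Set.indicator_of_notMem
      intro h
      have := h.1
      rw [Metric.mem_closedBall, dist_zero_right] at this
      linarith
    · exact measurable_const.indicator (measurableSet_closedBall.prod MeasurableSet.univ)
  constructor
  · have h1 : ∀ n : ℕ, ∀ᵐ p : E × ℝ, Integrable (fun y : E =>
        ((Metric.closedBall (0 : E) n ×ˢ (Set.univ : Set ℝ)).indicator (fun _ => (1 : ℝ)) p) •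
        (v (y, p.2) • A (p.1 - y))) := fun n => (key n).prod_right_ae
    rw [← ae_all_iff] at h1
    filter_upwards [h1] with p hp
    obtain ⟨n, hn⟩ := exists_nat_ge ‖p.1‖
    have h3 := hp n
    have hmem : p ∈ Metric.closedBall (0 : E) n ×ˢ (Set.univ : Set ℝ) := by
      refine ⟨?_, Set.mem_univ _⟩
      rw [Metric.mem_closedBall, dist_zero_right]
      exact hn
    rw [Set.indicator_of_mem hmem] at h3
    simpa using h3
  · rw [locallyIntegrable_iff]
    intro K hK
    obtain ⟨R, hR⟩ := (hK.image continuous_fst).isBounded.subset_closedBall (0 : E)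
    have hsub : K ⊆ Metric.closedBall (0 : E) R ×ˢ (Set.univ : Set ℝ) := by
      intro p hp
      exact ⟨hR ⟨p, hp, rfl⟩, Set.mem_univ _⟩
    refine IntegrableOn.mono_set ?_ hsub
    have h1 := (key R).integral_prod_left
    have h2 : (fun p : E × ℝ => ∫ y : E,
        ((Metric.closedBall (0 : E) R ×ˢ (Set.univ : Set ℝ)).indicator (fun _ => (1 : ℝ)) p) •
        (v (y, p.2) • A (p.1 - y))) = (Metric.closedBall (0 : E) R ×ˢ (Set.univ : Set ℝ)).indicator
          (fun p : E × ℝ => ∫ y : E, v (y, p.2) • A (p.1 - y)) := by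
      funext p
      by_cases hp : p ∈ Metric.closedBall (0 : E) R ×ˢ (Set.univ : Set ℝ)
      · rw [Set.indicator_of_mem hp, Set.indicator_of_mem hp]; simp
      · rw [Set.indicator_of_notMem hp, Set.indicator_of_notMem hp]; simp
    rw [← integrable_indicator_iff (measurableSet_closedBall.prod MeasurableSet.univ), ← h2]
    exact h1

end Fin

end Pool.Agent.H59.NPM
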