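import Mathlib
import Pool.Agent.H59.NPM.FinalB

set_option autoImplicit false

/-! Module FINAL, part C: the weak gradient of `‖x‖ ^ (-1/2)` and of Riesz potentials. -/

namespace Pool.Agent.H59.NPM

open MeasureTheory
open scoped ENNReal

namespace Fin

theorem integrable_pw_mul (α : ℝ) (h0 : 0 ≤ α) (h2 : α < 2) (y : E) (g : E → ℝ)
    (hg : Continuous g) (hgc : HasCompactSupport g) :
    Integrable (fun x : E => ‖x - y‖ ^ (-α : ℝ) * g x) := by
  obtain ⟨R, hR⟩ := hgc.isCompact.isBounded.subset_closedBall (0 : E)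
  obtain ⟨C, hC, -, hC2⟩ := loc_pw α h0 h2 R
  obtain ⟨M, hM⟩ := hgc.exists_bound_of_continuous hg
  have hz : ∀ x, x ∉ Metric.closedBall (0 : E) R → g x = 0 := by
    intro x hx
    by_contra h
    exact hx (hR (subset_tsupport g h))
  have hm : Measurable (fun x : E => ‖x - y‖ ^ (-α : ℝ) * g x) := by
    have := hg.measurable
    fun_prop
  refine ⟨hm.aestronglyMeasurable, ?_⟩
  unfold HasFiniteIntegral
  calc ∫⁻ x : E, ‖‖x - y‖ ^ (-α : ℝ) * g x‖ₑ
      ≤ ∫⁻ x : E, (Metric.closedBall (0 : E) R).indicator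
          (fun x => ENNReal.ofReal M * pw α (x - y)) x := by
        refine lintegral_mono fun x => ?_
        by_cases hx : x ∈ Metric.closedBall (0 : E) R
        · rw [Set.indicator_of_mem hx, enorm_mul, mul_comm]
          refine mul_le_mul' ?_ ?_
          · rw [← ofReal_norm]
            exact ENNReal.ofReal_le_ofReal (hM x)
          · rw [← ofReal_norm, Real.norm_of_nonneg (Real.rpow_nonneg (norm_nonneg _) _)]
            exact le_rfl
        · rw [Set.indicator_of_notMem hx, hz x hx]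
          simp
    _ = ENNReal.ofReal M * ∫⁻ x in Metric.closedBall (0 : E) R, pw α (x - y) := by
        rw [lintegral_indicator measurableSet_closedBall, lintegral_const_mul]
        exact (measurable_pw α).comp (by fun_prop)
    _ < ⊤ := ENNReal.mul_lt_top ENNReal.ofReal_lt_top ((hC2 y).trans_lt hC)

/-- the smoothed kernel -/
noncomputable def fe (ε : ℝ) (y x : E) : ℝ := (‖x - y‖ ^ 2 + ε) ^ (-(1 / 4) : ℝ)

/-- derivative of the smoothed kernel -/
noncomputable def fe' (ε : ℝ) (y x : E) : E →L[ℝ] ℝ :=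
  (-(1 / 4) * (‖x - y‖ ^ 2 + ε) ^ (-(1 / 4) - 1 : ℝ)) • ((2 : ℝ) • (innerSL ℝ (x - y)))

theorem hasFDerivAt_fe (ε : ℝ) (hε : 0 < ε) (y x : E) :
    HasFDerivAt (fe ε y) (fe' ε y x) x := by
  have h1 : HasFDerivAt (fun x : E => x - y) (ContinuousLinearMap.id ℝ E) x :=
    (hasFDerivAt_id x).sub_const y
  have h2 := h1.norm_sq
  have h3 := h2.add_const ε
  have h4 := h3.rpow_const (p := (-(1 / 4) : ℝ)) (Or.inl (by positivity))
  have h5 : fe' ε y x = (-(1 / 4) * (‖x - y‖ ^ 2 + ε) ^ (-(1 / 4) - 1 : ℝ)) •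
      ((2 : ℝ) • (innerSL ℝ (x - y)).comp (ContinuousLinearMap.id ℝ E)) := by
    rw [fe', ContinuousLinearMap.comp_id]
  rw [h5]
  refine h4.congr_fderiv ?_
  rw [two_smul, two_smul]

theorem fe'_apply (ε : ℝ) (y x e : E) :
    fe' ε y x e = -(1 / 2) * (‖x - y‖ ^ 2 + ε) ^ (-(5 / 4) : ℝ) * inner ℝ (x - y) e := by
  unfold fe'
  rw [smul_apply, smul_apply, innerSL_apply_apply]
  have : (-(1 / 4) - 1 : ℝ) = -(5 / 4) := by norm_num
  rw [this, smul_eq_mul, smul_eq_mul]
  ring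

theorem continuous_fe (ε : ℝ) (hε : 0 < ε) (y : E) : Continuous (fe ε y) := by
  unfold fe
  apply Continuous.rpow_const
  · fun_prop
  · intro x
    left
    positivity

theorem continuous_fe' (ε : ℝ) (hε : 0 < ε) (y e : E) : Continuous (fun x => fe' ε y x e) := by
  simp_rw [fe'_apply]
  apply Continuous.mul
  · apply Continuous.mul continuous_const
    apply Continuous.rpow_const
    · fun_prop
    · intro x
      left
      positivity
  · fun_prop

/-- Integration by parts for the smoothed kernel. -/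
theorem ibp_fe (ε : ℝ) (hε : 0 < ε) (y e : E) (g : E → ℝ) (hg : ContDiff ℝ 1 g)
    (hgc : HasCompactSupport g) :
    ∫ x : E, fe ε y x * fderiv ℝ g x e = - ∫ x : E, fe' ε y x e * g x := by
  have hdc : Continuous (fun x => fderiv ℝ g x e) :=
    (hg.continuous_fderiv one_ne_zero).clm_apply continuous_const
  have hds : HasCompactSupport (fun x => fderiv ℝ g x e) := hgc.fderiv_apply ℝ e
  have h := integral_bilinear_hasFDerivAt_right_eq_neg_left_of_integrable (μ := (volume : Measure E))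
    (f := fe ε y) (f' := fe' ε y) (g := g) (g' := fderiv ℝ g) (v := e)
    (B := ContinuousLinearMap.mul ℝ ℝ) ?_ ?_ ?_ ?_ ?_
  · exact h
  · exact ((continuous_fe' ε hε y e).mul hg.continuous).integrable_of_hasCompactSupport
      hgc.mul_left
  · exact ((continuous_fe ε hε y).mul hdc).integrable_of_hasCompactSupport hds.mul_left
  · exact ((continuous_fe ε hε y).mul hg.continuous).integrable_of_hasCompactSupport
      hgc.mul_left
  · intro x _
    exact hasFDerivAt_fe ε hε y x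
  · intro x _
    exact (hg.differentiable one_ne_zero x).hasFDerivAt

theorem fe_le (ε : ℝ) (hε : 0 < ε) (y x : E) (hx : x ≠ y) :
    fe ε y x ≤ ‖x - y‖ ^ (-(1 / 2) : ℝ) := by
  have hp : 0 < ‖x - y‖ := norm_pos_iff.mpr (sub_ne_zero.mpr hx)
  unfold fe
  calc (‖x - y‖ ^ 2 + ε) ^ (-(1 / 4) : ℝ) ≤ (‖x - y‖ ^ 2) ^ (-(1 / 4) : ℝ) := by
        apply Real.rpow_le_rpow_of_nonpos (by positivity) (by linarith) (by norm_num)
    _ = ‖x - y‖ ^ (-(1 / 2) : ℝ) := by
        rw [← Real.rpow_natCast, ← Real.rpow_mul hp.le]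
        norm_num

theorem fe'_le (ε : ℝ) (hε : 0 < ε) (y x e : E) (hx : x ≠ y) :
    |fe' ε y x e| ≤ ‖e‖ * ‖x - y‖ ^ (-(3 / 2) : ℝ) := by
  have hp : 0 < ‖x - y‖ := norm_pos_iff.mpr (sub_ne_zero.mpr hx)
  rw [fe'_apply, abs_mul, abs_mul]
  have h1 : |(-(1 / 2) : ℝ)| ≤ 1 := by norm_num
  have h2 : |(‖x - y‖ ^ 2 + ε) ^ (-(5 / 4) : ℝ)| ≤ ‖x - y‖ ^ (-(5 / 2) : ℝ) := by
    rw [abs_of_nonneg (by positivity)]
    calc (‖x - y‖ ^ 2 + ε) ^ (-(5 / 4) : ℝ) ≤ (‖x - y‖ ^ 2) ^ (-(5 / 4) : ℝ) := by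
          apply Real.rpow_le_rpow_of_nonpos (by positivity) (by linarith) (by norm_num)
      _ = ‖x - y‖ ^ (-(5 / 2) : ℝ) := by
          rw [← Real.rpow_natCast, ← Real.rpow_mul hp.le]
          norm_num
  have h3 : |(inner ℝ (x - y) e : ℝ)| ≤ ‖x - y‖ * ‖e‖ := abs_real_inner_le_norm _ _
  calc |(-(1 / 2) : ℝ)| * |(‖x - y‖ ^ 2 + ε) ^ (-(5 / 4) : ℝ)| * |(inner ℝ (x - y) e : ℝ)|
      ≤ 1 * ‖x - y‖ ^ (-(5 / 2) : ℝ) * (‖x - y‖ * ‖e‖) := by gcongr
    _ = ‖e‖ * (‖x - y‖ ^ (-(5 / 2) : ℝ) * ‖x - y‖) := by ring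
    _ = ‖e‖ * ‖x - y‖ ^ (-(3 / 2) : ℝ) := by
        rw [← Real.rpow_add_one hp.ne']
        norm_num

/-- The weak gradient of `‖x - y‖ ^ (-1/2)`. -/
theorem ibp_riesz (y e : E) (g : E → ℝ) (hg : ContDiff ℝ 1 g) (hgc : HasCompactSupport g) :
    ∫ x : E, ‖x - y‖ ^ (-(1 / 2) : ℝ) * fderiv ℝ g x e =
      ∫ x : E, (1 / 2 * ‖x - y‖ ^ (-(5 / 2) : ℝ) * inner ℝ (x - y) e) * g x := by
  have hdc : Continuous (fun x => fderiv ℝ g x e) :=
    (hg.continuous_fderiv one_ne_zero).clm_apply continuous_const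
  have hds : HasCompactSupport (fun x => fderiv ℝ g x e) := hgc.fderiv_apply ℝ e
  set ε : ℕ → ℝ := fun n => 1 / ((n : ℝ) + 1) with hε
  have hεpos : ∀ n, 0 < ε n := fun n => by rw [hε]; positivity
  have hε0 : Filter.Tendsto ε Filter.atTop (nhds 0) := tendsto_one_div_add_atTop_nhds_zero_nat
  have hne : ∀ᵐ x : E, x ≠ y := by
    rw [ae_iff]
    simp
  have hlim1 : Filter.Tendsto (fun n => ∫ x : E, fe (ε n) y x * fderiv ℝ g x e) Filter.atTop
      (nhds (∫ x : E, ‖x - y‖ ^ (-(1 / 2) : ℝ) * fderiv ℝ g x e)) := by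
    apply tendsto_integral_of_dominated_convergence
      (fun x => ‖‖x - y‖ ^ (-(1 / 2) : ℝ) * fderiv ℝ g x e‖)
    · intro n
      exact ((continuous_fe (ε n) (hεpos n) y).mul hdc).aestronglyMeasurable
    · exact (integrable_pw_mul (1 / 2) (by norm_num) (by norm_num) y _ hdc hds).norm
    · intro n
      filter_upwards [hne] with x hx
      rw [norm_mul, norm_mul]
      apply mul_le_mul_of_nonneg_right _ (norm_nonneg _)
      have h1 := fe_le (ε n) (hεpos n) y x hx
      have h2 : 0 ≤ fe (ε n) y x := by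
        unfold fe
        have := hεpos n
        positivity
      rw [Real.norm_of_nonneg h2, Real.norm_of_nonneg (h2.trans h1)]
      exact h1
    · filter_upwards [hne] with x hx
      have hp : 0 < ‖x - y‖ := norm_pos_iff.mpr (sub_ne_zero.mpr hx)
      apply Filter.Tendsto.mul_const
      unfold fe
      have h1 : Filter.Tendsto (fun n => ‖x - y‖ ^ 2 + ε n) Filter.atTop
          (nhds (‖x - y‖ ^ 2 + 0)) := hε0.const_add _
      rw [add_zero] at h1
      have h2 := h1.rpow_const (p := (-(1 / 4) : ℝ)) (Or.inl (by positivity))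
      have h3 : (‖x - y‖ ^ 2) ^ (-(1 / 4) : ℝ) = ‖x - y‖ ^ (-(1 / 2) : ℝ) := by
        rw [← Real.rpow_natCast, ← Real.rpow_mul hp.le]
        norm_num
      rw [h3] at h2
      exact h2
  have hlim2 : Filter.Tendsto (fun n => ∫ x : E, fe' (ε n) y x e * g x) Filter.atTop
      (nhds (∫ x : E, (-(1 / 2) * ‖x - y‖ ^ (-(5 / 2) : ℝ) * inner ℝ (x - y) e) * g x)) := by
    apply tendsto_integral_of_dominated_convergence
      (fun x => ‖e‖ * ‖‖x - y‖ ^ (-(3 / 2) : ℝ) * g x‖)
    · intro n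
      exact ((continuous_fe' (ε n) (hεpos n) y e).mul hg.continuous).aestronglyMeasurable
    · exact (integrable_pw_mul (3 / 2) (by norm_num) (by norm_num) y _ hg.continuous hgc).norm.const_mul _
    · intro n
      filter_upwards [hne] with x hx
      rw [norm_mul, norm_mul, ← mul_assoc]
      apply mul_le_mul_of_nonneg_right _ (norm_nonneg _)
      rw [Real.norm_eq_abs, Real.norm_of_nonneg (Real.rpow_nonneg (norm_nonneg _) _)]
      exact fe'_le (ε n) (hεpos n) y x e hx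
    · filter_upwards [hne] with x hx
      have hp : 0 < ‖x - y‖ := norm_pos_iff.mpr (sub_ne_zero.mpr hx)
      apply Filter.Tendsto.mul_const
      simp_rw [fe'_apply]
      apply Filter.Tendsto.mul_const
      apply Filter.Tendsto.const_mul
      have h1 : Filter.Tendsto (fun n => ‖x - y‖ ^ 2 + ε n) Filter.atTop
          (nhds (‖x - y‖ ^ 2 + 0)) := hε0.const_add _
      rw [add_zero] at h1
      have h2 := h1.rpow_const (p := (-(5 / 4) : ℝ)) (Or.inl (by positivity))
      have h3 : (‖x - y‖ ^ 2) ^ (-(5 / 4) : ℝ) = ‖x - y‖ ^ (-(5 / 2) : ℝ) := by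
        rw [← Real.rpow_natCast, ← Real.rpow_mul hp.le]
        norm_num
      rw [h3] at h2
      exact h2
  have hlim3 : Filter.Tendsto (fun n => ∫ x : E, fe (ε n) y x * fderiv ℝ g x e) Filter.atTop
      (nhds (- ∫ x : E, (-(1 / 2) * ‖x - y‖ ^ (-(5 / 2) : ℝ) * inner ℝ (x - y) e) * g x)) := by
    have h1 := hlim2.neg
    refine h1.congr (fun n => ?_)
    rw [ibp_fe (ε n) (hεpos n) y e g hg hgc]
  rw [tendsto_nhds_unique hlim1 hlim3, ← integral_neg]
  congr 1
  funext x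
  ring

/-- Bounds for the scalar kernel. -/
theorem enorm_A1 (c : ℝ) (hc : 0 ≤ c) (z : E) :
    ‖c * ‖z‖ ^ (-(1 / 2) : ℝ)‖ₑ ≤ ENNReal.ofReal c * pw (1 / 2) z := by
  rw [← ofReal_norm, norm_mul, Real.norm_of_nonneg hc,
    Real.norm_of_nonneg (Real.rpow_nonneg (norm_nonneg _) _), ENNReal.ofReal_mul hc, pw]

theorem enorm_A2 (κ : ℝ) (hκ : 0 ≤ κ) (e z : E) :
    ‖(inner ℝ (kk κ z) e : ℝ)‖ₑ ≤ ENNReal.ofReal (κ * ‖e‖) * pw (3 / 2) z := by
  rw [← ofReal_norm, pw, ← ENNReal.ofReal_mul (by positivity)]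
  apply ENNReal.ofReal_le_ofReal
  refine (norm_inner_le_norm _ _).trans ?_
  rw [norm_kk κ hκ]
  apply le_of_eq
  ring

theorem stronglyMeasurable_kk (κ : ℝ) : StronglyMeasurable (kk κ) :=
  (measurable_kk κ).stronglyMeasurable

/-- The facts about the vector field `G`. -/
theorem G_facts (κ : ℝ) (hκ : 0 ≤ κ) {v : E × ℝ → ℝ} (hv : Measurable v) (hvi : Integrable v) :
    (∀ᵐ p : E × ℝ, Integrable (fun y : E => v (y, p.2) • kk κ (p.1 - y))) ∧
      LocallyIntegrable (G (kk κ) v) :=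
  conv_facts (3 / 2) (by norm_num) (by norm_num) hv hvi (kk κ) (stronglyMeasurable_kk κ) κ
    (fun x => (enorm_kk κ hκ x).le)

/-- `G` is the weak gradient of the Riesz potential. -/
theorem riesz_grad (c : ℝ) (hc : 0 ≤ c) {v : E × ℝ → ℝ} (hv : Measurable v) (hvi : Integrable v)
    (ψ : E × ℝ → ℝ) (hψ : ContDiff ℝ 1 ψ) (hψc : HasCompactSupport ψ) (e : E) :
    ∫ p : E × ℝ, c * (∫ y : E, ‖p.1 - y‖ ^ (-(1 / 2) : ℝ) * v (y, p.2)) * fderiv ℝ ψ p (e, (0 : ℝ))
      = - ∫ p : E × ℝ, inner ℝ (G (kk (c / 2)) v p) e * ψ p := by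
  set A1 : E → ℝ := fun z => c * ‖z‖ ^ (-(1 / 2) : ℝ) with hA1
  set A2 : E → ℝ := fun z => inner ℝ (kk (c / 2) z) e with hA2
  set B1 : E × ℝ → ℝ := fun p => fderiv ℝ ψ p (e, (0 : ℝ)) with hB1
  have hA1m : StronglyMeasurable A1 := by
    apply Measurable.stronglyMeasurable
    rw [hA1]
    fun_prop
  have hA2m : StronglyMeasurable A2 := by
    apply Measurable.stronglyMeasurable
    rw [hA2]
    exact (measurable_kk _).inner_const
  have hB1c : Continuous B1 := (hψ.continuous_fderiv one_ne_zero).clm_apply continuous_const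
  have hB1s : HasCompactSupport B1 := hψc.fderiv_apply ℝ (e, (0 : ℝ))
  obtain ⟨M1, hM1⟩ := hB1s.exists_bound_of_continuous hB1c
  obtain ⟨M2, hM2⟩ := hψc.exists_bound_of_continuous hψ.continuous
  obtain ⟨R, hR⟩ := (hψc.isCompact.image continuous_fst).isBounded.subset_closedBall (0 : E)
  have hψz : ∀ p : E × ℝ, R < ‖p.1‖ → p ∉ tsupport ψ := by
    intro p hp hmem
    have := hR ⟨p, hmem, rfl⟩
    rw [Metric.mem_closedBall, dist_zero_right] at this
    linarith
  have hi1 := integrable_triple (1 / 2) (by norm_num) (by norm_num) hv hvi A1 hA1m c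
    (enorm_A1 c hc) B1 hB1c.measurable M1 R (fun p => hM1 p) (fun p hp => by
      rw [hB1]
      have h1 : p ∉ Function.support (fderiv ℝ ψ) := fun h =>
        hψz p hp (support_fderiv_subset ℝ h)
      have h2 : fderiv ℝ ψ p = 0 := by
        simpa using h1
      show fderiv ℝ ψ p (e, (0 : ℝ)) = 0
      rw [h2]
      rfl)
  have hi2 := integrable_triple (3 / 2) (by norm_num) (by norm_num) hv hvi A2 hA2m (c / 2 * ‖e‖)
    (enorm_A2 (c / 2) (by linarith) e) ψ hψ.continuous.measurable M2 R (fun p => hM2 p)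
    (fun p hp => image_eq_zero_of_notMem_tsupport (hψz p hp))
  have hL : ∫ p : E × ℝ, c * (∫ y : E, ‖p.1 - y‖ ^ (-(1 / 2) : ℝ) * v (y, p.2)) * B1 p
      = ∫ p : E × ℝ, ∫ y : E, B1 p • (v (y, p.2) • A1 (p.1 - y)) := by
    congr 1
    funext p
    rw [integral_smul, smul_eq_mul, mul_comm (B1 p)]
    congr 1
    rw [← integral_const_mul]
    congr 1
    funext y
    rw [hA1]
    simp only [smul_eq_mul]
    ring
  have hRt : ∫ p : E × ℝ, inner ℝ (G (kk (c / 2)) v p) e * ψ p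
      = ∫ p : E × ℝ, ∫ y : E, ψ p • (v (y, p.2) • A2 (p.1 - y)) := by
    apply integral_congr_ae
    filter_upwards [(G_facts (c / 2) (by linarith) hv hvi).1] with p hp
    rw [integral_smul, smul_eq_mul, mul_comm (ψ p)]
    congr 1
    unfold G
    rw [real_inner_comm, ← integral_inner hp]
    congr 1
    funext y
    rw [hA2, inner_smul_right, real_inner_comm]
    rfl
  rw [hL, hRt, integral_swap _ hi1, integral_swap _ hi2, ← integral_neg]
  congr 1
  funext q
  obtain ⟨y, t⟩ := q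
  simp only
  set g : E → ℝ := fun x => ψ (x, t) with hg
  have hgd : ContDiff ℝ 1 g := hψ.comp (contDiff_id.prodMk contDiff_const)
  have hgs : HasCompactSupport g := by
    have hK : IsCompact ((fun p : E × ℝ => p.1) '' tsupport ψ) := hψc.isCompact.image continuous_fst
    apply HasCompactSupport.intro hK
    intro x hx
    show ψ (x, t) = 0
    apply image_eq_zero_of_notMem_tsupport
    intro h
    exact hx ⟨(x, t), h, rfl⟩
  have hgf : ∀ x : E, fderiv ℝ g x e = B1 (x, t) := by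
    intro x
    have h1 : HasFDerivAt g ((fderiv ℝ ψ (x, t)).comp
        ((ContinuousLinearMap.id ℝ E).prod (0 : E →L[ℝ] ℝ))) x := by
      have h2 : HasFDerivAt (fun x : E => (x, t))
          ((ContinuousLinearMap.id ℝ E).prod (0 : E →L[ℝ] ℝ)) x :=
        (hasFDerivAt_id x).prodMk (hasFDerivAt_const t x)
      exact ((hψ.differentiable one_ne_zero (x, t)).hasFDerivAt).comp x h2
    rw [h1.fderiv]
    rfl
  have h1 := ibp_riesz y e g hgd hgs
  have h2 : ∫ x : E, B1 (x, t) • (v (y, t) • A1 (x - y)) =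
      (v (y, t) * c) * ∫ x : E, ‖x - y‖ ^ (-(1 / 2) : ℝ) * fderiv ℝ g x e := by
    rw [← integral_const_mul]
    congr 1
    funext x
    rw [hgf, hA1]
    simp only [smul_eq_mul]
    ring
  rw [h2, h1, ← integral_const_mul, ← integral_neg]
  congr 1
  funext x
  rw [hA2]
  simp only [smul_eq_mul, kk, inner_smul_left, RCLike.conj_to_real]
  ring

end Fin

end Pool.Agent.H59.NPM
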