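import Mathlib
import Pool.Agent.H59.NPM.FinalC

set_option autoImplicit false

/-! Module FINAL, part D: the two starting states. -/

namespace Pool.Agent.H59.NPM

open MeasureTheory
open scoped ENNReal

namespace Fin

/-- The initial datum. -/
noncomputable def u0 (x : E) : ℝ := (1 + ‖x‖) ^ (-(3 : ℝ))

theorem u0_pos (x : E) : 0 < u0 x := by
  unfold u0
  have := norm_nonneg x
  positivity

theorem u0_le_one (x : E) : u0 x ≤ 1 := by
  unfold u0
  apply Real.rpow_le_one_of_one_le_of_nonpos
  · linarith [norm_nonneg x]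
  · norm_num

theorem continuous_u0 : Continuous u0 := by
  unfold u0
  apply Continuous.rpow_const
  · fun_prop
  · intro x
    left
    have := norm_nonneg x
    positivity

theorem integrable_u0 : Integrable u0 := by
  apply integrable_one_add_norm
  simp
  norm_num

/-- The moving datum. -/
noncomputable def us (T : ℝ) (a : E) : E × ℝ → ℝ :=
  ((Set.univ : Set E) ×ˢ Set.Ioo (0 : ℝ) T).indicator (fun p => u0 (p.1 - p.2 • a))

/-- The flux. -/
noncomputable def Fs (T : ℝ) (a : E) (p : E × ℝ) : E := (-us T a p) • a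

theorem measS (T : ℝ) : MeasurableSet ((Set.univ : Set E) ×ˢ Set.Ioo (0 : ℝ) T) :=
  MeasurableSet.univ.prod measurableSet_Ioo

theorem continuous_shift (a : E) : Continuous (fun p : E × ℝ => u0 (p.1 - p.2 • a)) :=
  continuous_u0.comp (by fun_prop)

theorem measurable_us (T : ℝ) (a : E) : Measurable (us T a) :=
  (continuous_shift a).measurable.indicator (measS T)

theorem us_nonneg (T : ℝ) (a : E) (p : E × ℝ) : 0 ≤ us T a p := by
  unfold us
  apply Set.indicator_nonneg
  intro p _
  exact (u0_pos _).le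

theorem us_le_one (T : ℝ) (a : E) (p : E × ℝ) : us T a p ≤ 1 := by
  unfold us
  by_cases hp : p ∈ (Set.univ : Set E) ×ˢ Set.Ioo (0 : ℝ) T
  · rw [Set.indicator_of_mem hp]
    exact u0_le_one _
  · rw [Set.indicator_of_notMem hp]
    exact zero_le_one

theorem us_of_mem (T : ℝ) (a : E) (x : E) (t : ℝ) (ht : t ∈ Set.Ioo 0 T) :
    us T a (x, t) = u0 (x - t • a) := by
  unfold us
  rw [Set.indicator_of_mem]
  exact ⟨Set.mem_univ _, ht⟩

theorem us_of_notMem (T : ℝ) (a : E) (p : E × ℝ) (ht : p.2 ∉ Set.Ioo 0 T) :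
    us T a p = 0 := by
  unfold us
  rw [Set.indicator_of_notMem]
  intro h
  exact ht h.2

theorem us_eq (T : ℝ) (a : E) (x : E) (t : ℝ) :
    us T a (x, t) = (Set.Ioo 0 T).indicator (fun _ => u0 (x - t • a)) t := by
  by_cases ht : t ∈ Set.Ioo 0 T
  · rw [us_of_mem T a x t ht, Set.indicator_of_mem ht]
  · rw [us_of_notMem T a (x, t) ht, Set.indicator_of_notMem ht]

theorem integrable_us (T : ℝ) (a : E) : Integrable (us T a) := by
  rw [Measure.volume_eq_prod, integrable_prod_iff' (measurable_us T a).aestronglyMeasurable]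
  constructor
  · refine Filter.Eventually.of_forall fun t => ?_
    by_cases ht : t ∈ Set.Ioo 0 T
    · simp_rw [us_of_mem T a _ t ht]
      exact integrable_u0.comp_sub_right (t • a)
    · have : (fun x : E => us T a (x, t)) = fun _ => 0 := by
        funext x
        exact us_of_notMem T a (x, t) ht
      rw [this]
      exact integrable_zero _ _ _
  · have h1 : (fun t : ℝ => ∫ x : E, ‖us T a (x, t)‖) =
        (Set.Ioo 0 T).indicator (fun _ => ∫ x : E, u0 x) := by
      funext t
      by_cases ht : t ∈ Set.Ioo 0 T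
      · rw [Set.indicator_of_mem ht]
        simp_rw [us_of_mem T a _ t ht]
        rw [← integral_sub_right_eq_self u0 (t • a)]
        congr 1
        funext x
        exact Real.norm_of_nonneg (u0_pos _).le
      · rw [Set.indicator_of_notMem ht]
        have : (fun x : E => ‖us T a (x, t)‖) = fun _ => 0 := by
          funext x
          rw [us_of_notMem T a (x, t) ht, norm_zero]
        rw [this, integral_zero]
    rw [h1, integrable_indicator_iff measurableSet_Ioo]
    exact integrableOn_const (by simp)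

/-- The weak form of the transport equation. -/
theorem us_weak (T : ℝ) (hT : 0 < T) (a : E) (φ : E × ℝ → ℝ) (hφ : ContDiff ℝ 1 φ)
    (hφc : HasCompactSupport φ) (hφT : tsupport φ ⊆ {p : E × ℝ | p.2 < T}) :
    ∫ p, us T a p * fderiv ℝ φ p (a, (1 : ℝ)) = - ∫ x : E, u0 x * φ (x, (0 : ℝ)) := by
  set D : E × ℝ → ℝ := fun p => fderiv ℝ φ p (a, (1 : ℝ)) with hD
  have hDc : Continuous D := (hφ.continuous_fderiv one_ne_zero).clm_apply continuous_const
  have hDs : HasCompactSupport D := hφc.fderiv_apply ℝ (a, (1 : ℝ))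
  obtain ⟨M, hM⟩ := hDs.exists_bound_of_continuous hDc
  have hi : Integrable (fun p => us T a p * D p) := by
    apply (integrable_us T a).mul_bdd (c := M) hDc.aestronglyMeasurable
    exact Filter.Eventually.of_forall hM
  rw [Measure.volume_eq_prod] at hi ⊢
  rw [integral_prod_symm _ hi]
  have h1 : ∀ t : ℝ, ∫ x : E, us T a (x, t) * D (x, t) =
      ∫ x : E, (Set.Ioo 0 T).indicator (fun _ => (1 : ℝ)) t * u0 x * D (x + t • a, t) := by
    intro t
    rw [← integral_sub_right_eq_self (fun x : E =>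
      (Set.Ioo 0 T).indicator (fun _ => (1 : ℝ)) t * u0 x * D (x + t • a, t)) (t • a)]
    congr 1
    funext x
    rw [us_eq, sub_add_cancel]
    by_cases ht : t ∈ Set.Ioo 0 T
    · rw [Set.indicator_of_mem ht, Set.indicator_of_mem ht, one_mul]
    · rw [Set.indicator_of_notMem ht, Set.indicator_of_notMem ht, zero_mul, zero_mul, zero_mul]
  simp_rw [h1]
  have hi2 : Integrable (Function.uncurry (fun (t : ℝ) (x : E) =>
      (Set.Ioo 0 T).indicator (fun _ => (1 : ℝ)) t * u0 x * D (x + t • a, t)))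
      ((volume : Measure ℝ).prod (volume : Measure E)) := by
    have h2 : Integrable (fun q : ℝ × E => (Set.Ioo 0 T).indicator (fun _ => (1 : ℝ)) q.1 * u0 q.2)
        ((volume : Measure ℝ).prod (volume : Measure E)) := by
      apply Integrable.mul_prod _ integrable_u0
      rw [integrable_indicator_iff measurableSet_Ioo]
      exact integrableOn_const (by simp)
    have h3 : Continuous (fun q : ℝ × E => D (q.2 + q.1 • a, q.1)) := hDc.comp (by fun_prop)
    exact h2.mul_bdd (c := M) h3.aestronglyMeasurable (Filter.Eventually.of_forall fun q => hM _)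
  rw [integral_integral_swap hi2, ← integral_neg]
  congr 1
  funext x
  have h4 : ∀ t : ℝ, HasDerivAt (fun t : ℝ => φ (x + t • a, t)) (D (x + t • a, t)) t := by
    intro t
    have h5 : HasDerivAt (fun t : ℝ => (x + t • a, t)) (a, (1 : ℝ)) t := by
      have h6 : HasDerivAt (fun t : ℝ => x + t • a) a t := by
        have := ((hasDerivAt_id t).smul_const a).const_add x
        simpa using this
      exact h6.prodMk (hasDerivAt_id t)
    have h6 : HasFDerivAt φ (fderiv ℝ φ (x + t • a, t)) (x + t • a, t) :=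
      (hφ.differentiable one_ne_zero (x + t • a, t)).hasFDerivAt
    exact HasFDerivAt.comp_hasDerivAt (f := fun t : ℝ => (x + t • a, t)) t h6 h5
  have h7 : ∫ t : ℝ, (Set.Ioo 0 T).indicator (fun _ => (1 : ℝ)) t * u0 x * D (x + t • a, t)
      = u0 x * ∫ t in (0 : ℝ)..T, D (x + t • a, t) := by
    rw [intervalIntegral.integral_of_le hT.le, integral_Ioc_eq_integral_Ioo,
      ← integral_indicator measurableSet_Ioo, ← integral_const_mul]
    congr 1
    funext t
    by_cases ht : t ∈ Set.Ioo 0 T
    · rw [Set.indicator_of_mem ht, Set.indicator_of_mem ht, one_mul]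
    · rw [Set.indicator_of_notMem ht, Set.indicator_of_notMem ht, zero_mul, zero_mul, mul_zero]
  rw [h7, intervalIntegral.integral_eq_sub_of_hasDerivAt (fun t _ => h4 t)]
  · have h8 : φ (x + T • a, T) = 0 := by
      apply image_eq_zero_of_notMem_tsupport
      intro h
      have := hφT h
      simp at this
    rw [h8, zero_smul, add_zero]
    ring
  · apply Continuous.intervalIntegrable
    exact hDc.comp (by fun_prop)

theorem lint_u0 : ∫⁻ x : E, ‖u0 x‖ₑ < ⊤ := integrable_u0.2

/-- The vector field is bounded. -/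
theorem G_us_bound (κ : ℝ) (hκ : 0 ≤ κ) (T : ℝ) (a : E) :
    ∃ C : ℝ, 0 ≤ C ∧ ∀ p, ‖G (kk κ) (us T a) p‖ ≤ C := by
  set C1 : ℝ≥0∞ := ENNReal.ofReal κ *
    ((∫⁻ x in Metric.ball (0 : E) 1, pw (3 / 2) x) + ∫⁻ x : E, ‖u0 x‖ₑ) with hC1
  have hC1t : C1 < ⊤ := ENNReal.mul_lt_top ENNReal.ofReal_lt_top
    (ENNReal.add_lt_top.mpr ⟨lintegral_ball_pw_lt (3 / 2) (by norm_num), lint_u0⟩)
  refine ⟨C1.toReal, ENNReal.toReal_nonneg, fun p => ?_⟩
  have h1 : ‖G (kk κ) (us T a) p‖ₑ ≤ C1 := by
    unfold G
    refine (enorm_integral_le_lintegral_enorm _).trans ?_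
    have h2 : ∀ y : E, ‖us T a (y, p.2) • kk κ (p.1 - y)‖ₑ ≤ ENNReal.ofReal κ *
        ((Metric.ball (0 : E) 1).indicator (pw (3 / 2)) (p.1 - y) + ‖us T a (y, p.2)‖ₑ) := by
      intro y
      rw [enorm_smul, enorm_kk κ hκ]
      have h3 := pw_le (3 / 2) (by norm_num) (p.1 - y)
      have h4 : ‖us T a (y, p.2)‖ₑ ≤ 1 := by
        rw [← ofReal_norm, Real.norm_of_nonneg (us_nonneg _ _ _), ENNReal.ofReal_le_one]
        exact us_le_one _ _ _
      calc ‖us T a (y, p.2)‖ₑ * (ENNReal.ofReal κ * pw (3 / 2) (p.1 - y))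
          ≤ ‖us T a (y, p.2)‖ₑ * (ENNReal.ofReal κ *
            ((Metric.ball (0 : E) 1).indicator (pw (3 / 2)) (p.1 - y) + 1)) := by gcongr
        _ = ENNReal.ofReal κ * (‖us T a (y, p.2)‖ₑ *
            (Metric.ball (0 : E) 1).indicator (pw (3 / 2)) (p.1 - y) + ‖us T a (y, p.2)‖ₑ) := by
            ring
        _ ≤ ENNReal.ofReal κ * (1 *
            (Metric.ball (0 : E) 1).indicator (pw (3 / 2)) (p.1 - y) + ‖us T a (y, p.2)‖ₑ) := by
            gcongr
        _ = _ := by rw [one_mul]
    refine (lintegral_mono h2).trans ?_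
    have hm1 : Measurable (fun y : E => (Metric.ball (0 : E) 1).indicator (pw (3 / 2)) (p.1 - y)) :=
      ((measurable_pw _).indicator measurableSet_ball).comp (by fun_prop)
    have hm2 : Measurable (fun y : E => ‖us T a (y, p.2)‖ₑ) :=
      ((measurable_us T a).comp (by fun_prop)).enorm
    have hm3 : Measurable (fun y : E => (Metric.ball (0 : E) 1).indicator (pw (3 / 2)) (p.1 - y)
        + ‖us T a (y, p.2)‖ₑ) := hm1.add hm2
    rw [lintegral_const_mul _ hm3, lintegral_add_left hm1]
    have h5 : ∫⁻ y : E, (Metric.ball (0 : E) 1).indicator (pw (3 / 2)) (p.1 - y)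
        = ∫⁻ x in Metric.ball (0 : E) 1, pw (3 / 2) x := by
      rw [lintegral_sub_left_eq_self (fun y => (Metric.ball (0 : E) 1).indicator (pw (3 / 2)) y),
        lintegral_indicator measurableSet_ball]
    have h6 : ∫⁻ y : E, ‖us T a (y, p.2)‖ₑ ≤ ∫⁻ x : E, ‖u0 x‖ₑ := by
      by_cases ht : p.2 ∈ Set.Ioo 0 T
      · simp_rw [us_of_mem T a _ p.2 ht]
        rw [lintegral_sub_right_eq_self (fun y => ‖u0 y‖ₑ)]
      · have : ∀ y : E, us T a (y, p.2) = 0 := fun y => us_of_notMem T a (y, p.2) ht
        simp [this]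
    rw [h5, hC1]
    gcongr
  have h2 := ENNReal.toReal_mono hC1t.ne h1
  rwa [toReal_enorm] at h2

/-- The starting states. -/
theorem st_us (κ : ℝ) (hκ : 0 ≤ κ) (T : ℝ) (hT : 0 < T) (a : E) :
    St (kk κ) T u0 (us T a) (Fs T a) where
  measu := measurable_us T a
  measF := by
    unfold Fs
    exact (measurable_us T a).neg.smul_const a
  nonneg := us_nonneg T a
  suppu := us_of_notMem T a
  suppF := by
    intro p hp
    rw [Fs, us_of_notMem T a p hp, neg_zero, zero_smul]
  intu := integrable_us T a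
  intF := by
    unfold Fs
    exact (integrable_us T a).neg.smul_const a
  weak := by
    intro φ hφ hφc hφT
    have h := us_weak T hT a φ hφ hφc hφT
    set D1 : E × ℝ → ℝ := fun p => fderiv ℝ φ p ((0 : E), (1 : ℝ)) with hD1
    set D2 : E × ℝ → ℝ := fun p => fderiv ℝ φ p (a, (0 : ℝ)) with hD2
    have hc1 : Continuous D1 := (hφ.continuous_fderiv one_ne_zero).clm_apply continuous_const
    have hc2 : Continuous D2 := (hφ.continuous_fderiv one_ne_zero).clm_apply continuous_const
    obtain ⟨M1, hM1⟩ := (hφc.fderiv_apply ℝ ((0 : E), (1 : ℝ))).exists_bound_of_continuous hc1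
    obtain ⟨M2, hM2⟩ := (hφc.fderiv_apply ℝ (a, (0 : ℝ))).exists_bound_of_continuous hc2
    have hi1 : Integrable (fun p => us T a p * D1 p) :=
      (integrable_us T a).mul_bdd (c := M1) hc1.aestronglyMeasurable
        (Filter.Eventually.of_forall hM1)
    have hi2 : Integrable (fun p => us T a p * D2 p) :=
      (integrable_us T a).mul_bdd (c := M2) hc2.aestronglyMeasurable
        (Filter.Eventually.of_forall hM2)
    have h2 : ∀ p, fderiv ℝ φ p (Fs T a p, (0 : ℝ)) = - (us T a p * D2 p) := by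
      intro p
      have : (Fs T a p, (0 : ℝ)) = (-us T a p) • (a, (0 : ℝ)) := by
        rw [Fs, Prod.smul_mk, smul_zero]
      rw [this, map_smul, smul_eq_mul, neg_mul]
    have h3 : ∀ p, us T a p * fderiv ℝ φ p (a, (1 : ℝ)) = us T a p * D1 p + us T a p * D2 p := by
      intro p
      have : ((a, (1 : ℝ)) : E × ℝ) = ((0 : E), (1 : ℝ)) + (a, (0 : ℝ)) := by
        rw [Prod.mk_add_mk, zero_add, add_zero]
      rw [this, map_add, mul_add]
    simp_rw [h2]
    simp_rw [h3] at h
    rw [integral_add hi1 hi2] at h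
    rw [integral_neg]
    linarith
  low := by
    intro R
    refine ⟨(1 + (max R 0 + T * ‖a‖)) ^ (-(3 : ℝ)), by positivity, ?_⟩
    refine fun p hp ht => ?_
    obtain ⟨x, t⟩ := p
    rw [us_of_mem T a x t ht]
    unfold u0
    apply Real.rpow_le_rpow_of_nonpos
    · have := norm_nonneg (x - t • a)
      positivity
    · have h1 : ‖x - t • a‖ ≤ ‖x‖ + ‖t • a‖ := norm_sub_le _ _
      have h2 : ‖t • a‖ ≤ T * ‖a‖ := by
        rw [norm_smul, Real.norm_of_nonneg ht.1.le]
        exact mul_le_mul_of_nonneg_right ht.2.le (norm_nonneg _)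
      have h3 : ‖x‖ ≤ max R 0 := le_trans hp (le_max_left _ _)
      linarith
    · norm_num
  prod := by
    obtain ⟨C, hC0, hC⟩ := G_us_bound κ hκ T a
    have hG : StronglyMeasurable (G (kk κ) (us T a)) := by
      have h1 : StronglyMeasurable
          (fun q : (E × ℝ) × E => us T a (q.2, q.1.2) • kk κ (q.1.1 - q.2)) := by
        have h2 : StronglyMeasurable (fun q : (E × ℝ) × E => us T a (q.2, q.1.2)) :=
          ((measurable_us T a).comp (by fun_prop)).stronglyMeasurable
        have h3 : StronglyMeasurable (fun q : (E × ℝ) × E => kk κ (q.1.1 - q.2)) :=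
          (stronglyMeasurable_kk κ).comp_measurable (by fun_prop)
        exact h2.smul h3
      exact h1.integral_prod_right'
    refine Integrable.mono' ((integrable_us T a).mul_const C)
      ((measurable_us T a).stronglyMeasurable.smul hG).aestronglyMeasurable ?_
    refine Filter.Eventually.of_forall fun p => ?_
    rw [norm_smul, Real.norm_of_nonneg (us_nonneg _ _ _)]
    exact mul_le_mul_of_nonneg_left (hC p) (us_nonneg _ _ _)

/-- The two states are different. -/
theorem us_ne (T : ℝ) (hT : 0 < T) (a : E) (ha : a ≠ 0) :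
    0 < ∫⁻ p, ‖us T a p - us T 0 p‖ₑ := by
  rw [pos_iff_ne_zero]
  intro h
  have hm : Measurable (fun p => ‖us T a p - us T 0 p‖ₑ) :=
    ((measurable_us T a).sub (measurable_us T 0)).enorm
  rw [lintegral_eq_zero_iff hm] at h
  have h1 : us T a =ᵐ[volume.restrict ((Set.univ : Set E) ×ˢ Set.Ioo (0 : ℝ) T)] us T 0 := by
    apply ae_restrict_of_ae
    filter_upwards [h] with p hp
    have : us T a p - us T 0 p = 0 := by simpa using hp
    linarith
  have h2 : (fun p : E × ℝ => u0 (p.1 - p.2 • a))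
      =ᵐ[volume.restrict ((Set.univ : Set E) ×ˢ Set.Ioo (0 : ℝ) T)]
      (fun p : E × ℝ => u0 (p.1 - p.2 • (0 : E))) := by
    filter_upwards [h1, ae_restrict_mem (measS T)] with p hp hmem
    have h3 := us_of_mem T a p.1 p.2 hmem.2
    have h4 := us_of_mem T 0 p.1 p.2 hmem.2
    rw [← h3, ← h4]
    exact hp
  have h5 := Measure.eqOn_open_of_ae_eq h2 (isOpen_univ.prod isOpen_Ioo)
    (continuous_shift a).continuousOn (continuous_shift 0).continuousOn
  have h6 : ((0 : E), T / 2) ∈ (Set.univ : Set E) ×ˢ Set.Ioo (0 : ℝ) T :=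
    ⟨Set.mem_univ _, by constructor <;> linarith⟩
  have h7 := h5 h6
  simp only [u0, zero_sub, norm_neg, smul_zero, norm_zero, add_zero, Real.one_rpow] at h7
  have h8 : 0 < ‖(T / 2) • a‖ := by
    rw [norm_pos_iff]
    exact smul_ne_zero (by linarith) ha
  have h9 : (1 + ‖(T / 2) • a‖) ^ (-(3 : ℝ)) < 1 :=
    Real.rpow_lt_one_of_one_lt_of_neg (by linarith) (by norm_num)
  linarith

end Fin

end Pool.Agent.H59.NPM
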