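import Mathlib
import Pool.Agent.H59.NPM.FinalD

set_option autoImplicit false

/-! Module FINAL, part E: assembly. -/

namespace Pool.Agent.H59.NPM

open MeasureTheory
open scoped ENNReal

namespace Fin

/-- The Riesz constant for `N = 2`, `s = 3/4`. -/
noncomputable def cc : ℝ :=
  Real.Gamma (((2 : ℕ) : ℝ) / 2 - 3 / 4) /
    ((4 : ℝ) ^ (3 / 4 : ℝ) * Real.pi ^ (((2 : ℕ) : ℝ) / 2) * Real.Gamma (3 / 4))

theorem cc_pos : 0 < cc := by
  unfold cc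
  have h1 : 0 < Real.Gamma (((2 : ℕ) : ℝ) / 2 - 3 / 4) := Real.Gamma_pos_of_pos (by norm_num)
  have h2 : 0 < Real.Gamma (3 / 4) := Real.Gamma_pos_of_pos (by norm_num)
  have h3 := Real.pi_pos
  positivity

/-- The limit functions are weak solutions in the sense of the frozen statement. -/
theorem sol {v : E × ℝ → ℝ} {H : E × ℝ → E} (hs : Sub 1 u0 v H)
    (hH : ∀ᵐ p, H p = v p • G (kk (cc / 2)) v p) :
    (∀ p, 0 ≤ v p) ∧
    LocallyIntegrableOn v ((Set.univ : Set E) ×ˢ Set.Ioo (0:ℝ) 1) (volume : Measure (E × ℝ)) ∧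
    (∀ᵐ p ∂((volume : Measure (E × ℝ)).restrict ((Set.univ : Set E) ×ˢ Set.Ioo (0:ℝ) 1)),
      Integrable (fun y : E => ‖p.1 - y‖ ^ (-(1 / 2) : ℝ) * v (y, p.2)) (volume : Measure E)) ∧
    LocallyIntegrableOn (fun p : E × ℝ => ∫ y : E, ‖p.1 - y‖ ^ (-(1 / 2) : ℝ) * v (y, p.2))
      ((Set.univ : Set E) ×ˢ Set.Ioo (0:ℝ) 1) (volume : Measure (E × ℝ)) ∧
    ∃ G : E × ℝ → E,
      LocallyIntegrableOn G ((Set.univ : Set E) ×ˢ Set.Ioo (0:ℝ) 1) (volume : Measure (E × ℝ)) ∧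
      LocallyIntegrableOn (fun p => v p • G p)
        ((Set.univ : Set E) ×ˢ Set.Ioo (0:ℝ) 1) (volume : Measure (E × ℝ)) ∧
      (∀ ψ : E × ℝ → ℝ, ContDiff ℝ 1 ψ → HasCompactSupport ψ →
        tsupport ψ ⊆ ((Set.univ : Set E) ×ˢ Set.Ioo (0:ℝ) 1) →
        ∀ e : E,
          ∫ p : E × ℝ, cc * (∫ y : E, ‖p.1 - y‖ ^ (-(1 / 2) : ℝ) * v (y, p.2)) *
              fderiv ℝ ψ p (e, (0:ℝ))
            = - ∫ p : E × ℝ, inner ℝ (G p) e * ψ p) ∧
      (∀ φ : E × ℝ → ℝ, ContDiff ℝ 1 φ → HasCompactSupport φ →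
        tsupport φ ⊆ {p : E × ℝ | p.2 < 1} →
        IntegrableOn (fun p => v p * fderiv ℝ φ p ((0 : E), (1:ℝ)))
          ((Set.univ : Set E) ×ˢ Set.Ioo (0:ℝ) 1) (volume : Measure (E × ℝ)) ∧
        IntegrableOn (fun p => v p * fderiv ℝ φ p (G p, (0:ℝ)))
          ((Set.univ : Set E) ×ˢ Set.Ioo (0:ℝ) 1) (volume : Measure (E × ℝ)) ∧
        (∫ p in ((Set.univ : Set E) ×ˢ Set.Ioo (0:ℝ) 1),
            v p * fderiv ℝ φ p ((0 : E), (1:ℝ)))
          - (∫ p in ((Set.univ : Set E) ×ˢ Set.Ioo (0:ℝ) 1),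
            v p * fderiv ℝ φ p (G p, (0:ℝ)))
          + (∫ x : E, u0 x * φ (x, (0:ℝ))) = 0) := by
  have hcc := cc_pos
  have hG := G_facts (cc / 2) (by linarith) hs.measu hs.intu
  have hA : StronglyMeasurable (fun z : E => ‖z‖ ^ (-(1 / 2) : ℝ)) :=
    Measurable.stronglyMeasurable (by fun_prop)
  have hA1 : ∀ z : E, ‖‖z‖ ^ (-(1 / 2) : ℝ)‖ₑ ≤ ENNReal.ofReal 1 * pw (1 / 2) z := by
    intro z
    have := enorm_A1 1 zero_le_one z
    simpa using this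
  have hP := conv_facts (1 / 2) (by norm_num) (by norm_num) hs.measu hs.intu
    (fun z : E => ‖z‖ ^ (-(1 / 2) : ℝ)) hA 1 hA1
  have hcomm : ∀ p : E × ℝ, (fun y : E => v (y, p.2) • ‖p.1 - y‖ ^ (-(1 / 2) : ℝ))
      = fun y : E => ‖p.1 - y‖ ^ (-(1 / 2) : ℝ) * v (y, p.2) := by
    intro p
    funext y
    rw [smul_eq_mul, mul_comm]
  refine ⟨hs.nonneg, hs.intu.locallyIntegrable.locallyIntegrableOn _, ?_, ?_, G (kk (cc / 2)) v,
    hG.2.locallyIntegrableOn _, ?_, ?_, ?_⟩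
  · apply ae_restrict_of_ae
    filter_upwards [hP.1] with p hp
    rw [← hcomm p]
    exact hp
  · have h1 : (fun p : E × ℝ => ∫ y : E, ‖p.1 - y‖ ^ (-(1 / 2) : ℝ) * v (y, p.2))
        = fun p : E × ℝ => ∫ y : E, v (y, p.2) • ‖p.1 - y‖ ^ (-(1 / 2) : ℝ) := by
      funext p
      rw [hcomm p]
    rw [h1]
    exact hP.2.locallyIntegrableOn _
  · apply LocallyIntegrable.locallyIntegrableOn
    apply Integrable.locallyIntegrable
    exact hs.intF.congr hH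
  · intro ψ hψ hψc _ e
    exact riesz_grad cc hcc.le hs.measu hs.intu ψ hψ hψc e
  · intro φ hφ hφc hφT
    have hw := hs.weak φ hφ hφc hφT
    set D1 : E × ℝ → ℝ := fun p => fderiv ℝ φ p ((0 : E), (1 : ℝ)) with hD1
    have hc1 : Continuous D1 := (hφ.continuous_fderiv one_ne_zero).clm_apply continuous_const
    obtain ⟨M1, hM1⟩ := (hφc.fderiv_apply ℝ ((0 : E), (1 : ℝ))).exists_bound_of_continuous hc1
    have hi1 : Integrable (fun p => v p * D1 p) :=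
      hs.intu.mul_bdd (c := M1) hc1.aestronglyMeasurable (Filter.Eventually.of_forall hM1)
    have hcf : Continuous (fderiv ℝ φ) := hφ.continuous_fderiv one_ne_zero
    obtain ⟨M2, hM2⟩ := (hφc.fderiv ℝ).exists_bound_of_continuous hcf
    have hi2 : Integrable (fun p => fderiv ℝ φ p (H p, (0 : ℝ))) := by
      have hpair : AEStronglyMeasurable (fun p : E × ℝ => (H p, (0 : ℝ))) :=
        hs.intF.aestronglyMeasurable.prodMk aestronglyMeasurable_const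
      have hop : Continuous (Function.uncurry
          (fun (L : (E × ℝ) →L[ℝ] ℝ) (q : E × ℝ) => L q)) :=
        isBoundedBilinearMap_apply.continuous
      have hm : AEStronglyMeasurable (fun p : E × ℝ => fderiv ℝ φ p (H p, (0 : ℝ))) :=
        hop.comp_aestronglyMeasurable₂ hcf.aestronglyMeasurable hpair
      refine Integrable.mono' (hs.intF.norm.const_mul M2) hm ?_
      refine Filter.Eventually.of_forall fun p => ?_
      refine (ContinuousLinearMap.le_opNorm _ _).trans ?_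
      have h1 : ‖((H p, (0 : ℝ)) : E × ℝ)‖ = ‖H p‖ := by
        rw [Prod.norm_mk, norm_zero]
        exact max_eq_left (norm_nonneg _)
      rw [h1]
      exact mul_le_mul_of_nonneg_right (hM2 p) (norm_nonneg _)
    have hae : (fun p => fderiv ℝ φ p (H p, (0 : ℝ))) =ᵐ[volume]
        fun p => v p * fderiv ℝ φ p (G (kk (cc / 2)) v p, (0 : ℝ)) := by
      filter_upwards [hH] with p hp
      have h1 : (H p, (0 : ℝ)) = v p • (G (kk (cc / 2)) v p, (0 : ℝ)) := by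
        rw [Prod.smul_mk, smul_zero, hp]
      rw [h1, map_smul, smul_eq_mul]
    have hi3 : Integrable (fun p => v p * fderiv ℝ φ p (G (kk (cc / 2)) v p, (0 : ℝ))) :=
      hi2.congr hae
    refine ⟨hi1.integrableOn, hi3.integrableOn, ?_⟩
    have h1 : ∫ p in ((Set.univ : Set E) ×ˢ Set.Ioo (0:ℝ) 1), v p * D1 p = ∫ p, v p * D1 p := by
      apply setIntegral_eq_integral_of_forall_compl_eq_zero
      intro p hp
      rw [hs.suppu p, zero_mul]
      intro h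
      exact hp ⟨Set.mem_univ _, h⟩
    have h2 : ∫ p in ((Set.univ : Set E) ×ˢ Set.Ioo (0:ℝ) 1),
        v p * fderiv ℝ φ p (G (kk (cc / 2)) v p, (0:ℝ))
        = ∫ p, v p * fderiv ℝ φ p (G (kk (cc / 2)) v p, (0 : ℝ)) := by
      apply setIntegral_eq_integral_of_forall_compl_eq_zero
      intro p hp
      rw [hs.suppu p, zero_mul]
      intro h
      exact hp ⟨Set.mem_univ _, h⟩
    rw [h1, h2, ← integral_congr_ae hae]
    exact hw

/-- Assembly of the frozen statement from the bubbles and the limit theorem. -/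
theorem final_of
    (hblock : ∀ (κ : ℝ), 0 < κ → ∀ (a : E) (ρ : ℝ), 0 < ρ →
      ∃ w : E → ℝ, Measurable w ∧ (∀ x, 0 ≤ w x) ∧ Integrable w ∧
      ∫ x, w x = 1 ∧ (∀ x, ρ ≤ ‖x‖ → w x = 0) ∧
      ∀ x, w x ≠ 0 → Integrable (fun y : E => w y • ((-κ * ‖x - y‖ ^ (-(5 / 2) : ℝ)) • (x - y))) ∧
        ∫ y : E, w y • ((-κ * ‖x - y‖ ^ (-(5 / 2) : ℝ)) • (x - y)) = -a)
    (hlimit : ∀ {k : E → E} (_ : Ker k) {T : ℝ} (_ : 0 < T) {u₀ : E → ℝ} {u : E × ℝ → ℝ}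
      {F : E × ℝ → E} (_ : St k T u₀ u F) {ε : ℝ} (_ : 0 < ε),
      ∃ (v : E × ℝ → ℝ) (H : E × ℝ → E), Sub T u₀ v H ∧ (∀ᵐ p, H p = v p • G k v p) ∧
        ∫⁻ p, ‖v p - u p‖ₑ ≤ ENNReal.ofReal ε) :
    ¬ (∀ (N : ℕ), 2 ≤ N → ∀ (m s T : ℝ), 1 < m → 0 < s → s < 1 → 0 < T →
  ∀ u₀ : EuclideanSpace ℝ (Fin N) → ℝ, (∀ x, 0 ≤ u₀ x) →
    MemLp u₀ 1 (volume : Measure (EuclideanSpace ℝ (Fin N))) →
    MemLp u₀ ⊤ (volume : Measure (EuclideanSpace ℝ (Fin N))) →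
  ∀ u v : EuclideanSpace ℝ (Fin N) × ℝ → ℝ,
  (∀ w ∈ ({u, v} : Set (EuclideanSpace ℝ (Fin N) × ℝ → ℝ)),
    (∀ p, 0 ≤ w p) ∧
    LocallyIntegrableOn w ((Set.univ : Set (EuclideanSpace ℝ (Fin N))) ×ˢ Set.Ioo (0:ℝ) T)
      (volume : Measure (EuclideanSpace ℝ (Fin N) × ℝ)) ∧
    (∀ᵐ p ∂((volume : Measure (EuclideanSpace ℝ (Fin N) × ℝ)).restrict
        ((Set.univ : Set (EuclideanSpace ℝ (Fin N))) ×ˢ Set.Ioo (0:ℝ) T)),
      Integrable (fun y : EuclideanSpace ℝ (Fin N) => ‖p.1 - y‖ ^ (2 * s - (N:ℝ)) * w (y, p.2))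
        (volume : Measure (EuclideanSpace ℝ (Fin N)))) ∧
    LocallyIntegrableOn
      (fun p : EuclideanSpace ℝ (Fin N) × ℝ =>
        ∫ y : EuclideanSpace ℝ (Fin N), ‖p.1 - y‖ ^ (2 * s - (N:ℝ)) * w (y, p.2))
      ((Set.univ : Set (EuclideanSpace ℝ (Fin N))) ×ˢ Set.Ioo (0:ℝ) T)
      (volume : Measure (EuclideanSpace ℝ (Fin N) × ℝ)) ∧
    ∃ G : EuclideanSpace ℝ (Fin N) × ℝ → EuclideanSpace ℝ (Fin N),
      LocallyIntegrableOn G ((Set.univ : Set (EuclideanSpace ℝ (Fin N))) ×ˢ Set.Ioo (0:ℝ) T)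
        (volume : Measure (EuclideanSpace ℝ (Fin N) × ℝ)) ∧
      LocallyIntegrableOn (fun p => w p ^ (m - 1) • G p)
        ((Set.univ : Set (EuclideanSpace ℝ (Fin N))) ×ˢ Set.Ioo (0:ℝ) T)
        (volume : Measure (EuclideanSpace ℝ (Fin N) × ℝ)) ∧
      (∀ ψ : EuclideanSpace ℝ (Fin N) × ℝ → ℝ, ContDiff ℝ 1 ψ → HasCompactSupport ψ →
        tsupport ψ ⊆ ((Set.univ : Set (EuclideanSpace ℝ (Fin N))) ×ˢ Set.Ioo (0:ℝ) T) →
        ∀ e : EuclideanSpace ℝ (Fin N),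
          ∫ p : EuclideanSpace ℝ (Fin N) × ℝ,
              (Real.Gamma ((N:ℝ) / 2 - s) / ((4:ℝ) ^ s * Real.pi ^ ((N:ℝ) / 2) * Real.Gamma s)) *
              (∫ y : EuclideanSpace ℝ (Fin N), ‖p.1 - y‖ ^ (2 * s - (N:ℝ)) * w (y, p.2)) *
              fderiv ℝ ψ p (e, (0:ℝ))
            = - ∫ p : EuclideanSpace ℝ (Fin N) × ℝ, inner ℝ (G p) e * ψ p) ∧
      (∀ φ : EuclideanSpace ℝ (Fin N) × ℝ → ℝ, ContDiff ℝ 1 φ → HasCompactSupport φ →
        tsupport φ ⊆ {p : EuclideanSpace ℝ (Fin N) × ℝ | p.2 < T} →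
        IntegrableOn (fun p => w p * fderiv ℝ φ p ((0 : EuclideanSpace ℝ (Fin N)), (1:ℝ)))
          ((Set.univ : Set (EuclideanSpace ℝ (Fin N))) ×ˢ Set.Ioo (0:ℝ) T)
          (volume : Measure (EuclideanSpace ℝ (Fin N) × ℝ)) ∧
        IntegrableOn (fun p => w p ^ (m - 1) * fderiv ℝ φ p (G p, (0:ℝ)))
          ((Set.univ : Set (EuclideanSpace ℝ (Fin N))) ×ˢ Set.Ioo (0:ℝ) T)
          (volume : Measure (EuclideanSpace ℝ (Fin N) × ℝ)) ∧
        (∫ p in ((Set.univ : Set (EuclideanSpace ℝ (Fin N))) ×ˢ Set.Ioo (0:ℝ) T),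
            w p * fderiv ℝ φ p ((0 : EuclideanSpace ℝ (Fin N)), (1:ℝ)))
          - (∫ p in ((Set.univ : Set (EuclideanSpace ℝ (Fin N))) ×ˢ Set.Ioo (0:ℝ) T),
            w p ^ (m - 1) * fderiv ℝ φ p (G p, (0:ℝ)))
          + (∫ x : EuclideanSpace ℝ (Fin N), u₀ x * φ (x, (0:ℝ))) = 0)) →
  u =ᵐ[(volume : Measure (EuclideanSpace ℝ (Fin N) × ℝ)).restrict
        ((Set.univ : Set (EuclideanSpace ℝ (Fin N))) ×ˢ Set.Ioo (0:ℝ) T)] v) := by
  intro hall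
  have hcc := cc_pos
  have hκ : 0 < cc / 2 := by linarith
  have hKer : Ker (kk (cc / 2)) := ker_kk (cc / 2) hκ (hblock (cc / 2) hκ)
  set a : E := EuclideanSpace.single 0 1 with ha
  have ha0 : a ≠ 0 := by
    intro h
    have := congrArg norm h
    rw [ha] at this
    simp at this
  have hd := us_ne 1 one_pos a ha0
  set δ : ℝ≥0∞ := ∫⁻ p, ‖us 1 a p - us 1 0 p‖ₑ with hδ
  have hδt : δ ≠ ⊤ := ((integrable_us 1 a).sub (integrable_us 1 0)).2.ne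
  set ε : ℝ := δ.toReal / 3 with hε
  have hδr : 0 < δ.toReal := ENNReal.toReal_pos hd.ne' hδt
  have hεpos : 0 < ε := by rw [hε]; linarith
  obtain ⟨v1, H1, hs1, hH1, hd1⟩ := hlimit hKer one_pos
    (st_us (cc / 2) hκ.le 1 one_pos a) hεpos
  obtain ⟨v2, H2, hs2, hH2, hd2⟩ := hlimit hKer one_pos
    (st_us (cc / 2) hκ.le 1 one_pos 0) hεpos
  have hmem1 : MemLp u0 1 (volume : Measure E) := memLp_one_iff_integrable.mpr integrable_u0
  have hmemt : MemLp u0 ⊤ (volume : Measure E) := by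
    refine memLp_top_of_bound continuous_u0.aestronglyMeasurable 1 ?_
    refine Filter.Eventually.of_forall fun x => ?_
    rw [Real.norm_of_nonneg (u0_pos x).le]
    exact u0_le_one x
  have hexp : (2 * (3 / 4 : ℝ) - ((2 : ℕ) : ℝ)) = -(1 / 2) := by norm_num
  have hexp2 : ((2 : ℝ) - 1) = 1 := by norm_num
  have hsol : ∀ w ∈ ({v1, v2} : Set (E × ℝ → ℝ)), ∃ H : E × ℝ → E, Sub 1 u0 w H ∧
      ∀ᵐ p, H p = w p • G (kk (cc / 2)) w p := by
    intro w hw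
    rcases hw with rfl | rfl
    · exact ⟨H1, hs1, hH1⟩
    · exact ⟨H2, hs2, hH2⟩
  have hmain : v1 =ᵐ[(volume : Measure (E × ℝ)).restrict
      ((Set.univ : Set E) ×ˢ Set.Ioo (0:ℝ) 1)] v2 := by
    apply hall 2 le_rfl 2 (3 / 4) 1 one_lt_two (by norm_num) (by norm_num) one_pos u0
      (fun x => (u0_pos x).le) hmem1 hmemt v1 v2
    intro w hw
    obtain ⟨H, hsw, hHw⟩ := hsol w hw
    have h := sol hsw hHw
    simp only [hexp, hexp2, Real.rpow_one]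
    exact h
  have heq : v1 =ᵐ[volume] v2 := by
    rw [Filter.EventuallyEq, ae_restrict_iff' (measS 1)] at hmain
    filter_upwards [hmain] with p hp
    by_cases ht : p.2 ∈ Set.Ioo (0 : ℝ) 1
    · exact hp ⟨Set.mem_univ _, ht⟩
    · rw [hs1.suppu p ht, hs2.suppu p ht]
  have hbound : δ ≤ ENNReal.ofReal ε + ENNReal.ofReal ε := by
    calc δ ≤ ∫⁻ p, (‖v1 p - us 1 a p‖ₑ + ‖v2 p - us 1 0 p‖ₑ) := by
          apply lintegral_mono_ae
          filter_upwards [heq] with p hp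
          have h1 : us 1 a p - us 1 0 p = -(v1 p - us 1 a p) + (v2 p - us 1 0 p) := by
            rw [hp]; ring
          rw [h1]
          refine (enorm_add_le _ _).trans ?_
          rw [enorm_neg]
      _ = (∫⁻ p, ‖v1 p - us 1 a p‖ₑ) + ∫⁻ p, ‖v2 p - us 1 0 p‖ₑ := by
          apply lintegral_add_left
          exact (hs1.measu.sub (measurable_us 1 a)).enorm
      _ ≤ ENNReal.ofReal ε + ENNReal.ofReal ε := add_le_add hd1 hd2
  rw [← ENNReal.ofReal_add hεpos.le hεpos.le] at hbound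
  have h1 : δ.toReal ≤ ε + ε := ENNReal.toReal_le_of_le_ofReal (by linarith) hbound
  rw [hε] at h1
  linarith

end Fin

end Pool.Agent.H59.NPM
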