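import Mathlib
import Pool.Agent.H59.NPM.Defs

set_option autoImplicit false

/-!
MODULE LIMIT: the limit of the convex integration scheme.
-/

namespace Pool.Agent.H59.NPM

open MeasureTheory Filter Topology
open scoped ENNReal

namespace Limit

/-- A sequence with summable `L^1` increments converges almost everywhere and in `L^1`. -/
theorem l1_limit {α X : Type*} [MeasurableSpace α] {μ : Measure α} [NormedAddCommGroup X]
    [CompleteSpace X] [MeasurableSpace X] [BorelSpace X] [SecondCountableTopology X]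
    (f : ℕ → α → X) (hf : ∀ n, Measurable (f n)) (a : ℕ → ℝ≥0∞) (ha : ∑' n, a n ≠ ⊤)
    (h : ∀ n, ∫⁻ p, ‖f (n + 1) p - f n p‖ₑ ∂μ ≤ a n) :
    ∃ g : α → X, Measurable g ∧ (∀ᵐ p ∂μ, Tendsto (fun n => f n p) atTop (𝓝 (g p))) ∧
      (∀ n, ∫⁻ p, ‖g p - f n p‖ₑ ∂μ ≤ ∑' m, a (m + n)) ∧ ∀ p c, (∀ n, f n p = c) → g p = c := by
  have hm : ∀ n, Measurable fun p => ‖f (n + 1) p - f n p‖ₑ := fun n =>
    ((hf (n + 1)).sub (hf n)).enorm
  have hsum : ∫⁻ p, ∑' n, ‖f (n + 1) p - f n p‖ₑ ∂μ ≠ ⊤ := by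
    rw [lintegral_tsum fun n => (hm n).aemeasurable]
    exact ne_top_of_le_ne_top ha (ENNReal.tsum_le_tsum h)
  have hae : ∀ᵐ p ∂μ, ∑' n, ‖f (n + 1) p - f n p‖ₑ < ⊤ :=
    ae_lt_top (Measurable.tsum hm) hsum
  have hedist : ∀ p n, edist (f n p) (f (n + 1) p) ≤ ‖f (n + 1) p - f n p‖ₑ := by
    intro p n
    rw [edist_comm, edist_eq_enorm_sub]
  have hconv : ∀ᵐ p ∂μ, Tendsto (fun n => f n p) atTop (𝓝 (limUnder atTop fun n => f n p)) := by
    filter_upwards [hae] with p hp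
    have hc : CauchySeq fun n => f n p :=
      cauchySeq_of_edist_le_of_tsum_ne_top (fun n => ‖f (n + 1) p - f n p‖ₑ) (hedist p) hp.ne
    exact hc.tendsto_limUnder
  refine ⟨fun p => limUnder atTop fun n => f n p, ?_, hconv, ?_, ?_⟩
  · exact (MeasureTheory.StronglyMeasurable.limUnder fun n => (hf n).stronglyMeasurable).measurable
  · intro n
    have h1 : ∀ᵐ p ∂μ, ‖(limUnder atTop fun n => f n p) - f n p‖ₑ ≤
        ∑' m, ‖f (m + n + 1) p - f (m + n) p‖ₑ := by
      filter_upwards [hconv] with p hp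
      have h2 := edist_le_tsum_of_edist_le_of_tendsto (fun n => ‖f (n + 1) p - f n p‖ₑ)
        (hedist p) hp n
      rw [edist_comm, edist_eq_enorm_sub] at h2
      simpa only [add_comm n] using h2
    calc ∫⁻ p, ‖(limUnder atTop fun n => f n p) - f n p‖ₑ ∂μ
        ≤ ∫⁻ p, ∑' m, ‖f (m + n + 1) p - f (m + n) p‖ₑ ∂μ := lintegral_mono_ae h1
      _ = ∑' m, ∫⁻ p, ‖f (m + n + 1) p - f (m + n) p‖ₑ ∂μ :=
          lintegral_tsum fun m => (hm (m + n)).aemeasurable
      _ ≤ ∑' m, a (m + n) := ENNReal.tsum_le_tsum fun m => h (m + n)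
  · intro p c hc
    have : (fun n => f n p) = fun _ => c := funext hc
    show (limUnder atTop fun n => f n p) = c
    rw [this]
    exact tendsto_const_nhds.limUnder_eq

variable {k : E → E}

theorem measurable_Psi_aux (hk : Ker k) {f : E × ℝ → ℝ} (hf : Measurable f) (t : ℝ) :
    Measurable fun q : E × E => ‖f (q.2, t)‖ₑ * ‖k (q.1 - q.2)‖ₑ := by
  have h1 : Measurable fun q : E × E => f (q.2, t) := hf.comp (measurable_snd.prodMk measurable_const)
  have h2 : Measurable fun q : E × E => k (q.1 - q.2) :=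
    hk.meas.comp (measurable_fst.sub measurable_snd)
  exact h1.enorm.mul h2.enorm

theorem measurable_Psi (hk : Ker k) {f : E × ℝ → ℝ} (hf : Measurable f) :
    Measurable (Psi k f) := by
  have h1 : Measurable fun q : (E × ℝ) × E => ‖f (q.2, q.1.2)‖ₑ * ‖k (q.1.1 - q.2)‖ₑ := by
    have h2 : Measurable fun q : (E × ℝ) × E => f (q.2, q.1.2) :=
      hf.comp (measurable_snd.prodMk (measurable_snd.comp measurable_fst))
    have h3 : Measurable fun q : (E × ℝ) × E => k (q.1.1 - q.2) :=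
      hk.meas.comp ((measurable_fst.comp measurable_fst).sub measurable_snd)
    exact h2.enorm.mul h3.enorm
  exact h1.lintegral_prod_right'

/-- The potential of an integrable density is locally integrable. -/
theorem Psi_bound (hk : Ker k) (R : ℝ) : ∃ C : ℝ≥0∞, C < ⊤ ∧ ∀ f : E × ℝ → ℝ, Measurable f →
    ∫⁻ p in (Metric.closedBall (0 : E) R) ×ˢ (Set.univ : Set ℝ), Psi k f p ≤
      C * ∫⁻ p, ‖f p‖ₑ := by
  obtain ⟨C, hC, hb⟩ := hk.loc R
  refine ⟨C, hC, fun f hf => ?_⟩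
  have e1 : (volume : Measure (E × ℝ)).restrict
      ((Metric.closedBall (0 : E) R) ×ˢ (Set.univ : Set ℝ)) =
      ((volume : Measure E).restrict (Metric.closedBall 0 R)).prod (volume : Measure ℝ) := by
    rw [Measure.volume_eq_prod, ← Measure.prod_restrict, Measure.restrict_univ]
  have e2 : ∫⁻ p, ‖f p‖ₑ = ∫⁻ t : ℝ, ∫⁻ y : E, ‖f (y, t)‖ₑ := by
    rw [Measure.volume_eq_prod, lintegral_prod_symm' _ hf.enorm]
  rw [e1, lintegral_prod_symm' _ (measurable_Psi hk hf), e2,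
    ← lintegral_const_mul' _ _ hC.ne]
  apply lintegral_mono
  intro t
  simp only [Psi]
  rw [lintegral_lintegral_swap]
  · have hin : ∀ y : E, ∫⁻ x in Metric.closedBall (0 : E) R, ‖f (y, t)‖ₑ * ‖k (x - y)‖ₑ ≤
        C * ‖f (y, t)‖ₑ := by
      intro y
      rw [lintegral_const_mul' _ _ (by simp), mul_comm]
      apply mul_le_mul_left
      refine le_trans (le_of_eq ?_) (hb y)
      apply lintegral_congr
      intro x
      rw [← neg_sub y x, hk.odd, enorm_neg]
    refine (lintegral_mono hin).trans ?_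
    rw [lintegral_const_mul' _ _ hC.ne]
  · exact (measurable_Psi_aux hk hf t).aemeasurable

/-- Summable potentials are finite almost everywhere. -/
theorem Psi_tsum_ae (hk : Ker k) (g : ℕ → E × ℝ → ℝ) (hg : ∀ n, Measurable (g n))
    (hs : ∑' n, ∫⁻ p, ‖g n p‖ₑ ≠ ⊤) : ∀ᵐ p : E × ℝ, ∑' n, Psi k (g n) p < ⊤ := by
  have h1 : ∀ R : ℕ, ∀ᵐ p : E × ℝ, p ∈ (Metric.closedBall (0 : E) R) ×ˢ (Set.univ : Set ℝ) →
      ∑' n, Psi k (g n) p < ⊤ := by
    intro R
    obtain ⟨C, hC, hb⟩ := Psi_bound hk R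
    have hms : MeasurableSet ((Metric.closedBall (0 : E) R) ×ˢ (Set.univ : Set ℝ)) :=
      Metric.isClosed_closedBall.measurableSet.prod MeasurableSet.univ
    rw [← ae_restrict_iff' hms]
    apply ae_lt_top
    · exact Measurable.tsum fun n => measurable_Psi hk (hg n)
    · rw [lintegral_tsum fun n => (measurable_Psi hk (hg n)).aemeasurable]
      refine ne_top_of_le_ne_top ?_ (ENNReal.tsum_le_tsum fun n => hb (g n) (hg n))
      rw [ENNReal.tsum_mul_left]
      exact ENNReal.mul_ne_top hC.ne hs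
  rw [← ae_all_iff] at h1
  filter_upwards [h1] with p hp
  obtain ⟨R, hR⟩ := exists_nat_ge ‖p.1‖
  exact hp R ⟨by simpa using hR, Set.mem_univ _⟩

theorem integrable_of_Psi (hk : Ker k) {f : E × ℝ → ℝ} (hf : Measurable f) {p : E × ℝ}
    (hp : Psi k f p < ⊤) : Integrable fun y : E => f (y, p.2) • k (p.1 - y) := by
  refine ⟨?_, ?_⟩
  · have h1 : Measurable fun y : E => f (y, p.2) := hf.comp (measurable_id.prodMk measurable_const)
    have h2 : Measurable fun y : E => k (p.1 - y) := hk.meas.comp (measurable_const.sub measurable_id)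
    exact (h1.smul h2).aestronglyMeasurable
  · rw [HasFiniteIntegral]
    simp only [enorm_smul]
    exact hp

/-- Almost everywhere convergence of the velocity fields. -/
theorem G_tendsto (hk : Ker k) (f : ℕ → E × ℝ → ℝ) (hf : ∀ n, Measurable (f n))
    {v : E × ℝ → ℝ} (hv : Measurable v) (hvi : ∫⁻ p, ‖v p‖ₑ ≠ ⊤)
    (hs : ∑' n, ∫⁻ p, ‖v p - f n p‖ₑ ≠ ⊤) :
    ∀ᵐ p : E × ℝ, Tendsto (fun n => G k (f n) p) atTop (𝓝 (G k v p)) := by
  have h1 := Psi_tsum_ae hk (fun n p => v p - f n p) (fun n => hv.sub (hf n)) hs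
  have h2 : ∀ᵐ p : E × ℝ, Psi k v p < ⊤ := by
    have h3 := Psi_tsum_ae hk (fun n => if n = 0 then v else 0)
      (by
        intro n
        split_ifs
        · exact hv
        · exact measurable_zero)
      (by
        rw [tsum_eq_single 0]
        · simpa using hvi
        · intro n hn
          simp [hn])
    filter_upwards [h3] with p hp
    have := ENNReal.le_tsum (f := fun n : ℕ => Psi k (if n = 0 then v else 0) p) 0
    simp only [if_true] at this
    exact this.trans_lt hp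
  filter_upwards [h1, h2] with p hp1 hp2
  have hz : Tendsto (fun n => Psi k (fun p => v p - f n p) p) atTop (𝓝 0) :=
    ENNReal.tendsto_atTop_zero_of_tsum_ne_top hp1.ne
  have hiv := integrable_of_Psi hk hv hp2
  rw [tendsto_iff_edist_tendsto_0]
  refine tendsto_of_tendsto_of_tendsto_of_le_of_le tendsto_const_nhds hz (fun _ => zero_le) ?_
  intro n
  have hlt : Psi k (fun p => v p - f n p) p < ⊤ :=
    (ENNReal.le_tsum (f := fun n : ℕ => Psi k (fun p => v p - f n p) p) n).trans_lt hp1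
  have hid := integrable_of_Psi hk (hv.sub (hf n)) hlt
  have hin : Integrable fun y : E => f n (y, p.2) • k (p.1 - y) := by
    refine (hiv.sub hid).congr (Eventually.of_forall fun y => ?_)
    simp only [Pi.sub_apply]
    rw [← sub_smul, sub_sub_cancel]
  have hsub : G k v p - G k (f n) p = ∫ y : E, (v (y, p.2) - f n (y, p.2)) • k (p.1 - y) := by
    rw [G, G, ← integral_sub hiv hin]
    apply integral_congr_ae
    refine Eventually.of_forall fun y => ?_
    simp only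
    rw [← sub_smul]
  simp only
  rw [edist_comm, edist_eq_enorm_sub, hsub]
  refine (enorm_integral_le_lintegral_enorm _).trans ?_
  rw [Psi]
  apply lintegral_mono
  intro y
  simp only
  rw [enorm_smul]

/-- Convergence of the terms of the weak formulation. -/
theorem weak_tendsto {X : Type*} [NormedAddCommGroup X] [MeasurableSpace X] [BorelSpace X]
    [SecondCountableTopology X] (L : E × ℝ → X → ℝ) (M : ℝ) (hM : 0 ≤ M)
    (hL : ∀ p a b, |L p a - L p b| ≤ M * ‖a - b‖) (hL0 : ∀ p, L p 0 = 0)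
    (f : ℕ → E × ℝ → X) (hf : ∀ n, Integrable (f n)) {g : E × ℝ → X} (hg : Integrable g)
    (hLf : ∀ n, AEStronglyMeasurable (fun p => L p (f n p)))
    (hLg : AEStronglyMeasurable (fun p => L p (g p)))
    (hfg : Tendsto (fun n => ∫⁻ p, ‖g p - f n p‖ₑ) atTop (𝓝 0)) :
    Tendsto (fun n => ∫ p, L p (f n p)) atTop (𝓝 (∫ p, L p (g p))) := by
  have hint : ∀ {w : E × ℝ → X}, Integrable w → AEStronglyMeasurable (fun p => L p (w p)) →
      Integrable fun p => L p (w p) := by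
    intro w hw hLw
    refine Integrable.mono' (hw.norm.const_mul M) hLw (Eventually.of_forall fun p => ?_)
    have := hL p (w p) 0
    rw [hL0, sub_zero, sub_zero] at this
    exact this
  refine tendsto_integral_of_L1 (fun p => L p (g p)) hLg
    (Eventually.of_forall fun n => hint (hf n) (hLf n)) ?_
  have h1 : Tendsto (fun n => ENNReal.ofReal M * ∫⁻ p, ‖g p - f n p‖ₑ) atTop (𝓝 0) := by
    have := ENNReal.Tendsto.const_mul (a := ENNReal.ofReal M) hfg (Or.inr ENNReal.ofReal_ne_top)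
    rwa [mul_zero] at this
  refine tendsto_of_tendsto_of_tendsto_of_le_of_le tendsto_const_nhds h1 (fun _ => zero_le) ?_
  intro n
  simp only
  rw [← lintegral_const_mul' _ _ ENNReal.ofReal_ne_top]
  apply lintegral_mono
  intro p
  simp only
  rw [← ofReal_norm, ← ofReal_norm, ← ENNReal.ofReal_mul hM]
  apply ENNReal.ofReal_le_ofReal
  rw [Real.norm_eq_abs, norm_sub_rev (g p)]
  exact hL p (f n p) (g p)

end Limit

open Limit

/-- The statement of the stage lemma for given data. -/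
def StageStmt (k : E → E) (T : ℝ) (u₀ : E → ℝ) : Prop :=
  ∀ {u : E × ℝ → ℝ} {F : E × ℝ → E} (_ : St k T u₀ u F) {ε : ℝ} (_ : 0 < ε),
    ∃ (u' : E × ℝ → ℝ) (F' : E × ℝ → E), St k T u₀ u' F' ∧
      (∀ᵐ p, (1 - ε) * u p ≤ u' p) ∧
      ∫⁻ p, ‖u' p - u p‖ₑ ≤ ENNReal.ofReal ε ∧
      ∫⁻ p, ‖F' p - F p‖ₑ ≤ 4 * (∫⁻ p, ‖D k u F p‖ₑ) + ENNReal.ofReal ε ∧
      ∫⁻ p, ‖D k u' F' p‖ₑ ≤ ENNReal.ofReal ε

/-- MODULE LIMIT: the limit of the iteration. -/
theorem limit_of_stage {k : E → E} (hk : Ker k) {T : ℝ} {u₀ : E → ℝ}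
    (hst : StageStmt k T u₀) {u : E × ℝ → ℝ}
    {F : E × ℝ → E} (h : St k T u₀ u F) {ε : ℝ} (hε : 0 < ε) :
    ∃ (v : E × ℝ → ℝ) (H : E × ℝ → E), Sub T u₀ v H ∧ (∀ᵐ p, H p = v p • G k v p) ∧
      ∫⁻ p, ‖v p - u p‖ₑ ≤ ENNReal.ofReal ε := by
  classical
  -- the sequence
  let en : ℕ → ℝ := fun n => ε * (1 / 2) ^ (n + 1)
  have hen : ∀ n, 0 < en n := fun n => by positivity
  let Sq := {q : (E × ℝ → ℝ) × (E × ℝ → E) // St k T u₀ q.1 q.2}
  have hnext : ∀ (n : ℕ) (q : Sq), ∃ q' : Sq,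
      ∫⁻ p, ‖q'.1.1 p - q.1.1 p‖ₑ ≤ ENNReal.ofReal (en n) ∧
      ∫⁻ p, ‖q'.1.2 p - q.1.2 p‖ₑ ≤ 4 * (∫⁻ p, ‖D k q.1.1 q.1.2 p‖ₑ) + ENNReal.ofReal (en n) ∧
      ∫⁻ p, ‖D k q'.1.1 q'.1.2 p‖ₑ ≤ ENNReal.ofReal (en n) := by
    intro n q
    obtain ⟨u', F', h1, -, h2, h3, h4⟩ := hst q.2 (hen n)
    exact ⟨⟨(u', F'), h1⟩, h2, h3, h4⟩
  choose next hn1 hn2 hn3 using hnext
  let seq : ℕ → Sq := fun n => Nat.rec ⟨(u, F), h⟩ (fun n q => next n q) n
  have hseq : ∀ n, seq (n + 1) = next n (seq n) := fun n => rfl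
  let us : ℕ → E × ℝ → ℝ := fun n => (seq n).1.1
  let Fs : ℕ → E × ℝ → E := fun n => (seq n).1.2
  have hSt : ∀ n, St k T u₀ (us n) (Fs n) := fun n => (seq n).2
  have hu : ∀ n, ∫⁻ p, ‖us (n + 1) p - us n p‖ₑ ≤ ENNReal.ofReal (en n) := fun n =>
    hn1 n (seq n)
  have hF : ∀ n, ∫⁻ p, ‖Fs (n + 1) p - Fs n p‖ₑ ≤
      4 * (∫⁻ p, ‖D k (us n) (Fs n) p‖ₑ) + ENNReal.ofReal (en n) := fun n => hn2 n (seq n)
  have hD : ∀ n, ∫⁻ p, ‖D k (us (n + 1)) (Fs (n + 1)) p‖ₑ ≤ ENNReal.ofReal (en n) := fun n =>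
    hn3 n (seq n)
  -- sums of the errors
  have hensum : ∀ n, ∑' m, ENNReal.ofReal (en (m + n)) = ENNReal.ofReal (ε * (1 / 2) ^ n) := by
    intro n
    have h2 : HasSum (fun m : ℕ => en (m + n)) (ε * (1 / 2) ^ n) := by
      have h3 := (hasSum_geometric_two.mul_left (ε * (1 / 2) ^ (n + 1)))
      have e1 : ε * (1 / 2) ^ (n + 1) * 2 = ε * (1 / 2) ^ n := by rw [pow_succ]; ring
      rw [e1] at h3
      refine h3.congr_fun fun m => ?_
      show ε * (1 / 2) ^ (m + n + 1) = ε * (1 / 2) ^ (n + 1) * (1 / 2) ^ m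
      rw [show m + n + 1 = (n + 1) + m by ring, pow_add]
      ring
    rw [← h2.tsum_eq, ENNReal.ofReal_tsum_of_nonneg (fun m => (hen _).le) h2.summable]
  have hsumtop : ∑' n, ENNReal.ofReal (en n) ≠ ⊤ := by
    have := hensum 0
    simp only [add_zero] at this
    rw [this]
    exact ENNReal.ofReal_ne_top
  have htail : ∑' n : ℕ, ENNReal.ofReal (ε * (1 / 2) ^ n) ≠ ⊤ := by
    rw [← ENNReal.ofReal_tsum_of_nonneg (fun n => by positivity)
      (summable_geometric_two.mul_left ε)]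
    exact ENNReal.ofReal_ne_top
  -- limits
  obtain ⟨v₀, hv₀m, hv₀t, hv₀1, hv₀c⟩ := l1_limit us (fun n => (hSt n).measu)
    (fun n => ENNReal.ofReal (en n)) hsumtop hu
  have hDm : ∀ n, AEStronglyMeasurable (D k (us n) (Fs n)) := fun n =>
    (hSt n).measF.aestronglyMeasurable.sub (hSt n).prod.aestronglyMeasurable
  have hD0 : ∫⁻ p, ‖D k (us 0) (Fs 0) p‖ₑ ≠ ⊤ := by
    have : Integrable (D k (us 0) (Fs 0)) := (hSt 0).intF.sub (hSt 0).prod
    exact this.2.ne
  have hDsum : ∑' n, ∫⁻ p, ‖D k (us n) (Fs n) p‖ₑ ≠ ⊤ := by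
    rw [tsum_eq_zero_add' ENNReal.summable]
    exact ENNReal.add_ne_top.2 ⟨hD0, ne_top_of_le_ne_top hsumtop (ENNReal.tsum_le_tsum hD)⟩
  have hFsum : ∑' n, (4 * (∫⁻ p, ‖D k (us n) (Fs n) p‖ₑ) + ENNReal.ofReal (en n)) ≠ ⊤ := by
    rw [ENNReal.tsum_add, ENNReal.tsum_mul_left]
    exact ENNReal.add_ne_top.2 ⟨ENNReal.mul_ne_top (by norm_num) hDsum, hsumtop⟩
  obtain ⟨H, hHm, hHt, hH1, hHc⟩ := l1_limit Fs (fun n => (hSt n).measF)
    (fun n => 4 * (∫⁻ p, ‖D k (us n) (Fs n) p‖ₑ) + ENNReal.ofReal (en n)) hFsum hF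
  let v : E × ℝ → ℝ := fun p => max (v₀ p) 0
  have hvv : ∀ᵐ p, v p = v₀ p := by
    filter_upwards [hv₀t] with p hp
    exact max_eq_left (ge_of_tendsto' hp fun n => (hSt n).nonneg p)
  have hvm : Measurable v := hv₀m.max measurable_const
  have hvt : ∀ᵐ p, Tendsto (fun n => us n p) atTop (𝓝 (v p)) := by
    filter_upwards [hv₀t, hvv] with p hp1 hp2
    rw [hp2]
    exact hp1
  have hv1 : ∀ n, ∫⁻ p, ‖v p - us n p‖ₑ ≤ ENNReal.ofReal (ε * (1 / 2) ^ n) := by
    intro n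
    rw [← hensum n]
    refine le_trans (le_of_eq ?_) (hv₀1 n)
    apply lintegral_congr_ae
    filter_upwards [hvv] with p hp
    rw [hp]
  have hvi : Integrable v := by
    refine ⟨hvm.aestronglyMeasurable, ?_⟩
    rw [HasFiniteIntegral]
    calc ∫⁻ p, ‖v p‖ₑ ≤ ∫⁻ p, (‖v p - us 0 p‖ₑ + ‖us 0 p‖ₑ) := by
          apply lintegral_mono
          intro p
          simp only
          calc ‖v p‖ₑ = ‖(v p - us 0 p) + us 0 p‖ₑ := by rw [sub_add_cancel]
            _ ≤ _ := enorm_add_le _ _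
      _ = (∫⁻ p, ‖v p - us 0 p‖ₑ) + ∫⁻ p, ‖us 0 p‖ₑ :=
          lintegral_add_left (hvm.sub (hSt 0).measu).enorm _
      _ < ⊤ := ENNReal.add_lt_top.2 ⟨(hv1 0).trans_lt ENNReal.ofReal_lt_top, (hSt 0).intu.2⟩
  have hHtail : Tendsto (fun n => ∫⁻ p, ‖H p - Fs n p‖ₑ) atTop (𝓝 0) :=
    tendsto_of_tendsto_of_tendsto_of_le_of_le tendsto_const_nhds
      (ENNReal.tendsto_sum_nat_add _ hFsum) (fun _ => zero_le) hH1
  have hHi : Integrable H := by
    refine ⟨hHm.aestronglyMeasurable, ?_⟩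
    rw [HasFiniteIntegral]
    have h00 : ∫⁻ p, ‖H p - Fs 0 p‖ₑ < ⊤ := by
      refine (hH1 0).trans_lt ?_
      simpa using lt_top_iff_ne_top.2 hFsum
    calc ∫⁻ p, ‖H p‖ₑ ≤ ∫⁻ p, (‖H p - Fs 0 p‖ₑ + ‖Fs 0 p‖ₑ) := by
          apply lintegral_mono
          intro p
          simp only
          calc ‖H p‖ₑ = ‖(H p - Fs 0 p) + Fs 0 p‖ₑ := by rw [sub_add_cancel]
            _ ≤ _ := enorm_add_le _ _
      _ = (∫⁻ p, ‖H p - Fs 0 p‖ₑ) + ∫⁻ p, ‖Fs 0 p‖ₑ :=
          lintegral_add_left (hHm.sub (hSt 0).measF).enorm _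
      _ < ⊤ := ENNReal.add_lt_top.2 ⟨h00, (hSt 0).intF.2⟩
  have hvtail : Tendsto (fun n => ∫⁻ p, ‖v p - us n p‖ₑ) atTop (𝓝 0) := by
    refine tendsto_of_tendsto_of_tendsto_of_le_of_le tendsto_const_nhds ?_ (fun _ => zero_le)
      hv1
    exact ENNReal.tendsto_atTop_zero_of_tsum_ne_top htail
  have hGt : ∀ᵐ p : E × ℝ, Tendsto (fun n => G k (us n) p) atTop (𝓝 (G k v p)) :=
    G_tendsto hk us (fun n => (hSt n).measu) hvm hvi.2.ne
      (ne_top_of_le_ne_top htail (ENNReal.tsum_le_tsum hv1))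
  have hDt : ∀ᵐ p : E × ℝ, Tendsto (fun n => D k (us n) (Fs n) p) atTop (𝓝 0) := by
    have h1 : ∀ᵐ p : E × ℝ, ∑' n, ‖D k (us n) (Fs n) p‖ₑ < ⊤ := by
      apply ae_lt_top'
      · exact AEMeasurable.tsum fun n => (hDm n).enorm
      · rw [lintegral_tsum fun n => (hDm n).enorm]
        exact hDsum
    filter_upwards [h1] with p hp
    rw [tendsto_iff_edist_tendsto_0]
    simpa only [edist_zero_right] using ENNReal.tendsto_atTop_zero_of_tsum_ne_top hp.ne
  refine ⟨v, H, ⟨hvm, hHm, fun p => le_max_right _ _, ?_, ?_, hvi, hHi, ?_⟩, ?_, ?_⟩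
  · intro p hp
    have : v₀ p = 0 := hv₀c p 0 fun n => (hSt n).suppu p hp
    show max (v₀ p) 0 = 0
    rw [this, max_self]
  · intro p hp
    exact hHc p 0 fun n => (hSt n).suppF p hp
  · intro φ hφ hφc hφs
    have hcd : Continuous (fderiv ℝ φ) := hφ.continuous_fderiv one_ne_zero
    have hcs : HasCompactSupport (fderiv ℝ φ) := hφc.fderiv ℝ
    obtain ⟨M, hM⟩ := hcd.bounded_above_of_compact_support hcs
    have hM0 : 0 ≤ M := (norm_nonneg _).trans (hM 0)
    have t1 : Tendsto (fun n => ∫ p, us n p * fderiv ℝ φ p ((0 : E), (1 : ℝ))) atTop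
        (𝓝 (∫ p, v p * fderiv ℝ φ p ((0 : E), (1 : ℝ)))) := by
      have hmeas : ∀ {w : E × ℝ → ℝ}, Measurable w →
          AEStronglyMeasurable (fun p => w p * fderiv ℝ φ p ((0 : E), (1 : ℝ))) := by
        intro w hw
        have h1 : Continuous fun p => fderiv ℝ φ p ((0 : E), (1 : ℝ)) :=
          hcd.clm_apply continuous_const
        exact (hw.mul h1.measurable).aestronglyMeasurable
      apply weak_tendsto (fun p a => a * fderiv ℝ φ p ((0 : E), (1 : ℝ))) M hM0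
      · intro p a b
        rw [← sub_mul, abs_mul, mul_comm, Real.norm_eq_abs]
        apply mul_le_mul_of_nonneg_right _ (abs_nonneg _)
        have h1 := (fderiv ℝ φ p).le_opNorm ((0 : E), (1 : ℝ))
        have h2 : ‖((0 : E), (1 : ℝ))‖ = 1 := by simp [Prod.norm_def]
        rw [h2, mul_one] at h1
        exact h1.trans (hM p)
      · intro p
        simp
      · exact fun n => (hSt n).intu
      · exact hvi
      · exact fun n => hmeas (hSt n).measu
      · exact hmeas hvm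
      · exact hvtail
    have t2 : Tendsto (fun n => ∫ p, fderiv ℝ φ p (Fs n p, (0 : ℝ))) atTop
        (𝓝 (∫ p, fderiv ℝ φ p (H p, (0 : ℝ)))) := by
      have hmeas : ∀ {w : E × ℝ → E}, Measurable w →
          AEStronglyMeasurable (fun p => fderiv ℝ φ p (w p, (0 : ℝ))) := by
        intro w hw
        have h1 : StronglyMeasurable fun p => (fderiv ℝ φ p, (w p, (0 : ℝ))) :=
          hcd.stronglyMeasurable.prodMk (hw.stronglyMeasurable.prodMk stronglyMeasurable_const)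
        have h2 : Continuous fun q : ((E × ℝ) →L[ℝ] ℝ) × (E × ℝ) => q.1 q.2 :=
          isBoundedBilinearMap_apply.continuous
        exact (h2.comp_stronglyMeasurable h1).aestronglyMeasurable
      apply weak_tendsto (fun p a => fderiv ℝ φ p (a, (0 : ℝ))) M hM0
      · intro p a b
        rw [← map_sub]
        have h1 := (fderiv ℝ φ p).le_opNorm ((a, (0 : ℝ)) - (b, (0 : ℝ)))
        have h2 : ‖((a, (0 : ℝ)) - (b, (0 : ℝ)) : E × ℝ)‖ = ‖a - b‖ := by
          simp [Prod.norm_def]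
        rw [h2, Real.norm_eq_abs] at h1
        exact h1.trans (mul_le_mul_of_nonneg_right (hM p) (norm_nonneg _))
      · intro p
        have : ((0 : E), (0 : ℝ)) = 0 := rfl
        rw [this, map_zero]
      · exact fun n => (hSt n).intF
      · exact hHi
      · exact fun n => hmeas (hSt n).measF
      · exact hmeas hHm
      · exact hHtail
    have t3 := (t1.sub t2).add_const (∫ x : E, u₀ x * φ (x, (0 : ℝ)))
    refine tendsto_nhds_unique t3 ?_
    have : (fun n => (∫ p, us n p * fderiv ℝ φ p ((0 : E), (1 : ℝ))) -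
        (∫ p, fderiv ℝ φ p (Fs n p, (0 : ℝ))) + ∫ x : E, u₀ x * φ (x, (0 : ℝ))) = fun _ => 0 := by
      funext n
      exact (hSt n).weak φ hφ hφc hφs
    rw [this]
    exact tendsto_const_nhds
  · filter_upwards [hvt, hHt, hGt, hDt] with p h1 h2 h3 h4
    have h5 : Tendsto (fun n => Fs n p) atTop (𝓝 (0 + v p • G k v p)) := by
      have h6 := h4.add (h1.smul h3)
      refine h6.congr fun n => ?_
      simp only [D]
      abel
    rw [zero_add] at h5
    exact tendsto_nhds_unique h2 h5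
  · have := hv1 0
    rw [pow_zero, mul_one] at this
    exact this

end Pool.Agent.H59.NPM
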