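import Mathlib
import Pool.Agent.H59.NPM.FinalE
import Pool.Agent.H59.NPM.Limit
import Pool.Agent.H59.NPM.Block

set_option autoImplicit false

/-! Module FINAL, part F: the frozen statement from the stage lemma. -/

namespace Pool.Agent.H59.NPM

open MeasureTheory
open scoped ENNReal

/-- The frozen statement from the bubbles and the stage lemma. -/
theorem result_of
    (hblock : ∀ (κ : ℝ), 0 < κ → ∀ (a : E) (ρ : ℝ), 0 < ρ →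
      ∃ w : E → ℝ, Measurable w ∧ (∀ x, 0 ≤ w x) ∧ Integrable w ∧
      ∫ x, w x = 1 ∧ (∀ x, ρ ≤ ‖x‖ → w x = 0) ∧
      ∀ x, w x ≠ 0 → Integrable (fun y : E => w y • ((-κ * ‖x - y‖ ^ (-(5 / 2) : ℝ)) • (x - y))) ∧
        ∫ y : E, w y • ((-κ * ‖x - y‖ ^ (-(5 / 2) : ℝ)) • (x - y)) = -a)
    (hst : ∀ (k : E → E) (T : ℝ) (u₀ : E → ℝ), Ker k → 0 < T → StageStmt k T u₀) :
    ¬ (∀ (N : ℕ), 2 ≤ N → ∀ (m s T : ℝ), 1 < m → 0 < s → s < 1 → 0 < T →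
  ∀ u₀ : EuclideanSpace ℝ (Fin N) → ℝ, (∀ x, 0 ≤ u₀ x) →
    MemLp u₀ 1 (volume : Measure (EuclideanSpace ℝ (Fin N))) →
    MemLp u₀ ⊤ (volume : Measure (EuclideanSpace ℝ (Fin N))) →
  ∀ u v : EuclideanSpace ℝ (Fin N) × ℝ → ℝ,
  (∀ w ∈ ({u, v} : Set (EuclideanSpace ℝ (Fin N) × ℝ → ℝ)),
    (∀ p, 0 ≤ w p) ∧
    LocallyIntegrableOn w ((Set.univ : Set (EuclideanSpace ℝ (Fin N))) ×ˢ Set.Ioo (0:ℝ) T)
      (volume : Measure (EuclideanSpace ℝ (Fin N) × ℝ)) ∧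
    (∀ᵐ p ∂((volume : Measure (EuclideanSpace ℝ (Fin N) × ℝ)).restrict
        ((Set.univ : Set (EuclideanSpace ℝ (Fin N))) ×ˢ Set.Ioo (0:ℝ) T)),
      Integrable (fun y : EuclideanSpace ℝ (Fin N) => ‖p.1 - y‖ ^ (2 * s - (N:ℝ)) * w (y, p.2))
        (volume : Measure (EuclideanSpace ℝ (Fin N)))) ∧
    LocallyIntegrableOn
      (fun p : EuclideanSpace ℝ (Fin N) × ℝ =>
        ∫ y : EuclideanSpace ℝ (Fin N), ‖p.1 - y‖ ^ (2 * s - (N:ℝ)) * w (y, p.2))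
      ((Set.univ : Set (EuclideanSpace ℝ (Fin N))) ×ˢ Set.Ioo (0:ℝ) T)
      (volume : Measure (EuclideanSpace ℝ (Fin N) × ℝ)) ∧
    ∃ G : EuclideanSpace ℝ (Fin N) × ℝ → EuclideanSpace ℝ (Fin N),
      LocallyIntegrableOn G ((Set.univ : Set (EuclideanSpace ℝ (Fin N))) ×ˢ Set.Ioo (0:ℝ) T)
        (volume : Measure (EuclideanSpace ℝ (Fin N) × ℝ)) ∧
      LocallyIntegrableOn (fun p => w p ^ (m - 1) • G p)
        ((Set.univ : Set (EuclideanSpace ℝ (Fin N))) ×ˢ Set.Ioo (0:ℝ) T)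
        (volume : Measure (EuclideanSpace ℝ (Fin N) × ℝ)) ∧
      (∀ ψ : EuclideanSpace ℝ (Fin N) × ℝ → ℝ, ContDiff ℝ 1 ψ → HasCompactSupport ψ →
        tsupport ψ ⊆ ((Set.univ : Set (EuclideanSpace ℝ (Fin N))) ×ˢ Set.Ioo (0:ℝ) T) →
        ∀ e : EuclideanSpace ℝ (Fin N),
          ∫ p : EuclideanSpace ℝ (Fin N) × ℝ,
              (Real.Gamma ((N:ℝ) / 2 - s) / ((4:ℝ) ^ s * Real.pi ^ ((N:ℝ) / 2) * Real.Gamma s)) *
              (∫ y : EuclideanSpace ℝ (Fin N), ‖p.1 - y‖ ^ (2 * s - (N:ℝ)) * w (y, p.2)) *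
              fderiv ℝ ψ p (e, (0:ℝ))
            = - ∫ p : EuclideanSpace ℝ (Fin N) × ℝ, inner ℝ (G p) e * ψ p) ∧
      (∀ φ : EuclideanSpace ℝ (Fin N) × ℝ → ℝ, ContDiff ℝ 1 φ → HasCompactSupport φ →
        tsupport φ ⊆ {p : EuclideanSpace ℝ (Fin N) × ℝ | p.2 < T} →
        IntegrableOn (fun p => w p * fderiv ℝ φ p ((0 : EuclideanSpace ℝ (Fin N)), (1:ℝ)))
          ((Set.univ : Set (EuclideanSpace ℝ (Fin N))) ×ˢ Set.Ioo (0:ℝ) T)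
          (volume : Measure (EuclideanSpace ℝ (Fin N) × ℝ)) ∧
        IntegrableOn (fun p => w p ^ (m - 1) * fderiv ℝ φ p (G p, (0:ℝ)))
          ((Set.univ : Set (EuclideanSpace ℝ (Fin N))) ×ˢ Set.Ioo (0:ℝ) T)
          (volume : Measure (EuclideanSpace ℝ (Fin N) × ℝ)) ∧
        (∫ p in ((Set.univ : Set (EuclideanSpace ℝ (Fin N))) ×ˢ Set.Ioo (0:ℝ) T),
            w p * fderiv ℝ φ p ((0 : EuclideanSpace ℝ (Fin N)), (1:ℝ)))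
          - (∫ p in ((Set.univ : Set (EuclideanSpace ℝ (Fin N))) ×ˢ Set.Ioo (0:ℝ) T),
            w p ^ (m - 1) * fderiv ℝ φ p (G p, (0:ℝ)))
          + (∫ x : EuclideanSpace ℝ (Fin N), u₀ x * φ (x, (0:ℝ))) = 0)) →
  u =ᵐ[(volume : Measure (EuclideanSpace ℝ (Fin N) × ℝ)).restrict
        ((Set.univ : Set (EuclideanSpace ℝ (Fin N))) ×ˢ Set.Ioo (0:ℝ) T)] v) :=
  Fin.final_of hblock fun {k} hk {T} hT {u₀} {_} {_} h {_} hε =>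
    limit_of_stage hk (hst k T u₀ hk hT) h hε

/-- The frozen statement from the stage lemma (with `block` supplied). -/
theorem result_of_stage
    (hst : ∀ (k : E → E) (T : ℝ) (u₀ : E → ℝ), Ker k → 0 < T → StageStmt k T u₀) :
    ¬ (∀ (N : ℕ), 2 ≤ N → ∀ (m s T : ℝ), 1 < m → 0 < s → s < 1 → 0 < T →
  ∀ u₀ : EuclideanSpace ℝ (Fin N) → ℝ, (∀ x, 0 ≤ u₀ x) →
    MemLp u₀ 1 (volume : Measure (EuclideanSpace ℝ (Fin N))) →
    MemLp u₀ ⊤ (volume : Measure (EuclideanSpace ℝ (Fin N))) →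
  ∀ u v : EuclideanSpace ℝ (Fin N) × ℝ → ℝ,
  (∀ w ∈ ({u, v} : Set (EuclideanSpace ℝ (Fin N) × ℝ → ℝ)),
    (∀ p, 0 ≤ w p) ∧
    LocallyIntegrableOn w ((Set.univ : Set (EuclideanSpace ℝ (Fin N))) ×ˢ Set.Ioo (0:ℝ) T)
      (volume : Measure (EuclideanSpace ℝ (Fin N) × ℝ)) ∧
    (∀ᵐ p ∂((volume : Measure (EuclideanSpace ℝ (Fin N) × ℝ)).restrict
        ((Set.univ : Set (EuclideanSpace ℝ (Fin N))) ×ˢ Set.Ioo (0:ℝ) T)),
      Integrable (fun y : EuclideanSpace ℝ (Fin N) => ‖p.1 - y‖ ^ (2 * s - (N:ℝ)) * w (y, p.2))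
        (volume : Measure (EuclideanSpace ℝ (Fin N)))) ∧
    LocallyIntegrableOn
      (fun p : EuclideanSpace ℝ (Fin N) × ℝ =>
        ∫ y : EuclideanSpace ℝ (Fin N), ‖p.1 - y‖ ^ (2 * s - (N:ℝ)) * w (y, p.2))
      ((Set.univ : Set (EuclideanSpace ℝ (Fin N))) ×ˢ Set.Ioo (0:ℝ) T)
      (volume : Measure (EuclideanSpace ℝ (Fin N) × ℝ)) ∧
    ∃ G : EuclideanSpace ℝ (Fin N) × ℝ → EuclideanSpace ℝ (Fin N),
      LocallyIntegrableOn G ((Set.univ : Set (EuclideanSpace ℝ (Fin N))) ×ˢ Set.Ioo (0:ℝ) T)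
        (volume : Measure (EuclideanSpace ℝ (Fin N) × ℝ)) ∧
      LocallyIntegrableOn (fun p => w p ^ (m - 1) • G p)
        ((Set.univ : Set (EuclideanSpace ℝ (Fin N))) ×ˢ Set.Ioo (0:ℝ) T)
        (volume : Measure (EuclideanSpace ℝ (Fin N) × ℝ)) ∧
      (∀ ψ : EuclideanSpace ℝ (Fin N) × ℝ → ℝ, ContDiff ℝ 1 ψ → HasCompactSupport ψ →
        tsupport ψ ⊆ ((Set.univ : Set (EuclideanSpace ℝ (Fin N))) ×ˢ Set.Ioo (0:ℝ) T) →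
        ∀ e : EuclideanSpace ℝ (Fin N),
          ∫ p : EuclideanSpace ℝ (Fin N) × ℝ,
              (Real.Gamma ((N:ℝ) / 2 - s) / ((4:ℝ) ^ s * Real.pi ^ ((N:ℝ) / 2) * Real.Gamma s)) *
              (∫ y : EuclideanSpace ℝ (Fin N), ‖p.1 - y‖ ^ (2 * s - (N:ℝ)) * w (y, p.2)) *
              fderiv ℝ ψ p (e, (0:ℝ))
            = - ∫ p : EuclideanSpace ℝ (Fin N) × ℝ, inner ℝ (G p) e * ψ p) ∧
      (∀ φ : EuclideanSpace ℝ (Fin N) × ℝ → ℝ, ContDiff ℝ 1 φ → HasCompactSupport φ →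
        tsupport φ ⊆ {p : EuclideanSpace ℝ (Fin N) × ℝ | p.2 < T} →
        IntegrableOn (fun p => w p * fderiv ℝ φ p ((0 : EuclideanSpace ℝ (Fin N)), (1:ℝ)))
          ((Set.univ : Set (EuclideanSpace ℝ (Fin N))) ×ˢ Set.Ioo (0:ℝ) T)
          (volume : Measure (EuclideanSpace ℝ (Fin N) × ℝ)) ∧
        IntegrableOn (fun p => w p ^ (m - 1) * fderiv ℝ φ p (G p, (0:ℝ)))
          ((Set.univ : Set (EuclideanSpace ℝ (Fin N))) ×ˢ Set.Ioo (0:ℝ) T)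
          (volume : Measure (EuclideanSpace ℝ (Fin N) × ℝ)) ∧
        (∫ p in ((Set.univ : Set (EuclideanSpace ℝ (Fin N))) ×ˢ Set.Ioo (0:ℝ) T),
            w p * fderiv ℝ φ p ((0 : EuclideanSpace ℝ (Fin N)), (1:ℝ)))
          - (∫ p in ((Set.univ : Set (EuclideanSpace ℝ (Fin N))) ×ˢ Set.Ioo (0:ℝ) T),
            w p ^ (m - 1) * fderiv ℝ φ p (G p, (0:ℝ)))
          + (∫ x : EuclideanSpace ℝ (Fin N), u₀ x * φ (x, (0:ℝ))) = 0)) →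
  u =ᵐ[(volume : Measure (EuclideanSpace ℝ (Fin N) × ℝ)).restrict
        ((Set.univ : Set (EuclideanSpace ℝ (Fin N))) ×ˢ Set.Ioo (0:ℝ) T)] v) :=
  result_of Bub.block hst

end Pool.Agent.H59.NPM
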