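import Mathlib
import Pool.Agent.H59.NPM.Combine
import Pool.Agent.H59.NPM.Transport

set_option autoImplicit false

/-! Finite families of events with disjoint flights. -/

namespace Pool.Agent.H59.NPM

open MeasureTheory Set
open scoped ENNReal

/-- The statement of the module EVENT. -/
def EventStmt (k : E → E) : Prop :=
  ∀ (z h : E) (m q ς σ t₀ τ θ : ℝ), 0 ≤ m → 0 < q → 0 < ς → ς ≤ 1 / 4 → 0 < θ → t₀ ≤ τ →
    τ + θ ≤ t₀ + σ → ∀ (Ψ : E × ℝ → ℝ≥0∞), Measurable Ψ →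
    ∃ (e b : E × ℝ → ℝ) (C : E × ℝ → E), Measurable e ∧ Measurable b ∧ Measurable C ∧
      (∀ p, |e p| ≤ m * (chi q (p.1 - z) + chi q (p.1 - z - h))) ∧
      (∀ p : E × ℝ, p.2 ∉ Ioo t₀ (t₀ + σ) → e p = 0) ∧
      (∀ p, 0 ≤ b p) ∧ (∀ p : E × ℝ, p.2 ∉ Ioo τ (τ + θ) → b p = 0) ∧
      (∀ p : E × ℝ, p.2 ∉ Ioo τ (τ + θ) → C p = 0) ∧
      ∫⁻ p, ‖b p‖ₑ ≤ ENNReal.ofReal (m * θ) ∧
      ∫⁻ p, ‖b p • G k b p‖ₑ ≤ ENNReal.ofReal (m * ‖h‖) ∧
      ∫⁻ p, ‖C p‖ₑ ≤ ENNReal.ofReal (2 * m * (5 * q + 2 * ς * ‖h‖)) ∧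
      ∫⁻ p, ‖b p‖ₑ * Ψ p ≤ ENNReal.ofReal (m / q ^ 2) *
        ∫⁻ p in Metric.closedBall z (‖h‖ + 4 * q) ×ˢ Ioo τ (τ + θ), Ψ p ∧
      ∀ φ : E × ℝ → ℝ, ContDiff ℝ 1 φ → HasCompactSupport φ →
        ∫ p, (e p + b p) * fderiv ℝ φ p ((0 : E), (1 : ℝ)) =
          ∫ p, fderiv ℝ φ p (b p • G k b p - C p +
            (Ioo t₀ (t₀ + σ)).indicator (fun _ => m / σ * seg q z h p.1) p.2 • h, (0 : ℝ))

/-- The slots `(jσ, (j+1)σ)`. -/
def slot (σ : ℝ) (j : ℕ) : Set ℝ := Ioo (j * σ) ((j + 1) * σ)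

/-- The total flux of the events. -/
noncomputable def KK {ι : Type} [Fintype ι] (n : ℕ) (q σ : ℝ) (z h : ι → E) (m : ι → Fin n → ℝ)
    (p : E × ℝ) : E :=
  ∑ i, ∑ j : Fin n, (slot σ j).indicator (fun _ => m i j / σ * seg q (z i) (h i) p.1) p.2 • h i

namespace Mult

theorem slot_eq (σ : ℝ) (j : ℕ) : slot σ j = Ioo ((j : ℝ) * σ) ((j : ℝ) * σ + σ) := by
  unfold slot
  congr 1
  ring

theorem ofReal_sum_le {ι : Type*} (s : Finset ι) (f : ι → ℝ≥0∞) (g : ι → ℝ)
    (hg : ∀ i ∈ s, 0 ≤ g i) (h : ∀ i ∈ s, f i ≤ ENNReal.ofReal (g i)) :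
    ∑ i ∈ s, f i ≤ ENNReal.ofReal (∑ i ∈ s, g i) := by
  rw [ENNReal.ofReal_sum_of_nonneg hg]
  exact Finset.sum_le_sum h

theorem enorm_sum_le' {ι X : Type*} [NormedAddCommGroup X] (s : Finset ι) (f : ι → X) :
    ‖∑ i ∈ s, f i‖ₑ ≤ ∑ i ∈ s, ‖f i‖ₑ := by
  classical
  induction s using Finset.induction_on with
  | empty => simp
  | insert a s ha ih =>
    rw [Finset.sum_insert ha, Finset.sum_insert ha]
    exact (enorm_add_le _ _).trans (add_le_add le_rfl ih)

end Mult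

open Mult Comb in
theorem multi_of_event {k : E → E} (hev : EventStmt k) (hk : Ker k) {T : ℝ} (hT : 0 < T) {n : ℕ}
    (hn : 0 < n) {σ : ℝ}
    (hσ : n * σ = T) {ι : Type} [Fintype ι] {z h : ι → E} {q ς : ℝ} (hq : 0 < q)
    (hς : 0 < ς) (hς' : ς ≤ 1 / 4) {m : ι → Fin n → ℝ} (hm : ∀ i j, 0 ≤ m i j) {μ : ℝ}
    (hμ : ∀ i j, m i j ≤ μ) {R : ℝ} (hR : ∀ i, ‖z i‖ + ‖h i‖ + 4 * q ≤ R)
    {Ψ : E × ℝ → ℝ≥0∞} (hΨ : Measurable Ψ) :
    ∃ (e b : E × ℝ → ℝ) (C : E × ℝ → E), Measurable e ∧ Measurable b ∧ Measurable C ∧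
      (∀ p, |e p| ≤ ∑ i, ∑ j : Fin n, (slot σ j).indicator (fun _ =>
        m i j * (chi q (p.1 - z i) + chi q (p.1 - z i - h i))) p.2) ∧
      (∀ p, 0 ≤ b p) ∧
      (∀ p : E × ℝ, p.2 ∉ Ioo 0 T → e p = 0 ∧ b p = 0 ∧ C p = 0) ∧
      ∫⁻ p, ‖b p‖ₑ ≤ ENNReal.ofReal (μ * T) ∧
      ∫⁻ p, ‖b p • G k b p‖ₑ ≤ ENNReal.ofReal (∑ i, ∑ j, m i j * ‖h i‖) ∧
      ∫⁻ p, ‖C p‖ₑ ≤ ENNReal.ofReal (∑ i, ∑ j, 2 * m i j * (5 * q + 2 * ς * ‖h i‖)) ∧
      ∫⁻ p, ‖b p‖ₑ * Ψ p ≤ ENNReal.ofReal (μ / q ^ 2) *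
        ∫⁻ p in Metric.closedBall (0 : E) R ×ˢ Ioo 0 T, Ψ p ∧
      ∀ φ : E × ℝ → ℝ, ContDiff ℝ 1 φ → HasCompactSupport φ →
        ∫ p, (e p + b p) * fderiv ℝ φ p ((0 : E), (1 : ℝ)) =
          ∫ p, fderiv ℝ φ p (b p • G k b p - C p + KK n q σ z h m p, (0 : ℝ)) := by
  classical
  have hn0 : (0 : ℝ) < n := by exact_mod_cast hn
  have hσ0 : 0 < σ := by
    by_contra hcon
    have : (n : ℝ) * σ ≤ 0 := mul_nonpos_of_nonneg_of_nonpos hn0.le (not_lt.1 hcon)
    linarith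
  -- the flight intervals
  set c : ℕ := Fintype.card ι with hc
  set θ : ℝ := σ / c with hθ
  let idx : ι → ℕ := fun i => (Fintype.equivFin ι i : ℕ)
  have hidx : ∀ i, idx i < c := fun i => (Fintype.equivFin ι i).2
  have hidxinj : ∀ i i', idx i = idx i' → i = i' := by
    intro i i' hii
    exact (Fintype.equivFin ι).injective (Fin.ext hii)
  have hcpos : ∀ _ : ι, (0 : ℝ) < c := fun i => by
    have : 0 < c := lt_of_le_of_lt (Nat.zero_le _) (hidx i)
    exact_mod_cast this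
  let τ : ι × Fin n → ℝ := fun a => (a.2 : ℕ) * σ + idx a.1 * θ
  have hθpos : ∀ _ : ι, 0 < θ := fun i => div_pos hσ0 (hcpos i)
  have hcθ : ∀ _ : ι, (c : ℝ) * θ = σ := fun i => by
    rw [hθ]
    field_simp [(hcpos i).ne']
  have hτ1 : ∀ a : ι × Fin n, ((a.2 : ℕ) : ℝ) * σ ≤ τ a := by
    intro a
    have := hθpos a.1
    simp only [τ]
    have h2 : (0 : ℝ) ≤ (idx a.1 : ℝ) * θ := by positivity
    linarith
  have hτ2 : ∀ a : ι × Fin n, τ a + θ ≤ ((a.2 : ℕ) : ℝ) * σ + σ := by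
    intro a
    have h1 := hθpos a.1
    have h2 := hcθ a.1
    have h3 : ((idx a.1 : ℝ) + 1) ≤ c := by exact_mod_cast hidx a.1
    simp only [τ]
    nlinarith
  -- disjointness
  have hdisj : ∀ a a' : ι × Fin n, ∀ t, t ∈ Ioo (τ a) (τ a + θ) → t ∈ Ioo (τ a') (τ a' + θ) →
      a = a' := by
    intro a a' t ht ht'
    have h1 := hθpos a.1
    have key : ∀ a a' : ι × Fin n, t ∈ Ioo (τ a) (τ a + θ) → t ∈ Ioo (τ a') (τ a' + θ) →
        (a.2 : ℕ) ≤ (a'.2 : ℕ) := by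
      intro a a' ht ht'
      by_contra hcon
      have h5 : (a'.2 : ℕ) + 1 ≤ (a.2 : ℕ) := by omega
      have h6 : (((a'.2 : ℕ) : ℝ) + 1) ≤ ((a.2 : ℕ) : ℝ) := by exact_mod_cast h5
      have h7 := hτ1 a
      have h8 := hτ2 a'
      have h9 : (((a'.2 : ℕ) : ℝ) + 1) * σ ≤ ((a.2 : ℕ) : ℝ) * σ :=
        mul_le_mul_of_nonneg_right h6 hσ0.le
      have := ht.1
      have := ht'.2
      nlinarith
    have h2 : (a.2 : ℕ) = (a'.2 : ℕ) := le_antisymm (key a a' ht ht') (key a' a ht' ht)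
    have key2 : ∀ a a' : ι × Fin n, (a.2 : ℕ) = (a'.2 : ℕ) → t ∈ Ioo (τ a) (τ a + θ) →
        t ∈ Ioo (τ a') (τ a' + θ) → idx a.1 ≤ idx a'.1 := by
      intro a a' haa ht ht'
      by_contra hcon
      have h5 : idx a'.1 + 1 ≤ idx a.1 := by omega
      have h6 : ((idx a'.1 : ℝ) + 1) ≤ (idx a.1 : ℝ) := by exact_mod_cast h5
      have h9 : ((idx a'.1 : ℝ) + 1) * θ ≤ (idx a.1 : ℝ) * θ :=
        mul_le_mul_of_nonneg_right h6 h1.le
      have h10 := ht.1
      have h11 := ht'.2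
      simp only [τ] at h10 h11
      rw [haa] at h10
      nlinarith
    have h3 : idx a.1 = idx a'.1 :=
      le_antisymm (key2 a a' h2 ht ht') (key2 a' a h2.symm ht' ht)
    exact Prod.ext (hidxinj _ _ h3) (Fin.ext h2)
  -- the events
  have hex : ∀ a : ι × Fin n, ∃ (e b : E × ℝ → ℝ) (C : E × ℝ → E),
      Measurable e ∧ Measurable b ∧ Measurable C ∧
      (∀ p, |e p| ≤ m a.1 a.2 * (chi q (p.1 - z a.1) + chi q (p.1 - z a.1 - h a.1))) ∧
      (∀ p : E × ℝ, p.2 ∉ slot σ a.2 → e p = 0) ∧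
      (∀ p, 0 ≤ b p) ∧ (∀ p : E × ℝ, p.2 ∉ Ioo (τ a) (τ a + θ) → b p = 0) ∧
      (∀ p : E × ℝ, p.2 ∉ Ioo (τ a) (τ a + θ) → C p = 0) ∧
      ∫⁻ p, ‖b p‖ₑ ≤ ENNReal.ofReal (m a.1 a.2 * θ) ∧
      ∫⁻ p, ‖b p • G k b p‖ₑ ≤ ENNReal.ofReal (m a.1 a.2 * ‖h a.1‖) ∧
      ∫⁻ p, ‖C p‖ₑ ≤ ENNReal.ofReal (2 * m a.1 a.2 * (5 * q + 2 * ς * ‖h a.1‖)) ∧
      ∫⁻ p, ‖b p‖ₑ * Ψ p ≤ ENNReal.ofReal (m a.1 a.2 / q ^ 2) *
        ∫⁻ p in Metric.closedBall (z a.1) (‖h a.1‖ + 4 * q) ×ˢ Ioo (τ a) (τ a + θ), Ψ p ∧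
      ∀ φ : E × ℝ → ℝ, ContDiff ℝ 1 φ → HasCompactSupport φ →
        ∫ p, (e p + b p) * fderiv ℝ φ p ((0 : E), (1 : ℝ)) =
          ∫ p, fderiv ℝ φ p (b p • G k b p - C p +
            (slot σ a.2).indicator (fun _ => m a.1 a.2 / σ * seg q (z a.1) (h a.1) p.1) p.2 •
              h a.1, (0 : ℝ)) := by
    intro a
    have := hev (z a.1) (h a.1) (m a.1 a.2) q ς σ ((a.2 : ℕ) * σ) (τ a) θ (hm _ _) hq hς hς'
      (hθpos a.1) (hτ1 a) (hτ2 a) Ψ hΨ
    simpa only [slot_eq] using this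
  choose e b C me mb mC he hes hb0 hbs hCs hib hibb hiC hbΨ hw using hex
  -- at most one flight at each time
  have hone : ∀ (a : ι × Fin n) (p : E × ℝ), p.2 ∈ Ioo (τ a) (τ a + θ) →
      ∀ x : E, ∑ a', b a' (x, p.2) = b a (x, p.2) := by
    intro a p hp x
    refine Finset.sum_eq_single a ?_ (by simp)
    intro a' _ hne
    apply hbs
    intro hcon
    exact hne (hdisj a' a p.2 hcon hp)
  have hnone : ∀ p : E × ℝ, (∀ a, p.2 ∉ Ioo (τ a) (τ a + θ)) → ∀ a, b a p = 0 :=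
    fun p hp a => hbs a p (hp a)
  have hbG : ∀ p, (∑ a, b a p) • G k (fun p => ∑ a, b a p) p = ∑ a, b a p • G k (b a) p := by
    intro p
    by_cases hp : ∃ a, p.2 ∈ Ioo (τ a) (τ a + θ)
    · obtain ⟨a, ha⟩ := hp
      have h1 : ∑ a', b a' p = b a p := hone a p ha p.1
      have h2 : G k (fun p => ∑ a, b a p) p = G k (b a) p := by
        simp only [G]
        refine integral_congr_ae (Filter.Eventually.of_forall fun y => ?_)
        simp only [hone a p ha y]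
      rw [h1, h2]
      symm
      refine Finset.sum_eq_single a ?_ (by simp)
      intro a' _ hne
      rw [hbs a' p (fun hcon => hne (hdisj a' a p.2 hcon ha)), zero_smul]
    · push Not at hp
      have h1 : ∀ a, b a p = 0 := hnone p hp
      simp [h1]
  have hslotsub : ∀ j : Fin n, slot σ j ⊆ Ioo 0 T := by
    intro j t ht
    have h1 : ((j : ℕ) : ℝ) + 1 ≤ n := by exact_mod_cast j.2
    have h2 : (((j : ℕ) : ℝ) + 1) * σ ≤ n * σ := mul_le_mul_of_nonneg_right h1 hσ0.le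
    have h3 : (0 : ℝ) ≤ ((j : ℕ) : ℝ) * σ := by positivity
    exact ⟨h3.trans_lt ht.1, ht.2.trans_le (h2.trans hσ.le)⟩
  have hflsub : ∀ a : ι × Fin n, Ioo (τ a) (τ a + θ) ⊆ slot σ a.2 := by
    intro a
    rw [slot_eq]
    exact Ioo_subset_Ioo (hτ1 a) (hτ2 a)
  have hflsub' : ∀ a : ι × Fin n, Ioo (τ a) (τ a + θ) ⊆ Ioo 0 T :=
    fun a => (hflsub a).trans (hslotsub a.2)
  -- integrability
  have hchiint : ∀ v : E, Integrable (fun x : E => chi q (x - v)) := fun v =>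
    (integral_chi hq).1.comp_sub_right v
  have hslotm : ∀ j : Fin n, MeasurableSet (slot σ j) := fun j => measurableSet_Ioo
  have hslotint : ∀ j : Fin n, Integrable ((slot σ j).indicator (fun _ => (1 : ℝ))) := by
    intro j
    rw [integrable_indicator_iff (hslotm j)]
    refine integrableOn_const ?_
    rw [slot, Real.volume_Ioo]
    exact ENNReal.ofReal_ne_top
  have hprodint : ∀ (j : Fin n) (f : E → ℝ), Integrable f →
      Integrable (fun p : E × ℝ => (slot σ j).indicator (fun _ => f p.1) p.2) := by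
    intro j f hf
    have := hf.mul_prod (hslotint j)
    rw [← vol_eq] at this
    refine this.congr (Filter.Eventually.of_forall fun p => ?_)
    by_cases hp : p.2 ∈ slot σ j
    · simp [hp]
    · simp [hp]
  have hie : ∀ a, Integrable (e a) := by
    intro a
    have h1 : Integrable (fun x : E => m a.1 a.2 * (chi q (x - z a.1) + chi q (x - z a.1 - h a.1))) := by
      have h2 := hchiint (z a.1 + h a.1)
      have h3 := ((hchiint (z a.1)).add h2).const_mul (m a.1 a.2)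
      refine h3.congr (Filter.Eventually.of_forall fun x => ?_)
      simp only [Pi.add_apply, sub_add_eq_sub_sub]
    refine Integrable.mono' (hprodint a.2 _ h1) (me a).aestronglyMeasurable
      (Filter.Eventually.of_forall fun p => ?_)
    by_cases hp : p.2 ∈ slot σ a.2
    · rw [indicator_of_mem hp]
      exact he a p
    · rw [indicator_of_notMem hp, hes a p hp, norm_zero]
  have hib' : ∀ a, Integrable (b a) := fun a =>
    integrable_of_lint (mb a) ((hib a).trans_lt ENNReal.ofReal_lt_top)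
  have hibb' : ∀ a, Integrable (fun p => b a p • G k (b a) p) := fun a =>
    integrable_of_lint ((mb a).smul (G_measurable hk (mb a)))
      ((hibb a).trans_lt ENNReal.ofReal_lt_top)
  have hiC' : ∀ a, Integrable (C a) := fun a =>
    integrable_of_lint (mC a) ((hiC a).trans_lt ENNReal.ofReal_lt_top)
  have hiK' : ∀ a : ι × Fin n, Integrable (fun p : E × ℝ => (slot σ a.2).indicator
      (fun _ => m a.1 a.2 / σ * seg q (z a.1) (h a.1) p.1) p.2 • h a.1) := by
    intro a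
    have h1 : Integrable (fun x : E => m a.1 a.2 / σ * seg q (z a.1) (h a.1) x) :=
      (integral_seg hq (z a.1) (h a.1)).1.const_mul _
    exact (hprodint a.2 _ h1).smul_const _
  refine ⟨fun p => ∑ a, e a p, fun p => ∑ a, b a p, fun p => ∑ a, C a p, ?_, ?_, ?_, ?_, ?_, ?_,
    ?_, ?_, ?_, ?_, ?_⟩
  · exact Finset.measurable_sum _ fun a _ => me a
  · exact Finset.measurable_sum _ fun a _ => mb a
  · exact Finset.measurable_sum _ fun a _ => mC a
  · intro p
    rw [← Finset.sum_product' (Finset.univ : Finset ι)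
      (Finset.univ : Finset (Fin n)) (fun i j => (slot σ j).indicator (fun _ =>
        m i j * (chi q (p.1 - z i) + chi q (p.1 - z i - h i))) p.2), Finset.univ_product_univ]
    refine (Finset.abs_sum_le_sum_abs _ _).trans (Finset.sum_le_sum fun a _ => ?_)
    by_cases hp : p.2 ∈ slot σ a.2
    · rw [indicator_of_mem hp]
      exact he a p
    · rw [indicator_of_notMem hp, hes a p hp, abs_zero]
  · intro p
    exact Finset.sum_nonneg fun a _ => hb0 a p
  · intro p hp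
    refine ⟨Finset.sum_eq_zero fun a _ => hes a p fun hcon => hp (hslotsub _ hcon),
      Finset.sum_eq_zero fun a _ => hbs a p fun hcon => hp (hflsub' a hcon),
      Finset.sum_eq_zero fun a _ => hCs a p fun hcon => hp (hflsub' a hcon)⟩
  · calc ∫⁻ p, ‖∑ a, b a p‖ₑ ≤ ∫⁻ p, ∑ a, ‖b a p‖ₑ := lintegral_mono fun p => enorm_sum_le' _ _
      _ = ∑ a, ∫⁻ p, ‖b a p‖ₑ := lintegral_finsetSum _ fun a _ => (mb a).enorm
      _ ≤ ENNReal.ofReal (∑ a : ι × Fin n, m a.1 a.2 * θ) :=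
          ofReal_sum_le _ _ _ (fun a _ => mul_nonneg (hm _ _) (hθpos a.1).le) fun a _ => hib a
      _ ≤ ENNReal.ofReal (μ * T) := by
          rcases isEmpty_or_nonempty ι with hι | ⟨⟨i0⟩⟩
          · simp
          · apply ENNReal.ofReal_le_ofReal
            calc ∑ a : ι × Fin n, m a.1 a.2 * θ ≤ ∑ _a : ι × Fin n, μ * θ :=
                  Finset.sum_le_sum fun a _ =>
                    mul_le_mul_of_nonneg_right (hμ _ _) (hθpos i0).le
              _ = μ * T := by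
                  rw [Finset.sum_const, Finset.card_univ, Fintype.card_prod, Fintype.card_fin,
                    nsmul_eq_mul, ← hc, ← hσ, ← hcθ i0]
                  push_cast
                  ring
  · simp only [hbG]
    calc ∫⁻ p, ‖∑ a, b a p • G k (b a) p‖ₑ ≤ ∫⁻ p, ∑ a, ‖b a p • G k (b a) p‖ₑ :=
          lintegral_mono fun p => enorm_sum_le' _ _
      _ = ∑ a, ∫⁻ p, ‖b a p • G k (b a) p‖ₑ :=
          lintegral_finsetSum _ fun a _ => ((mb a).smul (G_measurable hk (mb a))).enorm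
      _ ≤ ENNReal.ofReal (∑ a : ι × Fin n, m a.1 a.2 * ‖h a.1‖) :=
          ofReal_sum_le _ _ _ (fun a _ => mul_nonneg (hm _ _) (norm_nonneg _)) fun a _ => hibb a
      _ = _ := by rw [← Finset.univ_product_univ, Finset.sum_product]
  · calc ∫⁻ p, ‖∑ a, C a p‖ₑ ≤ ∫⁻ p, ∑ a, ‖C a p‖ₑ := lintegral_mono fun p => enorm_sum_le' _ _
      _ = ∑ a, ∫⁻ p, ‖C a p‖ₑ := lintegral_finsetSum _ fun a _ => (mC a).enorm
      _ ≤ ENNReal.ofReal (∑ a : ι × Fin n, 2 * m a.1 a.2 * (5 * q + 2 * ς * ‖h a.1‖)) :=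
          ofReal_sum_le _ _ _ (fun a _ => by have := hm a.1 a.2; positivity) fun a _ => hiC a
      _ = _ := by rw [← Finset.univ_product_univ, Finset.sum_product]
  · calc ∫⁻ p, ‖∑ a, b a p‖ₑ * Ψ p ≤ ∫⁻ p, ∑ a, ‖b a p‖ₑ * Ψ p := by
          refine lintegral_mono fun p => ?_
          rw [← Finset.sum_mul]
          gcongr
          exact enorm_sum_le' _ _
      _ = ∑ a, ∫⁻ p, ‖b a p‖ₑ * Ψ p := lintegral_finsetSum _ fun a _ => (mb a).enorm.mul hΨ
      _ ≤ ∑ a : ι × Fin n, ENNReal.ofReal (μ / q ^ 2) *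
            ∫⁻ p in Metric.closedBall (0 : E) R ×ˢ Ioo (τ a) (τ a + θ), Ψ p := by
          refine Finset.sum_le_sum fun a _ => (hbΨ a).trans ?_
          gcongr
          · exact hμ _ _
          · intro x hx
            rw [Metric.mem_closedBall] at hx ⊢
            have h1 := hR a.1
            have h2 : ‖x‖ ≤ dist x (z a.1) + ‖z a.1‖ := by
              rw [dist_eq_norm]
              calc ‖x‖ = ‖(x - z a.1) + z a.1‖ := by simp
                _ ≤ _ := norm_add_le _ _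
            rw [dist_zero_right]
            linarith
      _ = ENNReal.ofReal (μ / q ^ 2) * ∑ a : ι × Fin n,
            ∫⁻ p in Metric.closedBall (0 : E) R ×ˢ Ioo (τ a) (τ a + θ), Ψ p := by
          rw [Finset.mul_sum]
      _ ≤ _ := by
          gcongr
          rw [← tsum_fintype (L := SummationFilter.unconditional _), ← lintegral_iUnion]
          · refine lintegral_mono_set ?_
            refine iUnion_subset fun a => ?_
            exact prod_mono le_rfl (hflsub' a)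
          · intro a
            exact Metric.isClosed_closedBall.measurableSet.prod measurableSet_Ioo
          · intro a a' hne
            rw [Function.onFun, Set.disjoint_left]
            intro p hp hp'
            exact hne (hdisj a a' p.2 hp.2 hp'.2)
  · intro φ hφ hcφ
    have e1 : ∫ p, (∑ a, e a p + ∑ a, b a p) * fderiv ℝ φ p ((0 : E), (1 : ℝ)) =
        ∑ a, ∫ p, (e a p + b a p) * fderiv ℝ φ p ((0 : E), (1 : ℝ)) := by
      rw [← integral_finsetSum]
      · refine integral_congr_ae (Filter.Eventually.of_forall fun p => ?_)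
        simp only
        rw [← Finset.sum_add_distrib, Finset.sum_mul]
      · intro a _
        have h1 : Integrable (fun p => e a p + b a p) := (hie a).add (hib' a)
        exact integrable_time hφ hcφ h1
    have e2 : ∫ p, fderiv ℝ φ p ((∑ a, b a p) • G k (fun p => ∑ a, b a p) p - ∑ a, C a p +
          KK n q σ z h m p, (0 : ℝ)) =
        ∑ a : ι × Fin n, ∫ p, fderiv ℝ φ p (b a p • G k (b a) p - C a p +
          (slot σ a.2).indicator (fun _ => m a.1 a.2 / σ * seg q (z a.1) (h a.1) p.1) p.2 •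
              h a.1, (0 : ℝ)) := by
      rw [← integral_finsetSum]
      · refine integral_congr_ae (Filter.Eventually.of_forall fun p => ?_)
        simp only
        rw [← map_sum]
        congr 1
        rw [hbG]
        refine Prod.ext ?_ ?_
        · rw [Prod.fst_sum]
          simp only
          rw [Finset.sum_add_distrib, Finset.sum_sub_distrib]
          congr 1
          rw [KK, ← Finset.univ_product_univ, Finset.sum_product]
        · rw [Prod.snd_sum]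
          simp
      · intro a _
        have h1 : Integrable (fun p => b a p • G k (b a) p - C a p +
          (slot σ a.2).indicator (fun _ => m a.1 a.2 / σ * seg q (z a.1) (h a.1) p.1) p.2 •
              h a.1) := ((hibb' a).sub (hiC' a)).add (hiK' a)
        exact integrable_space hφ hcφ h1
    rw [e1, e2]
    exact Finset.sum_congr rfl fun a _ => hw a φ hφ hcφ

end Pool.Agent.H59.NPM
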