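import Mathlib
import Pool.Agent.H59.NPM.Event
import Pool.Agent.H59.NPM.Multi

set_option autoImplicit false

namespace Pool.Agent.H59.NPM

open MeasureTheory Set
open scoped ENNReal

theorem eventStmt {k : E → E} (hk : Ker k) : EventStmt k :=
  fun _ _ _ _ _ _ _ _ _ hm hq hς hς' hθ hτ hτθ _ hΨ => event hk hm hq hς hς' hθ hτ hτθ hΨ

/-- A finite family of events with disjoint flights. -/
theorem multi {k : E → E} (hk : Ker k) {T : ℝ} (hT : 0 < T) {n : ℕ} (hn : 0 < n) {σ : ℝ}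
    (hσ : n * σ = T) {ι : Type} [Fintype ι] {z h : ι → E} {q ς : ℝ} (hq : 0 < q)
    (hς : 0 < ς) (hς' : ς ≤ 1 / 4) {m : ι → Fin n → ℝ} (hm : ∀ i j, 0 ≤ m i j) {μ : ℝ}
    (hμ : ∀ i j, m i j ≤ μ) {R : ℝ} (hR : ∀ i, ‖z i‖ + ‖h i‖ + 4 * q ≤ R)
    {Ψ : E × ℝ → ℝ≥0∞} (hΨ : Measurable Ψ) :
    ∃ (e b : E × ℝ → ℝ) (C : E × ℝ → E), Measurable e ∧ Measurable b ∧ Measurable C ∧
      (∀ p, |e p| ≤ ∑ i, ∑ j : Fin n, (slot σ j).indicator (fun _ =>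
        m i j * (chi q (p.1 - z i) + chi q (p.1 - z i - h i))) p.2) ∧
      (∀ p, 0 ≤ b p) ∧
      (∀ p : E × ℝ, p.2 ∉ Ioo 0 T → e p = 0 ∧ b p = 0 ∧ C p = 0) ∧
      ∫⁻ p, ‖b p‖ₑ ≤ ENNReal.ofReal (μ * T) ∧
      ∫⁻ p, ‖b p • G k b p‖ₑ ≤ ENNReal.ofReal (∑ i, ∑ j, m i j * ‖h i‖) ∧
      ∫⁻ p, ‖C p‖ₑ ≤ ENNReal.ofReal (∑ i, ∑ j, 2 * m i j * (5 * q + 2 * ς * ‖h i‖)) ∧
      ∫⁻ p, ‖b p‖ₑ * Ψ p ≤ ENNReal.ofReal (μ / q ^ 2) *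
        ∫⁻ p in Metric.closedBall (0 : E) R ×ˢ Ioo 0 T, Ψ p ∧
      ∀ φ : E × ℝ → ℝ, ContDiff ℝ 1 φ → HasCompactSupport φ →
        ∫ p, (e p + b p) * fderiv ℝ φ p ((0 : E), (1 : ℝ)) =
          ∫ p, fderiv ℝ φ p (b p • G k b p - C p + KK n q σ z h m p, (0 : ℝ)) :=
  multi_of_event (eventStmt hk) hk hT hn hσ hq hς hς' hm hμ hR hΨ

end Pool.Agent.H59.NPM
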