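import Mathlib
import Pool.Agent.H59.NPM.Basic
import Pool.Agent.H59.NPM.Cell
import Pool.Agent.H59.NPM.Grid
import Pool.Agent.H59.NPM.Limit
import Pool.Agent.H59.NPM.Transport
import Pool.Agent.H59.NPM.MultiF
import Pool.Agent.H59.NPM.Combine

set_option autoImplicit false

/-! MODULE ASSEMBLY (helper8): one stage of the construction. -/

namespace Pool.Agent.H59.NPM

open MeasureTheory Set
open scoped ENNReal

namespace Asm

/-! slots -/

theorem slot_unique {σ : ℝ} (hσ : 0 < σ) {i j : ℕ} {t : ℝ} (hi : t ∈ slot σ i)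
    (hj : t ∈ slot σ j) : i = j := by
  rcases lt_trichotomy i j with h | h | h
  · exfalso
    have h1 : ((i : ℝ) + 1) ≤ j := by exact_mod_cast h
    have h2 := hi.2
    have h3 := hj.1
    nlinarith
  · exact h
  · exfalso
    have h1 : ((j : ℝ) + 1) ≤ i := by exact_mod_cast h
    have h2 := hj.2
    have h3 := hi.1
    nlinarith

theorem slot_sub {σ : ℝ} (hσ : 0 < σ) {n : ℕ} (j : Fin n) : slot σ j ⊆ Ioo 0 (n * σ) := by
  intro t ht
  have h1 : ((j : ℕ) : ℝ) + 1 ≤ n := by exact_mod_cast j.2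
  have h0 : (0 : ℝ) ≤ ((j : ℕ) : ℝ) := Nat.cast_nonneg _
  constructor
  · have := ht.1
    nlinarith
  · have := ht.2
    nlinarith

theorem ae_slot {σ : ℝ} (hσ : 0 < σ) (n : ℕ) :
    ∀ᵐ p : E × ℝ, p.2 ∈ Ioo 0 (n * σ) → ∃ j : Fin n, p.2 ∈ slot σ j := by
  have h1 : ∀ᵐ p : E × ℝ, ∀ m : ℕ, p.2 ≠ m * σ := by
    rw [ae_all_iff]
    intro m
    have h2 : (volume : Measure (E × ℝ)) (Prod.snd ⁻¹' {(m : ℝ) * σ}) = 0 :=
      Measure.quasiMeasurePreserving_snd.preimage_null (measure_singleton _)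
    exact measure_eq_zero_iff_ae_notMem.1 h2
  filter_upwards [h1] with p hp hmem
  have h0 : 0 ≤ p.2 / σ := div_nonneg hmem.1.le hσ.le
  have hlt : ⌊p.2 / σ⌋₊ < n := by
    rw [Nat.floor_lt h0, div_lt_iff₀ hσ]
    exact hmem.2
  refine ⟨⟨⌊p.2 / σ⌋₊, hlt⟩, ?_, ?_⟩
  · have h2 := Nat.floor_le h0
    rw [le_div_iff₀ hσ] at h2
    exact lt_of_le_of_ne h2 (fun h => hp _ h.symm)
  · have h2 := Nat.lt_floor_add_one (p.2 / σ)
    rw [div_lt_iff₀ hσ] at h2
    exact h2

theorem slot_sum {V : Type*} [AddCommMonoid V] {σ : ℝ} (hσ : 0 < σ) {n : ℕ} (f : Fin n → V)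
    {t : ℝ} {j : Fin n} (ht : t ∈ slot σ j) :
    ∑ j' : Fin n, (slot σ j').indicator (fun _ => f j') t = f j := by
  rw [Finset.sum_eq_single j]
  · rw [indicator_of_mem ht]
  · intro b _ hb
    rw [indicator_of_notMem]
    intro hmem
    exact hb (Fin.ext (slot_unique hσ hmem ht))
  · intro h; exact absurd (Finset.mem_univ _) h

theorem slot_sum_zero {V : Type*} [AddCommMonoid V] {σ : ℝ} {n : ℕ} (f : Fin n → V)
    {t : ℝ} (ht : ∀ j : Fin n, t ∉ slot σ j) :
    ∑ j' : Fin n, (slot σ j').indicator (fun _ => f j') t = 0 :=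
  Finset.sum_eq_zero fun j _ => indicator_of_notMem (ht j) _

theorem measurableSet_slot (σ : ℝ) (j : ℕ) : MeasurableSet (slot σ j) := measurableSet_Ioo

theorem volume_slot {σ : ℝ} (j : ℕ) : volume (slot σ j) = ENNReal.ofReal σ := by
  unfold slot
  rw [Real.volume_Ioo]
  congr 1; ring

/-! directions -/

/-- a sign -/
noncomputable def sg (b : Bool) : ℝ := if b then 1 else -1

/-- the four directions -/
noncomputable def dir (a : Fin 2 × Bool) : E := sg a.2 • EuclideanSpace.single a.1 (1 : ℝ)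

/-- the four parts of a vector -/
noncomputable def vpart (v : E) (a : Fin 2 × Bool) : ℝ := max (sg a.2 * v a.1) 0

theorem norm_dir (a : Fin 2 × Bool) : ‖dir a‖ = 1 := by
  unfold dir sg
  rw [norm_smul, PiLp.norm_single]
  split_ifs <;> simp

theorem vpart_nonneg (v : E) (a : Fin 2 × Bool) : 0 ≤ vpart v a := le_max_right _ _

theorem vpart_le (v : E) (a : Fin 2 × Bool) : vpart v a ≤ ‖v‖ := by
  unfold vpart
  apply max_le _ (norm_nonneg _)
  have h := PiLp.norm_apply_le v a.1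
  rw [Real.norm_eq_abs] at h
  refine le_trans ?_ h
  unfold sg
  split_ifs
  · rw [one_mul]; exact le_abs_self _
  · rw [neg_one_mul]; exact neg_le_abs _

theorem max_sub_max (x : ℝ) : max x 0 - max (-x) 0 = x := by
  rcases le_total 0 x with h | h
  · rw [max_eq_left h, max_eq_right (by linarith)]; ring
  · rw [max_eq_right h, max_eq_left (by linarith)]; ring

theorem max_add_max (x : ℝ) : max x 0 + max (-x) 0 = |x| := by
  rcases le_total 0 x with h | h
  · rw [max_eq_left h, max_eq_right (by linarith), abs_of_nonneg h]; ring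
  · rw [max_eq_right h, max_eq_left (by linarith), abs_of_nonpos h]; ring

theorem sum_vpart_dir (v : E) : ∑ a : Fin 2 × Bool, vpart v a • dir a = v := by
  ext i
  rw [Fintype.sum_prod_type]
  simp only [Fintype.sum_bool, Fin.sum_univ_two, vpart, dir, sg]
  have h0 := max_sub_max (v 0)
  have h1 := max_sub_max (v 1)
  fin_cases i
  · simp
    linarith
  · simp
    linarith

theorem sum_vpart_le (v : E) : ∑ a : Fin 2 × Bool, vpart v a ≤ 2 * ‖v‖ := by
  rw [Fintype.sum_prod_type]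
  simp only [Fintype.sum_bool, Fin.sum_univ_two, vpart, sg]
  have h0 := max_add_max (v 0)
  have h1 := max_add_max (v 1)
  have n0 := PiLp.norm_apply_le v 0
  have n1 := PiLp.norm_apply_le v 1
  rw [Real.norm_eq_abs] at n0 n1
  simp only [if_true, one_mul, neg_one_mul, if_false, Bool.false_eq_true]
  linarith

theorem continuous_vpart {g : E × ℝ → E} (hg : Continuous g) (a : Fin 2 × Bool) :
    Continuous (fun p => vpart (g p) a) := by
  unfold vpart
  fun_prop

theorem compact_vpart {g : E × ℝ → E} (hg : HasCompactSupport g) (a : Fin 2 × Bool) :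
    HasCompactSupport (fun p => vpart (g p) a) := by
  apply hg.comp_left (g := fun v => vpart v a)
  simp [vpart]

/-! the family of events -/

/-- the index type: a direction and a cell of the box -/
abbrev IX (N : Fin 2 × Bool → ℕ) : Type := (a : Fin 2 × Bool) × {c : ℤ × ℤ // c ∈ box (N a)}

/-- the displacement -/
noncomputable def hh (l : ℝ) (a : Fin 2 × Bool) : E := -(l • dir a)

/-- the masses -/
noncomputable def mm (g : E × ℝ → E) (l q σ : ℝ) {n : ℕ} (N : Fin 2 × Bool → ℕ) (i : IX N)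
    (j : Fin n) : ℝ := σ * vpart (g (pt q i.2.1, (j : ℕ) * σ)) i.1 * q ^ 2 / l

/-- the sum over the cells -/
noncomputable def SS (g : E × ℝ → E) (l q : ℝ) (N : Fin 2 × Bool → ℕ) (a : Fin 2 × Bool)
    (x : E) (s : ℝ) : ℝ :=
  ∑ c ∈ box (N a), vpart (g (pt q c, s)) a * (q ^ 2 * seg q (pt q c) (hh l a) x)

theorem norm_hh {l : ℝ} (hl : 0 < l) (a : Fin 2 × Bool) : ‖hh l a‖ = l := by
  unfold hh
  rw [norm_neg, norm_smul, norm_dir, mul_one, Real.norm_of_nonneg hl.le]

theorem sum_IX {V : Type*} [AddCommMonoid V] (N : Fin 2 × Bool → ℕ)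
    (f : Fin 2 × Bool → ℤ × ℤ → V) :
    ∑ i : IX N, f i.1 i.2.1 = ∑ a, ∑ c ∈ box (N a), f a c := by
  rw [Fintype.sum_sigma]
  refine Finset.sum_congr rfl fun a _ => ?_
  exact Finset.sum_coe_sort (box (N a)) (fun c => f a c)

theorem mm_nonneg (g : E × ℝ → E) {l q σ : ℝ} (hl : 0 < l) (hσ : 0 < σ) {n : ℕ}
    (N : Fin 2 × Bool → ℕ) (i : IX N) (j : Fin n) : 0 ≤ mm g l q σ N i j := by
  unfold mm
  have := vpart_nonneg (g (pt q i.2.1, (j : ℕ) * σ)) i.1
  positivity

theorem mm_le {g : E × ℝ → E} {M : ℝ} (hM : ∀ p, ‖g p‖ ≤ M) {l q σ : ℝ} (hl : 0 < l)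
    (hσ : 0 < σ) {n : ℕ} (N : Fin 2 × Bool → ℕ) (i : IX N) (j : Fin n) :
    mm g l q σ N i j ≤ σ * M * q ^ 2 / l := by
  unfold mm
  have := (vpart_le (g (pt q i.2.1, (j : ℕ) * σ)) i.1).trans (hM _)
  gcongr

theorem KK_eq {g : E × ℝ → E} {l q σ : ℝ} (hl : 0 < l) (hσ : 0 < σ) {n : ℕ}
    (N : Fin 2 × Bool → ℕ) {p : E × ℝ} {j : Fin n} (hj : p.2 ∈ slot σ j) :
    KK n q σ (fun i : IX N => pt q i.2.1) (fun i => hh l i.1) (mm g l q σ N) p =
      - ∑ a, SS g l q N a p.1 ((j : ℕ) * σ) • dir a := by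
  unfold KK
  have h1 : ∀ i : IX N, (∑ j' : Fin n, (slot σ j').indicator (fun _ =>
      mm g l q σ N i j' / σ * seg q (pt q i.2.1) (hh l i.1) p.1) p.2 • hh l i.1) =
      (fun (a : Fin 2 × Bool) (c : ℤ × ℤ) => -((vpart (g (pt q c, (j : ℕ) * σ)) a *
        (q ^ 2 * seg q (pt q c) (hh l a) p.1)) • dir a)) i.1 i.2.1 := by
    intro i
    rw [← Finset.sum_smul, slot_sum hσ _ hj]
    simp only [mm, hh, smul_neg, smul_smul]
    congr 2
    field_simp
  rw [Finset.sum_congr rfl (fun i _ => h1 i)]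
  refine (sum_IX N (fun (a : Fin 2 × Bool) (c : ℤ × ℤ) => -((vpart (g (pt q c, (j : ℕ) * σ)) a *
        (q ^ 2 * seg q (pt q c) (hh l a) p.1)) • dir a))).trans ?_
  rw [← Finset.sum_neg_distrib]
  refine Finset.sum_congr rfl fun a _ => ?_
  rw [Finset.sum_neg_distrib, SS, Finset.sum_smul]

theorem KK_zero {g : E × ℝ → E} {l q σ : ℝ} {n : ℕ}
    (N : Fin 2 × Bool → ℕ) {p : E × ℝ} (hj : ∀ j : Fin n, p.2 ∉ slot σ j) :
    KK n q σ (fun i : IX N => pt q i.2.1) (fun i => hh l i.1) (mm g l q σ N) p = 0 := by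
  unfold KK
  refine Finset.sum_eq_zero fun i _ => ?_
  rw [← Finset.sum_smul, slot_sum_zero _ hj, zero_smul]

theorem KK_bound {g : E × ℝ → E} {l q σ η : ℝ} (hl : 0 < l) (hσ : 0 < σ) {n : ℕ}
    (N : Fin 2 × Bool → ℕ)
    (hN : ∀ a (x : E) (s t : ℝ), |s - t| ≤ σ → |SS g l q N a x s - vpart (g (x, t)) a| ≤ η)
    {p : E × ℝ} {j : Fin n} (hj : p.2 ∈ slot σ j) :
    ‖g p + KK n q σ (fun i : IX N => pt q i.2.1) (fun i => hh l i.1) (mm g l q σ N) p‖ ≤
      4 * η := by
  rw [KK_eq hl hσ N hj]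
  conv_lhs => rw [← sum_vpart_dir (g p)]
  rw [← sub_eq_add_neg, ← Finset.sum_sub_distrib]
  calc ‖∑ a, (vpart (g p) a • dir a - SS g l q N a p.1 ((j : ℕ) * σ) • dir a)‖
      ≤ ∑ a, ‖vpart (g p) a • dir a - SS g l q N a p.1 ((j : ℕ) * σ) • dir a‖ := norm_sum_le _ _
    _ ≤ ∑ _a : Fin 2 × Bool, η := by
        refine Finset.sum_le_sum fun a _ => ?_
        rw [← sub_smul, norm_smul, norm_dir, mul_one, Real.norm_eq_abs, abs_sub_comm]
        have h2 : |((j : ℕ) : ℝ) * σ - p.2| ≤ σ := by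
          have h3 := hj.1
          have h4 := hj.2
          rw [abs_le]
          constructor <;> nlinarith
        have := hN a p.1 _ _ h2
        simpa using this
    _ = 4 * η := by
        simp

theorem SS_nonneg {g : E × ℝ → E} {l q : ℝ} (hq : 0 < q) (N : Fin 2 × Bool → ℕ)
    (a : Fin 2 × Bool) (x : E) (s : ℝ) : 0 ≤ SS g l q N a x s := by
  unfold SS
  refine Finset.sum_nonneg fun c _ => ?_
  have h1 := vpart_nonneg (g (pt q c, s)) a
  have h2 := seg_nonneg hq (pt q c) (hh l a) x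
  positivity

theorem measurable_SS {g : E × ℝ → E} {l q : ℝ} (N : Fin 2 × Bool → ℕ)
    (a : Fin 2 × Bool) (s : ℝ) : Measurable (fun x => SS g l q N a x s) := by
  unfold SS
  refine Finset.measurable_fun_sum _ fun c _ => ?_
  exact ((measurable_seg q (pt q c) (hh l a)).const_mul _).const_mul _

theorem integral_SS {g : E × ℝ → E} {l q : ℝ} (hq : 0 < q) (N : Fin 2 × Bool → ℕ)
    (a : Fin 2 × Bool) (s : ℝ) : Integrable (fun x => SS g l q N a x s) ∧
      ∫ x, SS g l q N a x s = ∑ c ∈ box (N a), vpart (g (pt q c, s)) a * q ^ 2 := by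
  unfold SS
  have h1 : ∀ c ∈ box (N a), Integrable (fun x : E =>
      vpart (g (pt q c, s)) a * (q ^ 2 * seg q (pt q c) (hh l a) x)) := fun c _ =>
    ((integral_seg hq (pt q c) (hh l a)).1.const_mul _).const_mul _
  refine ⟨integrable_finsetSum _ h1, ?_⟩
  rw [integral_finsetSum _ h1]
  refine Finset.sum_congr rfl fun c _ => ?_
  rw [integral_const_mul, integral_const_mul, (integral_seg hq (pt q c) (hh l a)).2, mul_one]

theorem measurable_KK {ι : Type} [Fintype ι] (n : ℕ) (q σ : ℝ) (z h : ι → E)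
    (m : ι → Fin n → ℝ) : Measurable (KK n q σ z h m) := by
  unfold KK
  refine Finset.measurable_fun_sum _ fun i _ => ?_
  refine Finset.measurable_fun_sum _ fun j _ => ?_
  have h1 : Measurable (fun p : E × ℝ => (slot σ j).indicator (fun _ => m i j / σ *
      seg q (z i) (h i) p.1) p.2) := by
    have h2 : (fun p : E × ℝ => (slot σ j).indicator (fun _ => m i j / σ *
        seg q (z i) (h i) p.1) p.2) = (Prod.snd ⁻¹' (slot σ j)).indicator (fun p : E × ℝ =>
          m i j / σ * seg q (z i) (h i) p.1) := by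
      ext p
      rfl
    rw [h2]
    refine Measurable.indicator ?_ (measurable_snd (measurableSet_slot σ j))
    exact ((measurable_seg q (z i) (h i)).comp measurable_fst).const_mul _
  exact h1.smul_const _

/-- the configuration -/
structure Cfg (g : E × ℝ → E) (l q σ T R η M : ℝ) (n : ℕ) (N : Fin 2 × Bool → ℕ) : Prop where
  hl : 0 < l
  hq : 0 < q
  hσ : 0 < σ
  hn : n * σ = T
  hT : 0 < T
  hR : 0 < R
  hη : 0 ≤ η
  hM : ∀ p, ‖g p‖ ≤ M
  gfar : ∀ p : E × ℝ, R ≤ ‖p.1‖ → g p = 0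
  far : ∀ a (c : ℤ × ℤ) (x : E) (s : ℝ), R + 3 ≤ ‖x‖ → vpart (g (pt q c, s)) a ≠ 0 →
     chi q (x - pt q c) = 0 ∧ chi q (x - pt q c - hh l a) = 0 ∧ seg q (pt q c) (hh l a) x = 0
  app : ∀ a (x : E) (s t : ℝ), |s - t| ≤ σ → |SS g l q N a x s - vpart (g (x, t)) a| ≤ η

/-- the region -/
def Rg (R T : ℝ) : Set (E × ℝ) := Metric.closedBall (0 : E) (R + 3) ×ˢ Ioo 0 T

theorem measurableSet_Rg (R T : ℝ) : MeasurableSet (Rg R T) :=
  Metric.isClosed_closedBall.measurableSet.prod measurableSet_Ioo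

theorem volume_Rg_lt (R T : ℝ) : (volume : Measure (E × ℝ)) (Rg R T) < ⊤ := by
  unfold Rg
  rw [vol_eq, Measure.prod_prod]
  exact ENNReal.mul_lt_top measure_closedBall_lt_top (by rw [Real.volume_Ioo]; exact ENNReal.ofReal_lt_top)

/-- its measure -/
noncomputable def WW (R T : ℝ) : ℝ := ((volume : Measure (E × ℝ)) (Rg R T)).toReal

theorem WW_nonneg (R T : ℝ) : 0 ≤ WW R T := ENNReal.toReal_nonneg

theorem ofReal_WW (R T : ℝ) : ENNReal.ofReal (WW R T) = (volume : Measure (E × ℝ)) (Rg R T) :=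
  ENNReal.ofReal_toReal (volume_Rg_lt R T).ne

section

variable {g : E × ℝ → E} {l q σ T R η M : ℝ} {n : ℕ} {N : Fin 2 × Bool → ℕ}

theorem Cfg.SS_far (h : Cfg g l q σ T R η M n N) (a : Fin 2 × Bool) {x : E} (hx : R + 3 ≤ ‖x‖)
    (s : ℝ) : SS g l q N a x s = 0 := by
  unfold SS
  refine Finset.sum_eq_zero fun c _ => ?_
  by_cases h0 : vpart (g (pt q c, s)) a = 0
  · rw [h0, zero_mul]
  · rw [(h.far a c x s hx h0).2.2, mul_zero, mul_zero]

/-- the flux -/
noncomputable abbrev KF (g : E × ℝ → E) (l q σ : ℝ) (n : ℕ) (N : Fin 2 × Bool → ℕ) :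
    E × ℝ → E :=
  KK n q σ (fun i : IX N => pt q i.2.1) (fun i => hh l i.1) (mm g l q σ N)

theorem Cfg.KK_far (h : Cfg g l q σ T R η M n N) {p : E × ℝ} (hx : R + 3 ≤ ‖p.1‖) :
    KF g l q σ n N p = 0 := by
  by_cases hj : ∃ j : Fin n, p.2 ∈ slot σ j
  · obtain ⟨j, hj⟩ := hj
    rw [KF, KK_eq h.hl h.hσ N hj]
    simp [h.SS_far _ hx]
  · push Not at hj
    exact KK_zero N hj

theorem Cfg.KK_out (h : Cfg g l q σ T R η M n N) {p : E × ℝ} (hx : p.2 ∉ Ioo 0 T) :
    KF g l q σ n N p = 0 := by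
  apply KK_zero N
  intro j hj
  apply hx
  rw [← h.hn]
  exact slot_sub h.hσ j hj

theorem Cfg.lint_KK (h : Cfg g l q σ T R η M n N) {D : E × ℝ → E}
    (hD : ∀ p : E × ℝ, p.2 ∉ Ioo 0 T → D p = 0) {η₁ : ℝ} (hη₁ : 0 ≤ η₁)
    (hg : ∫⁻ p, ‖D p - g p‖ₑ ≤ ENNReal.ofReal η₁) :
    ∫⁻ p, ‖D p + KF g l q σ n N p‖ₑ ≤ ENNReal.ofReal (η₁ + 4 * η * WW R T) := by
  have h1 : ∀ᵐ p : E × ℝ, ‖D p + KF g l q σ n N p‖ₑ ≤ ‖D p - g p‖ₑ +
      (Rg R T).indicator (fun _ => ENNReal.ofReal (4 * η)) p := by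
    have hs := ae_slot h.hσ n
    rw [h.hn] at hs
    filter_upwards [hs] with p hp
    by_cases hT : p.2 ∈ Ioo 0 T
    · obtain ⟨j, hj⟩ := hp hT
      have e : D p + KF g l q σ n N p = (D p - g p) + (g p + KF g l q σ n N p) := by abel
      rw [e]
      refine (enorm_add_le _ _).trans ?_
      gcongr
      by_cases hx : R + 3 ≤ ‖p.1‖
      · rw [h.KK_far hx, h.gfar p (by linarith)]
        simp
      · have hm : p ∈ Rg R T := by
          refine ⟨?_, hT⟩
          rw [mem_closedBall_zero_iff]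
          linarith
        rw [indicator_of_mem hm, ← ofReal_norm]
        exact ENNReal.ofReal_le_ofReal (KK_bound h.hl h.hσ N h.app hj)
    · rw [hD p hT, h.KK_out hT]
      simp
  refine (lintegral_mono_ae h1).trans ?_
  rw [lintegral_add_right _ (measurable_const.indicator (measurableSet_Rg R T)),
    lintegral_indicator (measurableSet_Rg R T), lintegral_const, Measure.restrict_apply_univ,
    ENNReal.ofReal_add hη₁ (by have := h.hη; have := WW_nonneg R T; positivity),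
    ENNReal.ofReal_mul (p := 4 * η) (by have := h.hη; positivity), ofReal_WW]
  gcongr

/-- the density of the mass -/
noncomputable def Ph (g : E × ℝ → E) (l q σ : ℝ) (n : ℕ) (N : Fin 2 × Bool → ℕ)
    (p : E × ℝ) : ℝ :=
  ∑ j : Fin n, (slot σ j).indicator (fun _ => ∑ a, SS g l q N a p.1 ((j : ℕ) * σ)) p.2

theorem Cfg.Ph_le (h : Cfg g l q σ T R η M n N) (p : E × ℝ) :
    Ph g l q σ n N p ≤ 2 * ‖g p‖ + (Rg R T).indicator (fun _ => 4 * η) p := by
  have hind : 0 ≤ (Rg R T).indicator (fun _ => 4 * η) p :=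
    indicator_nonneg (fun _ _ => by have := h.hη; positivity) _
  unfold Ph
  by_cases hj : ∃ j : Fin n, p.2 ∈ slot σ j
  · obtain ⟨j, hj⟩ := hj
    rw [slot_sum h.hσ _ hj]
    by_cases hx : R + 3 ≤ ‖p.1‖
    · simp only [h.SS_far _ hx, Finset.sum_const_zero]
      positivity
    · have hm : p ∈ Rg R T := by
        refine ⟨?_, ?_⟩
        · rw [mem_closedBall_zero_iff]
          linarith
        · rw [← h.hn]; exact slot_sub h.hσ j hj
      rw [indicator_of_mem hm]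
      have h2 : |((j : ℕ) : ℝ) * σ - p.2| ≤ σ := by
        have h3 := hj.1
        have h4 := hj.2
        rw [abs_le]
        constructor <;> nlinarith
      have h3 : ∑ a, SS g l q N a p.1 ((j : ℕ) * σ) ≤
          ∑ a : Fin 2 × Bool, (vpart (g p) a + η) := by
        refine Finset.sum_le_sum fun a _ => ?_
        have h4 := h.app a p.1 _ _ h2
        have h5 := (abs_le.1 h4).2
        have h6 : vpart (g (p.1, p.2)) a = vpart (g p) a := rfl
        rw [h6] at h5
        linarith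
      rw [Finset.sum_add_distrib] at h3
      have h4 := sum_vpart_le (g p)
      have h5 : ∑ _a : Fin 2 × Bool, η = 4 * η := by simp
      linarith
  · push Not at hj
    rw [slot_sum_zero _ hj]
    positivity

theorem integral_slot_SS (hq : 0 < q) (hσ : 0 < σ) (g : E × ℝ → E) (l : ℝ)
    (N : Fin 2 × Bool → ℕ) (j : ℕ) :
    Integrable (fun p : E × ℝ => (slot σ j).indicator
      (fun _ => ∑ a, SS g l q N a p.1 (j * σ)) p.2) ∧
    ∫ p : E × ℝ, (slot σ j).indicator (fun _ => ∑ a, SS g l q N a p.1 (j * σ)) p.2 =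
      (∑ a, ∑ c ∈ box (N a), vpart (g (pt q c, j * σ)) a * q ^ 2) * σ := by
  have e : (fun p : E × ℝ => (slot σ j).indicator (fun _ => ∑ a, SS g l q N a p.1 (j * σ)) p.2) =
      fun p : E × ℝ => (∑ a, SS g l q N a p.1 (j * σ)) * (slot σ j).indicator (fun _ => (1 : ℝ)) p.2 := by
    ext p
    by_cases hp : p.2 ∈ slot σ j
    · rw [indicator_of_mem hp, indicator_of_mem hp, mul_one]
    · rw [indicator_of_notMem hp, indicator_of_notMem hp, mul_zero]
  have h1 : Integrable (fun x : E => ∑ a, SS g l q N a x (j * σ)) :=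
    integrable_finsetSum _ fun a _ => (integral_SS hq N a _).1
  have h2 : Integrable ((slot σ j).indicator (fun _ => (1 : ℝ))) := by
    rw [integrable_indicator_iff (measurableSet_slot σ j)]
    exact integrableOn_const (by rw [volume_slot]; exact ENNReal.ofReal_ne_top)
  rw [e]
  constructor
  · exact h1.mul_prod h2
  · rw [vol_eq, integral_prod_mul (fun x : E => ∑ a, SS g l q N a x (j * σ))
      ((slot σ j).indicator (fun _ => (1 : ℝ)))]
    rw [integral_finsetSum _ fun a _ => (integral_SS hq N a _).1]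
    congr 1
    · exact Finset.sum_congr rfl fun a _ => (integral_SS hq N a _).2
    · rw [integral_indicator (measurableSet_slot σ j), setIntegral_const, measureReal_def,
        volume_slot, ENNReal.toReal_ofReal hσ.le, smul_eq_mul, mul_one]

theorem Cfg.mass_le (h : Cfg g l q σ T R η M n N) (hg : Integrable g) :
    ∑ i : IX N, ∑ j : Fin n, mm g l q σ N i j * ‖hh l i.1‖ ≤
      2 * (∫ p, ‖g p‖) + 4 * η * WW R T := by
  have h1 : ∑ i : IX N, ∑ j : Fin n, mm g l q σ N i j * ‖hh l i.1‖ =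
      ∫ p, Ph g l q σ n N p := by
    have h0 : ∫ p, Ph g l q σ n N p = ∑ j : Fin n, ∫ p : E × ℝ, (slot σ j).indicator
        (fun _ => ∑ a, SS g l q N a p.1 ((j : ℕ) * σ)) p.2 :=
      integral_finsetSum _ fun j _ => (integral_slot_SS h.hq h.hσ g l N j).1
    rw [h0, Finset.sum_congr rfl fun (j : Fin n) _ => (integral_slot_SS h.hq h.hσ g l N j).2]
    rw [Finset.sum_comm]
    refine Finset.sum_congr rfl fun j _ => ?_
    have h2 : ∀ i : IX N, mm g l q σ N i j * ‖hh l i.1‖ =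
        (fun (a : Fin 2 × Bool) (c : ℤ × ℤ) => vpart (g (pt q c, (j : ℕ) * σ)) a * q ^ 2 * σ)
          i.1 i.2.1 := by
      intro i
      rw [norm_hh h.hl]
      simp only [mm]
      have := h.hl.ne'
      field_simp
    rw [Finset.sum_congr rfl fun i _ => h2 i]
    refine (sum_IX N (fun (a : Fin 2 × Bool) (c : ℤ × ℤ) =>
      vpart (g (pt q c, (j : ℕ) * σ)) a * q ^ 2 * σ)).trans ?_
    rw [Finset.sum_mul]
    refine Finset.sum_congr rfl fun a _ => ?_
    rw [Finset.sum_mul]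
  rw [h1]
  have hint1 : Integrable (fun p : E × ℝ => 2 * ‖g p‖) := hg.norm.const_mul 2
  have hint2 : Integrable ((Rg R T).indicator (fun _ => 4 * η)) := by
    rw [integrable_indicator_iff (measurableSet_Rg R T)]
    exact integrableOn_const (volume_Rg_lt R T).ne
  have hint3 : Integrable (Ph g l q σ n N) :=
    integrable_finsetSum _ fun j _ => (integral_slot_SS h.hq h.hσ g l N j).1
  refine (integral_mono hint3 (hint1.add hint2) h.Ph_le).trans ?_
  rw [integral_add' hint1 hint2, integral_const_mul, integral_indicator (measurableSet_Rg R T),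
    setIntegral_const, measureReal_def, smul_eq_mul]
  apply le_of_eq
  unfold WW
  ring

/-- the bound for the first part of the perturbation -/
noncomputable def EB (g : E × ℝ → E) (l q σ : ℝ) (n : ℕ) (N : Fin 2 × Bool → ℕ)
    (p : E × ℝ) : ℝ :=
  ∑ i : IX N, ∑ j : Fin n, (slot σ j).indicator (fun _ =>
    mm g l q σ N i j * (chi q (p.1 - pt q i.2.1) + chi q (p.1 - pt q i.2.1 - hh l i.1))) p.2

theorem Cfg.EB_le (h : Cfg g l q σ T R η M n N) (p : E × ℝ) :
    EB g l q σ n N p ≤ 8 * σ * M / l := by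
  have hM0 : 0 ≤ M := (norm_nonneg _).trans (h.hM 0)
  have hl := h.hl
  have hσ := h.hσ
  have hq := h.hq
  unfold EB
  by_cases hj : ∃ j : Fin n, p.2 ∈ slot σ j
  · obtain ⟨j, hj⟩ := hj
    have h1 : ∀ i : IX N, (∑ j : Fin n, (slot σ j).indicator (fun _ =>
        mm g l q σ N i j * (chi q (p.1 - pt q i.2.1) + chi q (p.1 - pt q i.2.1 - hh l i.1))) p.2) ≤
        (fun (a : Fin 2 × Bool) (c : ℤ × ℤ) => (σ * M / l) * (q ^ 2 * chi q (p.1 - pt q c)) +
          (σ * M / l) * (q ^ 2 * chi q (p.1 - hh l a - pt q c))) i.1 i.2.1 := by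
      intro i
      rw [slot_sum hσ _ hj]
      have h2 := mm_le h.hM hl hσ (q := q) N i j
      have h3 := chi_nonneg hq (p.1 - pt q i.2.1)
      have h4 := chi_nonneg hq (p.1 - pt q i.2.1 - hh l i.1)
      have e1 : p.1 - hh l i.1 - pt q i.2.1 = p.1 - pt q i.2.1 - hh l i.1 := by abel
      simp only [e1]
      calc mm g l q σ N i j * (chi q (p.1 - pt q i.2.1) + chi q (p.1 - pt q i.2.1 - hh l i.1))
          ≤ (σ * M * q ^ 2 / l) * (chi q (p.1 - pt q i.2.1) +
              chi q (p.1 - pt q i.2.1 - hh l i.1)) := by gcongr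
        _ = _ := by ring
    refine (Finset.sum_le_sum fun i _ => h1 i).trans ?_
    refine (sum_IX N (fun (a : Fin 2 × Bool) (c : ℤ × ℤ) =>
      (σ * M / l) * (q ^ 2 * chi q (p.1 - pt q c)) +
          (σ * M / l) * (q ^ 2 * chi q (p.1 - hh l a - pt q c)))).le.trans ?_
    calc ∑ a : Fin 2 × Bool, ∑ c ∈ box (N a), ((σ * M / l) * (q ^ 2 * chi q (p.1 - pt q c)) +
          (σ * M / l) * (q ^ 2 * chi q (p.1 - hh l a - pt q c)))
        ≤ ∑ _a : Fin 2 × Bool, (σ * M / l) * 2 := by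
          refine Finset.sum_le_sum fun a _ => ?_
          have h5 := sum_chi_le hq (box (N a)) p.1
          have h6 := sum_chi_le hq (box (N a)) (p.1 - hh l a)
          have h7 : 0 ≤ σ * M / l := by positivity
          have h8 := mul_le_mul_of_nonneg_left h5 h7
          have h9 := mul_le_mul_of_nonneg_left h6 h7
          rw [Finset.mul_sum] at h8 h9
          rw [Finset.sum_add_distrib]
          linarith
      _ = 8 * σ * M / l := by
          simp
          ring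
  · push Not at hj
    have h1 : ∀ i : IX N, (∑ j : Fin n, (slot σ j).indicator (fun _ =>
        mm g l q σ N i j * (chi q (p.1 - pt q i.2.1) + chi q (p.1 - pt q i.2.1 - hh l i.1))) p.2) = 0 :=
      fun i => slot_sum_zero _ hj
    rw [Finset.sum_congr rfl fun i _ => h1 i, Finset.sum_const_zero]
    positivity

theorem Cfg.EB_far (h : Cfg g l q σ T R η M n N) {p : E × ℝ} (hx : R + 3 ≤ ‖p.1‖) :
    EB g l q σ n N p = 0 := by
  unfold EB
  refine Finset.sum_eq_zero fun i _ => Finset.sum_eq_zero fun j _ => ?_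
  have h1 : mm g l q σ N i j * (chi q (p.1 - pt q i.2.1) + chi q (p.1 - pt q i.2.1 - hh l i.1)) =
      0 := by
    by_cases h0 : vpart (g (pt q i.2.1, (j : ℕ) * σ)) i.1 = 0
    · unfold mm
      rw [h0]; simp
    · obtain ⟨h2, h3, -⟩ := h.far i.1 i.2.1 p.1 _ hx h0
      rw [h2, h3]; simp
  rw [h1]
  simp

theorem Cfg.C_sum (h : Cfg g l q σ T R η M n N) (ς : ℝ) :
    ∑ i : IX N, ∑ j : Fin n, 2 * mm g l q σ N i j * (5 * q + 2 * ς * ‖hh l i.1‖) =
      (∑ i : IX N, ∑ j : Fin n, mm g l q σ N i j * ‖hh l i.1‖) * (10 * q / l + 4 * ς) := by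
  rw [Finset.sum_mul]
  refine Finset.sum_congr rfl fun i _ => ?_
  rw [Finset.sum_mul]
  refine Finset.sum_congr rfl fun j _ => ?_
  rw [norm_hh h.hl]
  have := h.hl.ne'
  field_simp
  ring

end

end Asm

open Asm

theorem Asm.ofReal_aux {a b x d c U y z : ℝ} (ha : 0 ≤ a) (hb : 0 ≤ b) (hx : 0 ≤ x) (hd : 0 ≤ d)
    (hc : 0 ≤ c) (hU : 0 ≤ U) (hy : 0 ≤ y) (hz : 0 ≤ z) :
    ENNReal.ofReal a + ENNReal.ofReal b + 2 * ENNReal.ofReal x +
      ENNReal.ofReal d * ENNReal.ofReal c * (2 * ENNReal.ofReal U + 2 * ENNReal.ofReal y +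
        ENNReal.ofReal z) = ENNReal.ofReal (a + b + (2 * x + d * c * (2 * U + 2 * y + z))) := by
  have two : (2 : ℝ≥0∞) = ENNReal.ofReal 2 := by simp
  rw [two, ENNReal.ofReal_add (p := a + b) (by positivity) (by positivity),
    ENNReal.ofReal_add (p := a) ha hb, ENNReal.ofReal_add (p := 2 * x) (by positivity) (by positivity),
    ENNReal.ofReal_mul (p := d * c) (by positivity), ENNReal.ofReal_mul (p := d) hd,
    ENNReal.ofReal_add (p := 2 * U + 2 * y) (by positivity) hz,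
    ENNReal.ofReal_add (p := 2 * U) (by positivity) (by positivity),
    ENNReal.ofReal_mul (p := 2) (by norm_num), ENNReal.ofReal_mul (p := 2) (by norm_num),
    ENNReal.ofReal_mul (p := 2) (by norm_num)]
  ring

theorem stage_core {k : E → E} (hk : Ker k) {T : ℝ} (hT : 0 < T) {u₀ : E → ℝ}
    {u : E × ℝ → ℝ} {F : E × ℝ → E} (h : St k T u₀ u F) {ε : ℝ} (hε : 0 < ε) (hε1 : ε < 1) :
    ∃ (u' : E × ℝ → ℝ) (F' : E × ℝ → E), St k T u₀ u' F' ∧
      (∀ p, (1 - ε) * u p ≤ u' p) ∧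
      ∫⁻ p, ‖u' p - u p‖ₑ ≤ ENNReal.ofReal ε ∧
      ∫⁻ p, ‖F' p - F p‖ₑ ≤ 4 * (∫⁻ p, ‖D k u F p‖ₑ) + ENNReal.ofReal ε ∧
      ∫⁻ p, ‖D k u' F' p‖ₑ ≤ ENNReal.ofReal ε := by
  -- the defect
  have hDint : Integrable (D k u F) := h.intF.sub h.prod
  have hDout : ∀ p : E × ℝ, p.2 ∉ Ioo 0 T → D k u F p = 0 := by
    intro p hp
    simp [D, h.suppF p hp, h.suppu p hp]
  have hDfin : ∫⁻ p, ‖D k u F p‖ₑ < ⊤ := hDint.2
  have hUfin : ∫⁻ p, ‖u p‖ₑ < ⊤ := h.intu.2
  obtain ⟨Dn, hDn0, hDn⟩ : ∃ Dn : ℝ, 0 ≤ Dn ∧ ∫⁻ p, ‖D k u F p‖ₑ = ENNReal.ofReal Dn :=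
    ⟨_, ENNReal.toReal_nonneg, (ENNReal.ofReal_toReal hDfin.ne).symm⟩
  obtain ⟨U, hU0, hU⟩ : ∃ U : ℝ, 0 ≤ U ∧ ∫⁻ p, ‖u p‖ₑ = ENNReal.ofReal U :=
    ⟨_, ENNReal.toReal_nonneg, (ENNReal.ofReal_toReal hUfin.ne).symm⟩
  -- approximation by a continuous function
  have hη₁ : 0 < ε / 20 := by positivity
  obtain ⟨g, gc, gd, gcont, gint⟩ := hDint.exists_hasCompactSupport_lintegral_sub_le
    (ε := ENNReal.ofReal (ε / 20)) (by simpa using hη₁)
  obtain ⟨M, hM⟩ := gcont.bounded_above_of_compact_support gc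
  have hM0 : 0 ≤ M := (norm_nonneg _).trans (hM 0)
  have hgn : ∫ p, ‖g p‖ ≤ Dn + ε / 20 := by
    rw [integral_norm_eq_lintegral_enorm gint.aestronglyMeasurable]
    have h1 : ∫⁻ p, ‖g p‖ₑ ≤ ENNReal.ofReal (Dn + ε / 20) := by
      calc ∫⁻ p, ‖g p‖ₑ ≤ ∫⁻ p, (‖D k u F p‖ₑ + ‖D k u F p - g p‖ₑ) := by
            refine lintegral_mono fun p => ?_
            have : g p = D k u F p - (D k u F p - g p) := by abel
            calc ‖g p‖ₑ = ‖D k u F p - (D k u F p - g p)‖ₑ := by rw [← this]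
              _ ≤ _ := enorm_sub_le
        _ = (∫⁻ p, ‖D k u F p‖ₑ) + ∫⁻ p, ‖D k u F p - g p‖ₑ :=
            lintegral_add_left' hDint.aestronglyMeasurable.enorm _
        _ ≤ ENNReal.ofReal Dn + ENNReal.ofReal (ε / 20) := by rw [hDn]; gcongr
        _ = ENNReal.ofReal (Dn + ε / 20) := (ENNReal.ofReal_add hDn0 hη₁.le).symm
    exact ENNReal.toReal_le_of_le_ofReal (by positivity) h1
  -- supports
  choose Ra hRa0 hRa1 hRa2 using fun a => grid_support (compact_vpart gc a)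
  obtain ⟨a0, ha0⟩ := Finite.exists_max Ra
  obtain ⟨R, hR⟩ : ∃ R, R = Ra a0 := ⟨_, rfl⟩
  rw [← hR] at ha0
  have hR0 : 0 < R := by rw [hR]; exact hRa0 a0
  obtain ⟨W, hW⟩ : ∃ W, W = WW R T := ⟨_, rfl⟩
  have hW0 : 0 ≤ W := by rw [hW]; exact WW_nonneg R T
  obtain ⟨η, hη⟩ : ∃ η, η = ε / (80 * (W + 1)) := ⟨_, rfl⟩
  have hη0 : 0 < η := by rw [hη]; positivity
  have hηW : η * W ≤ ε / 80 := by
    rw [hη, div_mul_eq_mul_div, div_le_div_iff₀ (by positivity) (by norm_num)]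
    nlinarith
  choose δa hδa0 hδa using fun a => grid (continuous_vpart gcont a) (compact_vpart gc a) hη0
  obtain ⟨a1, ha1⟩ := Finite.exists_min δa
  obtain ⟨l, hl⟩ : ∃ l, l = min (δa a1) 1 := ⟨_, rfl⟩
  have hl0 : 0 < l := by rw [hl]; exact lt_min (hδa0 a1) one_pos
  have hl1 : l ≤ 1 := by rw [hl]; exact min_le_right _ _
  have hla : ∀ a, l ≤ δa a := fun a => by
    rw [hl]; exact (min_le_left _ _).trans (ha1 a)
  obtain ⟨L, hL⟩ : ∃ L, L = 2 * (Dn + ε / 20) + 4 * η * W := ⟨_, rfl⟩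
  have hL0 : 0 ≤ L := by rw [hL]; positivity
  obtain ⟨q, hq⟩ : ∃ q, q = min l (ε * l / (80 * (L + 1))) := ⟨_, rfl⟩
  have hq0 : 0 < q := by rw [hq]; exact lt_min hl0 (by positivity)
  have hql : q ≤ l := by rw [hq]; exact min_le_left _ _
  have hqL : L * (10 * q / l) ≤ ε / 8 := by
    have h1 : q ≤ ε * l / (80 * (L + 1)) := by rw [hq]; exact min_le_right _ _
    rw [le_div_iff₀ (by positivity)] at h1
    rw [← mul_div_assoc, div_le_div_iff₀ hl0 (by norm_num)]
    nlinarith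
  obtain ⟨ς, hς⟩ : ∃ ς, ς = min (1 / 4) (ε / (32 * (L + 1))) := ⟨_, rfl⟩
  have hς0 : 0 < ς := by rw [hς]; exact lt_min (by norm_num) (by positivity)
  have hς4 : ς ≤ 1 / 4 := by rw [hς]; exact min_le_left _ _
  have hςL : L * (4 * ς) ≤ ε / 8 := by
    have h1 : ς ≤ ε / (32 * (L + 1)) := by rw [hς]; exact min_le_right _ _
    rw [le_div_iff₀ (by positivity)] at h1
    nlinarith
  choose N hN using fun a => hδa a q hq0 (hql.trans (hla a))
  obtain ⟨R', hR'⟩ : ∃ R' : ℝ, ∀ i : IX N, ‖pt q i.2.1‖ + ‖hh l i.1‖ + 4 * q ≤ R' := by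
    obtain ⟨R', hR'⟩ := (Set.finite_range (fun i : IX N => ‖pt q i.2.1‖ + ‖hh l i.1‖ + 4 * q)).bddAbove
    exact ⟨R', fun i => hR' (Set.mem_range_self i)⟩
  obtain ⟨Cu, hCu, hCu'⟩ := exists_lintegral_Psi_le hk R'
  obtain ⟨P, hP0, hP⟩ : ∃ P : ℝ, 0 ≤ P ∧ Cu * (∫⁻ p, ‖u p‖ₑ) = ENNReal.ofReal P :=
    ⟨_, ENNReal.toReal_nonneg, (ENNReal.ofReal_toReal (ENNReal.mul_lt_top hCu hUfin).ne).symm⟩
  obtain ⟨C2, hC2, hC2'⟩ := exists_Psi_le hk (R + 3)
  obtain ⟨c2, hc20, hc2⟩ : ∃ c2 : ℝ, 0 ≤ c2 ∧ C2 = ENNReal.ofReal c2 :=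
    ⟨_, ENNReal.toReal_nonneg, (ENNReal.ofReal_toReal hC2.ne).symm⟩
  obtain ⟨c, hc, hlow⟩ := h.low (R + 3)
  -- choice of the time step
  have ev : ∀ᶠ σ : ℝ in nhds 0, σ < l ∧ 8 * σ * M / l < ε * c ∧
      2 * (σ * M / l * P) + 8 * σ * M / l * c2 * (2 * U + 2 * (σ * M * q ^ 2 / l * T) +
        8 * σ * M / l * W) < ε / 4 ∧
      8 * σ * M / l * W + σ * M * q ^ 2 / l * T < ε := by
    have t1 : Filter.Tendsto (fun σ : ℝ => 8 * σ * M / l) (nhds 0) (nhds 0) :=
      Continuous.tendsto' (by fun_prop) 0 0 (by simp)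
    have t2 : Filter.Tendsto (fun σ : ℝ => 2 * (σ * M / l * P) + 8 * σ * M / l * c2 *
        (2 * U + 2 * (σ * M * q ^ 2 / l * T) + 8 * σ * M / l * W)) (nhds 0) (nhds 0) :=
      Continuous.tendsto' (by fun_prop) 0 0 (by simp)
    have t3 : Filter.Tendsto (fun σ : ℝ => 8 * σ * M / l * W + σ * M * q ^ 2 / l * T)
        (nhds 0) (nhds 0) :=
      Continuous.tendsto' (by fun_prop) 0 0 (by simp)
    filter_upwards [eventually_lt_nhds hl0, t1.eventually_lt_const (by positivity : 0 < ε * c),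
      t2.eventually_lt_const (by positivity : 0 < ε / 4), t3.eventually_lt_const hε]
      with σ h1 h2 h3 h4
    exact ⟨h1, h2, h3, h4⟩
  have hlim : Filter.Tendsto (fun n : ℕ => T / n) Filter.atTop (nhds 0) :=
    tendsto_const_div_atTop_nhds_zero_nat T
  obtain ⟨n, ⟨hσl, hs1, hs2, hs3⟩, hn0⟩ :=
    ((hlim.eventually ev).and (Filter.eventually_gt_atTop 0)).exists
  obtain ⟨σ, hσ⟩ : ∃ σ, σ = T / n := ⟨_, rfl⟩
  rw [← hσ] at hσl hs1 hs2 hs3
  have hn0' : (0 : ℝ) < n := by exact_mod_cast hn0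
  have hσ0 : 0 < σ := by rw [hσ]; positivity
  have hnσ : n * σ = T := by rw [hσ]; field_simp
  -- the configuration
  have cfg : Cfg g l q σ T R η M n N := by
    refine ⟨hl0, hq0, hσ0, hnσ, hT, hR0, hη0.le, hM, ?_, ?_, ?_⟩
    · intro p hp
      rw [← sum_vpart_dir (g p)]
      refine Finset.sum_eq_zero fun a _ => ?_
      have := hRa1 a p ((ha0 a).trans hp)
      rw [this, zero_smul]
    · intro a c x s hx hne
      exact hRa2 a q hq0 (hql.trans hl1) (hh l a) (by rw [norm_hh hl0]; exact hl1) c x s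
        (by linarith [ha0 a]) hne
    · intro a x s t hst
      exact hN a (hh l a) (by rw [norm_hh hl0]; exact hla a) x s t
        (hst.trans (hσl.le.trans (hla a)))
  have hμ0 : 0 ≤ σ * M * q ^ 2 / l := by positivity
  have hδ0 : 0 ≤ 8 * σ * M / l := by positivity
  -- the events
  obtain ⟨e, b, C, me, mb, mC, he, b0, hout, Ib, Ibb, IC, IbP, hweak⟩ :=
    multi hk hT hn0 hnσ (z := fun i : IX N => pt q i.2.1) (h := fun i => hh l i.1) hq0 hς0 hς4
      (m := mm g l q σ N) (fun i j => mm_nonneg g hl0 hσ0 N i j)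
      (fun i j => mm_le hM hl0 hσ0 N i j) hR' (Psi_measurable hk h.measu)
  have he1 : ∀ p, |e p| ≤ 8 * σ * M / l := fun p => (he p).trans (cfg.EB_le p)
  have he2 : ∀ p : E × ℝ, R + 3 ≤ ‖p.1‖ → e p = 0 := by
    intro p hp
    have h1 : |e p| ≤ 0 := (he p).trans (cfg.EB_far hp).le
    exact abs_nonpos_iff.1 h1
  have hmass : ∑ i : IX N, ∑ j : Fin n, mm g l q σ N i j * ‖hh l i.1‖ ≤ L := by
    refine (cfg.mass_le gint).trans ?_
    rw [hL, ← hW]
    linarith
  have hmass0 : 0 ≤ ∑ i : IX N, ∑ j : Fin n, mm g l q σ N i j * ‖hh l i.1‖ :=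
    Finset.sum_nonneg fun i _ => Finset.sum_nonneg fun j _ =>
      mul_nonneg (mm_nonneg g hl0 hσ0 N i j) (norm_nonneg _)
  have Ibb' : ∫⁻ p, ‖b p • G k b p‖ₑ ≤ ENNReal.ofReal L := Ibb.trans (ENNReal.ofReal_le_ofReal hmass)
  have IC' : ∫⁻ p, ‖C p‖ₑ ≤ ENNReal.ofReal (ε / 4) := by
    refine IC.trans (ENNReal.ofReal_le_ofReal ?_)
    rw [cfg.C_sum]
    have h1 : 0 ≤ 10 * q / l + 4 * ς := by positivity
    refine (mul_le_mul_of_nonneg_right hmass h1).trans ?_
    rw [mul_add]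
    linarith
  have IbP' : ∫⁻ p, ‖b p‖ₑ * Psi k u p ≤ ENNReal.ofReal (σ * M / l * P) := by
    refine IbP.trans ?_
    have h1 : σ * M * q ^ 2 / l / q ^ 2 = σ * M / l := by field_simp
    rw [h1, ENNReal.ofReal_mul (by positivity), ← hP]
    gcongr
    exact hCu' u h.measu _ measurableSet_Ioo
  have Ie : ∫⁻ p, ‖e p‖ₑ ≤ ENNReal.ofReal (8 * σ * M / l * W) := by
    have h1 : ∀ p, ‖e p‖ₑ ≤ (Rg R T).indicator (fun _ => ENNReal.ofReal (8 * σ * M / l)) p := by
      intro p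
      by_cases hp : p ∈ Rg R T
      · rw [indicator_of_mem hp, ← ofReal_norm, Real.norm_eq_abs]
        exact ENNReal.ofReal_le_ofReal (he1 p)
      · rw [indicator_of_notMem hp]
        have h2 : e p = 0 := by
          by_cases hp2 : p.2 ∈ Ioo 0 T
          · apply he2
            by_contra h3
            push Not at h3
            apply hp
            refine ⟨?_, hp2⟩
            rw [mem_closedBall_zero_iff]
            exact h3.le
          · exact (hout p hp2).1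
        rw [h2]; simp
    refine (lintegral_mono h1).trans ?_
    rw [lintegral_indicator (measurableSet_Rg R T), lintegral_const, Measure.restrict_apply_univ,
      ENNReal.ofReal_mul hδ0, hW, ofReal_WW]
  have IK : ∫⁻ p, ‖D k u F p + KF g l q σ n N p‖ₑ ≤ ENNReal.ofReal (ε / 10) := by
    refine (cfg.lint_KK hDout hη₁.le gd).trans (ENNReal.ofReal_le_ofReal ?_)
    rw [← hW]
    linarith
  have mK : Measurable (KF g l q σ n N) := measurable_KK n q σ _ _ _
  have IK2 : ∫⁻ p, ‖KF g l q σ n N p‖ₑ ≤ ENNReal.ofReal (ε / 10) + ENNReal.ofReal Dn := by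
    calc ∫⁻ p, ‖KF g l q σ n N p‖ₑ
        ≤ ∫⁻ p, (‖D k u F p + KF g l q σ n N p‖ₑ + ‖D k u F p‖ₑ) := by
          refine lintegral_mono fun p => ?_
          have : KF g l q σ n N p = (D k u F p + KF g l q σ n N p) - D k u F p := by abel
          calc ‖KF g l q σ n N p‖ₑ = ‖(D k u F p + KF g l q σ n N p) - D k u F p‖ₑ := by
                rw [← this]
            _ ≤ _ := enorm_sub_le
      _ = (∫⁻ p, ‖D k u F p + KF g l q σ n N p‖ₑ) + ∫⁻ p, ‖D k u F p‖ₑ :=
          lintegral_add_right' _ hDint.aestronglyMeasurable.enorm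
      _ ≤ _ := by rw [hDn]; gcongr
  -- the perturbation
  have pert : Pert k T (R + 3) (8 * σ * M / l) e b C (KF g l q σ n N) := by
    refine ⟨me, mb, mC, mK, ?_, fun p hp => he2 p hp.le, he1, b0, ?_, ?_, ?_, ?_, hweak⟩
    · intro p hp
      obtain ⟨h1, h2, h3⟩ := hout p hp
      exact ⟨h1, h2, h3, cfg.KK_out hp⟩
    · exact Ib.trans_lt ENNReal.ofReal_lt_top
    · exact Ibb'.trans_lt ENNReal.ofReal_lt_top
    · exact IC'.trans_lt ENNReal.ofReal_lt_top
    · exact IK2.trans_lt (ENNReal.add_lt_top.2 ⟨ENNReal.ofReal_lt_top, ENNReal.ofReal_lt_top⟩)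
  have hPe : ∀ p, Psi k e p ≤ ENNReal.ofReal (8 * σ * M / l) * C2 := by
    apply hC2' e
    · intro p
      rw [← ofReal_norm, Real.norm_eq_abs]
      exact ENNReal.ofReal_le_ofReal (he1 p)
    · exact fun p hp => he2 p hp.le
  obtain ⟨hSt, hlo, hdef⟩ := combine hk hT h hδ0 hε hε1 pert
    (fun p hp1 hp2 => by
      have h1 := hlow p hp1 hp2
      nlinarith)
    (IbP'.trans_lt ENNReal.ofReal_lt_top)
    (ENNReal.mul_lt_top ENNReal.ofReal_lt_top hC2) hPe
  refine ⟨_, _, hSt, hlo, ?_, ?_, ?_⟩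
  · -- the density
    calc ∫⁻ p, ‖u p + e p + b p - u p‖ₑ ≤ ∫⁻ p, (‖e p‖ₑ + ‖b p‖ₑ) := by
          refine lintegral_mono fun p => ?_
          have : u p + e p + b p - u p = e p + b p := by ring
          rw [this]
          exact enorm_add_le _ _
      _ = (∫⁻ p, ‖e p‖ₑ) + ∫⁻ p, ‖b p‖ₑ := lintegral_add_left me.enorm _
      _ ≤ ENNReal.ofReal (8 * σ * M / l * W) + ENNReal.ofReal (σ * M * q ^ 2 / l * T) := by
          gcongr
      _ = ENNReal.ofReal (8 * σ * M / l * W + σ * M * q ^ 2 / l * T) :=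
          (ENNReal.ofReal_add (by positivity) (by positivity)).symm
      _ ≤ ENNReal.ofReal ε := ENNReal.ofReal_le_ofReal hs3.le
  · -- the flux
    calc ∫⁻ p, ‖F p + (b p • G k b p - C p + KF g l q σ n N p) - F p‖ₑ
        ≤ ∫⁻ p, ((‖b p • G k b p‖ₑ + ‖C p‖ₑ) + ‖KF g l q σ n N p‖ₑ) := by
          refine lintegral_mono fun p => ?_
          have : F p + (b p • G k b p - C p + KF g l q σ n N p) - F p =
            b p • G k b p - C p + KF g l q σ n N p := by abel
          rw [this]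
          refine (enorm_add_le _ _).trans ?_
          gcongr
          exact enorm_sub_le
      _ = ((∫⁻ p, ‖b p • G k b p‖ₑ) + ∫⁻ p, ‖C p‖ₑ) + ∫⁻ p, ‖KF g l q σ n N p‖ₑ := by
          rw [lintegral_add_right _ mK.enorm, lintegral_add_right _ mC.enorm]
      _ ≤ (ENNReal.ofReal L + ENNReal.ofReal (ε / 4)) +
            (ENNReal.ofReal (ε / 10) + ENNReal.ofReal Dn) := by gcongr
      _ = ENNReal.ofReal (L + ε / 4 + (ε / 10 + Dn)) := by
          rw [ENNReal.ofReal_add (by positivity) (by positivity),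
            ENNReal.ofReal_add (p := L) (by positivity) (by positivity),
            ENNReal.ofReal_add (p := ε / 10) (by positivity) (by positivity)]
      _ ≤ ENNReal.ofReal (4 * Dn + ε) := by
          apply ENNReal.ofReal_le_ofReal
          rw [hL]
          linarith
      _ = 4 * (∫⁻ p, ‖D k u F p‖ₑ) + ENNReal.ofReal ε := by
          rw [hDn, ENNReal.ofReal_add (by positivity) hε.le, ENNReal.ofReal_mul (by norm_num)]
          simp
  · -- the defect
    refine hdef.trans ?_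
    rw [hU]
    calc _ ≤ ENNReal.ofReal (ε / 10) + ENNReal.ofReal (ε / 4) +
          2 * ENNReal.ofReal (σ * M / l * P) +
          ENNReal.ofReal (8 * σ * M / l) * ENNReal.ofReal c2 * (2 * ENNReal.ofReal U +
            2 * ENNReal.ofReal (σ * M * q ^ 2 / l * T) + ENNReal.ofReal (8 * σ * M / l * W)) := by
          rw [hc2]
          gcongr
      _ = ENNReal.ofReal (ε / 10 + ε / 4 + (2 * (σ * M / l * P) + 8 * σ * M / l * c2 *
            (2 * U + 2 * (σ * M * q ^ 2 / l * T) + 8 * σ * M / l * W))) := by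
          exact ofReal_aux (by positivity) (by positivity) (by positivity) hδ0 hc20 hU0
            (by positivity) (by positivity)
      _ ≤ ENNReal.ofReal ε := by
          apply ENNReal.ofReal_le_ofReal
          linarith

/-- MODULE ASSEMBLY -/
theorem stage {k : E → E} (hk : Ker k) {T : ℝ} (hT : 0 < T) {u₀ : E → ℝ} :
    StageStmt k T u₀ := by
  intro u F h ε0 hε0
  have hε : 0 < min ε0 (1 / 2) := lt_min hε0 (by norm_num)
  obtain ⟨u', F', h1, h2, h3, h4, h5⟩ := stage_core hk hT h hε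
    (lt_of_le_of_lt (min_le_right _ _) (by norm_num))
  have hle : ENNReal.ofReal (min ε0 (1 / 2)) ≤ ENNReal.ofReal ε0 :=
    ENNReal.ofReal_le_ofReal (min_le_left _ _)
  refine ⟨u', F', h1, Filter.Eventually.of_forall fun p => ?_, h3.trans hle,
    h4.trans (by gcongr), h5.trans hle⟩
  refine le_trans ?_ (h2 p)
  have h6 := h.nonneg p
  have h7 := min_le_left ε0 (1 / 2 : ℝ)
  nlinarith

end Pool.Agent.H59.NPM
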